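import Mathlib
import Pool.Agent.Lib.MP_8f946f_al.Main

/-!
# Locally soluble-by-finite varieties: definitions

In all the modules integral polynomials `f ∈ ℤ[X]` are evaluated at operators and at elements of
fields of characteristic `p` (so only their reduction modulo `p` matters, but there is no need of
algebra structures over `ZMod p`), and the condition of not being algebraic over the prime field is expressed by
`¬ IsIntegral ℤ μ`.
-/

set_option autoImplicit false

namespace Pool.Agent.Lib.MP_8f946f_al.Sol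

open Polynomial

/-- The variety defined by `Γ` is locally soluble-by-finite: each of its finitely generated
algebras has a soluble ideal of finite codimension. -/
def LocallySolubleByFinite {F : Type} [Field F] (Γ : Set (FreeLieAlgebra F ℕ)) : Prop :=
  ∀ (L : Type) [LieRing L] [LieAlgebra F L], Satisfies Γ L → IsFG F L →
    ∃ (S : LieIdeal F L) (d : ℕ), FiniteDimensional F (L ⧸ S) ∧
      LieAlgebra.derivedSeriesOfIdeal F L d S = ⊥

/-! ### operators in associative algebras -/

section assoc

variable (R : Type) [CommRing R] {E : Type} [Ring E] [Algebra R E]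

/-- the derivation `y ↦ x y - y x` -/
noncomputable def Dx (x : E) : E →ₗ[R] E := LinearMap.mulLeft R x - LinearMap.mulRight R x

variable {R}

/-- `∑ a x^u (D^{i_1} b) ⋯ (D^{i_l} b)` -/
noncomputable def rhs (W : List (R × ℕ × List ℕ)) (x b : E) : E :=
  (W.map fun t => t.1 • (x ^ t.2.1 * (t.2.2.map fun i => ((Dx R x) ^ i) b).prod)).sum

/-- `D^k b - ∑_{j<k} c_j(x) D^j b = ∑ a x^u (D^{i_1} b) ⋯ (D^{i_l} b)`, where `D b = x b - b x` -/
def OpRel (k : ℕ) (c : ℕ → R[X]) (W : List (R × ℕ × List ℕ)) (x b : E) : Prop :=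
  ((Dx R x) ^ k) b - ∑ j ∈ Finset.range k, aeval x (c j) * ((Dx R x) ^ j) b = rhs W x b

/-- all the products have at least two factors -/
def Two (W : List (R × ℕ × List ℕ)) : Prop := ∀ t ∈ W, 2 ≤ t.2.2.length

end assoc

/-! ### differential polynomials -/

section diff

variable (K : Type) [Field K]

/-- the differential polynomial `X_k - ∑_{j<k} h_j X_j - ∑ a X_{i_1} ⋯ X_{i_l}` -/
noncomputable def rho (k : ℕ) (h : ℕ → K) (W : List (K × List ℕ)) : MvPolynomial ℕ K :=
  MvPolynomial.X k - ∑ j ∈ Finset.range k, MvPolynomial.C (h j) * MvPolynomial.X j -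
    (W.map fun t => MvPolynomial.C t.1 * (t.2.map MvPolynomial.X).prod).sum

/-- the derivation `X_i ↦ X_{i+1}` -/
noncomputable def dX : Derivation K (MvPolynomial ℕ K) (MvPolynomial ℕ K) :=
  MvPolynomial.mkDerivation K fun i => MvPolynomial.X (i + 1)

variable {K}

/-- `(q(S) u)_n = ∑_j q_j u_{n+j}` -/
noncomputable def sq (q : ℤ[X]) (u : ℕ → K) (n : ℕ) : K := q.sum fun j a => (a : K) * u (n + j)

end diff

/-! ### Lie modules -/

/-- the submodules `M`, `⁅B, M⁆`, `⁅B, ⁅B, M⁆⁆`, … -/
def itm {F : Type} [Field F] {L : Type} [LieRing L] [LieAlgebra F L] {M : Type} [AddCommGroup M]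
    [Module F M] [LieRingModule L M] [LieModule F L M] (B : LieIdeal F L) :
    ℕ → LieSubmodule F L M
  | 0 => ⊤
  | i + 1 => ⁅B, itm B i⁆

end Pool.Agent.Lib.MP_8f946f_al.Sol
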