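import Pool.Agent.Lib.MP_8f946f_al.Sol.Spec
import Pool.Agent.Lib.MP_8f946f_al.Sol.Defs
import Pool.Agent.Lib.MP_8f946f_al.Main

section
/-!
# Common lemmas on `Dx`, `OpRel`
-/
set_option autoImplicit false

namespace Pool.Agent.Lib.MP_8f946f_al.Sol.BasM

open Polynomial Finset

section

variable {R : Type} [CommRing R] {E : Type} [Ring E] [Algebra R E]

theorem Dx_apply (x y : E) : Dx R x y = x * y - y * x := by
  unfold Dx
  simp

/-- `Dx x` is a derivation -/
theorem Dx_mul (x a b : E) : Dx R x (a * b) = Dx R x a * b + a * Dx R x b := by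
  simp only [Dx_apply]
  noncomm_ring

theorem Dx_of_comm {x y : E} (h : x * y = y * x) : Dx R x y = 0 := by
  rw [Dx_apply, h, sub_self]

theorem Dx_self (x : E) : Dx R x x = 0 := Dx_of_comm rfl

theorem Dx_pow_self (x : E) (n : ℕ) : Dx R x (x ^ n) = 0 :=
  Dx_of_comm (by rw [← pow_succ, ← pow_succ'])

theorem Dx_aeval_self (x : E) (f : R[X]) : Dx R x (aeval x f) = 0 := by
  refine Dx_of_comm ?_
  have h := (Commute.all (X : R[X]) f).map (aeval x)
  rw [aeval_X] at h
  exact h

theorem Dx_left_comm (x a b : E) (h : Dx R x a = 0) (n : ℕ) :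
    ((Dx R x) ^ n) (a * b) = a * ((Dx R x) ^ n) b := by
  induction n with
  | zero => rfl
  | succ n ih =>
    rw [pow_succ', Module.End.mul_apply, ih, Dx_mul, h, zero_mul, zero_add, Module.End.mul_apply]

/-- in characteristic `p`, `(Dx x)^(p^s) = Dx (x^(p^s))` -/
theorem Dx_pow_char (p : ℕ) [Fact p.Prime] [CharP R p] (x : E) (s : ℕ) :
    (Dx R x) ^ p ^ s = Dx R (x ^ p ^ s) := by
  have hp : ((p : ℕ) : Module.End R E) = 0 := by
    ext y
    rw [Module.End.natCast_apply, LinearMap.zero_apply, ← Nat.cast_smul_eq_nsmul R, CharP.cast_eq_zero,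
      zero_smul]
  have hc : Commute (LinearMap.mulLeft R x : Module.End R E) (LinearMap.mulRight R x) := by
    ext y
    simp [mul_assoc]
  rcases subsingleton_or_nontrivial (Module.End R E) with h | h
  · exact Subsingleton.elim _ _
  · have hE : CharP (Module.End R E) p := by
      obtain ⟨q, hq⟩ := CharP.exists (Module.End R E)
      have hdvd : q ∣ p := (CharP.cast_eq_zero_iff (Module.End R E) q p).1 hp
      rcases (Nat.dvd_prime (Fact.out : p.Prime)).1 hdvd with h1 | h1
      · subst h1
        exact absurd (CharP.CharOne.subsingleton (R := Module.End R E)) (not_subsingleton _)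
      · rwa [h1] at hq
    have h1 := sub_pow_char_pow_of_commute p s hc
    unfold Dx
    rw [h1, LinearMap.pow_mulLeft, LinearMap.pow_mulRight]

/-! ### morphisms -/

variable {E' : Type} [Ring E'] [Algebra R E']

theorem map_Dx (f : E →ₐ[R] E') (x y : E) : f (Dx R x y) = Dx R (f x) (f y) := by
  simp [Dx_apply]

theorem map_Dx_pow (f : E →ₐ[R] E') (x y : E) (n : ℕ) :
    f (((Dx R x) ^ n) y) = ((Dx R (f x)) ^ n) (f y) := by
  induction n with
  | zero => rfl
  | succ n ih => rw [pow_succ', Module.End.mul_apply, map_Dx, ih, pow_succ', Module.End.mul_apply]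

theorem map_rhs (f : E →ₐ[R] E') (W : List (R × ℕ × List ℕ)) (x b : E) :
    f (rhs W x b) = rhs W (f x) (f b) := by
  unfold rhs
  rw [map_list_sum, List.map_map]
  congr 1
  refine List.map_congr_left fun t _ => ?_
  simp only [Function.comp_apply]
  rw [map_smul, map_mul, map_pow, map_list_prod, List.map_map]
  congr 2
  simp only [Function.comp_def, map_Dx_pow]

theorem OpRel.map (f : E →ₐ[R] E') {k : ℕ} {c : ℕ → R[X]} {W : List (R × ℕ × List ℕ)} {x b : E}
    (h : OpRel k c W x b) : OpRel k c W (f x) (f b) := by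
  unfold OpRel at h ⊢
  rw [← map_rhs, ← h, map_sub, map_sum, map_Dx_pow]
  congr 1
  refine Finset.sum_congr rfl fun j _ => ?_
  rw [map_mul, map_Dx_pow, aeval_algHom_apply]

theorem OpRel.of_map (f : E →ₐ[R] E') (hf : Function.Injective f) {k : ℕ} {c : ℕ → R[X]}
    {W : List (R × ℕ × List ℕ)} {x b : E} (h : OpRel k c W (f x) (f b)) : OpRel k c W x b := by
  unfold OpRel at h ⊢
  apply hf
  rw [map_rhs, ← h, map_sub, map_sum, map_Dx_pow]
  congr 1
  refine Finset.sum_congr rfl fun j _ => ?_
  rw [map_mul, map_Dx_pow, aeval_algHom_apply]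

/-- integral polynomials in `Dx x` -/
theorem map_aeval_Dx (f : E →ₐ[R] E') (x y : E) (q : ℤ[X]) :
    f (aeval (Dx R x) q y) = aeval (Dx R (f x)) q (f y) := by
  induction q using Polynomial.induction_on' with
  | add p q hp hq => simp [hp, hq]
  | monomial n a =>
    rw [aeval_monomial, aeval_monomial, Module.End.mul_apply, Module.End.mul_apply]
    simp only [eq_intCast, Module.End.intCast_apply, map_zsmul, map_Dx_pow]

/-- stability under integral polynomials -/
theorem aeval_mem {A : Type} [AddCommGroup A] [Module R A] (D : Module.End R A) (V : AddSubgroup A)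
    (hV : ∀ v ∈ V, D v ∈ V) (q : ℤ[X]) {v : A} (hv : v ∈ V) : aeval D q v ∈ V := by
  have hpow : ∀ n : ℕ, ∀ v ∈ V, (D ^ n) v ∈ V := by
    intro n
    induction n with
    | zero => exact fun v hv => hv
    | succ n ih =>
      intro v hv
      rw [pow_succ', Module.End.mul_apply]
      exact hV _ (ih v hv)
  induction q using Polynomial.induction_on' with
  | add p q hp hq => rw [map_add, LinearMap.add_apply]; exact V.add_mem hp hq
  | monomial n a =>
    rw [aeval_monomial, Module.End.mul_apply]
    simp only [eq_intCast, Module.End.intCast_apply]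
    exact V.zsmul_mem (hpow n v hv) a

/-- the action of an integral polynomial on an eigenvector -/
theorem aeval_eigen {A : Type} [AddCommGroup A] [Module R A] (D : Module.End R A) {v : A} {μ : R}
    (h : D v = μ • v) (q : ℤ[X]) : aeval D q v = aeval μ q • v := by
  have hpow : ∀ n : ℕ, (D ^ n) v = μ ^ n • v := by
    intro n
    induction n with
    | zero => simp
    | succ n ih => rw [pow_succ', Module.End.mul_apply, ih, map_smul, h, smul_smul, pow_succ]
  induction q using Polynomial.induction_on' with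
  | add p q hp hq => rw [map_add, LinearMap.add_apply, hp, hq, map_add, add_smul]
  | monomial n a =>
    rw [aeval_monomial, aeval_monomial, Module.End.mul_apply, hpow]
    simp only [eq_intCast, Module.End.intCast_apply]
    rw [mul_smul, Int.cast_smul_eq_zsmul]

end

end Pool.Agent.Lib.MP_8f946f_al.Sol.BasM
end

section
/-!
CASE: matrices over a field, from the simple case over an algebraically closed field.
-/
set_option autoImplicit false

namespace Pool.Agent.Lib.MP_8f946f_al.Sol

open Polynomial Finset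

namespace CaseM

open BasM

section semi

variable {R R' : Type} [CommRing R] [CommRing R'] {E E' : Type} [Ring E] [Algebra R E] [Ring E']
  [Algebra R' E']

theorem map_Dx_pow' (f : E →+* E') (x : E) (n : ℕ) (y : E) :
    f (((Dx R x) ^ n) y) = ((Dx R' (f x)) ^ n) (f y) := by
  induction n with
  | zero => rfl
  | succ n ih =>
    rw [pow_succ', Module.End.mul_apply, pow_succ', Module.End.mul_apply, ← ih, Dx_apply, Dx_apply,
      map_sub, map_mul, map_mul]

theorem map_aeval' (f : E →+* E') (σ : R →+* R') (hf : ∀ (r : R) (e : E), f (r • e) = σ r • f e)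
    (x : E) (q : R[X]) : f (aeval x q) = aeval (f x) (q.map σ) := by
  induction q using Polynomial.induction_on' with
  | add p q hp hq => rw [map_add, map_add, Polynomial.map_add, map_add, hp, hq]
  | monomial n a =>
    rw [aeval_monomial, map_monomial, aeval_monomial, map_mul, map_pow, Algebra.algebraMap_eq_smul_one,
      hf, map_one, Algebra.algebraMap_eq_smul_one]

theorem opRel_map' (f : E →+* E') (σ : R →+* R') (hf : ∀ (r : R) (e : E), f (r • e) = σ r • f e)
    {k : ℕ} {c : ℕ → R[X]} {W : List (R × ℕ × List ℕ)} {x b : E} (h : OpRel k c W x b) :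
    OpRel k (fun j => (c j).map σ) (W.map fun t => (σ t.1, t.2)) (f x) (f b) := by
  have hr : f (rhs W x b) = rhs (W.map fun t => (σ t.1, t.2)) (f x) (f b) := by
    unfold rhs
    rw [map_list_sum, List.map_map, List.map_map]
    congr 1
    refine List.map_congr_left fun t _ => ?_
    simp only [Function.comp_apply]
    rw [hf, map_mul, map_pow, map_list_prod, List.map_map]
    congr 3
    refine List.map_congr_left fun i _ => ?_
    simp only [Function.comp_apply]
    exact map_Dx_pow' f x i b
  unfold OpRel at h ⊢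
  rw [← hr, ← h, map_sub, map_sum, map_Dx_pow' (R' := R') f]
  congr 1
  refine Finset.sum_congr rfl fun j _ => ?_
  rw [map_mul, map_Dx_pow' (R' := R') f, map_aeval' f σ hf]

theorem map_aeval_Dx' (f : E →+* E') (x y : E) (q : ℤ[X]) :
    f (aeval (Dx R x) q y) = aeval (Dx R' (f x)) q (f y) := by
  induction q using Polynomial.induction_on' with
  | add p q hp hq => simp [hp, hq]
  | monomial n a =>
    rw [aeval_monomial, aeval_monomial, Module.End.mul_apply, Module.End.mul_apply]
    simp only [eq_intCast, Module.End.intCast_apply, map_zsmul, map_Dx_pow' (R' := R') f]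

end semi

section stab

variable {K M : Type} [Field K] [AddCommGroup M] [Module K M]

/-- the endomorphisms which stabilise a subspace -/
def stab (U : Submodule K M) : Subalgebra K (Module.End K M) where
  carrier := {f | ∀ m ∈ U, f m ∈ U}
  mul_mem' := fun {a b} ha hb m hm => ha _ (hb m hm)
  add_mem' := fun {a b} ha hb m hm => U.add_mem (ha m hm) (hb m hm)
  algebraMap_mem' := fun r m hm => by
    rw [Module.algebraMap_end_apply]
    exact U.smul_mem r hm

/-- restriction -/
noncomputable def res (U : Submodule K M) : stab U →ₐ[K] Module.End K U where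
  toFun := fun f => f.1.restrict f.2
  map_one' := rfl
  map_mul' := fun _ _ => rfl
  map_zero' := rfl
  map_add' := fun _ _ => rfl
  commutes' := fun _ => rfl

theorem res_apply (U : Submodule K M) (f : stab U) (m : U) : ((res U f) m : M) = f.1 m := rfl

end stab

end CaseM

open CaseM BasM in
/-- Module CASE -/
theorem specCase (hS : SpecCaseS) : SpecCase := by
  intro F _ _ p _ _ K _ _ n k c W hW X V hVc hVX hVp hOp
  rcases Nat.eq_zero_or_pos n with h0 | h0
  · subst h0
    refine ⟨1, monic_one, fun v _ => ?_⟩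
    exact Subsingleton.elim _ _
  have hKp : CharP K p := charP_of_injective_algebraMap (algebraMap F K).injective p
  let Kb := AlgebraicClosure K
  have hKbp : CharP Kb p := charP_of_injective_algebraMap (algebraMap K Kb).injective p
  let M := Fin n → Kb
  let Φ : Matrix (Fin n) (Fin n) K →+* Module.End Kb M :=
    ((Matrix.toLinAlgEquiv' : Matrix (Fin n) (Fin n) Kb ≃ₐ[Kb] Module.End Kb M) :
      Matrix (Fin n) (Fin n) Kb →+* Module.End Kb M).comp
      (RingHom.mapMatrix (algebraMap K Kb))
  have hΦs : ∀ (r : K) (e : Matrix (Fin n) (Fin n) K), Φ (r • e) = algebraMap K Kb r • Φ e := by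
    intro r e
    have h1 : (RingHom.mapMatrix (algebraMap K Kb)) (r • e) =
        algebraMap K Kb r • (RingHom.mapMatrix (algebraMap K Kb)) e := by
      ext i j
      simp
    change (Matrix.toLinAlgEquiv' : Matrix (Fin n) (Fin n) Kb ≃ₐ[Kb] Module.End Kb M)
      ((RingHom.mapMatrix (algebraMap K Kb)) (r • e)) = _
    rw [h1, map_smul]
    rfl
  have hΦF : ∀ (r : F) (e : Matrix (Fin n) (Fin n) K),
      Φ (r • e) = (algebraMap F Kb) r • Φ e := by
    intro r e
    rw [← algebraMap_smul K r e, hΦs, ← IsScalarTower.algebraMap_apply]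
  -- minimal stable subspace
  let Sx : Set (Submodule Kb M) := {U | U ≠ ⊥ ∧ (∀ m ∈ U, Φ X m ∈ U) ∧
    ∀ v ∈ V, ∀ m ∈ U, Φ v m ∈ U}
  have hne : Nonempty (Fin n) := ⟨⟨0, h0⟩⟩
  have hM : Nontrivial M := inferInstanceAs (Nontrivial (Fin n → Kb))
  have hSx : Sx.Nonempty := ⟨⊤, top_ne_bot, fun _ _ => Submodule.mem_top,
    fun _ _ _ _ => Submodule.mem_top⟩
  obtain ⟨U, ⟨hU0, hUX, hUV⟩, hUmin⟩ := wellFounded_lt.has_min Sx hSx
  let Xs : stab U := ⟨Φ X, hUX⟩
  let V1 : AddSubgroup (Module.End Kb U) :=
    { carrier := {g | ∃ v, ∃ hv : v ∈ V, g = res U ⟨Φ v, hUV v hv⟩}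
      zero_mem' := by
        refine ⟨0, V.zero_mem, ?_⟩
        rw [← map_zero (res U)]
        congr 1
        exact Subtype.ext (map_zero Φ).symm
      add_mem' := by
        rintro _ _ ⟨v, hv, rfl⟩ ⟨w, hw, rfl⟩
        refine ⟨v + w, V.add_mem hv hw, ?_⟩
        rw [← map_add]
        congr 1
        exact Subtype.ext (map_add Φ v w).symm
      neg_mem' := by
        rintro _ ⟨v, hv, rfl⟩
        refine ⟨-v, V.neg_mem hv, ?_⟩
        rw [← map_neg]
        congr 1
        exact Subtype.ext (map_neg Φ v).symm }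
  have hV1 : ∀ g ∈ V1, ∃ v ∈ V, ∃ hv : Φ v ∈ stab U, g = res U ⟨Φ v, hv⟩ := by
    rintro g ⟨v, hv, rfl⟩
    exact ⟨v, hv, hUV v hv, rfl⟩
  have hV1' : ∀ v (hv : v ∈ V), res U ⟨Φ v, hUV v hv⟩ ∈ V1 := by
    intro v hv
    exact ⟨v, hv, rfl⟩
  have hfinF : ∀ a : F, IsIntegral ℤ a := by
    intro a
    have h1 : Module.Finite ℤ F := Module.Finite.of_finite
    exact Algebra.IsIntegral.isIntegral a
  have hUn : Nontrivial U := (Submodule.nontrivial_iff_ne_bot).2 hU0
  obtain ⟨f, hf, hfv⟩ := hS Kb p U k (fun j => (c j).map (algebraMap F Kb))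
    (fun j => by
      rw [coeff_map]
      exact (hfinF _).algebraMap)
    (W.map fun t => (algebraMap F Kb t.1, t.2))
    (by
      intro t ht
      obtain ⟨t', ht', rfl⟩ := List.mem_map.1 ht
      exact hW t' ht')
    (res U Xs) V1
    (by
      intro a ha b hb
      obtain ⟨v, hv, hv', rfl⟩ := hV1 a ha
      obtain ⟨w, hw, hw', rfl⟩ := hV1 b hb
      rw [← map_mul, ← map_mul]
      congr 1
      apply Subtype.ext
      change Φ v * Φ w = Φ w * Φ v
      rw [← map_mul, ← map_mul, hVc v hv w hw])
    (by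
      intro a ha
      obtain ⟨v, hv, hv', rfl⟩ := hV1 a ha
      have h1 := hV1' _ (hVX v hv)
      have h2 : res U Xs * res U ⟨Φ v, hv'⟩ - res U ⟨Φ v, hv'⟩ * res U Xs =
          res U ⟨Φ (X * v - v * X), hUV _ (hVX v hv)⟩ := by
        refine LinearMap.ext fun m => Subtype.ext ?_
        change (Φ X) ((Φ v) (m : M)) - (Φ v) ((Φ X) (m : M)) = Φ (X * v - v * X) (m : M)
        rw [map_sub, map_mul, map_mul]
        rfl
      rw [h2]
      exact h1)
    (by
      intro a ha
      obtain ⟨v, hv, hv', rfl⟩ := hV1 a ha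
      obtain ⟨s, hs⟩ := hVp v hv
      refine ⟨algebraMap K Kb s, ?_⟩
      rw [← map_pow, ← AlgHom.commutes (res U)]
      refine congrArg (res U) (Subtype.ext ?_)
      change (Φ v) ^ p = algebraMap Kb (Module.End Kb M) (algebraMap K Kb s)
      rw [← map_pow, hs]
      have e1 : (algebraMap K (Matrix (Fin n) (Fin n) K)) s = s • 1 :=
        Algebra.algebraMap_eq_smul_one s
      have e2 : algebraMap Kb (Module.End Kb M) (algebraMap K Kb s) = algebraMap K Kb s • 1 :=
        Algebra.algebraMap_eq_smul_one _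
      rw [e1, e2, hΦs, map_one])
    (by
      intro U' hX' hV'
      by_cases hb : U' = ⊥
      · exact Or.inl hb
      right
      have h1 : U'.map U.subtype ∈ Sx := by
        refine ⟨?_, ?_, ?_⟩
        · intro h2
          apply hb
          rw [eq_bot_iff]
          intro u hu
          have h3 : (u : M) ∈ U'.map U.subtype := ⟨u, hu, rfl⟩
          rw [h2, Submodule.mem_bot] at h3
          rw [Submodule.mem_bot]
          exact Subtype.ext h3
        · rintro m ⟨u, hu, rfl⟩
          exact ⟨res U Xs u, hX' u hu, rfl⟩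
        · rintro v hv m ⟨u, hu, rfl⟩
          exact ⟨res U ⟨Φ v, hUV v hv⟩ u, hV' _ (hV1' v hv) u hu, rfl⟩
      have h2 : ¬ U'.map U.subtype < U := hUmin _ h1
      have h3 : U'.map U.subtype ≤ U := by
        rintro m ⟨u, hu, rfl⟩
        exact u.2
      have h4 : U'.map U.subtype = U := by
        by_contra h5
        exact h2 (lt_of_le_of_ne h3 h5)
      rw [eq_top_iff]
      rintro ⟨u, hu⟩ -
      have h5 : u ∈ U'.map U.subtype := by rw [h4]; exact hu
      obtain ⟨u', hu', h6⟩ := h5
      have h7 : u' = ⟨u, hu⟩ := Subtype.ext h6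
      rw [← h7]
      exact hu')
    (by
      intro a ha b hb
      obtain ⟨w, hw, hw', rfl⟩ := hV1 a ha
      obtain ⟨v, hv, hv', rfl⟩ := hV1 b hb
      have h1 := opRel_map' Φ (algebraMap F Kb) hΦF (hOp w hw v hv)
      have h2 : OpRel k (fun j => (c j).map (algebraMap F Kb))
          (W.map fun t => (algebraMap F Kb t.1, t.2)) (Xs + ⟨Φ w, hw'⟩ : stab U) ⟨Φ v, hv'⟩ := by
        refine OpRel.of_map (stab U).val Subtype.coe_injective ?_
        have e1 : (stab U).val (Xs + ⟨Φ w, hw'⟩) = Φ (X + w) := (map_add Φ X w).symm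
        rw [e1]
        exact h1
      have h3 := OpRel.map (E' := Module.End Kb U) (res U) h2
      rw [map_add] at h3
      exact h3)
  refine ⟨f, hf, fun v hv => ?_⟩
  have hstab : aeval (Dx F X) f v ∈ V := aeval_mem (Dx F X) V (fun v hv => by
    rw [Dx_apply]
    exact hVX v hv) f hv
  obtain ⟨s, hs⟩ := hVp _ hstab
  have h1 := hfv _ (hV1' v hv)
  have h2 : aeval (Dx Kb (res U Xs)) f (res U ⟨Φ v, hUV v hv⟩) =
      res U ⟨Φ (aeval (Dx F X) f v), hUV _ hstab⟩ := by
    have h3 := map_aeval_Dx (R := Kb) (E' := Module.End Kb U) (res U) Xs ⟨Φ v, hUV v hv⟩ f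
    rw [← h3]
    congr 1
    apply Subtype.ext
    have h4 := map_aeval_Dx (R := Kb) (stab U).val Xs ⟨Φ v, hUV v hv⟩ f
    have h5 := map_aeval_Dx' (R := F) (R' := Kb) Φ X v f
    change (stab U).val _ = Φ _
    rw [h4, h5]
    rfl
  rw [h2, ← map_pow] at h1
  obtain ⟨u, hu⟩ := exists_ne (0 : U)
  have h6 : (Φ (aeval (Dx F X) f v) ^ p) (u : M) = 0 := by
    have h7 := congrArg (fun g : Module.End Kb U => ((g u : U) : M)) h1
    exact h7
  rw [← map_pow, hs, Algebra.algebraMap_eq_smul_one, hΦs, map_one] at h6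
  have h8 : algebraMap K Kb s • (u : M) = 0 := h6
  rcases smul_eq_zero.1 h8 with h9 | h9
  · rw [hs]
    rw [(map_eq_zero_iff _ (algebraMap K Kb).injective).1 h9, map_zero]
  · exact absurd (Subtype.ext h9) hu

end Pool.Agent.Lib.MP_8f946f_al.Sol
end

section
/-!
# CHAR: the linear part of a relation which holds for all `∑ q(μ) b_μ`
-/
set_option autoImplicit false

namespace Pool.Agent.Lib.MP_8f946f_al.Sol

open Polynomial Finset

namespace CharM

variable {K : Type} [Field K] {A : Type} [Ring A] [Algebra K A]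

/-- the value of the word of characters `ν` at `q` -/
noncomputable def wv (ν : List K) (q : ℤ[X]) : K := (ν.map fun x => aeval x q).prod

theorem wv_nil (q : ℤ[X]) : wv ([] : List K) q = 1 := rfl

theorem wv_cons (x : K) (ν : List K) (q : ℤ[X]) : wv (x :: ν) q = aeval x q * wv ν q := by
  simp [wv]

theorem wv_mul (ν : List K) (q r : ℤ[X]) : wv ν (q * r) = wv ν q * wv ν r := by
  induction ν with
  | nil => simp [wv]
  | cons x ν ih => rw [wv_cons, wv_cons, wv_cons, ih, map_mul]; ring

theorem wv_one (ν : List K) : wv ν 1 = 1 := by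
  induction ν with
  | nil => simp [wv]
  | cons x ν ih => rw [wv_cons, ih, map_one, mul_one]

/-- the character attached to a word -/
noncomputable def wc (ν : List K) : ℤ[X] →* K where
  toFun := wv ν
  map_one' := wv_one ν
  map_mul' := wv_mul ν

/-- the value of a list of (word, vector) -/
noncomputable def evT (T : List (List K × A)) (q : ℤ[X]) : A :=
  (T.map fun t => wv t.1 q • t.2).sum

theorem evT_append (T T' : List (List K × A)) (q : ℤ[X]) : evT (T ++ T') q = evT T q + evT T' q := by
  simp [evT]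

/-- left multiplication by `x` -/
theorem evT_map (T : List (List K × A)) (g : List K → List K) (x : A) (c : ℤ[X] → K)
    (hg : ∀ ν q, wv (g ν) q = c q * wv ν q) (q : ℤ[X]) :
    evT (T.map fun t => (g t.1, x * t.2)) q = c q • (x * evT T q) := by
  induction T with
  | nil => simp [evT]
  | cons t T ih =>
    have h1 : evT ((t :: T).map fun t => (g t.1, x * t.2)) q =
        wv (g t.1) q • (x * t.2) + evT (T.map fun t => (g t.1, x * t.2)) q := by
      simp [evT]
    have h2 : evT (t :: T) q = wv t.1 q • t.2 + evT T q := by simp [evT]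
    rw [h1, h2, ih, hg, mul_add, smul_add, mul_smul, mul_smul_comm]

/-- a list of (word, eigenvector) -/
def Good (δ : A →ₗ[K] A) (Λ : Finset K) (T : List (List K × A)) : Prop :=
  ∀ t ∈ T, (∀ x ∈ t.1, x ∈ Λ) ∧ δ t.2 = t.1.sum • t.2

variable (δ D : A →ₗ[K] A) (Λ : Finset K) (b : K → A)

theorem expand_factor (hδ : ∀ a b, δ (a * b) = δ a * b + a * δ b)
    (g : K → A) (T : List (List K × A)) (m : ℕ)
    (hT : Good δ Λ T) (hm : ∀ t ∈ T, t.1.length = m) (S : List K) (hS : ∀ μ ∈ S, μ ∈ Λ)
    (hg : ∀ μ ∈ S, δ (g μ) = μ • g μ) :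
    ∃ T' : List (List K × A), Good δ Λ T' ∧ (∀ t ∈ T', t.1.length = m + 1) ∧
      ∀ q, (S.map fun μ => aeval μ q • g μ).sum * evT T q = evT T' q := by
  induction S with
  | nil => exact ⟨[], fun t ht => absurd ht (by simp), fun t ht => absurd ht (by simp),
      fun q => by simp [evT]⟩
  | cons μ S ih =>
    obtain ⟨T', h1, h2, h3⟩ := ih (fun x hx => hS x (by simp [hx])) (fun x hx => hg x (by simp [hx]))
    refine ⟨(T.map fun t => (μ :: t.1, g μ * t.2)) ++ T', ?_, ?_, ?_⟩
    · intro t ht
      rcases List.mem_append.1 ht with ht | ht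
      · obtain ⟨t', ht', rfl⟩ := List.mem_map.1 ht
        refine ⟨?_, ?_⟩
        · intro x hx
          rcases List.mem_cons.1 hx with rfl | hx
          · exact hS _ (by simp)
          · exact (hT t' ht').1 x hx
        · change δ (g μ * t'.2) = (μ :: t'.1).sum • (g μ * t'.2)
          rw [hδ, hg μ (by simp), (hT t' ht').2, List.sum_cons, add_smul, smul_mul_assoc,
            mul_smul_comm]
      · exact h1 t ht
    · intro t ht
      rcases List.mem_append.1 ht with ht | ht
      · obtain ⟨t', ht', rfl⟩ := List.mem_map.1 ht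
        change (μ :: t'.1).length = m + 1
        rw [List.length_cons, hm t' ht']
      · exact h2 t ht
    · intro q
      rw [evT_append, evT_map T (fun ν => μ :: ν) (g μ) (fun q => aeval μ q)
        (fun ν q => wv_cons μ ν q), ← h3, List.map_cons, List.sum_cons, add_mul, smul_mul_assoc]

/-- the expansion of `∏_i D^i (∑ q(μ) b_μ)` -/
theorem expand (hδ : ∀ a b, δ (a * b) = δ a * b + a * δ b) (hD : ∀ a, δ (D a) = D (δ a))
    (hb : ∀ μ ∈ Λ, δ (b μ) = μ • b μ) (l : List ℕ) :
    ∃ T : List (List K × A), Good δ Λ T ∧ (∀ t ∈ T, t.1.length = l.length) ∧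
      ∀ q : ℤ[X], (l.map fun i => (D ^ i) (∑ μ ∈ Λ, aeval μ q • b μ)).prod = evT T q := by
  have hD' : ∀ (i : ℕ) (a : A), δ ((D ^ i) a) = (D ^ i) (δ a) := by
    intro i
    induction i with
    | zero => intro a; rfl
    | succ i ih =>
      intro a
      rw [pow_succ', Module.End.mul_apply, Module.End.mul_apply, hD, ih]
  have h1δ : δ 1 = 0 := by
    have := hδ 1 1
    rw [mul_one, mul_one, one_mul] at this
    simpa using this
  induction l with
  | nil =>
    refine ⟨[([], 1)], ?_, ?_, ?_⟩
    · intro t ht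
      rw [List.mem_singleton] at ht
      subst ht
      exact ⟨fun x hx => absurd hx (by simp), by simp [h1δ]⟩
    · intro t ht
      rw [List.mem_singleton] at ht
      subst ht
      rfl
    · intro q
      simp [evT, wv_nil]
  | cons i l ih =>
    obtain ⟨T, h1, h2, h3⟩ := ih
    obtain ⟨T', h4, h5, h6⟩ := expand_factor δ Λ hδ (fun μ => (D ^ i) (b μ)) T l.length h1 h2
      Λ.toList (fun μ hμ => Finset.mem_toList.1 hμ) (fun μ hμ => by
        rw [hD', hb μ (Finset.mem_toList.1 hμ), map_smul])
    refine ⟨T', h4, h5, fun q => ?_⟩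
    rw [List.map_cons, List.prod_cons, h3, ← h6, map_sum, Finset.sum_map_toList]
    simp only [map_smul]

/-- the expansion of the right hand side -/
theorem expandW (hδ : ∀ a b, δ (a * b) = δ a * b + a * δ b) (hD : ∀ a, δ (D a) = D (δ a))
    (hb : ∀ μ ∈ Λ, δ (b μ) = μ • b μ) (W : List (A × List ℕ))
    (hW : ∀ t ∈ W, δ t.1 = 0 ∧ 2 ≤ t.2.length) :
    ∃ T : List (List K × A), Good δ Λ T ∧ (∀ t ∈ T, 2 ≤ t.1.length) ∧
      ∀ q : ℤ[X], (W.map fun t => t.1 * (t.2.map fun i =>
        (D ^ i) (∑ μ ∈ Λ, aeval μ q • b μ)).prod).sum = evT T q := by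
  induction W with
  | nil => exact ⟨[], fun t ht => absurd ht (by simp), fun t ht => absurd ht (by simp),
      fun q => by simp [evT]⟩
  | cons w W ih =>
    obtain ⟨T, h1, h2, h3⟩ := ih (fun t ht => hW t (by simp [ht]))
    obtain ⟨T', h4, h5, h6⟩ := expand δ D Λ b hδ hD hb w.2
    obtain ⟨hw1, hw2⟩ := hW w (by simp)
    refine ⟨(T'.map fun t => (id t.1, w.1 * t.2)) ++ T, ?_, ?_, ?_⟩
    · intro t ht
      rcases List.mem_append.1 ht with ht | ht
      · obtain ⟨t', ht', rfl⟩ := List.mem_map.1 ht
        refine ⟨(h4 t' ht').1, ?_⟩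
        change δ (w.1 * t'.2) = t'.1.sum • (w.1 * t'.2)
        rw [hδ, hw1, (h4 t' ht').2, zero_mul, zero_add, mul_smul_comm]
      · exact h1 t ht
    · intro t ht
      rcases List.mem_append.1 ht with ht | ht
      · obtain ⟨t', ht', rfl⟩ := List.mem_map.1 ht
        change 2 ≤ t'.1.length
        rw [h5 t' ht']
        exact hw2
      · exact h2 t ht
    · intro q
      rw [evT_append, evT_map T' id w.1 (fun _ => 1) (fun ν q => by simp), ← h3, ← h6, one_smul,
        List.map_cons, List.sum_cons]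

end CharM

open CharM in
theorem specChar (hDed : SpecDed) (hLemC : SpecLemC) : SpecChar := by
  classical
  intro K _ p _ _ A _ _ δ D hδ hD Λ hΛ b hb k a ha W hW hrel μ₀ hμ₀
  obtain ⟨T, hT1, hT2, hT3⟩ := expandW δ D Λ b hδ hD hb W hW
  set L : K → A := fun μ => ∑ j ∈ range (k + 1), a j * (D ^ j) (b μ) with hL
  have hleft : ∀ q : ℤ[X], ∑ j ∈ range (k + 1), a j * (D ^ j) (∑ μ ∈ Λ, aeval μ q • b μ) =
      ∑ μ ∈ Λ, aeval μ q • L μ := by
    intro q
    simp only [hL, map_sum, map_smul, Finset.mul_sum, mul_smul_comm, Finset.smul_sum]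
    exact Finset.sum_comm
  have hD' : ∀ (i : ℕ) (a : A), δ ((D ^ i) a) = (D ^ i) (δ a) := by
    intro i
    induction i with
    | zero => intro a; rfl
    | succ i ih =>
      intro a
      rw [pow_succ', Module.End.mul_apply, Module.End.mul_apply, hD, ih]
  -- Dedekind
  let χ : K ⊕ Fin T.length → ℤ[X] →* K :=
    Sum.elim (fun μ => wc [μ]) (fun i => wc (T.get i).1)
  let e : K ⊕ Fin T.length → A := Sum.elim L (fun i => - (T.get i).2)
  have hsum : ∀ q, ∑ i ∈ Λ.disjSum (Finset.univ : Finset (Fin T.length)), χ i q • e i = 0 := by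
    intro q
    rw [Finset.sum_disjSum]
    have h1 : ∑ i : Fin T.length, χ (Sum.inr i) q • e (Sum.inr i) = - evT T q := by
      change ∑ i : Fin T.length, wv (T.get i).1 q • (-(T.get i).2) = _
      simp only [smul_neg, Finset.sum_neg_distrib]
      congr 1
      exact Fin.sum_univ_fun_getElem T fun t => wv t.1 q • t.2
    have h2 : ∑ μ ∈ Λ, χ (Sum.inl μ) q • e (Sum.inl μ) = ∑ μ ∈ Λ, aeval μ q • L μ := by
      refine Finset.sum_congr rfl fun μ _ => ?_
      change wv [μ] q • L μ = _
      rw [wv_cons, wv_nil, mul_one]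
    rw [h1, h2, ← hleft, hrel, hT3]
    exact add_neg_cancel _
  have hded := hDed ℤ[X] K A (K ⊕ Fin T.length) (Λ.disjSum Finset.univ) χ e hsum (wc [μ₀])
  have hchi : ∀ μ : K, wc [μ] = wc [μ₀] ↔ μ = μ₀ := by
    intro μ
    constructor
    · intro h
      have h1 : wv [μ] X = wv [μ₀] X := DFunLike.congr_fun h X
      simpa [wv_cons, wv_nil] using h1
    · rintro rfl
      rfl
  rw [Finset.sum_filter, Finset.sum_disjSum] at hded
  have h1 : ∑ μ ∈ Λ, (if χ (Sum.inl μ) = wc [μ₀] then e (Sum.inl μ) else 0) = L μ₀ := by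
    rw [Finset.sum_eq_single μ₀]
    · exact if_pos rfl
    · intro μ _ hne
      exact if_neg fun h => hne ((hchi μ).1 h)
    · intro h
      exact absurd hμ₀ h
  rw [h1] at hded
  -- eigenspaces
  have h2 : L μ₀ ∈ Module.End.eigenspace δ μ₀ := by
    rw [Module.End.mem_eigenspace_iff, hL]
    simp only [map_sum, hδ, ha, zero_mul, zero_add, hD', hb μ₀ hμ₀, map_smul, mul_smul_comm,
      Finset.smul_sum]
  have h3 : L μ₀ ∈ ⨆ (c : K) (_ : c ≠ μ₀), Module.End.eigenspace δ c := by
    rw [eq_neg_of_add_eq_zero_left hded]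
    refine Submodule.neg_mem _ (Submodule.sum_mem _ fun i _ => ?_)
    by_cases hi : χ (Sum.inr i) = wc [μ₀]
    · rw [if_pos hi]
      have hmem : T.get i ∈ T := List.get_mem T i
      have hne : (T.get i).1.sum ≠ μ₀ := by
        refine hLemC K p (T.get i).1 μ₀ (hT2 _ hmem)
          (fun x hx => hΛ x ((hT1 _ hmem).1 x hx)) (hΛ μ₀ hμ₀) ?_
        intro q
        have := DFunLike.congr_fun hi q
        change wv (T.get i).1 q = wv [μ₀] q at this
        rw [wv_cons, wv_nil, mul_one] at this
        exact this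
      refine Submodule.mem_iSup_of_mem (T.get i).1.sum (Submodule.mem_iSup_of_mem hne ?_)
      change -(T.get i).2 ∈ _
      rw [Submodule.neg_mem_iff, Module.End.mem_eigenspace_iff]
      exact (hT1 _ hmem).2
    · rw [if_neg hi]
      exact Submodule.zero_mem _
  have h4 := (Module.End.eigenspaces_iSupIndep δ) μ₀
  have h5 := h4.le_bot ⟨h2, h3⟩
  exact (Submodule.mem_bot K).1 h5

end Pool.Agent.Lib.MP_8f946f_al.Sol
end

section
/-!
# CASES, part 1: expansion of `Π(X + ∑ q(ν) z_ν) y`
-/
set_option autoImplicit false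

namespace Pool.Agent.Lib.MP_8f946f_al.Sol

open Polynomial Finset

namespace CaseSM

open CharM

section words

variable {K : Type} [Field K] {A : Type} [Ring A] [Algebra K A]

open Classical in
/-- the coefficient of a word -/
noncomputable def cf (T : List (List K × A)) (w : List K) : A :=
  (T.map fun t => if t.1 = w then t.2 else 0).sum

theorem cf_append (T T' : List (List K × A)) (w : List K) : cf (T ++ T') w = cf T w + cf T' w := by
  simp [cf]

theorem cf_flatMap {α : Type} (S : List α) (g : α → List (List K × A)) (w : List K) :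
    cf (S.flatMap g) w = (S.map fun ν => cf (g ν) w).sum := by
  induction S with
  | nil => simp [cf]
  | cons ν S ih => rw [List.flatMap_cons, cf_append, ih, List.map_cons, List.sum_cons]

theorem evT_flatMap {α : Type} (S : List α) (g : α → List (List K × A)) (q : ℤ[X]) :
    evT (S.flatMap g) q = (S.map fun ν => evT (g ν) q).sum := by
  induction S with
  | nil => simp [evT]
  | cons ν S ih => rw [List.flatMap_cons, evT_append, ih, List.map_cons, List.sum_cons]

theorem cf_map_id (T : List (List K × A)) (g : A →+ A) (w : List K) :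
    cf (T.map fun t => (t.1, g t.2)) w = g (cf T w) := by
  classical
  unfold cf
  rw [map_list_sum, List.map_map, List.map_map]
  congr 1
  refine List.map_congr_left fun t _ => ?_
  simp only [Function.comp_apply]
  split_ifs with h
  · rfl
  · rw [map_zero]

theorem evT_map_id (T : List (List K × A)) (g : A →ₗ[K] A) (q : ℤ[X]) :
    evT (T.map fun t => (t.1, g t.2)) q = g (evT T q) := by
  unfold evT
  rw [map_list_sum, List.map_map, List.map_map]
  congr 1
  refine List.map_congr_left fun t _ => ?_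
  simp only [Function.comp_apply]
  rw [map_smul]

open Classical in
theorem cf_map_cons (T : List (List K × A)) (ν β : K) (x : A) (w : List K) :
    cf (T.map fun t => (ν :: t.1, x * t.2)) (β :: w) = if ν = β then x * cf T w else 0 := by
  unfold cf
  rw [List.map_map]
  by_cases h : ν = β
  · subst h
    rw [if_pos rfl, ← List.sum_map_mul_left]
    congr 1
    refine List.map_congr_left fun t _ => ?_
    simp only [Function.comp_apply, List.cons.injEq, true_and]
    split_ifs
    · rfl
    · rw [mul_zero]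
  · rw [if_neg h]
    have : (T.map ((fun t : List K × A => if t.1 = β :: w then t.2 else 0) ∘
        fun t : List K × A => (ν :: t.1, x * t.2))) = T.map fun _ => (0 : A) := by
      refine List.map_congr_left fun t _ => ?_
      simp only [Function.comp_apply, List.cons.injEq, h, false_and, if_false]
    rw [this]
    simp

theorem cf_of_length {T : List (List K × A)} {w : List K} (h : ∀ t ∈ T, t.1.length < w.length) :
    cf T w = 0 := by
  classical
  unfold cf
  have : (T.map fun t : List K × A => if t.1 = w then t.2 else 0) = T.map fun _ => (0 : A) := by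
    refine List.map_congr_left fun t ht => if_neg fun e => ?_
    have := h t ht
    rw [e] at this
    exact lt_irrefl _ this
  rw [this]
  simp

variable (x : A) (z : K → A) (T : Finset K)

/-- the words of `(x + ∑ z_ν) ^ i` -/
noncomputable def words : ℕ → List (List K × A)
  | 0 => [([], 1)]
  | i + 1 => ((words i).map fun t => (t.1, x * t.2)) ++
      T.toList.flatMap fun ν => (words i).map fun t => (ν :: t.1, z ν * t.2)

theorem words_mem (i : ℕ) : ∀ t ∈ words x z T i, (∀ y ∈ t.1, y ∈ T) ∧ t.1.length ≤ i := by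
  induction i with
  | zero =>
    intro t ht
    rw [words, List.mem_singleton] at ht
    subst ht
    exact ⟨fun y hy => absurd hy (by simp), le_rfl⟩
  | succ i ih =>
    intro t ht
    rw [words, List.mem_append, List.mem_map, List.mem_flatMap] at ht
    rcases ht with ⟨t', ht', rfl⟩ | ⟨ν, hν, ht⟩
    · exact ⟨(ih t' ht').1, (ih t' ht').2.trans (Nat.le_succ i)⟩
    · obtain ⟨t', ht', rfl⟩ := List.mem_map.1 ht
      refine ⟨fun y hy => ?_, ?_⟩
      · rcases List.mem_cons.1 hy with rfl | hy
        · exact Finset.mem_toList.1 hν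
        · exact (ih t' ht').1 y hy
      · change (ν :: t'.1).length ≤ i + 1
        rw [List.length_cons]
        exact Nat.succ_le_succ (ih t' ht').2

theorem evT_words (i : ℕ) (q : ℤ[X]) :
    evT (words x z T i) q = (x + ∑ ν ∈ T, aeval ν q • z ν) ^ i := by
  induction i with
  | zero => simp [words, evT, wv_nil]
  | succ i ih =>
    have h1 : evT ((words x z T i).map fun t => (t.1, x * t.2)) q = x * evT (words x z T i) q :=
      evT_map_id (words x z T i) (LinearMap.mulLeft K x) q
    rw [words, evT_append, evT_flatMap, h1, pow_succ', add_mul, ← ih, Finset.sum_mul,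
      ← Finset.sum_map_toList]
    congr 2
    refine List.map_congr_left fun ν _ => ?_
    rw [evT_map (words x z T i) (fun l => ν :: l) (z ν) (fun q => aeval ν q)
      (fun l q => wv_cons ν l q), smul_mul_assoc]

theorem cf_words {β : K} (hβ : β ∈ T) (i : ℕ) :
    cf (words x z T i) (List.replicate i β) = z β ^ i := by
  classical
  induction i with
  | zero => simp [words, cf]
  | succ i ih =>
    have h1 : cf ((words x z T i).map fun t => (t.1, x * t.2)) (List.replicate (i + 1) β) = 0 := by
      refine cf_of_length fun t ht => ?_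
      obtain ⟨t', ht', rfl⟩ := List.mem_map.1 ht
      rw [List.length_replicate]
      exact Nat.lt_succ_of_le (words_mem x z T i t' ht').2
    rw [words, cf_append, cf_flatMap, h1, zero_add, List.replicate_succ]
    simp only [cf_map_cons]
    rw [Finset.sum_map_toList, Finset.sum_ite_eq' T β, if_pos hβ, ih, ← pow_succ']

end words

theorem lead_zero (hDed : SpecDed) {K : Type} [Field K] {A : Type} [Ring A] [Algebra K A]
    {T : Finset K} {β : K} (hβ : β ∈ T)
    (hMax : ∀ (n : ℕ) (ν : List K), (∀ x ∈ ν, x ∈ T) → ν.length ≤ n →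
      (∀ q : ℤ[X], (ν.map fun x => aeval x q).prod = aeval β q ^ n) → ν = List.replicate n β)
    (x y : A) (z : K → A) (Q : K[X]) (hQ : Q ≠ 0)
    (h : ∀ q : ℤ[X], aeval (x + ∑ ν ∈ T, aeval ν q • z ν) Q * y = 0) :
    z β ^ Q.natDegree * y = 0 := by
  classical
  set e := Q.natDegree with he
  let g : ℕ → A →ₗ[K] A := fun i => Q.coeff i • LinearMap.mulRight K y
  let L : List (List K × A) := (List.range (e + 1)).flatMap fun i =>
    (words x z T i).map fun t => (t.1, g i t.2)
  have hL : ∀ t ∈ L, (∀ y ∈ t.1, y ∈ T) ∧ t.1.length ≤ e := by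
    intro t ht
    obtain ⟨i, hi, ht⟩ := List.mem_flatMap.1 ht
    obtain ⟨t', ht', rfl⟩ := List.mem_map.1 ht
    have hi' := List.mem_range.1 hi
    have h1 := words_mem x z T i t' ht'
    exact ⟨h1.1, h1.2.trans (Nat.lt_succ_iff.1 hi')⟩
  have hev : ∀ q : ℤ[X], evT L q = 0 := by
    intro q
    have h1 : ∀ i, evT ((words x z T i).map fun t => (t.1, g i t.2)) q =
        (Q.coeff i • (x + ∑ ν ∈ T, aeval ν q • z ν) ^ i) * y := by
      intro i
      rw [evT_map_id, evT_words, smul_mul_assoc]
      rfl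
    rw [evT_flatMap, ← h q, aeval_eq_sum_range, Finset.sum_mul]
    simp only [h1]
    rfl
  have hcf : cf L (List.replicate e β) = Q.coeff e • (z β ^ e * y) := by
    have h1 : ∀ i, cf ((words x z T i).map fun t => (t.1, g i t.2)) (List.replicate e β) =
        g i (cf (words x z T i) (List.replicate e β)) := fun i =>
      cf_map_id (words x z T i) (g i).toAddMonoidHom (List.replicate e β)
    rw [cf_flatMap]
    simp only [h1]
    rw [List.range_succ, List.map_append, List.sum_append, List.map_singleton, List.sum_singleton,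
      cf_words x z T hβ]
    have h2 : ((List.range e).map fun i => g i (cf (words x z T i) (List.replicate e β))) =
        (List.range e).map fun _ => (0 : A) := by
      refine List.map_congr_left fun i hi => ?_
      rw [cf_of_length, map_zero]
      intro t ht
      rw [List.length_replicate]
      exact lt_of_le_of_lt (words_mem x z T i t ht).2 (List.mem_range.1 hi)
    rw [h2]
    have h3 : ((List.range e).map fun _ => (0 : A)).sum = 0 := by simp
    rw [h3, zero_add]
    rfl
  -- Dedekind
  have hsum : ∀ q, ∑ i : Fin L.length, wc (L.get i).1 q • (L.get i).2 = 0 := by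
    intro q
    rw [← hev q]
    exact Fin.sum_univ_fun_getElem L fun t => wv t.1 q • t.2
  have hded := hDed ℤ[X] K A (Fin L.length) Finset.univ (fun i => wc (L.get i).1)
    (fun i => (L.get i).2) hsum (wc (List.replicate e β))
  have hchi : ∀ i : Fin L.length, wc (L.get i).1 = wc (List.replicate e β) ↔
      (L.get i).1 = List.replicate e β := by
    intro i
    constructor
    · intro hi
      have hmem := hL (L.get i) (List.get_mem L i)
      refine hMax e (L.get i).1 hmem.1 hmem.2 fun q => ?_
      have := DFunLike.congr_fun hi q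
      change wv (L.get i).1 q = wv (List.replicate e β) q at this
      have h2 : wv (List.replicate e β) q = aeval β q ^ e := by
        simp [wv]
      rw [h2] at this
      exact this
    · intro hi
      rw [hi]
  rw [Finset.sum_filter] at hded
  simp only [hchi] at hded
  have h4 : cf L (List.replicate e β) = 0 := by
    rw [← hded]
    exact (Fin.sum_univ_fun_getElem L fun t => if t.1 = List.replicate e β then t.2 else 0).symm
  rw [hcf] at h4
  exact (smul_eq_zero.1 h4).resolve_left (leadingCoeff_ne_zero.2 hQ)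

end CaseSM

end Pool.Agent.Lib.MP_8f946f_al.Sol
end

section
/-!
# CASES: the simple case
-/
set_option autoImplicit false

namespace Pool.Agent.Lib.MP_8f946f_al.Sol

open Polynomial Finset

namespace CaseSM

open BasM

section span

variable {K : Type} [Field K] {A : Type} [Ring A] [Algebra K A]

theorem span_comm (V : Set A) (h : ∀ a ∈ V, ∀ b ∈ V, a * b = b * a) :
    ∀ a ∈ Submodule.span K V, ∀ b ∈ Submodule.span K V, a * b = b * a := by
  intro a ha b hb
  induction ha using Submodule.span_induction with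
  | mem a ha =>
    induction hb using Submodule.span_induction with
    | mem b hb => exact h a ha b hb
    | zero => simp
    | add x y _ _ hx hy => rw [mul_add, add_mul, hx, hy]
    | smul r x _ hx => rw [mul_smul_comm, smul_mul_assoc, hx]
  | zero => simp
  | add x y _ _ hx hy => rw [mul_add, add_mul, hx, hy]
  | smul r x _ hx => rw [mul_smul_comm, smul_mul_assoc, hx]

theorem span_pow (p : ℕ) [Fact p.Prime] [CharP A p] (V : Set A)
    (h : ∀ a ∈ V, ∀ b ∈ V, a * b = b * a) (U : Submodule K A) (hU : ∀ v ∈ V, v ^ p ∈ U) :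
    ∀ v ∈ Submodule.span K V, v ^ p ∈ U := by
  intro v hv
  induction hv using Submodule.span_induction with
  | mem v hv => exact hU v hv
  | zero => rw [zero_pow (Fact.out : p.Prime).ne_zero]; exact U.zero_mem
  | add x y hx' hy' hx hy =>
    rw [add_pow_char_of_commute p (span_comm V h x hx' y hy')]
    exact U.add_mem hx hy
  | smul r x _ hx => rw [_root_.smul_pow]; exact U.smul_mem _ hx

theorem comm_aeval {R : Type} [Ring R] {a b : R} (h : Commute a b) (f : ℤ[X]) :
    Commute a (aeval b f) := by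
  induction f using Polynomial.induction_on' with
  | add p q hp hq => rw [map_add]; exact hp.add_right hq
  | monomial n z =>
    rw [aeval_monomial]
    simp only [eq_intCast]
    exact (Int.commute_cast a z).mul_right (h.pow_right n)

theorem comm_aeval' {R : Type} [Ring R] [Algebra K R] {a b : R} (h : Commute a b) (f : K[X]) :
    Commute a (aeval b f) := by
  induction f using Polynomial.induction_on' with
  | add p q hp hq => rw [map_add]; exact hp.add_right hq
  | monomial n z =>
    rw [aeval_monomial]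
    exact (show Commute a (algebraMap K R z) from (Algebra.commutes z a).symm).mul_right
      (h.pow_right n)

/-- stability under polynomials -/
theorem aeval_mem' (D : Module.End K A) (V : Submodule K A) (hV : ∀ v ∈ V, D v ∈ V) (q : K[X])
    {v : A} (hv : v ∈ V) : aeval D q v ∈ V := by
  have hpow : ∀ n : ℕ, ∀ v ∈ V, (D ^ n) v ∈ V := by
    intro n
    induction n with
    | zero => exact fun v hv => hv
    | succ n ih =>
      intro v hv
      rw [pow_succ', Module.End.mul_apply]
      exact hV _ (ih v hv)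
  induction q using Polynomial.induction_on' with
  | add p q hp hq => rw [map_add, LinearMap.add_apply]; exact V.add_mem hp hq
  | monomial n a =>
    rw [aeval_monomial, Module.End.mul_apply, Module.algebraMap_end_apply]
    exact V.smul_mem a (hpow n v hv)

theorem not_root (k : ℕ) (c : ℕ → K) (hc : ∀ j, IsIntegral ℤ (c j)) (lam : K)
    (hlam : ¬ IsIntegral ℤ lam) : lam ^ k - ∑ j ∈ range k, lam ^ j * c j ≠ 0 := by
  intro h
  apply hlam
  let R := integralClosure ℤ K
  let d : ℕ → R := fun j => ⟨c j, hc j⟩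
  refine isIntegral_trans (R := ℤ) (A := R) lam ?_
  refine ⟨X ^ k - ∑ j ∈ range k, C (d j) * X ^ j, ?_, ?_⟩
  · refine monic_X_pow_sub ?_
    refine lt_of_le_of_lt (degree_sum_le _ _) ?_
    rw [Finset.sup_lt_iff (by exact WithBot.bot_lt_coe k)]
    intro j hj
    exact lt_of_le_of_lt (degree_C_mul_X_pow_le _ _) (by exact_mod_cast Finset.mem_range.1 hj)
  · rw [← aeval_def, map_sub, map_pow, aeval_X, map_sum]
    simp only [map_mul, map_pow, aeval_X, aeval_C]
    rw [← h]
    congr 1
    refine Finset.sum_congr rfl fun j _ => ?_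
    rw [mul_comm]
    rfl

end span

/-- an endomorphism with `(D - λ)^m v = 0` -/
theorem exists_eigen {K : Type} [Field K] {A : Type} [AddCommGroup A] [Module K A]
    (N : Module.End K A) (Z : Submodule K A) (hZ : ∀ z ∈ Z, N z ∈ Z) (m : ℕ) (v : A) (hv : v ∈ Z)
    (h0 : v ≠ 0) (hm : (N ^ m) v = 0) : ∃ y ∈ Z, y ≠ 0 ∧ N y = 0 := by
  induction m generalizing v with
  | zero => exact absurd hm h0
  | succ m ih =>
    by_cases h : N v = 0
    · exact ⟨v, hv, h0, h⟩
    · rw [pow_succ, Module.End.mul_apply] at hm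
      exact ih (N v) (hZ v hv) h hm

end CaseSM

open CaseSM BasM in
theorem specCaseS (hDed : SpecDed) (hMaxi : SpecMaxi) (hEig : SpecEig) (hChar : SpecChar) :
    SpecCaseS := by
  intro K _ _ p _ _ M _ _ _ _ k c hc W hW x V hcomm hxV hpow hirr hrel
  classical
  by_contra hcon
  push Not at hcon
  have hcA : CharP (Module.End K M) p :=
    charP_of_injective_algebraMap (algebraMap K (Module.End K M)).injective p
  have hcD : CharP (Module.End K (Module.End K M)) p :=
    charP_of_injective_algebraMap (algebraMap K (Module.End K (Module.End K M))).injective p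
  set D : Module.End K (Module.End K M) := Dx K x with hD
  have hG : minpoly K D ≠ 0 := minpoly.ne_zero (Algebra.IsIntegral.isIntegral D)
  obtain ⟨s, Λ, P, hP1, hP2⟩ := hEig K p (minpoly K D) hG
  -- the span of `V`
  set S : Submodule K (Module.End K M) := Submodule.span K (V : Set (Module.End K M)) with hS
  have hVS : ∀ v ∈ V, v ∈ S := fun v hv => Submodule.subset_span hv
  have hScomm : ∀ a ∈ S, ∀ b ∈ S, a * b = b * a := span_comm (V : Set (Module.End K M)) hcomm
  have hDV : ∀ v ∈ V, D v ∈ V := by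
    intro v hv
    rw [hD, Dx_apply]
    exact hxV v hv
  have hDS : ∀ a ∈ S, D a ∈ S := by
    intro a ha
    induction ha using Submodule.span_induction with
    | mem v hv => exact hVS _ (hDV v hv)
    | zero => rw [map_zero]; exact S.zero_mem
    | add x y _ _ hx hy => rw [map_add]; exact S.add_mem hx hy
    | smul r x _ hx => rw [map_smul]; exact S.smul_mem r hx
  have hDSpow : ∀ (i : ℕ), ∀ a ∈ S, (D ^ i) a ∈ S := by
    intro i
    induction i with
    | zero => exact fun a ha => ha
    | succ i ih =>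
      intro a ha
      rw [pow_succ', Module.End.mul_apply]
      exact hDS _ (ih a ha)
  have hSpow : ∀ a ∈ S, ∃ r : K, a ^ p = algebraMap K (Module.End K M) r := by
    intro a ha
    have := span_pow p (V : Set (Module.End K M)) hcomm
      (LinearMap.range (Algebra.linearMap K (Module.End K M))) (fun v hv => by
        obtain ⟨r, hr⟩ := hpow v hv
        exact ⟨r, hr.symm⟩) a ha
    obtain ⟨r, hr⟩ := this
    exact ⟨r, hr.symm⟩
  -- components
  set δ : Module.End K (Module.End K M) := D ^ p ^ s with hδ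
  let cm : K → Module.End K (Module.End K M) := fun μ => aeval D (P μ)
  have hcmsum : ∀ v, ∑ μ ∈ Λ, cm μ v = v := by
    intro v
    rw [← LinearMap.sum_apply, ← map_sum, hP1, map_one, Module.End.one_apply]
  have hcmeig : ∀ μ ∈ Λ, ∀ v, δ (cm μ v) = μ • cm μ v := by
    intro μ hμ v
    obtain ⟨R, hR⟩ := hP2 μ hμ
    have h1 : aeval D ((X ^ p ^ s - C μ) * P μ) = 0 := by
      rw [hR, map_mul, minpoly.aeval, zero_mul]
    have h2 := congrArg (fun f : Module.End K (Module.End K M) => f v) h1
    simp only [map_mul, map_sub, map_pow, aeval_X, aeval_C, Module.End.mul_apply,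
      LinearMap.sub_apply, Module.algebraMap_end_apply, LinearMap.zero_apply] at h2
    exact sub_eq_zero.1 h2
  have hcmS : ∀ μ, ∀ v ∈ S, cm μ v ∈ S := fun μ v hv => aeval_mem' D S hDS (P μ) hv
  have hcmD : ∀ μ v, cm μ (D v) = D (cm μ v) := by
    intro μ v
    have h : Commute D (cm μ) := comm_aeval' (Commute.refl D) (P μ)
    exact (congrArg (fun f : Module.End K (Module.End K M) => f v) h.eq).symm
  have hcmδ : ∀ μ (q : ℤ[X]) v, cm μ (aeval δ q v) = aeval δ q (cm μ v) := by
    intro μ q v
    have h : Commute (cm μ) (aeval δ q) :=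
      comm_aeval ((comm_aeval' (Commute.refl D) (P μ)).symm.pow_right _) q
    exact congrArg (fun f : Module.End K (Module.End K M) => f v) h.eq
  have hq : ∀ (q : ℤ[X]) v, ∑ μ ∈ Λ, aeval μ q • cm μ v = aeval δ q v := by
    intro q v
    conv_rhs => rw [← hcmsum v, map_sum]
    refine Finset.sum_congr rfl fun μ hμ => ?_
    exact (aeval_eigen δ (hcmeig μ hμ v) q).symm
  have hδV : ∀ v ∈ V, δ v ∈ V := by
    have : ∀ (i : ℕ), ∀ a ∈ V, (D ^ i) a ∈ V := by
      intro i
      induction i with
      | zero => exact fun a ha => ha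
      | succ i ih =>
        intro a ha
        rw [pow_succ', Module.End.mul_apply]
        exact hDV _ (ih a ha)
    exact this _
  have hqV : ∀ (q : ℤ[X]), ∀ v ∈ V, aeval δ q v ∈ V := fun q v hv => aeval_mem δ V hδV q hv
  -- the polynomial `f0`
  have hF : ∀ μ : K, ∃ f : ℤ[X], f.Monic ∧ (IsIntegral ℤ μ → aeval μ f = 0) := by
    intro μ
    by_cases h : IsIntegral ℤ μ
    · obtain ⟨f, hf, hf'⟩ := h
      exact ⟨f, hf, fun _ => by rw [aeval_def]; exact hf'⟩
    · exact ⟨1, monic_one, fun h' => absurd h' h⟩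
  choose F hF1 hF2 using hF
  set f0 : ℤ[X] := ∏ μ ∈ Λ, F μ with hf0
  have hf0m : f0.Monic := monic_prod_of_monic _ _ fun μ _ => hF1 μ
  have hint : ∀ μ ∈ Λ, IsIntegral ℤ μ → ∀ v, cm μ (aeval δ f0 v) = 0 := by
    intro μ hμ hi v
    rw [hcmδ, aeval_eigen δ (hcmeig μ hμ v), hf0, map_prod, Finset.prod_eq_zero hμ (hF2 μ hi),
      zero_smul]
  set T : Finset K := Λ.filter fun μ => ¬ IsIntegral ℤ μ ∧ ∃ v ∈ V, cm μ (aeval δ f0 v) ≠ 0
    with hT
  have hTne : T.Nonempty := by
    have hppos : 0 < p ^ s := pow_pos (Fact.out : p.Prime).pos s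
    obtain ⟨v, hv, hne⟩ := hcon (expand ℤ (p ^ s) f0) (hf0m.expand hppos)
    rw [expand_aeval] at hne
    have h1 : aeval δ f0 v ≠ 0 := by
      intro h
      apply hne
      change (aeval δ f0 v) ^ p = 0
      rw [h, zero_pow (Fact.out : p.Prime).ne_zero]
    rw [← hcmsum (aeval δ f0 v)] at h1
    obtain ⟨μ, hμ, hμ'⟩ := Finset.exists_ne_zero_of_sum_ne_zero h1
    refine ⟨μ, Finset.mem_filter.2 ⟨hμ, fun hi => hμ' (hint μ hμ hi v), v, hv, hμ'⟩⟩
  obtain ⟨β, hβT, hMax⟩ := hMaxi K p T hTne fun μ hμ => (Finset.mem_filter.1 hμ).2.1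
  obtain ⟨hβΛ, hβint, v, hv, hvβ⟩ := Finset.mem_filter.1 hβT
  -- (1)
  have key : ∀ w ∈ V, ∀ v ∈ V, (D ^ k) (cm β (aeval δ f0 v)) =
      ∑ j ∈ range k, aeval (x + w) (c j) * (D ^ j) (cm β (aeval δ f0 v)) := by
    intro w hw v hv
    set u := aeval δ f0 v with hu
    have huV : u ∈ V := hqV f0 v hv
    set y := x + w with hy
    have hDy : ∀ a ∈ S, Dx K y a = D a := by
      intro a ha
      rw [Dx_apply, hD, Dx_apply, hy, add_mul, mul_add, hScomm w (hVS w hw) a ha]
      abel
    have hDyi : ∀ i : ℕ, ∀ a ∈ S, ((Dx K y) ^ i) a = (D ^ i) a := by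
      intro i
      induction i with
      | zero => exact fun a ha => rfl
      | succ i ih =>
        intro a ha
        rw [pow_succ', Module.End.mul_apply, ih a ha, hDy _ (hDSpow i a ha), pow_succ',
          Module.End.mul_apply]
    have hk : ∀ (n i : ℕ), Dx K (y ^ n) (y ^ i) = 0 := fun n i =>
      Dx_of_comm (by rw [← pow_add, ← pow_add, add_comm])
    have hk' : ∀ (n : ℕ) (f : K[X]), Dx K (y ^ n) (aeval y f) = 0 := fun n f =>
      Dx_of_comm (comm_aeval' ((Commute.refl y).pow_left n) f).eq
    have hδ' : ∀ a b, ((Dx K y) ^ p ^ s) (a * b) =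
        ((Dx K y) ^ p ^ s) a * b + a * ((Dx K y) ^ p ^ s) b := by
      intro a b
      rw [Dx_pow_char p, Dx_mul]
    have hcom : ∀ a, ((Dx K y) ^ p ^ s) (Dx K y a) = Dx K y (((Dx K y) ^ p ^ s) a) := by
      intro a
      rw [← Module.End.mul_apply, ← Module.End.mul_apply, ← pow_succ, ← pow_succ']
    set Λ' : Finset K := Λ.filter fun μ => ¬ IsIntegral ℤ μ with hΛ'
    have hβ' : β ∈ Λ' := Finset.mem_filter.2 ⟨hβΛ, hβint⟩
    let a : ℕ → Module.End K M := fun j => if j < k then - aeval y (c j) else 1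
    have ha : ∀ j, ((Dx K y) ^ p ^ s) (a j) = 0 := by
      intro j
      rw [Dx_pow_char p]
      by_cases hj : j < k
      · simp only [a, if_pos hj, map_neg, hk', neg_zero]
      · simp only [a, if_neg hj]
        exact Dx_of_comm (by rw [mul_one, one_mul])
    have hsum : ∀ (b : ℕ → Module.End K M), ∑ j ∈ range (k + 1), a j * b j =
        b k - ∑ j ∈ range k, aeval y (c j) * b j := by
      intro b
      rw [Finset.sum_range_succ]
      have h1 : ∑ j ∈ range k, a j * b j = - ∑ j ∈ range k, aeval y (c j) * b j := by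
        rw [← Finset.sum_neg_distrib]
        refine Finset.sum_congr rfl fun j hj => ?_
        simp only [a, if_pos (Finset.mem_range.1 hj), neg_mul]
      rw [h1]
      simp only [a, lt_irrefl, if_false, one_mul]
      abel
    have hyq : ∀ q : ℤ[X], ∑ μ ∈ Λ', aeval μ q • cm μ u = aeval δ q u := by
      intro q
      rw [← hq q u, hΛ', Finset.sum_filter]
      refine Finset.sum_congr rfl fun μ hμ => ?_
      by_cases hi : IsIntegral ℤ μ
      · rw [if_neg (not_not.2 hi), hu, hint μ hμ hi v, smul_zero]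
      · rw [if_pos hi]
    have hch := hChar K p (Module.End K M) ((Dx K y) ^ p ^ s) (Dx K y) hδ' hcom Λ'
      (fun μ hμ => (Finset.mem_filter.1 hμ).2) (fun μ => cm μ u) (fun μ hμ => by
        rw [hDyi _ _ (hcmS μ u (hVS u huV))]
        exact hcmeig μ (Finset.mem_filter.1 hμ).1 u) k a ha
      (W.map fun t => (t.1 • y ^ t.2.1, t.2.2)) (fun t ht => by
        obtain ⟨t', ht', rfl⟩ := List.mem_map.1 ht
        refine ⟨?_, hW t' ht'⟩
        rw [Dx_pow_char p, map_smul, hk, smul_zero]) (fun q => by
        rw [hyq, hsum]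
        have h1 := hrel w hw (aeval δ q u) (hqV q u huV)
        unfold OpRel at h1
        rw [h1]
        unfold rhs
        rw [List.map_map]
        congr 1) β hβ'
    rw [hsum, sub_eq_zero, hDyi _ _ (hcmS β u (hVS u huV))] at hch
    rw [hch]
    refine Finset.sum_congr rfl fun j _ => ?_
    rw [hDyi _ _ (hcmS β u (hVS u huV))]
  -- the eigenvector `y`
  obtain ⟨lam, hlam⟩ := IsAlgClosed.exists_pow_nat_eq β (pow_pos (Fact.out : p.Prime).pos s)
  have hlamint : ¬ IsIntegral ℤ lam := fun h => hβint (hlam ▸ h.pow _)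
  set Z : Submodule K (Module.End K M) :=
    Submodule.span K {z | ∃ v ∈ V, cm β (aeval δ f0 v) = z} with hZ
  have hδD : ∀ v, aeval δ f0 (D v) = D (aeval δ f0 v) := by
    intro v
    have h : Commute D (aeval δ f0) := comm_aeval ((Commute.refl D).pow_right _) f0
    exact (congrArg (fun f : Module.End K (Module.End K M) => f v) h.eq).symm
  have hZD : ∀ z ∈ Z, D z ∈ Z := by
    intro z hz
    induction hz using Submodule.span_induction with
    | mem z hz =>
      obtain ⟨v, hv, rfl⟩ := hz
      rw [← hcmD, ← hδD]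
      exact Submodule.subset_span ⟨D v, hDV v hv, rfl⟩
    | zero => rw [map_zero]; exact Z.zero_mem
    | add x y _ _ hx hy => rw [map_add]; exact Z.add_mem hx hy
    | smul r x _ hx => rw [map_smul]; exact Z.smul_mem r hx
  have hZS : Z ≤ S := by
    rw [hZ, Submodule.span_le]
    rintro _ ⟨v, hv, rfl⟩
    exact hcmS β _ (hVS _ (hqV f0 v hv))
  set N : Module.End K (Module.End K M) := D - algebraMap K _ lam with hN
  have hNm : (N ^ p ^ s) (cm β (aeval δ f0 v)) = 0 := by
    have h1 : N ^ p ^ s = δ - algebraMap K _ β := by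
      rw [hN, sub_pow_char_pow_of_commute p s (Algebra.commutes lam D).symm, ← map_pow, hlam]
    rw [h1, LinearMap.sub_apply, hcmeig β hβΛ, Module.algebraMap_end_apply, sub_self]
  obtain ⟨y, hyZ, hy0, hNy⟩ := exists_eigen N Z (fun z hz => by
    rw [hN, LinearMap.sub_apply, Module.algebraMap_end_apply]
    exact Z.sub_mem (hZD z hz) (Z.smul_mem _ hz)) (p ^ s) (cm β (aeval δ f0 v))
    (Submodule.subset_span ⟨v, hv, rfl⟩) hvβ hNm
  have hDy : D y = lam • y := by
    rw [hN, LinearMap.sub_apply, Module.algebraMap_end_apply] at hNy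
    exact sub_eq_zero.1 hNy
  have hDyj : ∀ j : ℕ, (D ^ j) y = lam ^ j • y := by
    intro j
    induction j with
    | zero => simp
    | succ j ih => rw [pow_succ', Module.End.mul_apply, ih, map_smul, hDy, smul_smul, pow_succ]
  -- (2)
  set Q : K[X] := C (lam ^ k) - ∑ j ∈ range k, C (lam ^ j) * c j with hQ
  have hkeyZ : ∀ w ∈ V, ∀ z ∈ Z, (D ^ k) z = ∑ j ∈ range k, aeval (x + w) (c j) * (D ^ j) z := by
    intro w hw z hz
    induction hz using Submodule.span_induction with
    | mem z hz =>
      obtain ⟨v, hv, rfl⟩ := hz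
      exact key w hw v hv
    | zero => simp
    | add a b _ _ ha hb => simp only [map_add, mul_add, Finset.sum_add_distrib, ha, hb]
    | smul r a _ ha => simp only [map_smul, mul_smul_comm, ← Finset.smul_sum, ha]
  have hQw : ∀ w ∈ V, aeval (x + w) Q * y = 0 := by
    intro w hw
    have h1 := hkeyZ w hw y hyZ
    simp only [hDyj] at h1
    rw [hQ, map_sub, map_sum, sub_mul, Finset.sum_mul, sub_eq_zero, aeval_C, ← Algebra.smul_def, h1]
    refine Finset.sum_congr rfl fun j _ => ?_
    rw [map_mul, aeval_C, mul_smul_comm, ← Algebra.smul_def, smul_mul_assoc]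
  have hQ0 : Q ≠ 0 := by
    intro h
    apply not_root k (fun j => (c j).coeff 0) hc lam hlamint
    have := congrArg (fun f : K[X] => f.coeff 0) h
    rw [hQ] at this
    simp only [coeff_sub, finsetSum_coeff, coeff_C_mul, coeff_C_zero, coeff_zero] at this
    exact this
  -- `y` is invertible
  have hyS := hZS hyZ
  have hyu : IsUnit y := by
    rw [LinearMap.isUnit_iff_range_eq_top]
    refine (hirr (LinearMap.range y) ?_ ?_).resolve_left ?_
    · rintro _ ⟨m, rfl⟩
      have h1 : x * y = y * x + lam • y := by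
        rw [← hDy, hD, Dx_apply]
        abel
      refine ⟨x m + lam • m, ?_⟩
      have h2 := congrArg (fun f : Module.End K M => f m) h1
      simp only [Module.End.mul_apply, LinearMap.add_apply, LinearMap.smul_apply] at h2
      rw [h2, map_add, map_smul]
    · rintro v hv _ ⟨m, rfl⟩
      have h1 := hScomm v (hVS v hv) y hyS
      exact ⟨v m, (congrArg (fun f : Module.End K M => f m) h1).symm⟩
    · intro h
      exact hy0 (LinearMap.range_eq_bot.1 h)
  -- an invertible component
  obtain ⟨v0, hv0, hz0⟩ : ∃ v ∈ V, (cm β (aeval δ f0 v)) ^ p ≠ 0 := by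
    by_contra hno
    push Not at hno
    have h1 := span_pow p {z | ∃ v ∈ V, cm β (aeval δ f0 v) = z}
      (fun a ha b hb => hScomm a (hZS (Submodule.subset_span ha)) b
        (hZS (Submodule.subset_span hb))) ⊥ (by
        rintro _ ⟨v, hv, rfl⟩
        exact (Submodule.mem_bot K).2 (hno v hv)) y hyZ
    exact (hyu.pow p).ne_zero ((Submodule.mem_bot K).1 h1)
  have hzu : IsUnit (cm β (aeval δ f0 v0)) := by
    obtain ⟨r, hr⟩ := hSpow _ (hcmS β _ (hVS _ (hqV f0 v0 hv0)))
    have hr0 : r ≠ 0 := by
      rintro rfl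
      rw [map_zero] at hr
      exact hz0 hr
    refine (isUnit_pow_iff (Fact.out : p.Prime).ne_zero).1 ?_
    rw [hr]
    exact (isUnit_iff_ne_zero.2 hr0).map _
  -- (3)
  have hfin := lead_zero hDed hβT hMax x y (fun μ => cm μ (aeval δ f0 v0)) Q hQ0 (by
    intro q
    have h1 : ∑ ν ∈ T, aeval ν q • cm ν (aeval δ f0 v0) = aeval δ q (aeval δ f0 v0) := by
      rw [← hq q (aeval δ f0 v0), hT, Finset.sum_filter]
      refine Finset.sum_congr rfl fun μ hμ => ?_
      split_ifs with h
      · rfl
      · by_cases hi : IsIntegral ℤ μ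
        · rw [hint μ hμ hi v0, smul_zero]
        · have h2 : cm μ (aeval δ f0 v0) = 0 := by
            by_contra h3
            exact h ⟨hi, v0, hv0, h3⟩
          rw [h2, smul_zero]
    rw [h1]
    exact hQw _ (hqV q _ (hqV f0 v0 hv0)))
  exact ((hzu.pow _).mul hyu).ne_zero hfin

end Pool.Agent.Lib.MP_8f946f_al.Sol
end

section
/-!
# DED: linear independence of the characters of a monoid, with coefficients in a vector space
-/
set_option autoImplicit false

namespace Pool.Agent.Lib.MP_8f946f_al.Sol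

open Finset

theorem specDed : SpecDed := by
  classical
  intro M _ K _ A _ _ ι s χ a h χ₀
  rw [← Module.forall_dual_apply_eq_zero_iff K]
  intro f
  have hsum : ∑ c ∈ s.image χ, (∑ i ∈ s with χ i = c, f (a i)) • (fun q => c q : M → K) = 0 := by
    funext q
    have h1 := congrArg f (h q)
    rw [map_sum, map_zero] at h1
    rw [Finset.sum_apply, Pi.zero_apply, ← h1]
    rw [← Finset.sum_fiberwise_of_maps_to (g := χ) (t := s.image χ)
      (fun i hi => Finset.mem_image_of_mem χ hi)]
    refine Finset.sum_congr rfl fun c _ => ?_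
    rw [Pi.smul_apply, smul_eq_mul, Finset.sum_mul]
    refine Finset.sum_congr rfl fun i hi => ?_
    rw [(Finset.mem_filter.1 hi).2.symm]
    simp [mul_comm]
  have key := (linearIndependent_iff'.1 (linearIndependent_monoidHom M K)) (s.image χ)
    (fun c => ∑ i ∈ s with χ i = c, f (a i)) hsum
  rw [map_sum]
  by_cases hmem : χ₀ ∈ s.image χ
  · exact key χ₀ hmem
  · refine Finset.sum_eq_zero fun i hi => ?_
    exact absurd (Finset.mem_image.2 ⟨i, (Finset.mem_filter.1 hi).1, (Finset.mem_filter.1 hi).2⟩) hmem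

end Pool.Agent.Lib.MP_8f946f_al.Sol
end

section
/-!
# DIV: pigeonhole in `F[X] ⧸ (h)`
-/
set_option autoImplicit false

namespace Pool.Agent.Lib.MP_8f946f_al.Sol

open Polynomial

theorem specDiv : SpecDiv := by
  intro F _ _ p _ _ h hh s
  have : Module.Finite F (AdjoinRoot h) := (AdjoinRoot.powerBasis hh).finite
  have : Finite (AdjoinRoot h) := Module.finite_of_finite F
  obtain ⟨a, b, hab, heq⟩ := Finite.exists_ne_map_eq_of_infinite
    (fun n : ℕ => AdjoinRoot.mk h (X ^ p ^ (s + n)))
  rcases lt_or_gt_of_ne hab with hlt | hlt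
  · refine ⟨s + a, s + b, by omega, by omega, ?_⟩
    exact AdjoinRoot.mk_eq_mk.1 heq.symm
  · refine ⟨s + b, s + a, by omega, by omega, ?_⟩
    exact AdjoinRoot.mk_eq_mk.1 heq

end Pool.Agent.Lib.MP_8f946f_al.Sol
end

section
/-!
# EIG: Lagrange interpolation in the variable `X ^ (p ^ s)`
-/
set_option autoImplicit false

namespace Pool.Agent.Lib.MP_8f946f_al.Sol

open Polynomial

namespace EigM

theorem basis_mul {K ι : Type} [Field K] [DecidableEq ι] (s : Finset ι) (v : ι → K) (i : ι)
    (hi : i ∈ s) : (X - C (v i)) * Lagrange.basis s v i =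
      C (Lagrange.nodalWeight s v i) * Lagrange.nodal s v := by
  rw [Lagrange.basis_eq_prod_sub_inv_mul_nodal_div hi, ← Lagrange.nodal_erase_eq_nodal_div hi,
    mul_left_comm, ← Lagrange.nodal_eq_mul_nodal_erase hi]

end EigM

theorem specEig : SpecEig := by
  intro K _ _ p _ _ G hG
  classical
  set s : ℕ := G.natDegree with hs
  have hp1 : 1 < p := (Fact.out : p.Prime).one_lt
  have hsd : G.natDegree ≤ p ^ s := (Nat.lt_pow_self hp1).le
  set R : Finset K := insert 0 G.roots.toFinset with hR
  set Λ : Finset K := R.image (fun x => x ^ p ^ s) with hΛ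
  have hinj : Function.Injective (fun x : K => x ^ p ^ s) := by
    have := iterateFrobenius_inj K p s
    simpa [Function.Injective, iterateFrobenius_def] using this
  have hne : Λ.Nonempty := by
    refine ⟨0 ^ p ^ s, ?_⟩
    rw [hΛ]
    exact Finset.mem_image_of_mem (fun x : K => x ^ p ^ s) (Finset.mem_insert_self _ _)
  have hpp : ∀ r : K, (X ^ p ^ s - C (r ^ p ^ s) : K[X]) = (X - C r) ^ p ^ s := by
    intro r
    rw [sub_pow_char_pow, C_pow]
  have hnodal : G ∣ (Lagrange.nodal Λ (id : K → K)).comp (X ^ p ^ s) := by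
    have h1 : (Lagrange.nodal Λ (id : K → K)).comp (X ^ p ^ s) =
        ∏ r ∈ R, (X - C r) ^ p ^ s := by
      rw [Lagrange.nodal_eq, hΛ, Finset.prod_image (fun x _ y _ h => hinj h), prod_comp]
      refine Finset.prod_congr rfl fun r _ => ?_
      rw [sub_comp, X_comp, C_comp, id, hpp]
    rw [h1]
    have h2 : G = C G.leadingCoeff * (G.roots.map fun a => X - C a).prod :=
      (IsAlgClosed.splits G).eq_prod_roots
    have h3 : (∏ r ∈ R, (X - C r) ^ p ^ s : K[X]) =
        ((p ^ s • R.val).map fun a => (X - C a : K[X])).prod := by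
      rw [Multiset.map_nsmul, Multiset.prod_nsmul, Finset.prod_pow]
      rfl
    rw [h2, h3]
    have h4 : IsUnit (C G.leadingCoeff : K[X]) :=
      isUnit_C.2 (isUnit_iff_ne_zero.2 (leadingCoeff_ne_zero.2 hG))
    rw [h4.mul_left_dvd]
    refine Multiset.prod_dvd_prod_of_le (Multiset.map_le_map ?_)
    rw [Multiset.le_iff_count]
    intro a
    by_cases ha : a ∈ G.roots
    · rw [Multiset.count_nsmul]
      have h5 : Multiset.count a R.val = 1 := by
        refine Multiset.count_eq_one_of_mem R.nodup ?_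
        rw [Finset.mem_val, hR]
        exact Finset.mem_insert_of_mem (Multiset.mem_toFinset.2 ha)
      rw [h5, mul_one]
      exact (Multiset.count_le_card a G.roots).trans ((card_roots' G).trans hsd)
    · rw [Multiset.count_eq_zero_of_notMem ha]
      exact Nat.zero_le _
  refine ⟨s, Λ, fun μ => (Lagrange.basis Λ id μ).comp (X ^ p ^ s), ?_, ?_⟩
  · rw [← sum_comp, Lagrange.sum_basis (v := (id : K → K)) (fun x _ y _ h => h) hne, one_comp]
  · intro μ hμ
    have h6 : (X - C μ) * Lagrange.basis Λ (id : K → K) μ =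
        C (Lagrange.nodalWeight Λ id μ) * Lagrange.nodal Λ id := EigM.basis_mul Λ id μ hμ
    have h7 : (X ^ p ^ s - C μ) * (Lagrange.basis Λ (id : K → K) μ).comp (X ^ p ^ s) =
        C (Lagrange.nodalWeight Λ id μ) * (Lagrange.nodal Λ id).comp (X ^ p ^ s) := by
      have h8 := congrArg (fun f => comp f (X ^ p ^ s)) h6
      simp only [mul_comp, sub_comp, X_comp, C_comp] at h8
      exact h8
    change G ∣ (X ^ p ^ s - C μ) * (Lagrange.basis Λ (id : K → K) μ).comp (X ^ p ^ s)
    rw [h7]
    exact hnodal.mul_left _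

end Pool.Agent.Lib.MP_8f946f_al.Sol
end

section
/-!
# FINIMG: finiteness of the values of one linear form forces periodicity
-/
set_option autoImplicit false

namespace Pool.Agent.Lib.MP_8f946f_al.Sol

open Finset

namespace FinImgM

section seq

variable {K : Type} [Field K]

/-- the shift of sequences -/
def shift (K : Type) [Field K] : (ℕ → K) →ₗ[ℤ] (ℕ → K) where
  toFun u n := u (n + 1)
  map_add' _ _ := rfl
  map_smul' _ _ := rfl

theorem shift_pow (j : ℕ) (u : ℕ → K) (n : ℕ) : ((shift K) ^ j) u n = u (n + j) := by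
  induction j generalizing u n with
  | zero => simp
  | succ j ih =>
    rw [pow_succ, Module.End.mul_apply, ih]
    change u (n + j + 1) = _
    rw [add_assoc]

theorem sq_eq (q : Polynomial ℤ) (u : ℕ → K) : sq q u = Polynomial.aeval (shift K) q u := by
  funext n
  rw [Polynomial.aeval_def, Polynomial.eval₂_eq_sum, sq, Polynomial.sum_def, Polynomial.sum_def,
    LinearMap.sum_apply, Finset.sum_apply]
  refine Finset.sum_congr rfl fun j _ => ?_
  rw [Module.End.mul_apply]
  have h1 : (algebraMap ℤ (Module.End ℤ (ℕ → K)) (q.coeff j)) (((shift K) ^ j) u) =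
      (q.coeff j) • (((shift K) ^ j) u) := Module.algebraMap_end_apply _ _ _ _ _
  rw [h1, Pi.smul_apply, shift_pow, zsmul_eq_mul]

theorem sq_mul (q f : Polynomial ℤ) (u : ℕ → K) : sq (q * f) u = sq q (sq f u) := by
  rw [sq_eq, sq_eq, sq_eq, map_mul, Module.End.mul_apply]

theorem sq_add (q : Polynomial ℤ) (u w : ℕ → K) : sq q (u + w) = sq q u + sq q w := by
  simp only [sq_eq, map_add]

theorem sq_sub (q : Polynomial ℤ) (u w : ℕ → K) : sq q (u - w) = sq q u - sq q w := by
  simp only [sq_eq, map_sub]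

theorem sq_shift (q : Polynomial ℤ) (u : ℕ → K) : sq q (shift K u) = shift K (sq q u) := by
  have h : (Polynomial.aeval (shift K) q) * (shift K) = (shift K) * (Polynomial.aeval (shift K) q) := by
    have h3 : (Polynomial.aeval (shift K) q) *
        (Polynomial.aeval (shift K) (Polynomial.X : Polynomial ℤ)) =
        (Polynomial.aeval (shift K) (Polynomial.X : Polynomial ℤ)) *
        (Polynomial.aeval (shift K) q) := by
      rw [← map_mul, ← map_mul, mul_comm]
    rwa [Polynomial.aeval_X] at h3
  have h1 := congrArg (fun g : Module.End ℤ (ℕ → K) => g u) h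
  simp only [Module.End.mul_apply] at h1
  rw [sq_eq, sq_eq, h1]

theorem dX_X (i : ℕ) : dX K (MvPolynomial.X i) = MvPolynomial.X (i + 1) := by
  rw [dX, MvPolynomial.mkDerivation_X]

theorem dX_iter_X (i j : ℕ) : (dX K)^[j] (MvPolynomial.X i) = MvPolynomial.X (i + j) := by
  induction j generalizing i with
  | zero => rfl
  | succ j ih => rw [Function.iterate_succ_apply, dX_X, ih, add_assoc, add_comm 1 j]

theorem dX_iter_sum {ι : Type} (s : Finset ι) (P : ι → MvPolynomial ℕ K) (j : ℕ) :
    (dX K)^[j] (∑ i ∈ s, P i) = ∑ i ∈ s, (dX K)^[j] (P i) := by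
  induction j with
  | zero => rfl
  | succ j ih => simp only [Function.iterate_succ_apply', ih, map_sum]

theorem dX_iter_sub (P Q : MvPolynomial ℕ K) (j : ℕ) :
    (dX K)^[j] (P - Q) = (dX K)^[j] P - (dX K)^[j] Q := by
  induction j with
  | zero => rfl
  | succ j ih => simp only [Function.iterate_succ_apply', ih, map_sub]

theorem dX_iter_add (P Q : MvPolynomial ℕ K) (j : ℕ) :
    (dX K)^[j] (P + Q) = (dX K)^[j] P + (dX K)^[j] Q := by
  induction j with
  | zero => rfl
  | succ j ih => simp only [Function.iterate_succ_apply', ih, map_add]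

theorem dX_iter_C_mul (c : K) (P : MvPolynomial ℕ K) (j : ℕ) :
    (dX K)^[j] (MvPolynomial.C c * P) = MvPolynomial.C c * (dX K)^[j] P := by
  induction j with
  | zero => rfl
  | succ j ih =>
    rw [Function.iterate_succ_apply', Function.iterate_succ_apply', ih, MvPolynomial.C_mul',
      MvPolynomial.C_mul', Derivation.map_smul]

theorem dX_iter_zero (j : ℕ) : (dX K)^[j] (0 : MvPolynomial ℕ K) = 0 := by
  induction j with
  | zero => rfl
  | succ j ih => simp only [Function.iterate_succ_apply', ih, map_zero]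

/-- `Q_a` -/
def ord (u : ℕ → K) (a : ℕ) (P : MvPolynomial ℕ K) : Prop :=
  ∀ j, j < a → MvPolynomial.eval u ((dX K)^[j] P) = 0

theorem ord_mono {u : ℕ → K} {a b : ℕ} (hab : a ≤ b) {P : MvPolynomial ℕ K} (h : ord u b P) :
    ord u a P := fun j hj => h j (lt_of_lt_of_le hj hab)

theorem ord_d {u : ℕ → K} {a : ℕ} {P : MvPolynomial ℕ K} (h : ord u a P) :
    ord u (a - 1) (dX K P) := by
  intro j hj
  have := h (j + 1) (by omega)
  rwa [Function.iterate_succ_apply] at this

theorem ord_mul {u : ℕ → K} (j : ℕ) : ∀ {a b : ℕ} {P R : MvPolynomial ℕ K}, ord u a P →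
    ord u b R → j < a + b → MvPolynomial.eval u ((dX K)^[j] (P * R)) = 0 := by
  induction j with
  | zero =>
    intro a b P R hP hR hj
    rw [Function.iterate_zero, id, map_mul]
    rcases Nat.eq_zero_or_pos a with ha | ha
    · have h2 := hR 0 (by omega)
      rw [Function.iterate_zero, id] at h2
      rw [h2, mul_zero]
    · have h2 := hP 0 ha
      rw [Function.iterate_zero, id] at h2
      rw [h2, zero_mul]
  | succ j ih =>
    intro a b P R hP hR hj
    rw [Function.iterate_succ_apply, Derivation.leibniz, smul_eq_mul, smul_eq_mul, dX_iter_add,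
      map_add, ih hP (ord_d hR) (by omega), ih hR (ord_d hP) (by omega), add_zero]

theorem ord_mul' {u : ℕ → K} {a b : ℕ} {P R : MvPolynomial ℕ K} (hP : ord u a P)
    (hR : ord u b R) : ord u (a + b) (P * R) := fun j hj => ord_mul j hP hR hj

theorem ord_prod {u : ℕ → K} {a : ℕ} (l : List (MvPolynomial ℕ K)) (h : ∀ P ∈ l, ord u a P) :
    ord u (l.length * a) l.prod := by
  induction l with
  | nil => intro j hj; simp at hj
  | cons P l ih =>
    rw [List.prod_cons, List.length_cons, add_mul, one_mul, add_comm]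
    exact ord_mul' (h P (by simp)) (ih fun Q hQ => h Q (by simp [hQ]))

theorem eval_dX_sum {ι : Type} (u : ℕ → K) (l : List ι) (P : ι → MvPolynomial ℕ K) (j : ℕ)
    (h : ∀ t ∈ l, MvPolynomial.eval u ((dX K)^[j] (P t)) = 0) :
    MvPolynomial.eval u ((dX K)^[j] (l.map P).sum) = 0 := by
  induction l with
  | nil => rw [List.map_nil, List.sum_nil, dX_iter_zero, map_zero]
  | cons t l ih =>
    rw [List.map_cons, List.sum_cons, dX_iter_add, map_add, h t (by simp),
      ih fun s hs => h s (by simp [hs]), add_zero]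

/-- one more vanishing coefficient -/
theorem step {u : ℕ → K} {k : ℕ} {h : ℕ → K} {W : List (K × List ℕ)}
    (hW : ∀ t ∈ W, 2 ≤ t.2.length)
    (hrel : ∀ m, MvPolynomial.eval u ((dX K)^[m] (rho K k h W)) = 0) {d : ℕ}
    (hd : ∀ t ∈ W, ∀ i ∈ t.2, i ≤ d) {m : ℕ} (hm1 : 2 * d < m) (hm2 : k ≤ m)
    (hz : ∀ j, j < m → u j = 0) : u m = 0 := by
  have hX : ∀ i, i ≤ d → ord u (m - d) (MvPolynomial.X i : MvPolynomial ℕ K) := by
    intro i hi j hj
    rw [dX_iter_X, MvPolynomial.eval_X]
    exact hz _ (by omega)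
  have h0 := hrel (m - k)
  rw [rho, dX_iter_sub, dX_iter_sub, dX_iter_sum, map_sub, map_sub, map_sum, dX_iter_X,
    MvPolynomial.eval_X] at h0
  have h1 : ∑ i ∈ range k, MvPolynomial.eval u
      ((dX K)^[m - k] (MvPolynomial.C (h i) * MvPolynomial.X i)) = 0 := by
    refine Finset.sum_eq_zero fun i hi => ?_
    rw [dX_iter_C_mul, dX_iter_X, map_mul, MvPolynomial.eval_X, hz _ (by
      have := Finset.mem_range.1 hi
      omega), mul_zero]
  have h2 : MvPolynomial.eval u ((dX K)^[m - k]
      (W.map fun t => MvPolynomial.C t.1 * (t.2.map MvPolynomial.X).prod).sum) = 0 := by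
    refine eval_dX_sum u W _ _ fun t ht => ?_
    rw [dX_iter_C_mul, map_mul]
    have h3 : ord u ((t.2.map (MvPolynomial.X : ℕ → MvPolynomial ℕ K)).length * (m - d))
        (t.2.map MvPolynomial.X).prod := by
      refine ord_prod _ fun P hP => ?_
      obtain ⟨i, hi, rfl⟩ := List.mem_map.1 hP
      exact hX i (hd t ht i hi)
    rw [h3 (m - k) ?_, mul_zero]
    rw [List.length_map]
    have h4 : 2 * (m - d) ≤ t.2.length * (m - d) := Nat.mul_le_mul_right _ (hW t ht)
    omega
  rw [h1, h2, sub_zero, sub_zero] at h0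
  rwa [show k + (m - k) = m by omega] at h0

end seq

end FinImgM

open FinImgM

theorem specFinImg : SpecFinImg := by
  classical
  intro K _ V _ κ T hT k h W hW hrel hne f hf hfin
  -- the sequences
  let s : V → ℕ → K := fun v => sq f (κ v)
  have hT' : ∀ v, κ (T v) = shift K (κ v) := fun v => funext fun n => hT v n
  have hsT : ∀ v, s (T v) = shift K (s v) := by
    intro v
    change sq f (κ (T v)) = _
    rw [hT', sq_shift]
  have hsTn : ∀ n v, s (T^[n] v) = ((shift K) ^ n) (s v) := by
    intro n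
    induction n with
    | zero => intro v; simp
    | succ n ih =>
      intro v
      rw [Function.iterate_succ_apply, ih, hsT, pow_succ, Module.End.mul_apply]
  have hval : ∀ v n, s v n ∈ Set.range fun v => sq f (κ v) 0 := by
    intro v n
    refine ⟨T^[n] v, ?_⟩
    change s (T^[n] v) 0 = s v n
    rw [hsTn, shift_pow, zero_add]
  -- every sequence `s v` is a sequence `κ w`
  let g : V →+ V := Polynomial.aeval (R := ℤ) (A := Module.End ℤ V) T.toIntLinearMap f |>.toAddMonoidHom
  have hg : ∀ v, κ (g v) = s v := by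
    have hpow : ∀ (j : ℕ) v, κ ((T.toIntLinearMap ^ j : Module.End ℤ V) v) =
        ((shift K) ^ j) (κ v) := by
      intro j
      induction j with
      | zero => intro v; simp
      | succ j ih =>
        intro v
        rw [pow_succ, pow_succ, Module.End.mul_apply, Module.End.mul_apply, ih]
        congr 1
        exact hT' v
    intro v
    change κ ((Polynomial.aeval (R := ℤ) (A := Module.End ℤ V) T.toIntLinearMap f) v) = sq f (κ v)
    rw [sq_eq, Polynomial.aeval_def, Polynomial.aeval_def, Polynomial.eval₂_eq_sum,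
      Polynomial.eval₂_eq_sum, Polynomial.sum_def, Polynomial.sum_def, LinearMap.sum_apply,
      LinearMap.sum_apply, map_sum]
    refine Finset.sum_congr rfl fun j _ => ?_
    have e1 : ∀ x : V, (algebraMap ℤ (Module.End ℤ V) (f.coeff j)) x = (f.coeff j) • x :=
      fun x => Module.algebraMap_end_apply _ _ _ _ _
    have e2 : ∀ x : ℕ → K, (algebraMap ℤ (Module.End ℤ (ℕ → K)) (f.coeff j)) x =
      (f.coeff j) • x := fun x => Module.algebraMap_end_apply _ _ _ _ _
    rw [Module.End.mul_apply, Module.End.mul_apply, e1, e2, map_zsmul, hpow]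
  -- the bound
  obtain ⟨d, hd⟩ : ∃ d, ∀ t ∈ W, ∀ i ∈ t.2, i ≤ d := by
    refine ⟨(W.map fun t => t.2.sum).sum, fun t ht i hi => ?_⟩
    exact (List.le_sum_of_mem hi).trans (List.le_sum_of_mem (List.mem_map.2 ⟨t, ht, rfl⟩))
  let M0 := 2 * d + k + 1
  have hzero : ∀ w : V, (∀ j, j < M0 → κ w j = 0) → κ w = 0 := by
    intro w hw
    funext n
    induction n using Nat.strong_induction_on with
    | _ n ih =>
      by_cases hn : n < M0
      · exact hw n hn
      · exact step hW (hrel w) hd (by omega) (by omega) fun j hj => ih j hj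
  -- finitely many sequences
  have hinj : ∀ v w : V, (∀ j, j < M0 → s v j = s w j) → s v = s w := by
    intro v w hvw
    have h1 := hzero (g (v - w)) fun j hj => by
      rw [map_sub, map_sub, hg, hg, Pi.sub_apply, hvw j hj, sub_self]
    rw [map_sub, map_sub, hg, hg, sub_eq_zero] at h1
    exact h1
  have hfinS : (Set.range s).Finite := by
    have h1 : (Set.pi Set.univ fun _ : Fin M0 => Set.range fun v => sq f (κ v) 0).Finite :=
      Set.Finite.pi fun _ => hfin
    refine Set.Finite.of_finite_image (f := fun (u : ℕ → K) (j : Fin M0) => u j)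
      (h1.subset ?_) ?_
    · rintro _ ⟨_, ⟨v, rfl⟩, rfl⟩
      exact fun j _ => hval v j
    · rintro _ ⟨v, rfl⟩ _ ⟨w, rfl⟩ hvw
      exact hinj v w fun j hj => congrFun hvw ⟨j, hj⟩
  -- the shift is eventually periodic on them
  have : Finite (Set.range s) := hfinS
  let S' : Set.range s → Set.range s := fun u => ⟨shift K u, by
    obtain ⟨v, hv⟩ := u.2
    exact ⟨T v, by rw [hsT, hv]⟩⟩
  obtain ⟨a, b, hab, heq⟩ := Finite.exists_ne_map_eq_of_infinite fun n : ℕ => S'^[n]
  have hS' : ∀ n (u : Set.range s), ((S'^[n] u : Set.range s) : ℕ → K) = ((shift K) ^ n) u := by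
    intro n
    induction n with
    | zero => intro u; simp
    | succ n ih =>
      intro u
      rw [Function.iterate_succ_apply, ih, pow_succ, Module.End.mul_apply]
  have hper : ∀ v, s v a = s v b := by
    intro v
    have h1 := congrArg (fun g => ((g ⟨s v, v, rfl⟩ : Set.range s) : ℕ → K) 0) heq
    simpa only [hS', shift_pow, zero_add] using h1
  have hfinal : ∀ a b : ℕ, a < b → (∀ v, s v a = s v b) → False := by
    intro a b hab hper
    have hmon : (Polynomial.X ^ b - Polynomial.X ^ a : Polynomial ℤ).Monic := by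
      refine Polynomial.monic_X_pow_sub ?_
      rw [Polynomial.degree_X_pow]
      exact_mod_cast hab
    obtain ⟨v, hv⟩ := hne ((Polynomial.X ^ b - Polynomial.X ^ a) * f) (hmon.mul hf)
    refine hv ?_
    rw [sq_mul, sq_eq (Polynomial.X ^ b - Polynomial.X ^ a), map_sub, map_pow, map_pow,
      Polynomial.aeval_X, LinearMap.sub_apply, Pi.sub_apply, shift_pow, shift_pow, zero_add,
      zero_add, sub_eq_zero]
    exact (hper v).symm
  rcases lt_or_gt_of_ne hab with h1 | h1
  · exact hfinal a b h1 hper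
  · exact hfinal b a h1 fun v => (hper v).symm

end Pool.Agent.Lib.MP_8f946f_al.Sol
end

section
/-!
RFQ: the sufficiency theorem of `Main.lean` for a single algebra.
-/
set_option autoImplicit false

namespace Pool.Agent.Lib.MP_8f946f_al.Sol

open Polynomial

namespace RfqM

variable {F : Type} [Field F] {L : Type} [LieRing L] [LieAlgebra F L]

theorem gam_map {L' : Type} [LieRing L'] [LieAlgebra F L'] (q : L →ₗ⁅F⁆ L')
    (hq : Function.Surjective q) (N : LieIdeal F L) (c : ℕ) :
    gam (LieIdeal.map q N) c = LieIdeal.map q (gam N c) := by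
  induction c with
  | zero => rfl
  | succ c ih =>
    change ⁅LieIdeal.map q N, gam (LieIdeal.map q N) c⁆ = LieIdeal.map q ⁅N, gam N c⁆
    rw [ih, LieIdeal.map_bracket_eq q hq]

theorem finDim_of_surj {L' : Type} [LieRing L'] [LieAlgebra F L'] (q : L →ₗ⁅F⁆ L')
    (hq : Function.Surjective q) (N : LieIdeal F L) (N' : LieIdeal F L') (h : ∀ n ∈ N, q n ∈ N')
    (hN : FiniteDimensional F (L ⧸ N)) : FiniteDimensional F (L' ⧸ N') := by
  let g : (L ⧸ N.toSubmodule) →ₗ[F] (L' ⧸ N'.toSubmodule) :=
    Submodule.mapQ N.toSubmodule N'.toSubmodule (q : L →ₗ[F] L') h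
  have hg : Function.Surjective g := by
    intro y
    obtain ⟨y, rfl⟩ := Submodule.mkQ_surjective _ y
    obtain ⟨x, rfl⟩ := hq y
    exact ⟨Submodule.Quotient.mk x, rfl⟩
  have hN' : Module.Finite F (L ⧸ N.toSubmodule) := hN
  exact Module.Finite.of_surjective g hg

theorem map_mkHom_eq_bot (I J : LieIdeal F L) (h : J ≤ I) : LieIdeal.map (mkHom I) J = ⊥ := by
  rw [eq_bot_iff, LieIdeal.map_le_iff_le_comap]
  intro y hy
  rw [LieIdeal.mem_comap, (mkHom_eq_zero I y).2 (h hy)]
  exact LieSubmodule.zero_mem _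

end RfqM

open RfqM in
/-- Module RFQ -/
theorem specRfq : SpecRfq := by
  intro F _ _ Γ hid L _ _ hL hfg N c hN hc a ha
  obtain ⟨k, c', w, hw, hV⟩ := hid
  have hV' : ∀ (L : Type) [LieRing L] [LieAlgebra F L], Satisfies Γ L →
      ∀ (A B : LieIdeal F L) (x f g : L), f ∈ A → g ∈ B → monicForm k c' x f g ∈ third A B := by
    intro L _ _ hL A B x f g hf hg
    exact monicForm_mem_third k c' w hw L (hV L hL) A B x f g hf hg
  obtain ⟨I, haI, hI⟩ := exists_maximal_avoiding (F := F) a ha
  refine ⟨I, ?_, haI⟩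
  have hsat : Satisfies Γ (L ⧸ I) := hL.quotient I
  have hfg' : IsFG F (L ⧸ I) := hfg.of_surjective (mkHom I) (mkHom_surjective I)
  have hQ : FiniteDimensional F ((L ⧸ I) ⧸ LieIdeal.map (mkHom I) N) :=
    finDim_of_surj (mkHom I) (mkHom_surjective I) N _ (fun n hn => LieIdeal.mem_map hn) hN
  have hcc : gam (LieIdeal.map (mkHom I) N) c = ⊥ := by
    rw [gam_map _ (mkHom_surjective I), hc]
    exact map_mkHom_eq_bot I ⊥ bot_le
  have hQ' : Finite ((L ⧸ I) ⧸ LieIdeal.map (mkHom I) N) := Module.finite_of_finite F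
  have hfin : Finite (L ⧸ I) := by
    refine finite_of_mono (LieIdeal.map (mkHom I) N) k c' (fun i x f hf g hg =>
        third_gam_le _ i (hV' (L ⧸ I) hsat _ (gam _ i) x f g hf hg))
      (fun y => exists_monic_kill k c' hV' (L ⧸ I) hsat _ c hcc y) hfg' c hcc
      (mkHom I a) ?_ ?_
    · rw [Ne, mkHom_eq_zero]
      exact haI
    · intro U hU
      by_contra hcon
      apply hU
      have h1 : LieIdeal.comap (mkHom I) U ≤ I := by
        apply hI
        · intro y hy
          rw [LieIdeal.mem_comap, (mkHom_eq_zero I y).2 hy]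
          exact U.zero_mem
        · rw [LieIdeal.mem_comap]
          exact hcon
      rw [eq_bot_iff]
      intro u hu
      obtain ⟨y, rfl⟩ := mkHom_surjective I u
      rw [LieSubmodule.mem_bot, mkHom_eq_zero]
      exact h1 (LieIdeal.mem_comap.2 hu)
  exact Module.Finite.of_finite

end Pool.Agent.Lib.MP_8f946f_al.Sol
end

section
/-!
FINAL: locally soluble-by-finite varieties with a monic identity are locally nilpotent-by-finite.
-/
set_option autoImplicit false

namespace Pool.Agent.Lib.MP_8f946f_al.Sol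

open Polynomial

namespace FinalM

open RfqM

variable {F : Type} [Field F] {L : Type} [LieRing L] [LieAlgebra F L]

theorem der_map {L' : Type} [LieRing L'] [LieAlgebra F L'] (q : L →ₗ⁅F⁆ L')
    (hq : Function.Surjective q) (S : LieIdeal F L) (d : ℕ) :
    LieAlgebra.derivedSeriesOfIdeal F L' d (LieIdeal.map q S) =
      LieIdeal.map q (LieAlgebra.derivedSeriesOfIdeal F L d S) := by
  induction d with
  | zero => rfl
  | succ d ih =>
    rw [LieAlgebra.derivedSeriesOfIdeal_succ, LieAlgebra.derivedSeriesOfIdeal_succ, ih,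
      LieIdeal.map_bracket_eq q hq]

theorem finDim_inf (N N' : LieIdeal F L) (h : FiniteDimensional F (L ⧸ N))
    (h' : FiniteDimensional F (L ⧸ N')) : FiniteDimensional F (L ⧸ N ⊓ N') := by
  have h1 : Module.Finite F (L ⧸ N.toSubmodule) := h
  have h2 : Module.Finite F (L ⧸ N'.toSubmodule) := h'
  let g : (L ⧸ (N ⊓ N').toSubmodule) →ₗ[F] (L ⧸ N.toSubmodule) × (L ⧸ N'.toSubmodule) :=
    Submodule.liftQ _ ((Submodule.mkQ N.toSubmodule).prod (Submodule.mkQ N'.toSubmodule)) (by
      intro x hx
      have hx' : x ∈ N ∧ x ∈ N' := (LieSubmodule.mem_inf _ _ _).1 hx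
      rw [LinearMap.mem_ker, LinearMap.prod_apply, Prod.mk_eq_zero]
      exact ⟨(Submodule.Quotient.mk_eq_zero _).2 hx'.1, (Submodule.Quotient.mk_eq_zero _).2 hx'.2⟩)
  have hg : Function.Injective g := by
    rw [← LinearMap.ker_eq_bot, eq_bot_iff]
    intro y hy
    obtain ⟨x, rfl⟩ := Submodule.mkQ_surjective _ y
    rw [LinearMap.mem_ker] at hy
    have hy' : (Submodule.mkQ N.toSubmodule x, Submodule.mkQ N'.toSubmodule x) = 0 := hy
    rw [Prod.mk_eq_zero] at hy'
    rw [Submodule.mem_bot]
    exact (Submodule.Quotient.mk_eq_zero _).2 ((LieSubmodule.mem_inf _ _ _).2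
      ⟨(Submodule.Quotient.mk_eq_zero _).1 hy'.1, (Submodule.Quotient.mk_eq_zero _).1 hy'.2⟩)
  exact Module.Finite.of_injective g hg

theorem gam_mono {N N' : LieIdeal F L} (h : N ≤ N') (c : ℕ) : gam N c ≤ gam N' c := by
  induction c with
  | zero => exact h
  | succ c ih => exact LieSubmodule.mono_lie h ih

theorem finDim_comap {L' : Type} [LieRing L'] [LieAlgebra F L'] (q : L →ₗ⁅F⁆ L')
    (N : LieIdeal F L') (h : FiniteDimensional F (L' ⧸ N)) :
    FiniteDimensional F (L ⧸ LieIdeal.comap q N) := by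
  have h1 : Module.Finite F (L' ⧸ N.toSubmodule) := h
  let g : (L ⧸ (LieIdeal.comap q N).toSubmodule) →ₗ[F] (L' ⧸ N.toSubmodule) :=
    Submodule.mapQ (LieIdeal.comap q N).toSubmodule N.toSubmodule (q : L →ₗ[F] L')
      (fun x hx => hx)
  have hg : Function.Injective g := by
    rw [← LinearMap.ker_eq_bot, eq_bot_iff]
    intro y hy
    obtain ⟨x, rfl⟩ := Submodule.mkQ_surjective _ y
    rw [LinearMap.mem_ker] at hy
    have hy' : Submodule.mkQ N.toSubmodule (q x) = 0 := hy
    rw [Submodule.mem_bot]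
    exact (Submodule.Quotient.mk_eq_zero (LieIdeal.comap q N).toSubmodule).2
      ((Submodule.Quotient.mk_eq_zero N.toSubmodule).1 hy')
  exact Module.Finite.of_injective g hg

theorem map_incl_lie (A : LieIdeal F L) (N N'' : LieIdeal F L) (h : N'' ≤ N)
    (U : LieSubmodule F L A) (G : LieIdeal F L) (hG : G ≤ U.map (LieSubmodule.incl A)) :
    ⁅N'', G⁆ ≤ (⁅N, U⁆ : LieSubmodule F L A).map (LieSubmodule.incl A) := by
  rw [LieSubmodule.map_bracket_eq]
  exact LieSubmodule.mono_lie h hG

end FinalM

open RfqM FinalM in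
/-- Module FINAL -/
theorem specFinal (hO : SpecOpMI) (hP : SpecP) (hR : SpecRfq) : SpecFinal := by
  intro F _ _ Γ hS hid
  obtain ⟨k, c', w, hw, hV⟩ := id hid
  obtain ⟨W, hW, hOp⟩ := hO F k c' w hw
  have key : ∀ (d : ℕ) (L : Type) [LieRing L] [LieAlgebra F L], Satisfies Γ L → IsFG F L →
      ∀ S : LieIdeal F L, FiniteDimensional F (L ⧸ S) →
        LieAlgebra.derivedSeriesOfIdeal F L d S = ⊥ →
        ∃ (N : LieIdeal F L) (c : ℕ), FiniteDimensional F (L ⧸ N) ∧ gam N c = ⊥ := by
    intro d
    induction d with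
    | zero =>
      intro L _ _ _ _ S hfin hS0
      have h0 : S = ⊥ := hS0
      exact ⟨S, 0, hfin, h0⟩
    | succ d ih =>
      intro L _ _ hL hfg S hfin hSd
      let A : LieIdeal F L := LieAlgebra.derivedSeriesOfIdeal F L d S
      have hAA : ⁅A, A⁆ = (⊥ : LieIdeal F L) := by
        rw [LieAlgebra.derivedSeriesOfIdeal_succ] at hSd
        exact hSd
      have hab : ∀ a ∈ A, ∀ b ∈ A, ⁅a, b⁆ = 0 := by
        intro a ha b hb
        have h1 : ⁅a, b⁆ ∈ (⁅A, A⁆ : LieIdeal F L) := LieSubmodule.lie_mem_lie ha hb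
        rwa [hAA, LieSubmodule.mem_bot] at h1
      obtain ⟨N0, c, hN0, hc⟩ := ih (L ⧸ A) (hL.quotient A)
        (hfg.of_surjective (mkHom A) (mkHom_surjective A)) (LieIdeal.map (mkHom A) S)
        (finDim_of_surj (mkHom A) (mkHom_surjective A) S _
          (fun n hn => LieIdeal.mem_map hn) hfin)
        (by
          rw [der_map _ (mkHom_surjective A)]
          exact map_mkHom_eq_bot A A le_rfl)
      let N : LieIdeal F L := LieIdeal.comap (mkHom A) N0
      have hN : FiniteDimensional F (L ⧸ N) := finDim_comap (mkHom A) N0 hN0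
      have hgA : gam N c ≤ A := by
        have h1 : gam (LieIdeal.map (mkHom A) N) c ≤ gam N0 c :=
          gam_mono (LieIdeal.map_comap_le) c
        rw [gam_map _ (mkHom_surjective A), hc] at h1
        intro y hy
        have h2 := h1 (LieIdeal.mem_map hy)
        rw [LieSubmodule.mem_bot] at h2
        exact (mkHom_eq_zero A y).1 h2
      have hsat := hV L hL
      have hI : ∀ I : LieIdeal F L, (∃ (N : LieIdeal F L) (d : ℕ), FiniteDimensional F (L ⧸ N) ∧
          gam N d ≤ I) → IsRF F (L ⧸ I) := by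
        rintro I ⟨N1, d1, hN1, hd1⟩
        refine hR F Γ hid (L ⧸ I) (hL.quotient I)
          (hfg.of_surjective (mkHom I) (mkHom_surjective I)) (LieIdeal.map (mkHom I) N1) d1
          (finDim_of_surj (mkHom I) (mkHom_surjective I) N1 _
            (fun n hn => LieIdeal.mem_map hn) hN1) ?_
        rw [gam_map _ (mkHom_surjective I)]
        exact map_mkHom_eq_bot I _ hd1
      have hG : ∀ N : LieIdeal F L, FiniteDimensional F (L ⧸ N) → ∀ i, ∃ S : Set L, S.Finite ∧
          S ⊆ gam N i ∧ gam N i ≤ LieSubmodule.lieSpan F L S ⊔ gam N (i + 1) := by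
        intro N1 hN1 i
        have hfin1 : Finite (L ⧸ N1) := Module.finite_of_finite F
        exact gam_fg N1 k c' (fun i x f hf g hg => third_gam_le N1 i
          (monicForm_mem_third k c' w hw L hsat N1 (gam N1 i) x f g hf hg)) hfg i
      obtain ⟨N', n, hN', hn⟩ := hP F L k c' W hW hI hG c A (hOp L hsat A hab) N hN
        (fun y hy m => Subtype.ext (by
          rw [LieSubmodule.coe_bracket]
          exact hab y (hgA hy) m m.2))
      refine ⟨N ⊓ N', c + n, finDim_inf N N' hN hN', ?_⟩
      have h3 : ∀ i, gam (N ⊓ N') (c + i) ≤ (itm N' i : LieSubmodule F L A).map (LieSubmodule.incl A) := by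
        intro i
        induction i with
        | zero =>
          refine le_trans (gam_mono inf_le_left c) (le_trans hgA ?_)
          intro y hy
          exact (LieSubmodule.mem_map _).2 ⟨⟨y, hy⟩, LieSubmodule.mem_top _, rfl⟩
        | succ i ih2 => exact map_incl_lie A N' (N ⊓ N') inf_le_right _ _ ih2
      have h4 := h3 n
      rw [hn, LieSubmodule.map_bot] at h4
      exact le_bot_iff.1 h4
  intro L _ _ hL hfg
  obtain ⟨S, d, hfin, hd⟩ := hS L hL hfg
  exact key d L hL hfg S hfin hd

end Pool.Agent.Lib.MP_8f946f_al.Sol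
end

section
/-!
# Powers of derivations (used in GEN and RFIN)
-/
set_option autoImplicit false

namespace Pool.Agent.Lib.MP_8f946f_al.Sol

open Finset

namespace DerPow

variable {K A : Type} [Field K] [Ring A] [Algebra K A]

/-- Leibniz formula for the powers of a derivation -/
theorem leibniz_pow (D : A →ₗ[K] A) (hD : ∀ a b, D (a * b) = D a * b + a * D b) (n : ℕ) (a b : A) :
    (D ^ n) (a * b) =
      ∑ ij ∈ antidiagonal n, n.choose ij.1 • ((D ^ ij.1) a * (D ^ ij.2) b) := by
  induction n with
  | zero => simp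
  | succ n ih =>
    rw [sum_antidiagonal_choose_succ_nsmul (M := A) (fun i j => (D ^ i) a * (D ^ j) b) n,
      pow_succ', Module.End.mul_apply, ih, map_sum]
    simp only [map_nsmul, hD, nsmul_add, sum_add_distrib]
    rw [add_comm]
    congr 1
    · refine sum_congr rfl fun ij hij => ?_
      have h1 : ij.1 + ij.2 = n := HasAntidiagonal.mem_antidiagonal.1 hij
      rw [Nat.choose_symm_of_eq_add (show n = ij.1 + ij.2 by omega), pow_succ',
        Module.End.mul_apply]
    · refine sum_congr rfl fun ij hij => ?_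
      have h1 : ij.1 + ij.2 = n := HasAntidiagonal.mem_antidiagonal.1 hij
      rw [Nat.choose_symm_of_eq_add (show n = ij.1 + ij.2 by omega), pow_succ',
        Module.End.mul_apply]

/-- in characteristic `p` the `p^s`-th power of a derivation is a derivation -/
theorem der_pow (p : ℕ) [Fact p.Prime] [CharP K p] (D : A →ₗ[K] A)
    (hD : ∀ a b, D (a * b) = D a * b + a * D b) (s : ℕ) (a b : A) :
    (D ^ p ^ s) (a * b) = (D ^ p ^ s) a * b + a * (D ^ p ^ s) b := by
  have hp : p.Prime := Fact.out
  have hpos : p ^ s ≠ 0 := pow_ne_zero _ hp.ne_zero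
  rw [leibniz_pow D hD]
  have h0 : ∀ (m : ℕ), p ∣ m → ∀ z : A, m • z = 0 := by
    intro m hm z
    rw [← Nat.cast_smul_eq_nsmul K, (CharP.cast_eq_zero_iff K p m).2 hm, zero_smul]
  rw [← Finset.sum_subset (s₁ := {(p ^ s, 0), (0, p ^ s)})]
  · rw [Finset.sum_pair (fun h => hpos (congrArg Prod.fst h))]
    simp
  · intro x hx
    simp only [mem_insert, mem_singleton] at hx
    rcases hx with rfl | rfl <;> simp [HasAntidiagonal.mem_antidiagonal]
  · intro x hx hx'
    rw [HasAntidiagonal.mem_antidiagonal] at hx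
    simp only [mem_insert, mem_singleton, not_or] at hx'
    refine h0 _ (hp.dvd_choose_pow (fun h => hx'.2 ?_) (fun h => hx'.1 ?_)) _
    · rcases x with ⟨x, y⟩
      simp only at h hx
      subst h
      simp only [Prod.mk.injEq, true_and]
      omega
    · rcases x with ⟨x, y⟩
      simp only at h hx
      subst h
      simp only [Prod.mk.injEq, true_and]
      omega

end DerPow

end Pool.Agent.Lib.MP_8f946f_al.Sol
end

section
/-!
# Module GEN: the generic point
-/
set_option autoImplicit false

namespace Pool.Agent.Lib.MP_8f946f_al.Sol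

open Polynomial Finset

namespace GenM

section
variable {K : Type} [Field K]

theorem dX_X (i : ℕ) : dX K (MvPolynomial.X i) = MvPolynomial.X (i + 1) := by
  rw [dX, MvPolynomial.mkDerivation_X]

/-- `dX` as a linear map -/
noncomputable def dL (K : Type) [Field K] : MvPolynomial ℕ K →ₗ[K] MvPolynomial ℕ K :=
  (dX K : MvPolynomial ℕ K →ₗ[K] MvPolynomial ℕ K)

theorem dL_apply (P : MvPolynomial ℕ K) : dL K P = dX K P := rfl

theorem dL_pow (m : ℕ) (P : MvPolynomial ℕ K) : ((dL K) ^ m) P = (dX K)^[m] P := by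
  rw [Module.End.pow_apply]
  rfl

theorem dL_mul (a b : MvPolynomial ℕ K) : dL K (a * b) = dL K a * b + a * dL K b := by
  rw [dL_apply, Derivation.leibniz, smul_eq_mul, smul_eq_mul, dL_apply, dL_apply]
  ring

theorem dX_pow_X (m i : ℕ) : (dX K)^[m] (MvPolynomial.X i) = MvPolynomial.X (i + m) := by
  induction m with
  | zero => rfl
  | succ m ih =>
    rw [Function.iterate_succ_apply', ih, dX_X]
    rfl

theorem sum_der (s : Finset ℕ) (D : ℕ → Derivation K (MvPolynomial ℕ K) (MvPolynomial ℕ K))
    (Q : MvPolynomial ℕ K) : (∑ n ∈ s, D n) Q = ∑ n ∈ s, D n Q := by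
  classical
  induction s using Finset.induction_on with
  | empty => simp
  | insert a s ha ih =>
    rw [Finset.sum_insert ha, Finset.sum_insert ha, Derivation.add_apply, ih]

/-- the derivation `dX ^ (p ^ i)` -/
theorem dX_pow_char (p : ℕ) [Fact p.Prime] [CharP K p] (i N : ℕ) (P : MvPolynomial ℕ K)
    (hP : P.vars ⊆ range N) :
    (dX K)^[p ^ i] P = ∑ n ∈ range N, MvPolynomial.pderiv n P * MvPolynomial.X (n + p ^ i) := by
  -- the derivation on the left
  let D₁ : Derivation K (MvPolynomial ℕ K) (MvPolynomial ℕ K) :=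
    Derivation.mk' ((dL K) ^ p ^ i) fun a b => by
      rw [DerPow.der_pow p (dL K) dL_mul i a b, smul_eq_mul, smul_eq_mul]
      ring
  let D₂ : Derivation K (MvPolynomial ℕ K) (MvPolynomial ℕ K) :=
    ∑ n ∈ range N, (MvPolynomial.X (n + p ^ i) : MvPolynomial ℕ K) • MvPolynomial.pderiv n
  have h1 : D₁ P = (dX K)^[p ^ i] P := dL_pow _ _
  have h2' : ∀ Q, D₂ Q =
      ∑ n ∈ range N, MvPolynomial.pderiv n Q * MvPolynomial.X (n + p ^ i) := by
    intro Q
    show (∑ n ∈ range N, (MvPolynomial.X (n + p ^ i) : MvPolynomial ℕ K) •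
      MvPolynomial.pderiv n : Derivation K (MvPolynomial ℕ K) (MvPolynomial ℕ K)) Q = _
    rw [sum_der]
    refine Finset.sum_congr rfl fun n _ => ?_
    rw [Derivation.smul_apply, smul_eq_mul, mul_comm]
  rw [← h1, ← h2']
  refine MvPolynomial.derivation_eq_of_forall_mem_vars fun j hj => ?_
  have hj' : j ∈ range N := hP hj
  rw [h2', Finset.sum_eq_single j]
  · rw [MvPolynomial.pderiv_X_self, one_mul]
    exact (dL_pow _ _).trans (dX_pow_X _ _)
  · intro n _ hn
    rw [MvPolynomial.pderiv_X_of_ne (fun h => hn h.symm), zero_mul]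
  · intro h
    exact absurd hj' h

theorem cc_prod (D : Derivation K (MvPolynomial ℕ K) (MvPolynomial ℕ K)) (l : List ℕ)
    (hl : 2 ≤ l.length) :
    MvPolynomial.constantCoeff (D (l.map MvPolynomial.X).prod) = 0 := by
  match l, hl with
  | a :: b :: l, _ =>
    simp only [List.map_cons, List.prod_cons, Derivation.leibniz, smul_eq_mul, map_add, map_mul,
      MvPolynomial.constantCoeff_X, zero_mul, add_zero]

theorem cc_rho (k : ℕ) (h : ℕ → K) (W : List (K × List ℕ)) (hW : ∀ t ∈ W, 2 ≤ t.2.length) :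
    MvPolynomial.constantCoeff (MvPolynomial.pderiv k (rho K k h W)) = 1 := by
  unfold rho
  have h1 : (MvPolynomial.pderiv k) (∑ j ∈ range k,
      MvPolynomial.C (h j) * MvPolynomial.X (R := K) j) = 0 := by
    rw [map_sum]
    refine Finset.sum_eq_zero fun j hj => ?_
    rw [Derivation.leibniz, MvPolynomial.pderiv_C, MvPolynomial.pderiv_X_of_ne
      (by have := Finset.mem_range.1 hj; omega)]
    simp
  have h2 : MvPolynomial.constantCoeff ((MvPolynomial.pderiv k)
      (W.map fun t => MvPolynomial.C t.1 * (t.2.map MvPolynomial.X).prod).sum) = (0 : K) := by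
    clear h1
    induction W with
    | nil => simp
    | cons t W ih =>
      rw [List.map_cons, List.sum_cons, map_add, map_add,
        ih fun t ht => hW t (List.mem_cons_of_mem _ ht), add_zero, Derivation.leibniz,
        MvPolynomial.pderiv_C, smul_zero, add_zero, smul_eq_mul, map_mul,
        cc_prod _ _ (hW t List.mem_cons_self), mul_zero]
  simp only [map_sub, MvPolynomial.pderiv_X_self, map_one, h1, h2, sub_zero]

/-- additivity of `sq` -/
theorem sq_sub (f : ℤ[X]) (a b : ℕ → K) (n : ℕ) : sq f (a - b) n = sq f a n - sq f b n := by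
  unfold sq
  rw [Polynomial.sum_def, Polynomial.sum_def, Polynomial.sum_def, ← Finset.sum_sub_distrib]
  refine Finset.sum_congr rfl fun j _ => ?_
  rw [Pi.sub_apply]
  ring

/-- the polynomial `∑_j q_j X_{n+j}` -/
noncomputable def lin (K : Type) [Field K] (q : ℤ[X]) (n : ℕ) : MvPolynomial ℕ K :=
  q.sum fun j a => MvPolynomial.C (a : K) * MvPolynomial.X (n + j)

theorem lin_map {B : Type} [CommRing B] (g : MvPolynomial ℕ K →+* B) (q : ℤ[X]) (n : ℕ) :
    g (lin K q n) = q.sum fun j a => (a : B) * g (MvPolynomial.X (n + j)) := by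
  unfold lin
  rw [Polynomial.sum_def, Polynomial.sum_def, map_sum]
  refine Finset.sum_congr rfl fun j _ => ?_
  rw [map_mul]
  congr 1
  have h1 : MvPolynomial.C (σ := ℕ) ((q.coeff j : ℤ) : K) =
      ((q.coeff j : ℤ) : MvPolynomial ℕ K) := by
    rw [map_intCast]
  rw [h1, map_intCast]

end

end GenM

open GenM in
theorem specGen (hPrime : SpecPrime) (hRec : SpecRec) : SpecGen := by
  intro K _ p _ _ V _ κ T hT k h W hW hrho hinf
  have hp : p.Prime := Fact.out
  obtain ⟨I, hI, hmem⟩ := hPrime K V κ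
  have := hI
  let Q := AlgebraicClosure (FractionRing (MvPolynomial ℕ K ⧸ I))
  let π : MvPolynomial ℕ K →ₐ[K] Q :=
    ((Algebra.algHom K (FractionRing (MvPolynomial ℕ K ⧸ I)) Q).comp
      (Algebra.algHom K (MvPolynomial ℕ K ⧸ I) (FractionRing (MvPolynomial ℕ K ⧸ I)))).comp
      (Ideal.Quotient.mkₐ K I)
  have hπ : ∀ P, π P = 0 ↔ P ∈ I := by
    intro P
    show algebraMap (FractionRing (MvPolynomial ℕ K ⧸ I)) Q
      (algebraMap (MvPolynomial ℕ K ⧸ I) (FractionRing (MvPolynomial ℕ K ⧸ I))
        (Ideal.Quotient.mk I P)) = 0 ↔ _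
    rw [map_eq_zero_iff _ (FaithfulSMul.algebraMap_injective _ _),
      map_eq_zero_iff _ (IsFractionRing.injective _ _), Ideal.Quotient.eq_zero_iff_mem]
  let u : ℕ → Q := fun n => π (MvPolynomial.X n)
  have hπu : ∀ P, π P = MvPolynomial.aeval u P := by
    intro P
    have : π = MvPolynomial.aeval u := by
      refine MvPolynomial.algHom_ext fun n => ?_
      rw [MvPolynomial.aeval_X]
    rw [this]
  -- the iterates of `T`
  have hTm : ∀ (m : ℕ) (v : V) (n : ℕ), κ (T^[m] v) n = κ v (n + m) := by
    intro m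
    induction m with
    | zero => intro v n; rfl
    | succ m ih =>
      intro v n
      rw [Function.iterate_succ_apply, ih, hT]
      congr 1
  -- shifts preserve `I`
  have hsh1 : ∀ P ∈ I, MvPolynomial.rename (fun n => n + 1) P ∈ I := by
    intro P hP
    obtain ⟨H, hH, hz⟩ := (hmem P).1 hP
    refine (hmem _).2 ⟨H.comap T, ?_, fun v hv => ?_⟩
    · constructor
      rw [← AddSubgroup.relIndex_top_right, ← AddSubgroup.comap_top T]
      exact AddSubgroup.relIndex_comap_ne_zero T
        (by rw [AddSubgroup.relIndex_top_right]; exact hH.index_ne_zero)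
    · rw [MvPolynomial.eval_rename]
      have h1 : (κ v ∘ fun n => n + 1) = κ (T v) := by
        funext n
        exact (hT v n).symm
      rw [h1]
      exact hz _ hv
  have hsh : ∀ (m : ℕ), ∀ P ∈ I, MvPolynomial.rename (fun n => n + m) P ∈ I := by
    intro m
    induction m with
    | zero =>
      intro P hP
      have h0 : (fun n : ℕ => n + 0) = id := rfl
      rw [h0, MvPolynomial.rename_id_apply]
      exact hP
    | succ m ih =>
      intro P hP
      have h1 := hsh1 _ (ih P hP)
      rw [MvPolynomial.rename_rename] at h1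
      exact h1
  -- the ideal `I` has no constant term
  have hcc : ∀ P ∈ I, MvPolynomial.constantCoeff P = 0 := by
    intro P hP
    obtain ⟨H, hH, hz⟩ := (hmem P).1 hP
    have h1 := hz 0 H.zero_mem
    rw [map_zero, MvPolynomial.eval_zero] at h1
    exact h1
  have hdX : ∀ m, (dX K)^[m] (rho K k h W) ∈ I := fun m =>
    (hmem _).2 ⟨⊤, inferInstance, fun v _ => hrho v m⟩
  obtain ⟨N, hN⟩ : ∃ N, (rho K k h W).vars ⊆ range N := by
    refine ⟨(rho K k h W).vars.sup id + 1, fun j hj => ?_⟩
    rw [Finset.mem_range]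
    have := Finset.le_sup (f := id) hj
    simp only [id] at this
    omega
  classical
  -- the coefficients
  let α : ℕ → ℕ → Q := fun m n =>
    π (MvPolynomial.rename (fun i => i + m) (MvPolynomial.pderiv n (rho K k h W)))
  have hαmono : ∀ m m' n, m ≤ m' → α m n = 0 → α m' n = 0 := by
    intro m m' n hmm hz
    obtain ⟨d, rfl⟩ := Nat.exists_eq_add_of_le hmm
    rw [hπ] at hz ⊢
    have h1 := hsh d _ hz
    rw [MvPolynomial.rename_rename] at h1
    have h2 : ((fun n => n + d) ∘ fun i => i + m) = fun i : ℕ => i + (m + d) := by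
      funext i
      simp only [Function.comp_apply]
      ring
    rw [h2] at h1
    exact h1
  have hrel : ∀ m i, ∑ n ∈ range N, α m n * u (m + n + p ^ i) = 0 := by
    intro m i
    have h1 := hsh m _ (hdX (p ^ i))
    rw [dX_pow_char p i N _ hN, map_sum, ← hπ, map_sum] at h1
    rw [← h1]
    refine Finset.sum_congr rfl fun n _ => ?_
    rw [map_mul, map_mul, MvPolynomial.rename_X, show n + p ^ i + m = m + n + p ^ i by ring]
  have hαk : ∀ m, α m k ≠ 0 := by
    intro m hz
    rw [hπ] at hz
    have h1 := hcc _ hz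
    rw [MvPolynomial.constantCoeff_rename, cc_rho k h W hW] at h1
    exact one_ne_zero h1
  have hkN : k < N := by
    by_contra hc
    apply hαk 0
    show π (MvPolynomial.rename (fun i => i + 0) (MvPolynomial.pderiv k (rho K k h W))) = 0
    rw [MvPolynomial.pderiv_eq_zero_of_notMem_vars, map_zero, map_zero]
    intro hk
    exact hc (Finset.mem_range.1 (hN hk))
  -- the leading index
  let S : Finset ℕ := (range N).filter fun n => ∀ m, α m n ≠ 0
  have hkS : k ∈ S := Finset.mem_filter.2 ⟨Finset.mem_range.2 hkN, hαk⟩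
  let J := S.max' ⟨k, hkS⟩
  have hJ : J ∈ S := S.max'_mem _
  have hJN : J < N := Finset.mem_range.1 (Finset.mem_filter.1 hJ).1
  have hex : ∀ n, ∃ m, n < N → J < n → α m n = 0 := by
    intro n
    by_cases hn : n < N ∧ J < n
    · have h1 : n ∉ S := fun hnS => absurd (S.le_max' n hnS) (not_le.2 hn.2)
      have h2 : ¬ ∀ m, α m n ≠ 0 := fun hc =>
        h1 (Finset.mem_filter.2 ⟨Finset.mem_range.2 hn.1, hc⟩)
      push Not at h2
      obtain ⟨m, hm⟩ := h2
      exact ⟨m, fun _ _ => hm⟩
    · exact ⟨0, fun h1 h2 => absurd ⟨h1, h2⟩ hn⟩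
  choose mf hmf using hex
  let m₀ := (range N).sup mf
  obtain ⟨G, hG0, hG⟩ := hRec Q u (fun i => p ^ i) (Nat.pow_right_injective hp.two_le) J m₀ α
    (fun m _ => (Finset.mem_filter.1 hJ).2 m) (fun m hm i => by
      rw [← hrel m i]
      refine Finset.sum_subset (fun n hn => ?_) fun n hn hn' => ?_
      · have := Finset.mem_range.1 hn
        exact Finset.mem_range.2 (by omega)
      · have h1 : n < N := Finset.mem_range.1 hn
        have h2 : J < n := by
          by_contra hc
          exact hn' (Finset.mem_range.2 (by omega))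
        rw [hαmono (mf n) m n ((Finset.le_sup hn).trans hm) (hmf n h1 h2), zero_mul])
  refine ⟨Q, inferInstance, inferInstance, inferInstance, u, G, hG0, hG, fun f hf => ⟨0, ?_⟩,
    fun q m => ?_⟩
  · intro hz
    -- the linear form is in `I`
    have h1 : lin K f 0 ∈ I := by
      rw [← hπ]
      exact (lin_map (π : MvPolynomial ℕ K →+* Q) f 0).trans hz
    obtain ⟨H, hH, hzero⟩ := (hmem _).1 h1
    have h2 : ∀ v ∈ H, sq f (κ v) 0 = 0 := by
      intro v hv
      rw [← hzero v hv]
      refine ((lin_map (MvPolynomial.eval (κ v)) f 0).trans ?_).symm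
      simp only [MvPolynomial.eval_X]
      rfl
    have := hH
    refine hinf f hf (Set.Finite.subset
      (Set.finite_range fun c : V ⧸ H => sq f (κ (Quotient.out c)) 0) ?_)
    rintro _ ⟨v, rfl⟩
    refine ⟨QuotientAddGroup.mk v, ?_⟩
    show sq f (κ (Quotient.out (QuotientAddGroup.mk v : V ⧸ H))) 0 = sq f (κ v) 0
    have h3 : Quotient.out (QuotientAddGroup.mk v : V ⧸ H) - v ∈ H := by
      have h4 : (QuotientAddGroup.mk (Quotient.out (QuotientAddGroup.mk v : V ⧸ H)) : V ⧸ H) =
        QuotientAddGroup.mk v := Quotient.out_eq _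
      have h5 := QuotientAddGroup.eq.1 h4.symm
      have h6 : Quotient.out (QuotientAddGroup.mk v : V ⧸ H) - v =
        -v + Quotient.out (QuotientAddGroup.mk v : V ⧸ H) := by abel
      rw [h6]
      exact h5
    have h7 := h2 _ h3
    rw [map_sub, sq_sub, sub_eq_zero] at h7
    exact h7
  · -- evaluation at the multiples of the generic point
    have h1 : MvPolynomial.aeval (sq q u) ((dX K)^[m] (rho K k h W)) =
        π (MvPolynomial.aeval (lin K q) ((dX K)^[m] (rho K k h W))) := by
      rw [← AlgHom.comp_apply, MvPolynomial.comp_aeval]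
      congr 2
      funext n
      exact (lin_map (π : MvPolynomial ℕ K →+* Q) q n).symm
    rw [h1, hπ]
    refine (hmem _).2 ⟨⊤, inferInstance, fun v _ => ?_⟩
    -- the element `q(T) v`
    have h2 : ∀ n, κ (q.sum fun j a => a • T^[j] v) n = sq q (κ v) n := by
      intro n
      unfold sq
      rw [Polynomial.sum_def, Polynomial.sum_def, map_sum, Finset.sum_apply]
      refine Finset.sum_congr rfl fun j _ => ?_
      rw [map_zsmul, Pi.smul_apply, zsmul_eq_mul, hTm]
    rw [← hrho (q.sum fun j a => a • T^[j] v) m]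
    rw [← MvPolynomial.coe_aeval_eq_eval, ← MvPolynomial.coe_aeval_eq_eval]
    show MvPolynomial.aeval (κ v) (MvPolynomial.aeval (lin K q) ((dX K)^[m] (rho K k h W))) =
      MvPolynomial.aeval (κ (q.sum fun j a => a • T^[j] v)) ((dX K)^[m] (rho K k h W))
    rw [← AlgHom.comp_apply, MvPolynomial.comp_aeval]
    congr 2
    funext n
    rw [h2 n]
    refine (lin_map ((MvPolynomial.aeval (κ v) : MvPolynomial ℕ K →ₐ[K] K) :
      MvPolynomial ℕ K →+* K) q n).trans ?_
    unfold sq
    rw [Polynomial.sum_def, Polynomial.sum_def]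
    refine Finset.sum_congr rfl fun j _ => ?_
    show _ * MvPolynomial.aeval (κ v) (MvPolynomial.X (n + j)) = _
    rw [MvPolynomial.aeval_X]

end Pool.Agent.Lib.MP_8f946f_al.Sol
end

section
/-!
# IRR: irreducible subgroups of finite index
-/
set_option autoImplicit false

namespace Pool.Agent.Lib.MP_8f946f_al.Sol

namespace IrrM

variable {G : Type} [AddCommGroup G] [TopologicalSpace G]

theorem trans_mem (hc : ∀ g : G, Continuous fun x => g + x) (g : G) {Z : Set G}
    (hZ : Z ∈ irreducibleComponents G) : (fun x => g + x) '' Z ∈ irreducibleComponents G := by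
  refine ⟨hZ.1.image _ (hc g).continuousOn, ?_⟩
  intro Y hY hle
  have h1 : Z ≤ (fun x => -g + x) '' Y := by
    intro z hz
    exact ⟨g + z, hle ⟨z, hz, rfl⟩, by simp⟩
  have h2 := hZ.2 (hY.image _ (hc (-g)).continuousOn) h1
  intro y hy
  exact ⟨-g + y, h2 ⟨y, hy, rfl⟩, by simp⟩

omit [AddCommGroup G] in
theorem exists_unique_point [TopologicalSpace.NoetherianSpace G] {Z : Set G}
    (hZ : Z ∈ irreducibleComponents G) :
    ∃ z ∈ Z, ∀ W ∈ irreducibleComponents G, z ∈ W → W = Z := by
  by_contra hcon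
  push Not at hcon
  have h1 : Z ∈ irreducibleComponents G \ {Z} := by
    refine mem_of_subset_sUnion_irreducibleComponents Z hZ _
      TopologicalSpace.NoetherianSpace.finite_irreducibleComponents.sdiff Set.sdiff_subset ?_
    intro z hz
    obtain ⟨W, hW, hzW, hne⟩ := hcon z hz
    exact ⟨W, ⟨hW, hne⟩, hzW⟩
  exact h1.2 rfl

theorem uniq [TopologicalSpace.NoetherianSpace G] (hc : ∀ g : G, Continuous fun x => g + x)
    (g : G) {Z W : Set G} (hZ : Z ∈ irreducibleComponents G) (hW : W ∈ irreducibleComponents G)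
    (hgZ : g ∈ Z) (hgW : g ∈ W) : Z = W := by
  obtain ⟨z, hz, hu⟩ := exists_unique_point hZ
  have h1 := hu _ (trans_mem hc (z - g) hZ) ⟨g, hgZ, by simp⟩
  have h2 := hu _ (trans_mem hc (z - g) hW) ⟨g, hgW, by simp⟩
  exact Set.image_injective.2 (add_right_injective (z - g)) (h1.trans h2.symm)

end IrrM

open IrrM in
theorem specIrr : SpecIrr := by
  intro G _ _ _ hc
  set Z₀ : Set G := irreducibleComponent (0 : G) with hZ₀
  have hZ : Z₀ ∈ irreducibleComponents G := irreducibleComponent_mem_irreducibleComponents 0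
  have h0 : (0 : G) ∈ Z₀ := mem_irreducibleComponent
  have htr : ∀ a ∈ Z₀, (fun x => -a + x) '' Z₀ = Z₀ := by
    intro a ha
    exact uniq hc 0 (trans_mem hc (-a) hZ) hZ ⟨a, ha, by simp⟩ h0
  have hneg : ∀ a ∈ Z₀, -a ∈ Z₀ := by
    intro a ha
    rw [← htr a ha]
    exact ⟨0, h0, by simp⟩
  have hadd : ∀ a ∈ Z₀, ∀ b ∈ Z₀, a + b ∈ Z₀ := by
    intro a ha b hb
    rw [← htr (-a) (hneg a ha)]
    exact ⟨b, hb, by simp⟩
  let H : AddSubgroup G :=
    { carrier := Z₀
      zero_mem' := h0
      add_mem' := fun {a b} ha hb => hadd a ha b hb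
      neg_mem' := fun {a} ha => hneg a ha }
  refine ⟨H, ?_, hZ.1⟩
  have hfin : Finite (irreducibleComponents G) :=
    TopologicalSpace.NoetherianSpace.finite_irreducibleComponents.to_subtype
  have hq : Finite (G ⧸ H) := by
    refine Finite.of_injective (β := irreducibleComponents G)
      (fun q : G ⧸ H => ⟨(fun x => q.out + x) '' Z₀, trans_mem hc _ hZ⟩) ?_
    intro q q' h
    have h1 : (fun x => q.out + x) '' Z₀ = (fun x => q'.out + x) '' Z₀ := congrArg Subtype.val h
    have h2 : q.out ∈ (fun x => q'.out + x) '' Z₀ := by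
      rw [← h1]
      exact ⟨0, h0, by simp⟩
    obtain ⟨z, hz, hzq⟩ := h2
    have h3 : -q'.out + q.out ∈ H := by
      rw [← hzq]
      change -q'.out + (q'.out + z) ∈ Z₀
      rwa [neg_add_cancel_left]
    have h4 : (QuotientAddGroup.mk q'.out : G ⧸ H) = QuotientAddGroup.mk q.out :=
      QuotientAddGroup.eq.2 h3
    rw [QuotientAddGroup.out_eq', QuotientAddGroup.out_eq'] at h4
    exact h4.symm
  exact AddSubgroup.finiteIndex_of_finite_quotient

end Pool.Agent.Lib.MP_8f946f_al.Sol
end

section
/-!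
# Module J
-/
set_option autoImplicit false

namespace Pool.Agent.Lib.MP_8f946f_al.Sol.JM

open Polynomial BasM

attribute [local instance 100] LieRing.ofAssociativeRing

section

variable {F : Type} [Field F] {L : Type} [LieRing L] [LieAlgebra F L]
  {M : Type} [AddCommGroup M] [Module F M] [LieRingModule L M] [LieModule F L M]

lemma Dx_toEnd (x y : L) : Dx F (LieModule.toEnd F L M x) (LieModule.toEnd F L M y) =
    LieModule.toEnd F L M ⁅x, y⁆ := by
  rw [Dx_apply, LieHom.map_lie, Ring.lie_def]

lemma ad_eq_Dx {E : Type} [Ring E] [Algebra F E] (e : E) : LieAlgebra.ad F E e = Dx F e := by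
  ext y
  rw [LieAlgebra.ad_apply, Ring.lie_def, Dx_apply]

lemma toEnd_ad_pow (x b : L) (n : ℕ) : LieModule.toEnd F L M (((LieAlgebra.ad F L x) ^ n) b) =
    ((Dx F (LieModule.toEnd F L M x)) ^ n) (LieModule.toEnd F L M b) := by
  rw [hom_ad_pow, ad_eq_Dx]

lemma Dx_Dx {E : Type} [Ring E] [Algebra F E] (a z b : E) :
    Dx F a (Dx F z b) - Dx F z (Dx F a b) = Dx F (Dx F a z) b := by
  simp only [Dx_apply]
  noncomm_ring

lemma Dx_sub_left {E : Type} [Ring E] [Algebra F E] (a z b : E) :
    Dx F (a - z) b = Dx F a b - Dx F z b := by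
  simp only [Dx_apply]
  noncomm_ring

variable (F) in
/-- the operator `f*(D)`, `f* = X^(p^v) - X^(p^u)` -/
noncomputable def star {E : Type} [Ring E] [Algebra F E] (p u v : ℕ) (x : E) : E →ₗ[F] E :=
  (Dx F x) ^ (p ^ v) - (Dx F x) ^ (p ^ u)

variable (N B : LieIdeal F L)

lemma Dx_N (hNB : ∀ n ∈ N, ∀ b ∈ B, ∀ m : M, ⁅⁅n, b⁆, m⁆ = 0) {n b : L} (hn : n ∈ N)
    (hb : b ∈ B) : Dx F (LieModule.toEnd F L M n) (LieModule.toEnd F L M b) = 0 := by
  rw [Dx_toEnd]
  ext m
  rw [LieModule.toEnd_apply_apply, hNB n hn b hb m, LinearMap.zero_apply]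

lemma star_comm (p : ℕ) [Fact p.Prime] [CharP F p]
    (hNB : ∀ n ∈ N, ∀ b ∈ B, ∀ m : M, ⁅⁅n, b⁆, m⁆ = 0) (y : L) (u v : ℕ)
    (hy : ∀ z : L, ((LieAlgebra.ad F L y) ^ (p ^ v)) z - ((LieAlgebra.ad F L y) ^ (p ^ u)) z ∈ N)
    (z b : L) (hb : b ∈ B) :
    star F p u v (LieModule.toEnd F L M y) (Dx F (LieModule.toEnd F L M z) (LieModule.toEnd F L M b)) =
      Dx F (LieModule.toEnd F L M z) (star F p u v (LieModule.toEnd F L M y)
        (LieModule.toEnd F L M b)) := by
  have h1 : ∀ s : ℕ, ((Dx F (LieModule.toEnd F L M y)) ^ (p ^ s))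
      (Dx F (LieModule.toEnd F L M z) (LieModule.toEnd F L M b)) -
      Dx F (LieModule.toEnd F L M z) (((Dx F (LieModule.toEnd F L M y)) ^ (p ^ s))
        (LieModule.toEnd F L M b)) =
      Dx F (LieModule.toEnd F L M (((LieAlgebra.ad F L y) ^ (p ^ s)) z))
        (LieModule.toEnd F L M b) := by
    intro s
    rw [toEnd_ad_pow, Dx_pow_char, Dx_Dx]
  have h2 := Dx_N N B hNB (hy z) hb
  rw [map_sub, Dx_sub_left, ← h1, ← h1] at h2
  unfold star
  rw [LinearMap.sub_apply, LinearMap.sub_apply, map_sub, ← sub_eq_zero, ← h2]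
  abel

end

section main

variable {F : Type} [Field F] [Finite F] {L : Type} [LieRing L] [LieAlgebra F L]
  {M : Type} [AddCommGroup M] [Module F M] [LieRingModule L M] [LieModule F L M]
  (N B : LieIdeal F L)

/-- the choice of `u`, `v` -/
lemma exists_uv (hX : SpecX) (hDiv : SpecDiv) (p : ℕ) [Fact p.Prime] [CharP F p] (k : ℕ)
    (c : ℕ → F[X]) (W : List (F × ℕ × List ℕ)) (hW : Two W)
    (hOp : ∀ x b : L, OpRel k c W (LieModule.toEnd F L M x) (LieModule.toEnd F L M b))
    [FiniteDimensional F (L ⧸ N)] [Finite (L ⧸ N)] (hBN : B ≤ N)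
    (hNB : ∀ n ∈ N, ∀ b ∈ B, ∀ m : M, ⁅⁅n, b⁆, m⁆ = 0) :
    ∃ u v : ℕ, u < v ∧
      (∀ (q : L ⧸ N) (z : L), ((LieAlgebra.ad F L (sec N q)) ^ (p ^ v)) z -
        ((LieAlgebra.ad F L (sec N q)) ^ (p ^ u)) z ∈ N) ∧
      ∀ (q : L ⧸ N), ∀ b ∈ B, IsNilpotent (star F p u v (LieModule.toEnd F L M (sec N q))
        (LieModule.toEnd F L M b)) := by
  classical
  have : Fintype (L ⧸ N) := Fintype.ofFinite _
  let B' : Submodule F (Module.End F M) :=
    B.toSubmodule.map (LieModule.toEnd F L M : L →ₗ[F] Module.End F M)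
  have hB' : ∀ e, e ∈ B' ↔ ∃ b ∈ B, LieModule.toEnd F L M b = e := fun e => Iff.rfl
  have hcomm : ∀ a ∈ B', ∀ b ∈ B', a * b = b * a := by
    intro a ha b hb
    obtain ⟨a₁, ha₁, rfl⟩ := (hB' _).1 ha
    obtain ⟨b₁, hb₁, rfl⟩ := (hB' _).1 hb
    have := Dx_N (M := M) N B hNB (hBN ha₁) hb₁
    rwa [Dx_apply, sub_eq_zero] at this
  have hst : ∀ (q : L ⧸ N), ∀ b ∈ B', LieModule.toEnd F L M (sec N q) * b -
      b * LieModule.toEnd F L M (sec N q) ∈ B' := by
    intro q b hb
    obtain ⟨b₁, hb₁, rfl⟩ := (hB' _).1 hb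
    rw [← Dx_apply (R := F), Dx_toEnd]
    exact (hB' _).2 ⟨_, lie_mem_right F L B _ _ hb₁, rfl⟩
  have hop : ∀ (q : L ⧸ N), ∀ w ∈ B', ∀ b ∈ B',
      OpRel k c W (LieModule.toEnd F L M (sec N q) + w) b := by
    intro q w hw b hb
    obtain ⟨b₁, hb₁, rfl⟩ := (hB' _).1 hb
    obtain ⟨w₁, hw₁, rfl⟩ := (hB' _).1 hw
    rw [← map_add]
    exact hOp _ _
  choose f hfm hf using fun q : L ⧸ N => hX F (Module.End F M) k c W hW
    (LieModule.toEnd F L M (sec N q)) B' hcomm (hst q) (hop q)
  let μ : L ⧸ N → F[X] := fun q => minpoly F (LieAlgebra.ad F (L ⧸ N) q)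
  have hμ : ∀ q, μ q ≠ 0 := fun q => minpoly.ne_zero (Algebra.IsIntegral.isIntegral _)
  let g : L ⧸ N → F[X] := fun q => (f q).map (algebraMap ℤ F)
  have hg : ∀ q, g q ≠ 0 := fun q => ((hfm q).map _).ne_zero
  obtain ⟨u, v, -, huv, hdvd⟩ := hDiv F p (∏ q, g q * μ q)
    (Finset.prod_ne_zero_iff.2 fun q _ => mul_ne_zero (hg q) (hμ q)) 0
  refine ⟨u, v, huv, ?_, ?_⟩
  · intro q z
    have h1 : μ q ∣ X ^ p ^ v - X ^ p ^ u :=
      (dvd_mul_left _ _).trans ((Finset.dvd_prod_of_mem (fun q => g q * μ q) (Finset.mem_univ q)).trans hdvd)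
    obtain ⟨r, hr⟩ := h1
    have h2 : aeval (LieAlgebra.ad F (L ⧸ N) q) (X ^ p ^ v - X ^ p ^ u : F[X]) = 0 := by
      rw [hr, map_mul, minpoly.aeval, zero_mul]
    rw [map_sub, map_pow, map_pow, aeval_X] at h2
    rw [← mkHom_eq_zero, map_sub, hom_ad_pow, hom_ad_pow, mk_sec, ← LinearMap.sub_apply, h2,
      LinearMap.zero_apply]
  · intro q b hb
    have h1 : g q ∣ X ^ p ^ v - X ^ p ^ u :=
      (dvd_mul_right _ _).trans ((Finset.dvd_prod_of_mem (fun q => g q * μ q) (Finset.mem_univ q)).trans hdvd)
    obtain ⟨r, hr⟩ := h1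
    have h2 : star F p u v (LieModule.toEnd F L M (sec N q)) =
        aeval (Dx F (LieModule.toEnd F L M (sec N q))) (X ^ p ^ v - X ^ p ^ u : F[X]) := by
      rw [map_sub, map_pow, map_pow, aeval_X]
      rfl
    rw [h2, hr, map_mul, Module.End.mul_apply]
    simp only [g]
    rw [aeval_map_algebraMap]
    apply hf
    have hpow : ∀ (n : ℕ), ∀ e ∈ B', ((Dx F (LieModule.toEnd F L M (sec N q))) ^ n) e ∈ B' := by
      intro n
      induction n with
      | zero => intro e he; exact he
      | succ n ih =>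
        intro e he
        rw [pow_succ', Module.End.mul_apply, Dx_apply]
        exact hst q _ (ih e he)
    have hall : ∀ r : F[X], ∀ e ∈ B', aeval (Dx F (LieModule.toEnd F L M (sec N q))) r e ∈ B' := by
      intro r e he
      induction r using Polynomial.induction_on' with
      | add p q hp hq => rw [map_add, LinearMap.add_apply]; exact B'.add_mem hp hq
      | monomial n a =>
        rw [aeval_monomial, Module.End.mul_apply, Module.algebraMap_end_apply]
        exact B'.smul_mem _ (hpow n e he)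
    exact hall r _ ((hB' _).2 ⟨b, hb, rfl⟩)

end main

end Pool.Agent.Lib.MP_8f946f_al.Sol.JM

namespace Pool.Agent.Lib.MP_8f946f_al.Sol

open Polynomial JM BasM

attribute [local instance 100] LieRing.ofAssociativeRing

theorem specJ (hX : SpecX) (hDiv : SpecDiv) (hJG : SpecJG) (hJN : SpecJN) : SpecJ := by
  classical
  intro F _ _ L _ _ M _ _ _ _ k c W hW hOp N B hfd hBN hNB hS
  obtain ⟨S, hSf, hSB, hSgen⟩ := hS
  obtain ⟨p, hpc⟩ := CharP.exists F
  have hp : Fact p.Prime := ⟨CharP.char_is_prime F p⟩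
  have hfin : Finite (L ⧸ N) := Module.finite_of_finite F
  obtain ⟨u, v, huv, hN, hnil⟩ := exists_uv N B hX hDiv p k c W hW hOp hBN hNB
  set tE := LieModule.toEnd F L M with htE
  let st : L ⧸ N → (Module.End F M →ₗ[F] Module.End F M) := fun q => star F p u v (tE (sec N q))
  -- the submodule `B'`
  let B' : Submodule F (Module.End F M) :=
    B.toSubmodule.map (LieModule.toEnd F L M : L →ₗ[F] Module.End F M)
  have hB' : ∀ e, e ∈ B' ↔ ∃ b ∈ B, tE b = e := fun e => Iff.rfl
  have hcomm' : ∀ a ∈ B', ∀ b ∈ B', a * b = b * a := by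
    intro a ha b hb
    obtain ⟨a₁, ha₁, rfl⟩ := (hB' _).1 ha
    obtain ⟨b₁, hb₁, rfl⟩ := (hB' _).1 hb
    have := Dx_N (M := M) N B hNB (hBN ha₁) hb₁
    rwa [Dx_apply, sub_eq_zero] at this
  have hDB' : ∀ (z : L), ∀ b ∈ B', Dx F (tE z) b ∈ B' := by
    intro z b hb
    obtain ⟨b₁, hb₁, rfl⟩ := (hB' _).1 hb
    rw [htE, Dx_toEnd]
    exact (hB' _).2 ⟨_, lie_mem_right F L B _ _ hb₁, rfl⟩
  have hDN : ∀ n ∈ N, ∀ b ∈ B', Dx F (tE n) b = 0 := by
    intro n hn b hb
    obtain ⟨b₁, hb₁, rfl⟩ := (hB' _).1 hb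
    exact Dx_N N B hNB hn hb₁
  have hDsec : ∀ (z : L), ∀ b ∈ B', Dx F (tE z) b = Dx F (tE (sec N (mkHom N z))) b := by
    intro z b hb
    have := hDN _ (sub_sec_mem N z) b hb
    rwa [map_sub, Dx_sub_left, sub_eq_zero] at this
  have hDpow : ∀ (z : L) (n : ℕ), ∀ b ∈ B', ((Dx F (tE z)) ^ n) b ∈ B' := by
    intro z n
    induction n with
    | zero => intro b hb; exact hb
    | succ n ih =>
      intro b hb
      rw [pow_succ', Module.End.mul_apply]
      exact hDB' z _ (ih b hb)
  have hstB' : ∀ q, ∀ b ∈ B', st q b ∈ B' := by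
    intro q b hb
    change ((Dx F (tE (sec N q))) ^ (p ^ v) - (Dx F (tE (sec N q))) ^ (p ^ u)) b ∈ B'
    rw [LinearMap.sub_apply]
    exact B'.sub_mem (hDpow _ _ b hb) (hDpow _ _ b hb)
  have hstc : ∀ q (z : L), ∀ b ∈ B', st q (Dx F (tE z) b) = Dx F (tE z) (st q b) := by
    intro q z b hb
    obtain ⟨b₁, hb₁, rfl⟩ := (hB' _).1 hb
    exact star_comm N B p hNB (sec N q) u v (hN q) z b₁ hb₁
  -- the submodule `B₀'`
  let B₀' : Submodule F (Module.End F M) :=
    Submodule.span F {e | ∃ q, ∃ b ∈ B', st q b = e}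
  have hle : B₀' ≤ B' := by
    rw [Submodule.span_le]
    rintro e ⟨q, b, hb, rfl⟩
    exact hstB' q b hb
  have hDB₀ : ∀ (z : L), ∀ b ∈ B₀', Dx F (tE z) b ∈ B₀' := by
    intro z b hb
    induction hb using Submodule.span_induction with
    | mem e he =>
      obtain ⟨q, b, hb, rfl⟩ := he
      rw [← hstc q z b hb]
      exact Submodule.subset_span ⟨q, _, hDB' z b hb, rfl⟩
    | zero => rw [map_zero]; exact Submodule.zero_mem _
    | add a b _ _ ha hb => rw [map_add]; exact Submodule.add_mem _ ha hb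
    | smul t a _ ha => rw [map_smul]; exact Submodule.smul_mem _ _ ha
  have hnil' : ∀ e ∈ B₀', IsNilpotent e := by
    intro e he
    induction he using Submodule.span_induction with
    | mem e he =>
      obtain ⟨q, b, hb, rfl⟩ := he
      obtain ⟨b₁, hb₁, rfl⟩ := (hB' _).1 hb
      exact hnil q b₁ hb₁
    | zero => exact IsNilpotent.zero
    | add a b ha' hb' ha hb =>
      exact Commute.isNilpotent_add (hcomm' a (hle ha') b (hle hb')) ha hb
    | smul t a _ ha => exact ha.smul t
  -- words
  let S' : Set (Module.End F M) := {e | ∃ q, ∃ s ∈ S, st q (tE s) = e}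
  have hS'f : S'.Finite := by
    have : S' = ⋃ q : L ⧸ N, (fun s => st q (tE s)) '' S := by
      ext e
      simp only [S', Set.mem_iUnion, Set.mem_image]
      rfl
    rw [this]
    exact Set.finite_iUnion fun q => hSf.image _
  have hS'B : S' ⊆ B₀' := by
    rintro e ⟨q, s, hs, rfl⟩
    exact Submodule.subset_span ⟨q, _, (hB' _).2 ⟨s, hSB hs, rfl⟩, rfl⟩
  let wd : List (L ⧸ N) → Module.End F M → Module.End F M := fun l s =>
    l.foldr (fun i b => Dx F (tE (sec N i)) b) s
  have hwd : ∀ l, ∀ s ∈ B₀', wd l s ∈ B₀' := by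
    intro l s hs
    induction l with
    | nil => exact hs
    | cons i l ih => exact hDB₀ _ _ ih
  obtain ⟨Y, hYf, hYw, hY⟩ := hJG F (Module.End F M) (L ⧸ N) (fun q => tE (sec N q)) k c W hW B₀'
    (fun a ha b hb => hcomm' a (hle ha) b (hle hb))
    (fun q b hb => by rw [← Dx_apply (R := F)]; exact hDB₀ _ b hb)
    (fun i j => by
      refine ⟨Finsupp.single (mkHom N ⁅sec N i, sec N j⁆) 1, fun b hb => ?_⟩
      rw [Finsupp.sum_single_index (by exact zero_smul _ _), one_smul, Dx_Dx, htE, Dx_toEnd,
        ← hDsec _ b (hle hb)])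
    (fun q b hb => by
      obtain ⟨b₁, hb₁, rfl⟩ := (hB' _).1 (hle hb)
      exact hOp _ _) S' hS'f hS'B
  -- everything is generated by words
  let T : Submodule F (Module.End F M) := Submodule.span F {e | ∃ s ∈ S', ∃ l, wd l s = e}
  have hTB : T ≤ B₀' := by
    rw [Submodule.span_le]
    rintro e ⟨s, hs, l, rfl⟩
    exact hwd l s (hS'B hs)
  have hDT : ∀ (z : L), ∀ b ∈ T, Dx F (tE z) b ∈ T := by
    intro z b hb
    rw [hDsec z b (hle (hTB hb))]
    induction hb using Submodule.span_induction with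
    | mem e he =>
      obtain ⟨s, hs, l, rfl⟩ := he
      exact Submodule.subset_span ⟨s, hs, mkHom N z :: l, rfl⟩
    | zero => rw [map_zero]; exact Submodule.zero_mem _
    | add a b _ _ ha hb => rw [map_add]; exact Submodule.add_mem _ ha hb
    | smul t a _ ha => rw [map_smul]; exact Submodule.smul_mem _ _ ha
  have hBT : ∀ q, ∀ b ∈ B, st q (tE b) ∈ T := by
    intro q b hb
    obtain ⟨b', hb', hbb⟩ := hSgen b hb
    have h1 : tE b = tE b' := by
      rw [← sub_eq_zero, ← map_sub]
      ext m
      rw [htE, LieModule.toEnd_apply_apply, hbb m, LinearMap.zero_apply]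
    rw [h1]
    let I : LieIdeal F L :=
      { carrier := {b | b ∈ B ∧ st q (tE b) ∈ T}
        zero_mem' := ⟨B.zero_mem, by rw [map_zero, map_zero]; exact T.zero_mem⟩
        add_mem' := fun ha hb => ⟨B.add_mem ha.1 hb.1, by
          rw [map_add, map_add]; exact T.add_mem ha.2 hb.2⟩
        smul_mem' := fun t a ha => ⟨B.smul_mem t ha.1, by
          rw [map_smul, map_smul]; exact T.smul_mem t ha.2⟩
        lie_mem := fun {z a} ha => ⟨lie_mem_right F L B z a ha.1, by
          have h2 : tE ⁅z, a⁆ = Dx F (tE z) (tE a) := (Dx_toEnd z a).symm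
          rw [h2, hstc q z _ ((hB' _).2 ⟨a, ha.1, rfl⟩)]
          exact hDT z _ ha.2⟩ }
    have h2 : LieSubmodule.lieSpan F L S ≤ I := by
      rw [LieSubmodule.lieSpan_le]
      intro s hs
      exact ⟨hSB hs, Submodule.subset_span ⟨_, ⟨q, s, hs, rfl⟩, [], rfl⟩⟩
    exact (h2 hb').2
  have hspan : ∀ b ∈ B₀', b ∈ Submodule.span (Module.End F M) Y := by
    have h1 : ∀ e ∈ T, e ∈ Submodule.span (Module.End F M) Y := by
      intro e he
      induction he using Submodule.span_induction with
      | mem e he =>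
        obtain ⟨s, hs, l, rfl⟩ := he
        exact hY s hs l
      | zero => exact Submodule.zero_mem _
      | add a b _ _ ha hb => exact Submodule.add_mem _ ha hb
      | smul t a _ ha =>
        have : t • a = (algebraMap F (Module.End F M) t) • a := by
          rw [smul_eq_mul, Algebra.smul_def]
        rw [this]
        exact Submodule.smul_mem _ _ ha
    intro b hb
    apply h1
    have h2 : B₀' ≤ T := by
      rw [Submodule.span_le]
      rintro e ⟨q, b, hb, rfl⟩
      obtain ⟨b₁, hb₁, rfl⟩ := (hB' _).1 hb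
      exact hBT q b₁ hb₁
    exact h2 hb
  obtain ⟨n, hn⟩ := hJN (Module.End F M) (B₀' : Set (Module.End F M))
    (fun a ha b hb => hcomm' a (hle ha) b (hle hb)) Y hYf
    (by
      intro y hy
      obtain ⟨s, hs, l, rfl⟩ := hYw y hy
      exact hwd l s (hS'B hs))
    (by
      intro y hy
      obtain ⟨s, hs, l, rfl⟩ := hYw y hy
      exact hnil' _ (hwd l s (hS'B hs)))
    hspan
  -- the ideal `B₀`
  let B₀ : LieIdeal F L :=
    { carrier := {b | b ∈ B ∧ tE b ∈ B₀'}
      zero_mem' := ⟨B.zero_mem, by rw [map_zero]; exact B₀'.zero_mem⟩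
      add_mem' := fun ha hb => ⟨B.add_mem ha.1 hb.1, by
        rw [map_add]; exact B₀'.add_mem ha.2 hb.2⟩
      smul_mem' := fun t a ha => ⟨B.smul_mem t ha.1, by
        rw [map_smul]; exact B₀'.smul_mem t ha.2⟩
      lie_mem := fun {z a} ha => ⟨lie_mem_right F L B z a ha.1, by
        have h2 : tE ⁅z, a⁆ = Dx F (tE z) (tE a) := (Dx_toEnd z a).symm
        rw [h2]
        exact hDB₀ z _ ha.2⟩ }
  have hB₀ : ∀ b, b ∈ B₀ ↔ b ∈ B ∧ tE b ∈ B₀' := fun b => Iff.rfl
  refine ⟨B₀, fun b hb => hb.1, ?_, ?_⟩
  · -- finiteness of `B / B₀`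
    have hAB : ∀ n ∈ N, ∀ a ∈ B, ⁅n, a⁆ ∈ B₀ := by
      intro n hn a ha
      refine ⟨lie_mem_right F L B n a ha, ?_⟩
      have h2 : tE ⁅n, a⁆ = Dx F (tE n) (tE a) := (Dx_toEnd n a).symm
      rw [h2, hDN n hn _ ((hB' _).2 ⟨a, ha, rfl⟩)]
      exact B₀'.zero_mem
    have hgen : B ≤ LieSubmodule.lieSpan F L S ⊔ B₀ := by
      intro b hb
      obtain ⟨b', hb', hbb⟩ := hSgen b hb
      have h1 : LieSubmodule.lieSpan F L S ≤ B := by
        rw [LieSubmodule.lieSpan_le]
        exact hSB
      have h2 : b = b' + (b - b') := by abel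
      rw [h2]
      apply add_mem
      · exact (le_sup_left : _ ≤ LieSubmodule.lieSpan F L S ⊔ B₀) hb'
      · apply (le_sup_right : _ ≤ LieSubmodule.lieSpan F L S ⊔ B₀)
        refine ⟨B.sub_mem hb (h1 hb'), ?_⟩
        have h3 : tE (b - b') = 0 := by
          ext m
          rw [htE, LieModule.toEnd_apply_apply, hbb m, LinearMap.zero_apply]
        rw [h3]
        exact B₀'.zero_mem
    obtain ⟨S₂, hS₂, hgen₂⟩ := qt_gen B B₀ S hSf hSB hgen
    have hfinQ : Finite (Qt B B₀) := by
      refine finite_of_periodic N (qt_trivial N B B₀ hAB) S₂ hS₂ hgen₂ ?_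
      intro y
      refine ⟨p ^ u, p ^ v, Nat.pow_lt_pow_right hp.out.one_lt huv, fun w => ?_⟩
      obtain ⟨a, rfl⟩ := qmk_surjective B B₀ w
      rw [← hom_toEnd_pow, ← hom_toEnd_pow, ← sub_eq_zero, ← map_sub, qmk_eq_zero]
      have h1 := hom_toEnd_pow (LieSubmodule.incl B) y (p ^ v) a
      have h2 := hom_toEnd_pow (LieSubmodule.incl B) y (p ^ u) a
      rw [LieSubmodule.coe_sub]
      change ((LieModule.toEnd F L B y ^ (p ^ v)) a : L) = _ at h1
      change ((LieModule.toEnd F L B y ^ (p ^ u)) a : L) = _ at h2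
      rw [h1, h2]
      change ((LieAlgebra.ad F L y) ^ (p ^ v)) (a : L) - ((LieAlgebra.ad F L y) ^ (p ^ u)) (a : L)
        ∈ B₀
      refine ⟨B.sub_mem (ad_pow_mem B y a a.2 _) (ad_pow_mem B y a a.2 _), ?_⟩
      rw [map_sub, htE, toEnd_ad_pow, toEnd_ad_pow]
      have hpw : ∀ n : ℕ, ∀ b ∈ B', ((Dx F (tE y)) ^ n) b =
          ((Dx F (tE (sec N (mkHom N y)))) ^ n) b := by
        intro n
        induction n with
        | zero => intro b hb; rfl
        | succ n ih =>
          intro b hb
          rw [pow_succ', pow_succ', Module.End.mul_apply, Module.End.mul_apply, ih b hb,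
            hDsec y _ (hDpow _ _ b hb)]
      have ha : tE (a : L) ∈ B' := (hB' _).2 ⟨a, a.2, rfl⟩
      rw [htE] at hpw ha
      rw [hpw _ _ ha, hpw _ _ ha]
      exact Submodule.subset_span ⟨mkHom N y, _, ha, rfl⟩
    refine ⟨Set.range fun w : Qt B B₀ => ((Function.surjInv (qmk_surjective B B₀) w : B) : L),
      Set.finite_range _, ?_⟩
    intro b hb
    refine ⟨_, ⟨qmk B B₀ ⟨b, hb⟩, rfl⟩, ?_⟩
    have h1 := Function.surjInv_eq (qmk_surjective B B₀) (qmk B B₀ ⟨b, hb⟩)
    have h2 : qmk B B₀ (⟨b, hb⟩ - Function.surjInv (qmk_surjective B B₀)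
        (qmk B B₀ ⟨b, hb⟩)) = 0 := by
      rw [map_sub, h1, sub_self]
    rw [qmk_eq_zero, LieSubmodule.coe_sub] at h2
    exact h2
  · -- nilpotency
    have key : ∀ i : ℕ, ∀ m ∈ (itm B₀ i : LieSubmodule F L M), ∀ l : List (Module.End F M),
        (∀ b ∈ l, b ∈ B₀') → l.length + i = n → l.prod m = 0 := by
      intro i
      induction i with
      | zero =>
        intro m _ l hl hlen
        rw [hn l hl (by omega), LinearMap.zero_apply]
      | succ i ih =>
        intro m hm
        have h1 : m ∈ ((⁅B₀, itm B₀ i⁆ : LieSubmodule F L M) : Submodule F M) := hm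
        rw [LieSubmodule.lieIdeal_oper_eq_linear_span'] at h1
        clear hm
        induction h1 using Submodule.span_induction with
        | mem m hm =>
          obtain ⟨b, hb, m', hm', rfl⟩ := hm
          intro l hl hlen
          have h2 := ih m' hm' (l ++ [tE b]) (by
            intro e he
            rcases List.mem_append.1 he with h | h
            · exact hl e h
            · rw [List.mem_singleton.1 h]
              exact hb.2) (by rw [List.length_append, List.length_singleton]; omega)
          rw [List.prod_append, List.prod_singleton, Module.End.mul_apply] at h2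
          exact h2
        | zero => intro l _ _; rw [map_zero]
        | add a b _ _ ha hb =>
          intro l hl hlen
          rw [map_add, ha l hl hlen, hb l hl hlen, add_zero]
        | smul t a _ ha =>
          intro l hl hlen
          rw [map_smul, ha l hl hlen, smul_zero]
    refine ⟨n, ?_⟩
    rw [eq_bot_iff]
    intro m hm
    have := key n m hm [] (by simp) (by simp)
    rw [LieSubmodule.mem_bot]
    simpa using this

end Pool.Agent.Lib.MP_8f946f_al.Sol
end

section
/-!
# Module JG: finite generation of a left ideal (helper55)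
-/
set_option autoImplicit false

namespace Pool.Agent.Lib.MP_8f946f_al.Sol

open Polynomial

namespace JGM

open BasM

/-! ### one operator -/

section one

variable {F : Type} [Field F] {E : Type} [Ring E] [Algebra F E] (x b : E)

variable (F) in
/-- the products of `n` derivatives of `b`, of total order `σ` -/
def Ps (n σ : ℕ) : Set E :=
  {w | ∃ l : List ℕ, l.length = n ∧ l.sum = σ ∧ (l.map fun i => ((Dx F x) ^ i) b).prod = w}

theorem mul_Ps (i : ℕ) {n σ : ℕ} {v : E} (hv : v ∈ Submodule.span F (Ps F x b n σ)) :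
    ((Dx F x) ^ i) b * v ∈ Submodule.span F (Ps F x b (n + 1) (i + σ)) := by
  induction hv using Submodule.span_induction with
  | mem w hw =>
    obtain ⟨l, h1, h2, rfl⟩ := hw
    exact Submodule.subset_span ⟨i :: l, by simp [h1], by simp [h2], by simp⟩
  | zero => rw [mul_zero]; exact Submodule.zero_mem _
  | add a c _ _ ha hc => rw [mul_add]; exact Submodule.add_mem _ ha hc
  | smul e a _ ha => rw [mul_smul_comm]; exact Submodule.smul_mem _ _ ha

theorem D_prod (l : List ℕ) : Dx F x (l.map fun i => ((Dx F x) ^ i) b).prod ∈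
    Submodule.span F (Ps F x b l.length (l.sum + 1)) := by
  induction l with
  | nil =>
    simp only [List.map_nil, List.prod_nil]
    have : Dx F x (1 : E) = 0 := Dx_of_comm (by simp)
    rw [this]
    exact Submodule.zero_mem _
  | cons i l ih =>
    rw [List.map_cons, List.prod_cons, Dx_mul, List.length_cons, List.sum_cons]
    refine Submodule.add_mem _ ?_ ?_
    · refine Submodule.subset_span ⟨(i + 1) :: l, by simp, by simp; ring, ?_⟩
      rw [List.map_cons, List.prod_cons, pow_succ', Module.End.mul_apply]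
    · have := mul_Ps x b i ih
      rwa [add_assoc]

theorem D_Ps {n σ : ℕ} {v : E} (hv : v ∈ Submodule.span F (Ps F x b n σ)) :
    Dx F x v ∈ Submodule.span F (Ps F x b n (σ + 1)) := by
  induction hv using Submodule.span_induction with
  | mem w hw =>
    obtain ⟨l, rfl, rfl, rfl⟩ := hw
    exact D_prod x b l
  | zero => rw [map_zero]; exact Submodule.zero_mem _
  | add a c _ _ ha hc => rw [map_add]; exact Submodule.add_mem _ ha hc
  | smul e a _ ha => rw [map_smul]; exact Submodule.smul_mem _ _ ha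

theorem D_pow_Ps {n σ : ℕ} {v : E} (hv : v ∈ Submodule.span F (Ps F x b n σ)) (m : ℕ) :
    ((Dx F x) ^ m) v ∈ Submodule.span F (Ps F x b n (σ + m)) := by
  induction m with
  | zero => exact hv
  | succ m ih =>
    rw [pow_succ', Module.End.mul_apply]
    exact D_Ps x b ih

variable (F) in
/-- the left ideal generated by the derivatives of order less than `N` -/
def Lf (N : ℕ) : Submodule E E := Submodule.span E {v | ∃ e < N, ((Dx F x) ^ e) b = v}

theorem Dpow_mem {B : Submodule F E} (hx : ∀ b ∈ B, x * b - b * x ∈ B) {b : E} (hb : b ∈ B)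
    (n : ℕ) : ((Dx F x) ^ n) b ∈ B := by
  induction n with
  | zero => exact hb
  | succ n ih =>
    rw [pow_succ', Module.End.mul_apply, Dx_apply]
    exact hx _ ih

theorem Ps_sub {B : Submodule F E} (hB : ∀ a ∈ B, ∀ b ∈ B, a * b = b * a)
    (hx : ∀ b ∈ B, x * b - b * x ∈ B) {b : E} (hb : b ∈ B) {n σ N : ℕ} (hn : 2 ≤ n)
    (hσ : σ < 2 * N) : Ps F x b n σ ⊆ (Lf F x b N : Set E) := by
  rintro w ⟨l, rfl, rfl, rfl⟩
  obtain ⟨i, hi, hiN⟩ : ∃ i ∈ l, i < N := by
    by_contra hcon
    push Not at hcon
    have h1 : l.length * N ≤ l.sum := by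
      have := List.card_nsmul_le_sum l N hcon
      simpa using this
    nlinarith
  have hp : l.Perm (l.erase i ++ [i]) :=
    (List.perm_cons_erase hi).trans (List.perm_append_singleton i _).symm
  have h2 : (l.map fun i => ((Dx F x) ^ i) b).Pairwise Commute := by
    rw [List.pairwise_iff_forall_sublist]
    intro u v huv
    have hu : u ∈ l.map fun i => ((Dx F x) ^ i) b := huv.subset (by simp)
    have hv : v ∈ l.map fun i => ((Dx F x) ^ i) b := huv.subset (by simp)
    obtain ⟨j, -, rfl⟩ := List.mem_map.1 hu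
    obtain ⟨j', -, rfl⟩ := List.mem_map.1 hv
    exact hB _ (Dpow_mem x hx hb j) _ (Dpow_mem x hx hb j')
  rw [(hp.map fun i => ((Dx F x) ^ i) b).prod_eq' h2, List.map_append, List.prod_append,
    List.map_singleton, List.prod_singleton]
  exact (Lf F x b N).smul_mem _ (Submodule.subset_span ⟨i, hiN, rfl⟩)

theorem span_Ps_le {B : Submodule F E} (hB : ∀ a ∈ B, ∀ b ∈ B, a * b = b * a)
    (hx : ∀ b ∈ B, x * b - b * x ∈ B) {b : E} (hb : b ∈ B) {n σ N : ℕ} (hn : 2 ≤ n)
    (hσ : σ < 2 * N) {v : E} (hv : v ∈ Submodule.span F (Ps F x b n σ)) : v ∈ Lf F x b N := by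
  induction hv using Submodule.span_induction with
  | mem w hw => exact Ps_sub x hB hx hb hn hσ hw
  | zero => exact Submodule.zero_mem _
  | add a c _ _ ha hc => exact Submodule.add_mem _ ha hc
  | smul e a _ ha =>
    rw [Algebra.smul_def]
    exact (Lf F x b N).smul_mem _ ha

theorem D_rhs {B : Submodule F E} (hB : ∀ a ∈ B, ∀ b ∈ B, a * b = b * a)
    (hx : ∀ b ∈ B, x * b - b * x ∈ B) {b : E} (hb : b ∈ B) {N d m : ℕ} (hdm : d + m < 2 * N)
    (W : List (F × ℕ × List ℕ)) (hW : Two W) (hd : ∀ t ∈ W, t.2.2.sum ≤ d) :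
    ((Dx F x) ^ m) (rhs W x b) ∈ Lf F x b N := by
  unfold rhs
  induction W with
  | nil => simp
  | cons t W ih =>
    rw [List.map_cons, List.sum_cons, map_add]
    refine Submodule.add_mem _ ?_ (ih (fun t' h => hW t' (List.mem_cons_of_mem _ h))
      fun t' h => hd t' (List.mem_cons_of_mem _ h))
    rw [map_smul, Dx_left_comm x _ _ (Dx_pow_self x _), Algebra.smul_def]
    refine (Lf F x b N).smul_mem _ ((Lf F x b N).smul_mem _ ?_)
    have h1 : (t.2.2.map fun i => ((Dx F x) ^ i) b).prod ∈
        Submodule.span F (Ps F x b t.2.2.length t.2.2.sum) :=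
      Submodule.subset_span ⟨t.2.2, rfl, rfl, rfl⟩
    have h2 := hd t (List.mem_cons_self ..)
    exact span_Ps_le x hB hx hb (hW t (List.mem_cons_self ..)) (by omega) (D_pow_Ps x b h1 m)

theorem alg {k : ℕ} {c : ℕ → F[X]} {W : List (F × ℕ × List ℕ)} (hW : Two W) :
    ∃ N : ℕ, ∀ (B : Submodule F E) (_ : ∀ a ∈ B, ∀ b ∈ B, a * b = b * a) (x : E)
      (_ : ∀ b ∈ B, x * b - b * x ∈ B) (_ : ∀ b ∈ B, OpRel k c W x b), ∀ b ∈ B,
      ((Dx F x) ^ N) b ∈ Lf F x b N := by
  obtain ⟨d, hd⟩ : ∃ d : ℕ, ∀ t ∈ W, t.2.2.sum ≤ d := by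
    refine ⟨(W.map fun t => t.2.2.sum).sum, fun t ht => ?_⟩
    exact List.single_le_sum (by simp) _ (List.mem_map.2 ⟨t, ht, rfl⟩)
  refine ⟨d + 1 + k, fun B hB x hx hop b hb => ?_⟩
  have h1 := hop b hb
  unfold OpRel at h1
  rw [sub_eq_iff_eq_add] at h1
  rw [pow_add, Module.End.mul_apply, h1, map_add, map_sum]
  refine Submodule.add_mem _ (D_rhs x hB hx hb (d := d) (by omega) W hW hd)
    (Submodule.sum_mem _ fun j hj => ?_)
  rw [Dx_left_comm x _ _ (Dx_aeval_self x _), ← Module.End.mul_apply, ← pow_add]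
  refine (Lf F x b _).smul_mem _ (Submodule.subset_span ⟨d + 1 + j, ?_, rfl⟩)
  have := Finset.mem_range.1 hj
  omega

end one

/-! ### words -/

section words

variable (F : Type) [Field F] {E : Type} [Ring E] [Algebra F E] {ι : Type} (x : ι → E)

/-- words -/
noncomputable def wd (l : List ι) (s : E) : E := l.foldr (fun i b => Dx F (x i) b) s

theorem wd_cons (i : ι) (l : List ι) (s : E) : wd F x (i :: l) s = Dx F (x i) (wd F x l s) := rfl

theorem wd_append (l l' : List ι) (s : E) : wd F x (l ++ l') s = wd F x l (wd F x l' s) := by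
  simp [wd, List.foldr_append]

theorem wd_replicate (n : ℕ) (i : ι) (s : E) :
    wd F x (List.replicate n i) s = ((Dx F (x i)) ^ n) s := by
  induction n with
  | zero => rfl
  | succ n ih =>
    rw [List.replicate_succ, wd_cons, ih, pow_succ', Module.End.mul_apply]

theorem wd_mem {B : Submodule F E} (hx : ∀ i, ∀ b ∈ B, x i * b - b * x i ∈ B) (l : List ι)
    {s : E} (hs : s ∈ B) : wd F x l s ∈ B := by
  induction l with
  | nil => exact hs
  | cons i l ih =>
    rw [wd_cons, Dx_apply]
    exact hx i _ ih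

/-- the span of the short words -/
def Ws (s : E) (n : ℕ) : Submodule F E := Submodule.span F {v | ∃ l : List ι, l.length < n ∧ wd F x l s = v}

theorem Ws_mono (s : E) {n n' : ℕ} (h : n ≤ n') : Ws F x s n ≤ Ws F x s n' := by
  refine Submodule.span_mono ?_
  rintro v ⟨l, hl, rfl⟩
  exact ⟨l, by omega, rfl⟩

theorem D_Ws (i : ι) {s : E} {n : ℕ} {v : E} (hv : v ∈ Ws F x s n) :
    Dx F (x i) v ∈ Ws F x s (n + 1) := by
  unfold Ws at hv
  induction hv using Submodule.span_induction with
  | mem w hw =>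
    obtain ⟨l, hl, rfl⟩ := hw
    exact Submodule.subset_span ⟨i :: l, by simp [hl], rfl⟩
  | zero => rw [map_zero]; exact Submodule.zero_mem _
  | add a c _ _ ha hc => rw [map_add]; exact Submodule.add_mem _ ha hc
  | smul e a _ ha => rw [map_smul]; exact Submodule.smul_mem _ _ ha

theorem wd_perm {B : Submodule F E} (hx : ∀ i, ∀ b ∈ B, x i * b - b * x i ∈ B)
    (hs : ∀ i j, ∃ s : ι →₀ F, ∀ b ∈ B, Dx F (x i) (Dx F (x j) b) - Dx F (x j) (Dx F (x i) b) =
      s.sum fun l a => a • Dx F (x l) b) {s : E} (hsB : s ∈ B) {l l' : List ι} (h : l.Perm l') :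
    wd F x l s - wd F x l' s ∈ Ws F x s l.length := by
  induction h with
  | nil => rw [sub_self]; exact Submodule.zero_mem _
  | cons q h ih =>
    rw [wd_cons, wd_cons, ← map_sub]
    exact D_Ws F x q ih
  | swap q q' l =>
    rw [wd_cons, wd_cons, wd_cons, wd_cons]
    obtain ⟨a, ha⟩ := hs q' q
    rw [ha _ (wd_mem F x hx l hsB)]
    unfold Finsupp.sum
    refine Submodule.sum_mem _ fun j _ => Submodule.smul_mem _ _
      (Submodule.subset_span ⟨j :: l, by simp, rfl⟩)
  | trans h1 h2 ih1 ih2 =>
    rw [h1.length_eq] at ih1 ⊢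
    have := Submodule.add_mem _ ih1 ih2
    simpa using this

end words

end JGM

open JGM in
theorem specJG : SpecJG := by
  intro F _ E _ _ ι _ x k c W hW B hB hx hs hop S hS hSB
  obtain ⟨N, hN⟩ := alg (F := F) (E := E) (k := k) (c := c) hW
  obtain ⟨n₀, hn₀⟩ := pigeon (H := ι) fun _ => N
  set Y : Set E := {v | ∃ l : List ι, l.length < n₀ ∧ ∃ s ∈ S, wd F x l s = v} with hY
  have hYf : Y.Finite := by
    have h1 : {l : List ι | l.length < n₀}.Finite := List.finite_length_lt _ _
    have h2 : Y = Set.image2 (fun l s => wd F x l s) {l : List ι | l.length < n₀} S := by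
      ext v
      constructor
      · rintro ⟨l, hl, s, hs, rfl⟩
        exact ⟨l, hl, s, hs, rfl⟩
      · rintro ⟨l, hl, s, hs, rfl⟩
        exact ⟨l, hl, s, hs, rfl⟩
    rw [h2]
    exact h1.image2 _ hS
  refine ⟨Y, hYf, ?_, ?_⟩
  · rintro y ⟨l, -, s, hs, rfl⟩
    exact ⟨s, hs, l, rfl⟩
  · have key : ∀ n : ℕ, ∀ l : List ι, l.length = n → ∀ s ∈ S,
        wd F x l s ∈ Submodule.span E Y := by
      intro n
      induction n using Nat.strong_induction_on with
      | _ n ih =>
        intro l hl s hsS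
        rcases Nat.lt_or_ge l.length n₀ with h | h
        · exact Submodule.subset_span ⟨l, h, s, hsS, rfl⟩
        · obtain ⟨q, l', hp⟩ := hn₀ l h
          have h1 := wd_perm F x hx hs (hSB hsS) hp
          have h2 : ∀ v ∈ Ws F x s l.length, v ∈ Submodule.span E Y := by
            intro v hv
            unfold Ws at hv
            induction hv using Submodule.span_induction with
            | mem w hw =>
              obtain ⟨l₁, hl₁, rfl⟩ := hw
              exact ih l₁.length (by omega) l₁ rfl s hsS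
            | zero => exact Submodule.zero_mem _
            | add a c _ _ ha hc => exact Submodule.add_mem _ ha hc
            | smul e a _ ha =>
              rw [Algebra.smul_def]
              exact Submodule.smul_mem _ _ ha
          have h3 := h2 _ h1
          have h4 : wd F x (List.replicate N q ++ l') s ∈ Submodule.span E Y := by
            rw [wd_append, wd_replicate]
            refine Submodule.span_le.2 ?_ (hN B hB (x q) (hx q) (hop q) _
              (wd_mem F x hx l' (hSB hsS)))
            rintro v ⟨e, he, rfl⟩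
            rw [← wd_replicate, ← wd_append]
            refine ih _ ?_ (List.replicate e q ++ l') rfl s hsS
            have := hp.length_eq
            simp only [List.length_append, List.length_replicate] at this ⊢
            omega
          have := Submodule.add_mem _ h3 h4
          simpa using this
    intro s hsS l
    exact key _ l rfl s hsS

end Pool.Agent.Lib.MP_8f946f_al.Sol
end

section
/-!
# Module JN: commuting nilpotents (helper55)
-/
set_option autoImplicit false

namespace Pool.Agent.Lib.MP_8f946f_al.Sol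

namespace JNM

variable {E : Type} [Ring E]

/-- the products of `n` elements of `Y` -/
def Pr (Y : Set E) (n : ℕ) : Set E := {w | ∃ l : List E, (∀ y ∈ l, y ∈ Y) ∧ l.length = n ∧ l.prod = w}

theorem comm_prod {B : Set E} (hB : ∀ a ∈ B, ∀ b ∈ B, a * b = b * a) {b : E} (hb : b ∈ B)
    (l : List E) (hl : ∀ y ∈ l, y ∈ B) : l.prod * b = b * l.prod := by
  induction l with
  | nil => simp
  | cons a l ih =>
    rw [List.prod_cons, mul_assoc, ih fun y hy => hl y (List.mem_cons_of_mem _ hy), ← mul_assoc,
      ← mul_assoc, hB a (hl a (List.mem_cons_self ..)) b hb]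

theorem step {B Y : Set E} (hB : ∀ a ∈ B, ∀ b ∈ B, a * b = b * a) (hY : Y ⊆ B)
    (hBY : ∀ b ∈ B, b ∈ Submodule.span E Y) {n : ℕ} {z : E}
    (hz : z ∈ Submodule.span E (Pr Y n)) {b : E} (hb : b ∈ B) :
    z * b ∈ Submodule.span E (Pr Y (n + 1)) := by
  induction hz using Submodule.span_induction with
  | mem w hw =>
    obtain ⟨l, hl, hn, rfl⟩ := hw
    rw [comm_prod hB hb l fun y hy => hY (hl y hy)]
    have h1 := hBY b hb
    clear hb
    induction h1 using Submodule.span_induction with
    | mem y hy =>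
      refine Submodule.subset_span ⟨y :: l, ?_, by simp [hn], by simp⟩
      intro y' hy'
      rcases List.mem_cons.1 hy' with rfl | h
      · exact hy
      · exact hl _ h
    | zero => rw [zero_mul]; exact Submodule.zero_mem _
    | add a c _ _ ha hc => rw [add_mul]; exact Submodule.add_mem _ ha hc
    | smul e a _ ha => rw [smul_mul_assoc]; exact Submodule.smul_mem _ _ ha
  | zero => rw [zero_mul]; exact Submodule.zero_mem _
  | add a c _ _ ha hc => rw [add_mul]; exact Submodule.add_mem _ ha hc
  | smul e a _ ha => rw [smul_mul_assoc]; exact Submodule.smul_mem _ _ ha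

theorem prod_mem {B Y : Set E} (hB : ∀ a ∈ B, ∀ b ∈ B, a * b = b * a) (hY : Y ⊆ B)
    (hBY : ∀ b ∈ B, b ∈ Submodule.span E Y) (l : List E) (hl : ∀ b ∈ l, b ∈ B) :
    l.prod ∈ Submodule.span E (Pr Y l.length) := by
  induction l using List.reverseRecOn with
  | nil => exact Submodule.subset_span ⟨[], by simp, rfl, rfl⟩
  | append_singleton l b ih =>
    rw [List.prod_append, List.prod_singleton, List.length_append, List.length_singleton]
    exact step hB hY hBY (ih fun y hy => hl y (List.mem_append_left _ hy)) (hl b (by simp))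

end JNM

open JNM in
theorem specJN : SpecJN := by
  intro E _ B hB Y hYf hY hnil hBY
  have := hYf.to_subtype
  choose e he using fun y : Y => hnil y y.2
  obtain ⟨n, hn⟩ := pigeon e
  refine ⟨n, fun l hl hln => ?_⟩
  have h1 := prod_mem hB hY hBY l hl
  rw [hln] at h1
  have h2 : Pr Y n ⊆ {0} := by
    rintro w ⟨l', hl', hn', rfl⟩
    obtain ⟨q, l'', hp⟩ := hn (l'.attach.map fun y : {y // y ∈ l'} => (⟨y.1, hl' y.1 y.2⟩ : Y))
      (by simp [hn'])
    have h3 := (hp.map (Subtype.val : Y → E))
    have h4 : (l'.attach.map fun y : {y // y ∈ l'} => (⟨y.1, hl' y.1 y.2⟩ : Y)).map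
        (Subtype.val : Y → E) = l' := by
      rw [List.map_map]
      exact List.attach_map_subtype_val l'
    rw [h4] at h3
    have h5 : l'.Pairwise Commute := by
      rw [List.pairwise_iff_forall_sublist]
      intro a b hab
      have ha : a ∈ l' := hab.subset (by simp)
      have hb : b ∈ l' := hab.subset (by simp)
      exact hB a (hY (hl' a ha)) b (hY (hl' b hb))
    rw [h3.prod_eq' h5]
    simp only [List.map_append, List.map_replicate, List.prod_append, List.prod_replicate, he q,
      zero_mul, Set.mem_singleton_iff]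
  have h3 := Submodule.span_mono (R := E) h2 h1
  simpa using h3

end Pool.Agent.Lib.MP_8f946f_al.Sol
end

section
/-!
# Module COUNT

`∏_{x ∈ s} (x ^ n + 1) = ∑_{s' ≤ s} (∏ s') ^ n` and the linear independence of the functions
`n ↦ y ^ n`, `n ≥ 1`, for distinct `y ≠ 0`.
-/
set_option autoImplicit false

namespace Pool.Agent.Lib.MP_8f946f_al.Sol

open Polynomial Finset

namespace CountM

/-- the multiset of the products of the sub-multisets -/
noncomputable def sub {K : Type} [Field K] (s : Multiset K) : Multiset K :=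
  s.powerset.map Multiset.prod

variable {K : Type} [Field K]

theorem sub_cons (a : K) (s : Multiset K) : sub (a ::ₘ s) = sub s + (sub s).map (a * ·) := by
  unfold sub
  rw [Multiset.powerset_cons, Multiset.map_add, Multiset.map_map, Multiset.map_map]
  congr 1
  refine Multiset.map_congr rfl fun t _ => ?_
  simp

theorem prod_eq (s : Multiset K) (n : ℕ) :
    (s.map fun x => x ^ n + 1).prod = ((sub s).map fun y => y ^ n).sum := by
  induction s using Multiset.induction_on with
  | empty => simp [sub]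
  | cons a s ih =>
    rw [Multiset.map_cons, Multiset.prod_cons, ih, sub_cons, Multiset.map_add, Multiset.sum_add,
      Multiset.map_map, add_mul, one_mul, add_comm]
    congr 1
    simp only [Function.comp_def, mul_pow]
    rw [← Multiset.sum_map_mul_left]

theorem zero_notMem_sub {s : Multiset K} (hs : (0 : K) ∉ s) : (0 : K) ∉ sub s := by
  unfold sub
  intro h
  obtain ⟨t, ht, h0⟩ := Multiset.mem_map.1 h
  rw [Multiset.mem_powerset] at ht
  exact hs (Multiset.mem_of_le ht (Multiset.prod_eq_zero_iff.1 h0))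

open Classical in
theorem sum_eq (m : Multiset K) (n : ℕ) (F : Finset K) (hF : m.toFinset ⊆ F) :
    (m.map fun y => y ^ n).sum = ∑ y ∈ F, (m.count y : K) * y ^ n := by
  rw [Finset.sum_multiset_map_count]
  simp only [nsmul_eq_mul]
  refine Finset.sum_subset hF fun y _ hy => ?_
  rw [Multiset.mem_toFinset] at hy
  rw [Multiset.count_eq_zero_of_notMem hy, Nat.cast_zero, zero_mul]

/-- linear independence of `n ↦ y ^ n`, `n ≥ 1` -/
theorem indep (F : Finset K) (hF : (0 : K) ∉ F) (c : K → K)
    (h : ∀ n : ℕ, 1 ≤ n → ∑ y ∈ F, c y * y ^ n = 0) : ∀ y ∈ F, c y = 0 := by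
  classical
  have hpoly : ∀ P : K[X], ∑ y ∈ F, c y * (y * P.eval y) = 0 := by
    intro P
    induction P using Polynomial.induction_on' with
    | add P Q hP hQ =>
      have : ∑ y ∈ F, c y * (y * (P + Q).eval y) =
          ∑ y ∈ F, c y * (y * P.eval y) + ∑ y ∈ F, c y * (y * Q.eval y) := by
        rw [← Finset.sum_add_distrib]
        refine Finset.sum_congr rfl fun y _ => ?_
        rw [eval_add]
        ring
      rw [this, hP, hQ, add_zero]
    | monomial n a =>
      have : ∑ y ∈ F, c y * (y * (monomial n a).eval y) = a * ∑ y ∈ F, c y * y ^ (n + 1) := by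
        rw [Finset.mul_sum]
        refine Finset.sum_congr rfl fun y _ => ?_
        rw [eval_monomial]
        ring
      rw [this, h (n + 1) (by omega), mul_zero]
  intro y hy
  have h1 := hpoly (∏ z ∈ F.erase y, (X - C z))
  rw [Finset.sum_eq_single_of_mem y hy] at h1
  · have h2 : eval y (∏ z ∈ F.erase y, (X - C z)) ≠ 0 := by
      rw [eval_prod, Finset.prod_ne_zero_iff]
      intro z hz
      rw [eval_sub, eval_X, eval_C, sub_ne_zero]
      exact (Finset.ne_of_mem_erase hz).symm
    have hy0 : y ≠ 0 := fun h0 => hF (h0 ▸ hy)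
    exact (mul_eq_zero.1 h1).resolve_right (mul_ne_zero hy0 h2)
  · intro z hz hzy
    have h2 : eval z (∏ w ∈ F.erase y, (X - C w)) = 0 := by
      rw [eval_prod]
      exact Finset.prod_eq_zero (Finset.mem_erase.2 ⟨hzy, hz⟩) (by simp)
    rw [h2, mul_zero, mul_zero]

end CountM

open CountM in
theorem specCount : SpecCount := by
  intro K _ p _ _ s t hs ht h y
  classical
  set F : Finset K := (sub s).toFinset ∪ (sub t).toFinset with hF
  have hF0 : (0 : K) ∉ F := by
    rw [hF, Finset.mem_union, Multiset.mem_toFinset, Multiset.mem_toFinset]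
    rintro (h0 | h0)
    · exact zero_notMem_sub hs h0
    · exact zero_notMem_sub ht h0
  have key : ∀ n : ℕ, 1 ≤ n →
      ∑ y ∈ F, (((sub s).count y : K) - ((sub t).count y : K)) * y ^ n = 0 := by
    intro n hn
    have hm : (X ^ n + C (1 : ℤ) : ℤ[X]).Monic := monic_X_pow_add_C _ (by omega)
    have h1 := h _ hm
    simp only [map_add, map_pow, aeval_X, map_one] at h1
    rw [prod_eq, prod_eq, sum_eq _ n F Finset.subset_union_left,
      sum_eq _ n F Finset.subset_union_right] at h1
    simp only [sub_mul]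
    rw [Finset.sum_sub_distrib, h1, sub_self]
  by_cases hy : y ∈ F
  · have h2 := indep F hF0 _ key y hy
    rw [sub_eq_zero] at h2
    exact (CharP.natCast_eq_natCast K p).1 h2
  · rw [hF, Finset.mem_union, Multiset.mem_toFinset, Multiset.mem_toFinset, not_or] at hy
    have e1 : Multiset.count y (Multiset.map Multiset.prod s.powerset) = 0 :=
      Multiset.count_eq_zero_of_notMem hy.1
    have e2 : Multiset.count y (Multiset.map Multiset.prod t.powerset) = 0 :=
      Multiset.count_eq_zero_of_notMem hy.2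
    rw [e1, e2]

end Pool.Agent.Lib.MP_8f946f_al.Sol
end
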