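import Pool.Agent.Lib.MP_8f946f_al.Sol.Count

/-!
# Module OPMI: the monic identity, for the action on an abelian ideal
-/

set_option autoImplicit false

namespace Pool.Agent.Lib.MP_8f946f_al.Sol.OpMIM

open Polynomial BasM

attribute [local instance 100] LieRing.ofAssociativeRing

section free

variable (F : Type) [Field F]

/-- the free associative algebra on two letters -/
abbrev U : Type := FreeAlgebra F (Fin 2)

/-- the first letter -/
noncomputable def x₀ : U F := FreeAlgebra.ι F 0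

/-- the second letter -/
noncomputable def y₀ : U F := FreeAlgebra.ι F 1

/-- a product of derivatives of the second letter -/
noncomputable def pr (l : List ℕ) : U F := (l.map fun i => ((Dx F (x₀ F)) ^ i) (y₀ F)).prod

/-- the span of the products of at least `n` derivatives of the second letter -/
noncomputable def Z (n : ℕ) : Submodule F (U F) :=
  Submodule.span F {p | ∃ l : List ℕ, n ≤ l.length ∧ pr F l = p}

/-- the ideal of the elements with at least `n` letters `y` in each term -/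
noncomputable def G (n : ℕ) : Submodule F (U F) :=
  Submodule.span F {p | ∃ (u : ℕ) (l : List ℕ), n ≤ l.length ∧ x₀ F ^ u * pr F l = p}

variable {F}

lemma pr_cons (i : ℕ) (l : List ℕ) : pr F (i :: l) = ((Dx F (x₀ F)) ^ i) (y₀ F) * pr F l := by
  simp [pr]

lemma pr_mem {n : ℕ} (l : List ℕ) (h : n ≤ l.length) : pr F l ∈ Z F n :=
  Submodule.subset_span ⟨l, h, rfl⟩

lemma y_mul_Z {n : ℕ} (i : ℕ) {z : U F} (hz : z ∈ Z F n) :
    ((Dx F (x₀ F)) ^ i) (y₀ F) * z ∈ Z F (n + 1) := by
  induction hz using Submodule.span_induction with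
  | mem z hz =>
    obtain ⟨l, hl, rfl⟩ := hz
    rw [← pr_cons]
    exact pr_mem _ (by simpa using hl)
  | zero => rw [mul_zero]; exact Submodule.zero_mem _
  | add a b _ _ ha hb => rw [mul_add]; exact Submodule.add_mem _ ha hb
  | smul t a _ ha => rw [mul_smul_comm]; exact Submodule.smul_mem _ _ ha

lemma D_pr (l : List ℕ) : Dx F (x₀ F) (pr F l) ∈ Z F l.length := by
  induction l with
  | nil =>
    have : Dx F (x₀ F) (pr F []) = 0 := by
      rw [Dx_apply]
      simp [pr]
    rw [this]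
    exact Submodule.zero_mem _
  | cons i l ih =>
    rw [pr_cons, Dx_mul]
    apply Submodule.add_mem
    · have h1 : Dx F (x₀ F) (((Dx F (x₀ F)) ^ i) (y₀ F)) = ((Dx F (x₀ F)) ^ (i + 1)) (y₀ F) := by
        rw [pow_succ', Module.End.mul_apply]
      rw [h1, ← pr_cons]
      exact pr_mem _ (by simp)
    · exact y_mul_Z i ih

lemma Z_mono {m n : ℕ} (h : m ≤ n) : Z F n ≤ Z F m := by
  apply Submodule.span_mono
  rintro p ⟨l, hl, rfl⟩
  exact ⟨l, h.trans hl, rfl⟩

lemma D_Z {n : ℕ} {z : U F} (hz : z ∈ Z F n) : Dx F (x₀ F) z ∈ Z F n := by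
  induction hz using Submodule.span_induction with
  | mem z hz =>
    obtain ⟨l, hl, rfl⟩ := hz
    exact Z_mono hl (D_pr l)
  | zero => rw [map_zero]; exact Submodule.zero_mem _
  | add a b _ _ ha hb => rw [map_add]; exact Submodule.add_mem _ ha hb
  | smul t a _ ha => rw [map_smul]; exact Submodule.smul_mem _ _ ha

lemma G_mono {m n : ℕ} (h : m ≤ n) : G F n ≤ G F m := by
  apply Submodule.span_mono
  rintro p ⟨u, l, hl, rfl⟩
  exact ⟨u, l, h.trans hl, rfl⟩

lemma pow_mul_Z {n : ℕ} (u : ℕ) {z : U F} (hz : z ∈ Z F n) : x₀ F ^ u * z ∈ G F n := by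
  induction hz using Submodule.span_induction with
  | mem z hz =>
    obtain ⟨l, hl, rfl⟩ := hz
    exact Submodule.subset_span ⟨u, l, hl, rfl⟩
  | zero => rw [mul_zero]; exact Submodule.zero_mem _
  | add a b _ _ ha hb => rw [mul_add]; exact Submodule.add_mem _ ha hb
  | smul t a _ ha => rw [mul_smul_comm]; exact Submodule.smul_mem _ _ ha

lemma x_mul_G {n : ℕ} {g : U F} (hg : g ∈ G F n) : x₀ F * g ∈ G F n := by
  induction hg using Submodule.span_induction with
  | mem z hz =>
    obtain ⟨u, l, hl, rfl⟩ := hz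
    rw [← mul_assoc, ← pow_succ']
    exact Submodule.subset_span ⟨u + 1, l, hl, rfl⟩
  | zero => rw [mul_zero]; exact Submodule.zero_mem _
  | add a b _ _ ha hb => rw [mul_add]; exact Submodule.add_mem _ ha hb
  | smul t a _ ha => rw [mul_smul_comm]; exact Submodule.smul_mem _ _ ha

lemma Dy_mul_x (i : ℕ) : ((Dx F (x₀ F)) ^ i) (y₀ F) * x₀ F =
    x₀ F * ((Dx F (x₀ F)) ^ i) (y₀ F) - ((Dx F (x₀ F)) ^ (i + 1)) (y₀ F) := by
  rw [pow_succ', Module.End.mul_apply, Dx_apply (R := F) (x₀ F) (((Dx F (x₀ F)) ^ i) (y₀ F))]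
  abel

lemma Dy_mul_pow (n : ℕ) (u : ℕ) : ∀ (i : ℕ) (l : List ℕ), n ≤ l.length →
    ((Dx F (x₀ F)) ^ i) (y₀ F) * (x₀ F ^ u * pr F l) ∈ G F (n + 1) := by
  induction u with
  | zero =>
    intro i l hl
    rw [pow_zero, one_mul, ← pr_cons]
    refine Submodule.subset_span ⟨0, i :: l, by simpa using hl, by rw [pow_zero, one_mul]⟩
  | succ u ih =>
    intro i l hl
    have h1 : ((Dx F (x₀ F)) ^ i) (y₀ F) * (x₀ F ^ (u + 1) * pr F l) =
        x₀ F * (((Dx F (x₀ F)) ^ i) (y₀ F) * (x₀ F ^ u * pr F l)) -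
          ((Dx F (x₀ F)) ^ (i + 1)) (y₀ F) * (x₀ F ^ u * pr F l) := by
      rw [pow_succ', mul_assoc, ← mul_assoc _ (x₀ F) (x₀ F ^ u * pr F l), Dy_mul_x, sub_mul,
        mul_assoc]
    rw [h1]
    exact Submodule.sub_mem _ (x_mul_G (ih i l hl)) (ih (i + 1) l hl)

lemma Dy_mul_G {n : ℕ} (i : ℕ) {g : U F} (hg : g ∈ G F n) :
    ((Dx F (x₀ F)) ^ i) (y₀ F) * g ∈ G F (n + 1) := by
  induction hg using Submodule.span_induction with
  | mem z hz =>
    obtain ⟨u, l, hl, rfl⟩ := hz
    exact Dy_mul_pow n u i l hl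
  | zero => rw [mul_zero]; exact Submodule.zero_mem _
  | add a b _ _ ha hb => rw [mul_add]; exact Submodule.add_mem _ ha hb
  | smul t a _ ha => rw [mul_smul_comm]; exact Submodule.smul_mem _ _ ha

lemma y_mul_G {n : ℕ} {g : U F} (hg : g ∈ G F n) : y₀ F * g ∈ G F (n + 1) := by
  have := Dy_mul_G 0 hg
  rwa [pow_zero, Module.End.one_apply] at this

lemma mul_G {n : ℕ} (p : U F) {g : U F} (hg : g ∈ G F n) : p * g ∈ G F n := by
  induction p using FreeAlgebra.induction generalizing g with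
  | grade0 r =>
    rw [Algebra.algebraMap_eq_smul_one, smul_mul_assoc, one_mul]
    exact Submodule.smul_mem _ _ hg
  | grade1 i =>
    fin_cases i
    · exact x_mul_G hg
    · exact G_mono (Nat.le_succ n) (y_mul_G hg)
  | mul a b ha hb => rw [mul_assoc]; exact ha (hb hg)
  | add a b ha hb => rw [add_mul]; exact Submodule.add_mem _ (ha hg) (hb hg)

lemma pr_mul_x (l : List ℕ) : pr F l * x₀ F = x₀ F * pr F l - Dx F (x₀ F) (pr F l) := by
  rw [Dx_apply]
  abel

lemma G_mul {n : ℕ} (p : U F) {g : U F} (hg : g ∈ G F n) : g * p ∈ G F n := by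
  have key : ∀ (u : ℕ) (l : List ℕ), n ≤ l.length → x₀ F ^ u * pr F l * p ∈ G F n := by
    induction p using FreeAlgebra.induction generalizing g with
    | grade0 r =>
      intro u l hl
      rw [Algebra.algebraMap_eq_smul_one, mul_smul_comm, mul_one]
      exact Submodule.smul_mem _ _ (Submodule.subset_span ⟨u, l, hl, rfl⟩)
    | grade1 i =>
      intro u l hl
      fin_cases i
      · change x₀ F ^ u * pr F l * x₀ F ∈ G F n
        rw [mul_assoc, pr_mul_x, mul_sub, ← mul_assoc, ← pow_succ]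
        exact Submodule.sub_mem _ (Submodule.subset_span ⟨u + 1, l, hl, rfl⟩)
          (pow_mul_Z u (Z_mono hl (D_pr l)))
      · change x₀ F ^ u * pr F l * y₀ F ∈ G F n
        refine Submodule.subset_span ⟨u, l ++ [0], by simp; omega, ?_⟩
        simp [pr, mul_assoc]
    | mul a b ha hb =>
      intro u l hl
      have h1 : x₀ F ^ u * pr F l * a ∈ G F n := ha hg u l hl
      rw [← mul_assoc]
      have h2 : ∀ q ∈ G F n, q * b ∈ G F n := by
        intro q hq
        induction hq using Submodule.span_induction with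
        | mem z hz =>
          obtain ⟨u, l, hl, rfl⟩ := hz
          exact hb hg u l hl
        | zero => rw [zero_mul]; exact Submodule.zero_mem _
        | add a b _ _ ha hb => rw [add_mul]; exact Submodule.add_mem _ ha hb
        | smul t a _ ha => rw [smul_mul_assoc]; exact Submodule.smul_mem _ _ ha
      exact h2 _ h1
    | add a b ha hb =>
      intro u l hl
      rw [mul_add]
      exact Submodule.add_mem _ (ha hg u l hl) (hb hg u l hl)
  induction hg using Submodule.span_induction with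
  | mem z hz =>
    obtain ⟨u, l, hl, rfl⟩ := hz
    exact key u l hl
  | zero => rw [zero_mul]; exact Submodule.zero_mem _
  | add a b _ _ ha hb => rw [add_mul]; exact Submodule.add_mem _ ha hb
  | smul t a _ ha => rw [smul_mul_assoc]; exact Submodule.smul_mem _ _ ha

lemma G_mul_G {g h : U F} (hg : g ∈ G F 1) (hh : h ∈ G F 1) : g * h ∈ G F 2 := by
  induction hg using Submodule.span_induction with
  | mem z hz =>
    obtain ⟨u, l, hl, rfl⟩ := hz
    rw [mul_assoc]
    apply mul_G
    cases l with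
    | nil => simp at hl
    | cons i l =>
      rw [pr_cons, mul_assoc]
      exact Dy_mul_G i (mul_G _ hh)
  | zero => rw [zero_mul]; exact Submodule.zero_mem _
  | add a b _ _ ha hb => rw [add_mul]; exact Submodule.add_mem _ ha hb
  | smul t a _ ha => rw [smul_mul_assoc]; exact Submodule.smul_mem _ _ ha

/-- elements of `G 2` are given by lists -/
lemma exists_list {g : U F} (hg : g ∈ G F 2) :
    ∃ W : List (F × ℕ × List ℕ), Two W ∧ g = rhs W (x₀ F) (y₀ F) := by
  induction hg using Submodule.span_induction with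
  | mem z hz =>
    obtain ⟨u, l, hl, rfl⟩ := hz
    refine ⟨[(1, u, l)], ?_, ?_⟩
    · intro t ht
      rw [List.mem_singleton.1 ht]
      exact hl
    · simp [rhs, pr]
  | zero => exact ⟨[], by intro t ht; simp at ht, by simp [rhs]⟩
  | add a b _ _ ha hb =>
    obtain ⟨W, hW, rfl⟩ := ha
    obtain ⟨W', hW', rfl⟩ := hb
    refine ⟨W ++ W', ?_, ?_⟩
    · intro t ht
      rcases List.mem_append.1 ht with h | h
      · exact hW t h
      · exact hW' t h
    · simp [rhs]
  | smul s a _ ha =>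
    obtain ⟨W, hW, rfl⟩ := ha
    refine ⟨W.map fun t => (s * t.1, t.2), ?_, ?_⟩
    · intro t ht
      obtain ⟨t', ht', rfl⟩ := List.mem_map.1 ht
      exact hW t' ht'
    · simp only [rhs, List.map_map, List.smul_sum, Function.comp_def, smul_smul]

end free

section lie

variable (F : Type) [Field F]

/-- the representation by matrices with zero second row -/
noncomputable def Φ : FreeLieAlgebra F ℕ →ₗ⁅F⁆ Matrix (Fin 2) (Fin 2) (U F) :=
  FreeLieAlgebra.lift F fun n => if n = 0 then !![x₀ F, 0; 0, 0] else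
    if n = 1 then !![y₀ F, 0; 0, 0] else if n = 2 then !![0, 1; 0, 0] else 0

variable {F}

/-- induction in the free Lie algebra -/
lemma free_mem (S : LieSubalgebra F (FreeLieAlgebra F ℕ)) (h : ∀ n, FreeLieAlgebra.of F n ∈ S)
    (w : FreeLieAlgebra F ℕ) : w ∈ S := by
  let f : FreeLieAlgebra F ℕ →ₗ⁅F⁆ S := FreeLieAlgebra.lift F fun n => ⟨_, h n⟩
  have h1 : S.incl.comp f = LieHom.id := by
    apply FreeLieAlgebra.hom_ext
    intro n
    rw [LieHom.comp_apply, FreeLieAlgebra.lift_of_apply]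
    rfl
  have h2 : (f w : FreeLieAlgebra F ℕ) = w := by
    have := LieHom.congr_fun h1 w
    exact this
  rw [← h2]
  exact (f w).2

lemma Φ_row (w : FreeLieAlgebra F ℕ) : ∀ j, Φ F w 1 j = 0 := by
  let S : LieSubalgebra F (FreeLieAlgebra F ℕ) :=
    { carrier := {w | ∀ j, Φ F w 1 j = 0}
      zero_mem' := by intro j; rw [map_zero]; rfl
      add_mem' := by
        intro a b ha hb j
        rw [map_add, Matrix.add_apply, ha j, hb j, add_zero]
      smul_mem' := by
        intro t a ha j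
        rw [map_smul, Matrix.smul_apply, ha j, smul_zero]
      lie_mem' := by
        intro a b ha hb j
        rw [LieHom.map_lie, Ring.lie_def, Matrix.sub_apply, Matrix.mul_apply, Matrix.mul_apply]
        simp only [Fin.sum_univ_two]
        rw [ha 0, ha 1, hb 0, hb 1]
        simp }
  refine free_mem S (fun n j => ?_) w
  rw [Φ, FreeLieAlgebra.lift_of_apply]
  rcases n with _ | _ | _ | n
  · fin_cases j <;> simp
  · fin_cases j <;> simp
  · fin_cases j <;> simp
  · simp

lemma Φ_lie_zero (a b : FreeLieAlgebra F ℕ) : Φ F ⁅a, b⁆ 0 0 =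
    Φ F a 0 0 * Φ F b 0 0 - Φ F b 0 0 * Φ F a 0 0 := by
  rw [LieHom.map_lie, Ring.lie_def, Matrix.sub_apply, Matrix.mul_apply, Matrix.mul_apply]
  simp only [Fin.sum_univ_two]
  rw [Φ_row a, Φ_row b]
  simp

lemma Φ_lie_one (a b : FreeLieAlgebra F ℕ) : Φ F ⁅a, b⁆ 0 1 =
    Φ F a 0 0 * Φ F b 0 1 - Φ F b 0 0 * Φ F a 0 1 := by
  rw [LieHom.map_lie, Ring.lie_def, Matrix.sub_apply, Matrix.mul_apply, Matrix.mul_apply]
  simp only [Fin.sum_univ_two]
  rw [Φ_row a, Φ_row b]
  simp

/-- the ideal of the elements with entries in given left ideals, stable under right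
multiplication -/
def idl (H K : Submodule F (U F)) (hH : ∀ p, ∀ g ∈ H, p * g ∈ H ∧ g * p ∈ H)
    (hK : ∀ p, ∀ g ∈ K, p * g ∈ K) (hHK : ∀ p, ∀ g ∈ H, g * p ∈ K) :
    LieIdeal F (FreeLieAlgebra F ℕ) where
  carrier := {w | Φ F w 0 0 ∈ H ∧ Φ F w 0 1 ∈ K}
  zero_mem' := by
    constructor
    · rw [map_zero]; exact H.zero_mem
    · rw [map_zero]; exact K.zero_mem
  add_mem' := by
    intro a b ha hb
    constructor
    · rw [map_add]; exact H.add_mem ha.1 hb.1
    · rw [map_add]; exact K.add_mem ha.2 hb.2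
  smul_mem' := by
    intro t a ha
    constructor
    · rw [map_smul]; exact H.smul_mem t ha.1
    · rw [map_smul]; exact K.smul_mem t ha.2
  lie_mem := by
    intro z a ha
    constructor
    · rw [Φ_lie_zero]
      exact H.sub_mem (hH _ _ ha.1).1 (hH _ _ ha.1).2
    · rw [Φ_lie_one]
      exact K.sub_mem (hK _ _ ha.2) (hHK _ _ ha.1)

lemma third_mem (w : FreeLieAlgebra F ℕ) (hw : w ∈ freeThird F) :
    Φ F w 0 0 = 0 ∧ Φ F w 0 1 ∈ G F 2 := by
  have hbot : ∀ p, ∀ g ∈ (⊥ : Submodule F (U F)), p * g ∈ (⊥ : Submodule F (U F)) ∧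
      g * p ∈ (⊥ : Submodule F (U F)) := by
    intro p g hg
    rw [Submodule.mem_bot] at hg
    subst hg
    simp
  let I₁ := idl (G F 1) (G F 1) (fun p g hg => ⟨mul_G p hg, G_mul p hg⟩) (fun p g hg => mul_G p hg)
    (fun p g hg => G_mul p hg)
  let I₂ := idl (⊥ : Submodule F (U F)) ⊤ hbot (fun _ _ _ => Submodule.mem_top)
    (fun _ _ _ => Submodule.mem_top)
  let I₃ := idl (⊥ : Submodule F (U F)) (G F 1) hbot (fun p g hg => mul_G p hg)
    (fun p g hg => by
      rw [Submodule.mem_bot] at hg; rw [hg, zero_mul]; exact Submodule.zero_mem _)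
  let I₄ := idl (⊥ : Submodule F (U F)) (G F 2) hbot (fun p g hg => mul_G p hg)
    (fun p g hg => by
      rw [Submodule.mem_bot] at hg; rw [hg, zero_mul]; exact Submodule.zero_mem _)
  let I₅ := idl (G F 1) (⊤ : Submodule F (U F)) (fun p g hg => ⟨mul_G p hg, G_mul p hg⟩)
    (fun _ _ _ => Submodule.mem_top) (fun _ _ _ => Submodule.mem_top)
  have h1 : LieSubmodule.lieSpan F (FreeLieAlgebra F ℕ) {FreeLieAlgebra.of F 1} ≤ I₁ := by
    rw [LieSubmodule.lieSpan_le, Set.singleton_subset_iff]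
    change Φ F _ 0 0 ∈ G F 1 ∧ Φ F _ 0 1 ∈ G F 1
    rw [Φ, FreeLieAlgebra.lift_of_apply]
    constructor
    · simp only [one_ne_zero, ↓reduceIte]
      exact Submodule.subset_span ⟨0, [0], by simp, by simp [pr]⟩
    · simp
  have h2 : LieSubmodule.lieSpan F (FreeLieAlgebra F ℕ) {FreeLieAlgebra.of F 2} ≤ I₂ := by
    rw [LieSubmodule.lieSpan_le, Set.singleton_subset_iff]
    change Φ F _ 0 0 ∈ (⊥ : Submodule F (U F)) ∧ Φ F _ 0 1 ∈ (⊤ : Submodule F (U F))
    rw [Φ, FreeLieAlgebra.lift_of_apply]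
    constructor
    · simp
    · exact Submodule.mem_top
  have h3 : (⁅LieSubmodule.lieSpan F (FreeLieAlgebra F ℕ) {FreeLieAlgebra.of F 1},
      LieSubmodule.lieSpan F (FreeLieAlgebra F ℕ) {FreeLieAlgebra.of F 2}⁆ :
      LieIdeal F (FreeLieAlgebra F ℕ)) ≤ I₃ := by
    rw [LieSubmodule.lie_le_iff]
    intro a ha b hb
    have ha' : Φ F a 0 0 ∈ G F 1 ∧ Φ F a 0 1 ∈ G F 1 := h1 ha
    have hb' : Φ F b 0 0 ∈ (⊥ : Submodule F (U F)) ∧ Φ F b 0 1 ∈ (⊤ : Submodule F (U F)) := h2 hb
    have hb0 : Φ F b 0 0 = 0 := hb'.1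
    change Φ F _ 0 0 ∈ (⊥ : Submodule F (U F)) ∧ Φ F _ 0 1 ∈ G F 1
    constructor
    · rw [Φ_lie_zero, hb0]
      simp
    · rw [Φ_lie_one, hb0, zero_mul, sub_zero]
      exact G_mul _ ha'.1
  have h4 : freeThird F ≤ I₄ := by
    unfold freeThird third
    rw [LieSubmodule.lie_le_iff]
    intro a ha b hb
    have h5 : LieSubmodule.lieSpan F (FreeLieAlgebra F ℕ) {FreeLieAlgebra.of F 1} ⊔
        LieSubmodule.lieSpan F (FreeLieAlgebra F ℕ) {FreeLieAlgebra.of F 2} ≤ I₅ := by
      apply sup_le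
      · intro a ha
        exact ⟨(h1 ha).1, Submodule.mem_top⟩
      · intro b hb
        have : Φ F b 0 0 = 0 := (h2 hb).1
        refine ⟨?_, Submodule.mem_top⟩
        rw [this]
        exact Submodule.zero_mem _
    have ha' : Φ F a 0 0 ∈ G F 1 := (h5 ha).1
    have hb' : Φ F b 0 0 ∈ (⊥ : Submodule F (U F)) ∧ Φ F b 0 1 ∈ G F 1 := h3 hb
    have hb0 : Φ F b 0 0 = 0 := hb'.1
    change Φ F _ 0 0 ∈ (⊥ : Submodule F (U F)) ∧ Φ F _ 0 1 ∈ G F 2
    constructor
    · rw [Φ_lie_zero, hb0]
      simp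
    · rw [Φ_lie_one, hb0, zero_mul, sub_zero]
      exact G_mul_G ha' hb'.2
  exact ⟨(h4 hw).1, (h4 hw).2⟩

section eval

variable {L : Type} [LieRing L] [LieAlgebra F L] (A : LieIdeal F L)
  (hA : ∀ a ∈ A, ∀ b ∈ A, ⁅a, b⁆ = 0) (x b : L) (a : A)

/-- the evaluation of associative words -/
noncomputable def φ : U F →ₐ[F] Module.End F A :=
  FreeAlgebra.lift F ![LieModule.toEnd F L A x, LieModule.toEnd F L A b]

lemma φ_x : φ A x b (x₀ F) = LieModule.toEnd F L A x := by
  unfold φ x₀
  rw [FreeAlgebra.lift_ι_apply]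
  rfl

lemma φ_y : φ A x b (y₀ F) = LieModule.toEnd F L A b := by
  unfold φ y₀
  rw [FreeAlgebra.lift_ι_apply]
  rfl

/-- the values -/
def vv (n : ℕ) : L := if n = 0 then x else if n = 1 then b else if n = 2 then (a : L) else 0

/-- the values, without `a` -/
def vz (n : ℕ) : L := if n = 0 then x else if n = 1 then b else 0

include hA in
lemma lift_eq (w : FreeLieAlgebra F ℕ) :
    FreeLieAlgebra.lift F (vv A x b a) w = FreeLieAlgebra.lift F (vz x b) w +
      ((φ A x b (Φ F w 0 1)) a : A) ∧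
    LieModule.toEnd F L A (FreeLieAlgebra.lift F (vz x b) w) = φ A x b (Φ F w 0 0) := by
  let S : LieSubalgebra F (FreeLieAlgebra F ℕ) :=
    { carrier := {w | FreeLieAlgebra.lift F (vv A x b a) w = FreeLieAlgebra.lift F (vz x b) w +
        ((φ A x b (Φ F w 0 1)) a : A) ∧
        LieModule.toEnd F L A (FreeLieAlgebra.lift F (vz x b) w) = φ A x b (Φ F w 0 0)}
      zero_mem' := by
        constructor
        · simp
        · simp
      add_mem' := by
        rintro u v ⟨hu1, hu2⟩ ⟨hv1, hv2⟩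
        constructor
        · rw [map_add, map_add, map_add, Matrix.add_apply, map_add, LinearMap.add_apply, hu1, hv1,
            LieSubmodule.coe_add]
          abel
        · rw [map_add, map_add, map_add, Matrix.add_apply, map_add, hu2, hv2]
      smul_mem' := by
        rintro t u ⟨hu1, hu2⟩
        constructor
        · rw [map_smul, map_smul, map_smul, Matrix.smul_apply, map_smul, LinearMap.smul_apply, hu1,
            LieSubmodule.coe_smul, smul_add]
        · rw [map_smul, map_smul, map_smul, Matrix.smul_apply, map_smul, hu2]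
      lie_mem' := by
        rintro u v ⟨hu1, hu2⟩ ⟨hv1, hv2⟩
        constructor
        · rw [LieHom.map_lie, LieHom.map_lie, hu1, hv1, Φ_lie_one, map_sub, map_mul, map_mul,
            LinearMap.sub_apply, Module.End.mul_apply, Module.End.mul_apply, ← hu2, ← hv2,
            LieModule.toEnd_apply_apply, LieModule.toEnd_apply_apply]
          have h1 := hA _ ((φ A x b (Φ F u 0 1)) a).2 _ ((φ A x b (Φ F v 0 1)) a).2
          rw [add_lie, lie_add, lie_add, h1, LieSubmodule.coe_sub, LieSubmodule.coe_bracket,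
            LieSubmodule.coe_bracket,
            ← lie_skew (FreeLieAlgebra.lift F (vz x b) v)
              (((φ A x b (Φ F u 0 1)) a : A) : L)]
          abel
        · rw [LieHom.map_lie, LieHom.map_lie, Φ_lie_zero, map_sub, map_mul, map_mul, hu2, hv2,
            Ring.lie_def] }
  refine free_mem S (fun n => ?_) w
  change FreeLieAlgebra.lift F (vv A x b a) _ = FreeLieAlgebra.lift F (vz x b) _ +
        ((φ A x b (Φ F _ 0 1)) a : A) ∧
        LieModule.toEnd F L A (FreeLieAlgebra.lift F (vz x b) _) = φ A x b (Φ F _ 0 0)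
  rw [Φ, FreeLieAlgebra.lift_of_apply, FreeLieAlgebra.lift_of_apply, FreeLieAlgebra.lift_of_apply]
  rcases n with _ | _ | _ | n
  · simp [vv, vz, φ_x]
  · simp [vv, vz, φ_y]
  · simp [vv, vz]
  · simp [vv, vz]

lemma lift_third (w : FreeLieAlgebra F ℕ) (hw : w ∈ freeThird F) :
    FreeLieAlgebra.lift F (vz x b) w = 0 := by
  have h1 : LieSubmodule.lieSpan F (FreeLieAlgebra F ℕ) {FreeLieAlgebra.of F 2} ≤
      (FreeLieAlgebra.lift F (vz x b)).ker := by
    rw [LieSubmodule.lieSpan_le, Set.singleton_subset_iff]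
    change _ ∈ (FreeLieAlgebra.lift F (vz x b)).ker
    rw [LieHom.mem_ker, FreeLieAlgebra.lift_of_apply]
    simp [vz]
  have h2 : freeThird F ≤ LieSubmodule.lieSpan F (FreeLieAlgebra F ℕ) {FreeLieAlgebra.of F 2} := by
    unfold freeThird third
    refine (LieSubmodule.lie_le_right _ _).trans (LieSubmodule.lie_le_right _ _)
  have h3 := h1 (h2 hw)
  rwa [LieHom.mem_ker] at h3

lemma ad_eq_Dx {E : Type} [Ring E] [Algebra F E] (e : E) : LieAlgebra.ad F E e = Dx F e := by
  ext y
  rw [LieAlgebra.ad_apply, Ring.lie_def, Dx_apply]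

lemma toEnd_ad_pow (n : ℕ) : LieModule.toEnd F L A (((LieAlgebra.ad F L x) ^ n) b) =
    ((Dx F (LieModule.toEnd F L A x)) ^ n) (LieModule.toEnd F L A b) := by
  rw [hom_ad_pow, ad_eq_Dx]

lemma aeval_toEnd (q : F[X]) (z : A) : ((aeval (LieModule.toEnd F L A x) q z : A) : L) =
    aeval (LieAlgebra.ad F L x) q (z : L) := by
  have hpow : ∀ n : ℕ, (((LieModule.toEnd F L A x) ^ n) z : L) =
      ((LieAlgebra.ad F L x) ^ n) (z : L) := by
    intro n
    induction n with
    | zero => rfl
    | succ n ih =>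
      rw [pow_succ', pow_succ', Module.End.mul_apply, Module.End.mul_apply,
        LieModule.toEnd_apply_apply, LieAlgebra.ad_apply, LieSubmodule.coe_bracket, ih]
  induction q using Polynomial.induction_on' with
  | add p r hp hr => rw [map_add, map_add, LinearMap.add_apply, LinearMap.add_apply,
      LieSubmodule.coe_add, hp, hr]
  | monomial n t =>
    rw [aeval_monomial, aeval_monomial, Module.End.mul_apply, Module.End.mul_apply,
      Module.algebraMap_end_apply, Module.algebraMap_end_apply, LieSubmodule.coe_smul, hpow]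

end eval

end lie

end Pool.Agent.Lib.MP_8f946f_al.Sol.OpMIM

namespace Pool.Agent.Lib.MP_8f946f_al.Sol

open OpMIM BasM in
theorem specOpMI : SpecOpMI := by
  intro F _ k c w hw
  obtain ⟨h1, h2⟩ := third_mem w hw
  obtain ⟨W, hW, hWe⟩ := exists_list h2
  refine ⟨W, hW, ?_⟩
  intro L _ _ hL A hA x b
  unfold OpRel
  ext a
  have h3 := hL _ rfl (vv A x b a)
  rw [map_sub, monicForm_map, FreeLieAlgebra.lift_of_apply, FreeLieAlgebra.lift_of_apply,
    FreeLieAlgebra.lift_of_apply, sub_eq_zero, (lift_eq A hA x b a w).1, lift_third x b w hw,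
    zero_add, hWe, map_rhs, φ_x, φ_y] at h3
  rw [← h3]
  change _ = monicForm k c x b (a : L)
  unfold monicForm
  rw [LinearMap.sub_apply, LieSubmodule.coe_sub, LinearMap.sum_apply]
  congr 1
  · rw [← toEnd_ad_pow, LieModule.toEnd_apply_apply, LieSubmodule.coe_bracket]
  · rw [AddSubmonoidClass.coe_finsetSum]
    refine Finset.sum_congr rfl fun j _ => ?_
    rw [Module.End.mul_apply, aeval_toEnd, ← toEnd_ad_pow, LieModule.toEnd_apply_apply,
      LieSubmodule.coe_bracket]

end Pool.Agent.Lib.MP_8f946f_al.Sol
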