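import Pool.Agent.Lib.MP_8f946f_al.Sol.Defs

/-!
# Locally soluble-by-finite varieties: exact statements of the modules

Text with all the proofs: `/team-store/MP_8f946f_al_SOL.md`.
-/

set_option autoImplicit false

namespace Pool.Agent.Lib.MP_8f946f_al.Sol

open Polynomial Finset

/-! ## Group 1: characters -/

open Classical in
/-- DED: linear independence of the characters of a monoid, with coefficients in a vector space -/
def SpecDed : Prop :=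
  ∀ (M : Type) [Monoid M] (K : Type) [Field K] (A : Type) [AddCommGroup A] [Module K A] (ι : Type)
    (s : Finset ι) (χ : ι → M →* K) (a : ι → A), (∀ q, ∑ i ∈ s, χ i q • a i = 0) →
    ∀ χ₀ : M →* K, ∑ i ∈ s with χ i = χ₀, a i = 0

/-- VAL: a homomorphism from the multiplicative group to `ℚ` which does not vanish at finitely many
given elements of infinite order -/
def SpecVal : Prop :=
  ∀ (K : Type) [Field K] (S : Finset K), (∀ x ∈ S, x ≠ 0 ∧ ∀ n : ℕ, 1 ≤ n → x ^ n ≠ 1) →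
    ∃ v : K → ℚ, (∀ x y, x ≠ 0 → y ≠ 0 → v (x * y) = v x + v y) ∧ ∀ x ∈ S, v x ≠ 0

open Classical in
/-- COUNT: take `q = X ^ n + 1` and compare the coefficients of the characters `n ↦ y ^ n` -/
def SpecCount : Prop :=
  ∀ (K : Type) [Field K] (p : ℕ) [Fact p.Prime] [CharP K p] (s t : Multiset K), 0 ∉ s → 0 ∉ t →
    (∀ q : ℤ[X], q.Monic → (s.map fun x => aeval x q).prod = (t.map fun x => aeval x q).prod) →
    ∀ y : K, (s.powerset.map Multiset.prod).count y ≡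
      (t.powerset.map Multiset.prod).count y [MOD p]

/-- MERGE (from COUNT): if `∏_{x ∈ s} q(x) = ∏_{x ∈ t} q(x)` for all `q` and the elements of `t`
are positive and `p`-commensurable with `β`, so are the elements of `s` -/
def SpecMerge : Prop :=
  ∀ (K : Type) [Field K] (p : ℕ) [Fact p.Prime] [CharP K p] (v : K → ℚ)
    (_ : ∀ x y, x ≠ 0 → y ≠ 0 → v (x * y) = v x + v y) (β : K) (s t : Multiset K),
    (∀ x ∈ s, ¬ IsIntegral ℤ x) → (∀ x ∈ t, ¬ IsIntegral ℤ x) → (∀ x ∈ s, v x ≠ 0) →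
    (∀ x ∈ t, 0 < v x) →
    (∀ q : ℤ[X], q.Monic → (s.map fun x => aeval x q).prod = (t.map fun x => aeval x q).prod) →
    (∀ x ∈ t, ∃ a b : ℕ, x ^ p ^ a = β ^ p ^ b) →
    ∀ x ∈ s, 0 < v x ∧ ∃ a b : ℕ, x ^ p ^ a = β ^ p ^ b

/-- LEMC (from VAL, MERGE) -/
def SpecLemC : Prop :=
  ∀ (K : Type) [Field K] (p : ℕ) [Fact p.Prime] [CharP K p] (ν : List K) (μ : K), 2 ≤ ν.length →
    (∀ x ∈ ν, ¬ IsIntegral ℤ x) → ¬ IsIntegral ℤ μ →
    (∀ q : ℤ[X], (ν.map fun x => aeval x q).prod = aeval μ q) → ν.sum ≠ μ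

/-- MAXI (from VAL, MERGE) -/
def SpecMaxi : Prop :=
  ∀ (K : Type) [Field K] (p : ℕ) [Fact p.Prime] [CharP K p] (Λ : Finset K), Λ.Nonempty →
    (∀ x ∈ Λ, ¬ IsIntegral ℤ x) →
    ∃ β ∈ Λ, ∀ (n : ℕ) (ν : List K), (∀ x ∈ ν, x ∈ Λ) → ν.length ≤ n →
      (∀ q : ℤ[X], (ν.map fun x => aeval x q).prod = aeval β q ^ n) → ν = List.replicate n β

/-- CHAR (from DED, LEMC): if a non-linear relation holds for all the elements
`y = ∑ q(μ) b_μ`, `q ∈ ℤ[X]`, where `δ b_μ = μ b_μ` for a derivation `δ` and the `μ` are not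
algebraic over the prime field, then the linear part vanishes at the `b_μ`. -/
def SpecChar : Prop :=
  ∀ (K : Type) [Field K] (p : ℕ) [Fact p.Prime] [CharP K p] (A : Type) [Ring A] [Algebra K A]
    (δ D : A →ₗ[K] A) (_ : ∀ a b, δ (a * b) = δ a * b + a * δ b) (_ : ∀ a, δ (D a) = D (δ a))
    (Λ : Finset K) (_ : ∀ μ ∈ Λ, ¬ IsIntegral ℤ μ) (b : K → A) (_ : ∀ μ ∈ Λ, δ (b μ) = μ • b μ)
    (k : ℕ) (a : ℕ → A) (_ : ∀ j, δ (a j) = 0) (W : List (A × List ℕ))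
    (_ : ∀ t ∈ W, δ t.1 = 0 ∧ 2 ≤ t.2.length)
    (_ : ∀ q : ℤ[X], ∑ j ∈ range (k + 1), a j * (D ^ j) (∑ μ ∈ Λ, aeval μ q • b μ) =
      (W.map fun t => t.1 * (t.2.map fun i => (D ^ i) (∑ μ ∈ Λ, aeval μ q • b μ)).prod).sum),
    ∀ μ ∈ Λ, ∑ j ∈ range (k + 1), a j * (D ^ j) (b μ) = 0

/-! ## Group 2: polynomials -/

/-- DIV: pigeonhole in `F[X] ⧸ (h)` -/
def SpecDiv : Prop :=
  ∀ (F : Type) [Field F] [Finite F] (p : ℕ) [Fact p.Prime] [CharP F p] (h : F[X]), h ≠ 0 →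
    ∀ s : ℕ, ∃ u v : ℕ, s ≤ u ∧ u < v ∧ h ∣ X ^ p ^ v - X ^ p ^ u

/-- EIG: with `δ = D ^ (p ^ s)`, an element killed by `G(D)` is a sum of eigenvectors of `δ`
(Lagrange interpolation in the variable `X ^ (p ^ s)`) -/
def SpecEig : Prop :=
  ∀ (K : Type) [Field K] [IsAlgClosed K] (p : ℕ) [Fact p.Prime] [CharP K p] (G : K[X]), G ≠ 0 →
    ∃ (s : ℕ) (Λ : Finset K) (P : K → K[X]), ∑ μ ∈ Λ, P μ = 1 ∧
      ∀ μ ∈ Λ, G ∣ (X ^ p ^ s - C μ) * P μ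

/-! ## Group 3: theorem R (the scalar case) -/

/-- IRR: a commutative group with a noetherian topology and continuous translations has an
irreducible subgroup of finite index -/
def SpecIrr : Prop :=
  ∀ (G : Type) [AddCommGroup G] [TopologicalSpace G] [TopologicalSpace.NoetherianSpace G],
    (∀ g : G, Continuous fun x => g + x) →
    ∃ H : AddSubgroup G, H.FiniteIndex ∧ IsIrreducible (H : Set G)

/-- PRIME (from IRR): the polynomials vanishing on the image of a subgroup of finite index form a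
prime ideal -/
def SpecPrime : Prop :=
  ∀ (K : Type) [Field K] (V : Type) [AddCommGroup V] (κ : V →+ (ℕ → K)),
    ∃ I : Ideal (MvPolynomial ℕ K), I.IsPrime ∧ ∀ P, P ∈ I ↔
      ∃ H : AddSubgroup V, H.FiniteIndex ∧ ∀ v ∈ H, MvPolynomial.eval (κ v) P = 0

/-- REC: linear algebra -/
def SpecRec : Prop :=
  ∀ (Q : Type) [Field Q] (u : ℕ → Q) (e : ℕ → ℕ) (_ : Function.Injective e) (J m₀ : ℕ)
    (α : ℕ → ℕ → Q) (_ : ∀ m, m₀ ≤ m → α m J ≠ 0)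
    (_ : ∀ m, m₀ ≤ m → ∀ i, ∑ n ∈ range (J + 1), α m n * u (m + n + e i) = 0),
    ∃ G : Q[X], G ≠ 0 ∧ ∀ n, (G.sum fun j a => a * u (n + j)) = 0

/-- FINIMG -/
def SpecFinImg : Prop :=
  ∀ (K : Type) [Field K] (V : Type) [AddCommGroup V] (κ : V →+ (ℕ → K)) (T : V →+ V)
    (_ : ∀ v n, κ (T v) n = κ v (n + 1)) (k : ℕ) (h : ℕ → K) (W : List (K × List ℕ))
    (_ : ∀ t ∈ W, 2 ≤ t.2.length)
    (_ : ∀ v m, MvPolynomial.eval (κ v) ((dX K)^[m] (rho K k h W)) = 0)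
    (_ : ∀ f : ℤ[X], f.Monic → ∃ v, sq f (κ v) 0 ≠ 0),
    ∀ f : ℤ[X], f.Monic → (Set.range fun v => sq f (κ v) 0).Infinite

/-- GEN (from PRIME, REC): the generic point -/
def SpecGen : Prop :=
  ∀ (K : Type) [Field K] (p : ℕ) [Fact p.Prime] [CharP K p] (V : Type) [AddCommGroup V]
    (κ : V →+ (ℕ → K)) (T : V →+ V) (_ : ∀ v n, κ (T v) n = κ v (n + 1)) (k : ℕ) (h : ℕ → K)
    (W : List (K × List ℕ)) (_ : ∀ t ∈ W, 2 ≤ t.2.length)
    (_ : ∀ v m, MvPolynomial.eval (κ v) ((dX K)^[m] (rho K k h W)) = 0)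
    (_ : ∀ f : ℤ[X], f.Monic → (Set.range fun v => sq f (κ v) 0).Infinite),
    ∃ (Q : Type) (_ : Field Q) (_ : IsAlgClosed Q) (_ : Algebra K Q) (u : ℕ → Q) (G : Q[X]),
      G ≠ 0 ∧ (∀ n, (G.sum fun j a => a * u (n + j)) = 0) ∧
      (∀ f : ℤ[X], f.Monic → ∃ n, sq f u n ≠ 0) ∧
      ∀ (q : ℤ[X]) (m : ℕ), MvPolynomial.aeval (sq q u) ((dX K)^[m] (rho K k h W)) = 0

/-- RFIN (from EIG, CHAR, DIV): there is no such generic point if the `h_j` are in a finite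
field -/
def SpecRFin : Prop :=
  ∀ (F : Type) [Field F] [Finite F] (p : ℕ) [Fact p.Prime] [CharP F p] (K : Type) [Field K]
    [Algebra F K] (Q : Type) [Field Q] [IsAlgClosed Q] [Algebra K Q] (u : ℕ → Q) (G : Q[X])
    (k : ℕ) (h : ℕ → F) (W : List (K × List ℕ)) (_ : ∀ t ∈ W, 2 ≤ t.2.length) (_ : G ≠ 0)
    (_ : ∀ n, (G.sum fun j a => a * u (n + j)) = 0)
    (_ : ∀ f : ℤ[X], f.Monic → ∃ n, sq f u n ≠ 0)
    (_ : ∀ (q : ℤ[X]) (m : ℕ), MvPolynomial.aeval (sq q u)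
      ((dX K)^[m] (rho K k (fun j => algebraMap F K (h j)) W)) = 0), False

/-- R (from FINIMG, GEN, RFIN): theorem R -/
def SpecR : Prop :=
  ∀ (F : Type) [Field F] [Finite F] (K : Type) [Field K] [Algebra F K] (C : Type) [CommRing C]
    [Algebra F C] (D : C →ₗ[F] C) (_ : ∀ a b, D (a * b) = D a * b + a * D b) (lam : C →ₐ[F] K)
    (V : AddSubgroup C) (_ : ∀ v ∈ V, D v ∈ V) (k : ℕ) (h : ℕ → F) (W : List (F × List ℕ))
    (_ : ∀ t ∈ W, 2 ≤ t.2.length)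
    (_ : ∀ v ∈ V, ∀ m : ℕ, lam ((D ^ m) ((D ^ k) v - ∑ j ∈ range k, h j • (D ^ j) v -
      (W.map fun t => t.1 • (t.2.map fun i => (D ^ i) v).prod).sum)) = 0),
    ∃ f : ℤ[X], f.Monic ∧ ∀ v ∈ V, lam (aeval D f v) = 0

/-! ## Group 4: the matrix case -/

/-- CASES (from DED, MAXI, EIG, CHAR): the simple case -/
def SpecCaseS : Prop :=
  ∀ (K : Type) [Field K] [IsAlgClosed K] (p : ℕ) [Fact p.Prime] [CharP K p] (M : Type)
    [AddCommGroup M] [Module K M] [FiniteDimensional K M] [Nontrivial M] (k : ℕ) (c : ℕ → K[X])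
    (_ : ∀ j, IsIntegral ℤ ((c j).coeff 0)) (W : List (K × ℕ × List ℕ)) (_ : Two W)
    (X : Module.End K M) (V : AddSubgroup (Module.End K M)) (_ : ∀ a ∈ V, ∀ b ∈ V, a * b = b * a)
    (_ : ∀ v ∈ V, X * v - v * X ∈ V)
    (_ : ∀ v ∈ V, ∃ s : K, v ^ p = algebraMap K (Module.End K M) s)
    (_ : ∀ U : Submodule K M, (∀ m ∈ U, X m ∈ U) → (∀ v ∈ V, ∀ m ∈ U, v m ∈ U) → U = ⊥ ∨ U = ⊤)
    (_ : ∀ w ∈ V, ∀ v ∈ V, OpRel k c W (X + w) v),
    ∃ f : ℤ[X], f.Monic ∧ ∀ v ∈ V, (aeval (Dx K X) f v) ^ p = 0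

/-- CASE (from CASES): matrices over a field -/
def SpecCase : Prop :=
  ∀ (F : Type) [Field F] [Finite F] (p : ℕ) [Fact p.Prime] [CharP F p] (K : Type) [Field K]
    [Algebra F K] (n k : ℕ) (c : ℕ → F[X]) (W : List (F × ℕ × List ℕ)) (_ : Two W)
    (X : Matrix (Fin n) (Fin n) K) (V : AddSubgroup (Matrix (Fin n) (Fin n) K))
    (_ : ∀ a ∈ V, ∀ b ∈ V, a * b = b * a) (_ : ∀ v ∈ V, X * v - v * X ∈ V)
    (_ : ∀ v ∈ V, ∃ s : K, v ^ p = algebraMap K (Matrix (Fin n) (Fin n) K) s)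
    (_ : ∀ w ∈ V, ∀ v ∈ V, OpRel k c W (X + w) v),
    ∃ f : ℤ[X], f.Monic ∧ ∀ v ∈ V, (aeval (Dx F X) f v) ^ p = 0

/-! ## Group 5: theorem X -/

/-- NZ: for a minimal prime `P` of a commutative subring `C` of `E`, `(E P) ∩ C = P` -/
def SpecNZ : Prop :=
  ∀ (E : Type) [Ring E] (C : Type) [CommRing C] (i : C →+* E) (_ : Function.Injective i)
    (P : Ideal C) (_ : P ∈ minimalPrimes C) (s : C)
    (_ : i s ∈ Submodule.span E (i '' (P : Set C))), s ∈ P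

/-- PROPN (from NZ): a field, a point of `C` and either independence of the powers of `x` or a
finite dimensional representation -/
def SpecN : Prop :=
  ∀ (F : Type) [Field F] [Finite F] (p : ℕ) [Fact p.Prime] [CharP F p] (E : Type) [Ring E]
    [Algebra F E] (x : E) (C : Subalgebra F E) (_ : ∀ a ∈ C, ∀ b ∈ C, a * b = b * a)
    (_ : ∀ a ∈ C, x * a - a * x ∈ C)
    (_ : Algebra.adjoin F (insert x (C : Set E)) = ⊤) (U : ℕ) (c₁ : C) (_ : ¬ IsNilpotent c₁),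
    ∃ (K : Type) (_ : Field K) (_ : Algebra F K) (lam : C →ₐ[F] K), lam c₁ ≠ 0 ∧
      ((∀ s : ℕ → C, ∑ u ∈ range (U + 1), x ^ u * (s u : E) = 0 → ∀ u ≤ U, lam (s u) = 0) ∨
        ∃ (n : ℕ) (Φ : E →ₐ[F] Matrix (Fin n) (Fin n) K), 1 ≤ n ∧ n ≤ U ∧
          ∀ a : C, (Φ a) ^ p = algebraMap K (Matrix (Fin n) (Fin n) K) (lam a ^ p))

/-- X (from PROPN, R, CASE): theorem X -/
def SpecX : Prop :=
  ∀ (F : Type) [Field F] [Finite F] (E : Type) [Ring E] [Algebra F E] (k : ℕ) (c : ℕ → F[X])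
    (W : List (F × ℕ × List ℕ)) (_ : Two W) (x : E) (B : Submodule F E)
    (_ : ∀ a ∈ B, ∀ b ∈ B, a * b = b * a) (_ : ∀ b ∈ B, x * b - b * x ∈ B)
    (_ : ∀ w ∈ B, ∀ b ∈ B, OpRel k c W (x + w) b),
    ∃ f : ℤ[X], f.Monic ∧ ∀ b ∈ B, IsNilpotent (aeval (Dx F x) f b)

/-! ## Group 6: Lie algebras -/

/-- OPMI: the monic identity, for the action on an abelian ideal -/
def SpecOpMI : Prop :=
  ∀ (F : Type) [Field F] (k : ℕ) (c : ℕ → F[X]), ∀ w ∈ freeThird F,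
    ∃ W : List (F × ℕ × List ℕ), Two W ∧ ∀ (L : Type) [LieRing L] [LieAlgebra F L],
      Satisfies {monicForm k c (FreeLieAlgebra.of F 0) (FreeLieAlgebra.of F 1)
        (FreeLieAlgebra.of F 2) - w} L →
      ∀ A : LieIdeal F L, (∀ a ∈ A, ∀ b ∈ A, ⁅a, b⁆ = 0) → ∀ x b : L,
        OpRel k c W (LieModule.toEnd F L A x) (LieModule.toEnd F L A b)

/-- JG: finite generation of a left ideal (only associative algebra). `word D l b` is
`D_{l_1} D_{l_2} ⋯ b`. -/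
def SpecJG : Prop :=
  ∀ (F : Type) [Field F] (E : Type) [Ring E] [Algebra F E] (ι : Type) [Finite ι] (x : ι → E)
    (k : ℕ) (c : ℕ → F[X]) (W : List (F × ℕ × List ℕ)) (_ : Two W) (B : Submodule F E)
    (_ : ∀ a ∈ B, ∀ b ∈ B, a * b = b * a) (_ : ∀ i, ∀ b ∈ B, x i * b - b * x i ∈ B)
    (_ : ∀ i j, ∃ s : ι →₀ F, ∀ b ∈ B, Dx F (x i) (Dx F (x j) b) - Dx F (x j) (Dx F (x i) b) =
      s.sum fun l a => a • Dx F (x l) b)
    (_ : ∀ i, ∀ b ∈ B, OpRel k c W (x i) b) (S : Set E) (_ : S.Finite) (_ : S ⊆ B),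
    ∃ Y : Set E, Y.Finite ∧ (∀ y ∈ Y, ∃ s ∈ S, ∃ l : List ι, y = l.foldr (fun i b => Dx F (x i) b) s) ∧
      ∀ s ∈ S, ∀ l : List ι, l.foldr (fun i b => Dx F (x i) b) s ∈ Submodule.span E Y

/-- JN: commuting nilpotents -/
def SpecJN : Prop :=
  ∀ (E : Type) [Ring E] (B : Set E) (_ : ∀ a ∈ B, ∀ b ∈ B, a * b = b * a) (Y : Set E)
    (_ : Y.Finite) (_ : Y ⊆ B) (_ : ∀ y ∈ Y, IsNilpotent y) (_ : ∀ b ∈ B, b ∈ Submodule.span E Y),
    ∃ n : ℕ, ∀ l : List E, (∀ b ∈ l, b ∈ B) → l.length = n → l.prod = 0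

/-- J (from X, DIV, JG, JN and `finite_of_periodic` of `Center.lean`) -/
def SpecJ : Prop :=
  ∀ (F : Type) [Field F] [Finite F] (L : Type) [LieRing L] [LieAlgebra F L] (M : Type)
    [AddCommGroup M] [Module F M] [LieRingModule L M] [LieModule F L M] (k : ℕ) (c : ℕ → F[X])
    (W : List (F × ℕ × List ℕ)) (_ : Two W)
    (_ : ∀ x b : L, OpRel k c W (LieModule.toEnd F L M x) (LieModule.toEnd F L M b))
    (N B : LieIdeal F L) (_ : FiniteDimensional F (L ⧸ N)) (_ : B ≤ N)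
    (_ : ∀ n ∈ N, ∀ b ∈ B, ∀ m : M, ⁅⁅n, b⁆, m⁆ = 0)
    (_ : ∃ S : Set L, S.Finite ∧ S ⊆ B ∧ ∀ b ∈ B, ∃ b' ∈ LieSubmodule.lieSpan F L S,
      ∀ m : M, ⁅b - b', m⁆ = 0),
    ∃ B₀ : LieIdeal F L, B₀ ≤ B ∧ (∃ T : Set L, T.Finite ∧ ∀ b ∈ B, ∃ t ∈ T, b - t ∈ B₀) ∧
      ∃ n, itm B₀ n = (⊥ : LieSubmodule F L M)

/-- P (from J) -/
def SpecP : Prop :=
  ∀ (F : Type) [Field F] [Finite F] (L : Type) [LieRing L] [LieAlgebra F L] (k : ℕ)
    (c : ℕ → F[X]) (W : List (F × ℕ × List ℕ)) (_ : Two W)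
    (_ : ∀ I : LieIdeal F L, (∃ (N : LieIdeal F L) (d : ℕ), FiniteDimensional F (L ⧸ N) ∧
      gam N d ≤ I) → IsRF F (L ⧸ I))
    (_ : ∀ N : LieIdeal F L, FiniteDimensional F (L ⧸ N) → ∀ i, ∃ S : Set L, S.Finite ∧
      S ⊆ gam N i ∧ gam N i ≤ LieSubmodule.lieSpan F L S ⊔ gam N (i + 1)) (d : ℕ) (M : Type)
    [AddCommGroup M] [Module F M] [LieRingModule L M] [LieModule F L M]
    (_ : ∀ x b : L, OpRel k c W (LieModule.toEnd F L M x) (LieModule.toEnd F L M b))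
    (N : LieIdeal F L) (_ : FiniteDimensional F (L ⧸ N)) (_ : ∀ y ∈ gam N d, ∀ m : M, ⁅y, m⁆ = 0),
    ∃ (N' : LieIdeal F L) (n : ℕ), FiniteDimensional F (L ⧸ N') ∧
      itm N' n = (⊥ : LieSubmodule F L M)

/-- RFQ: the theorem of `Main.lean` for a single algebra -/
def SpecRfq : Prop :=
  ∀ (F : Type) [Field F] [Finite F] (Γ : Set (FreeLieAlgebra F ℕ)), HasMonicIdentity Γ →
    ∀ (L : Type) [LieRing L] [LieAlgebra F L], Satisfies Γ L → IsFG F L →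
      ∀ (N : LieIdeal F L) (c : ℕ), FiniteDimensional F (L ⧸ N) → gam N c = ⊥ → IsRF F L

/-- FINAL (from OPMI, P, RFQ and the library) -/
def SpecFinal : Prop :=
  ∀ (F : Type) [Field F] [Finite F] (Γ : Set (FreeLieAlgebra F ℕ)), LocallySolubleByFinite Γ →
    HasMonicIdentity Γ → LocallyNilpotentByFinite Γ

end Pool.Agent.Lib.MP_8f946f_al.Sol
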