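import Pool.Agent.Lib.MP_8f946f_al.Sol.Count
import Pool.Agent.Lib.MP_8f946f_al.Sol.Spec

section
/-!
# Module MERGE

If `∏_{x ∈ s} q(x) = ∏_{x ∈ t} q(x)` for all monic `q ∈ ℤ[X]`, and the elements of `t` are positive
for the valuation-like function `v` and `p`-commensurable with `β`, so are the elements of `s`.
-/
set_option autoImplicit false

namespace Pool.Agent.Lib.MP_8f946f_al.Sol

open Polynomial Finset

namespace MergeM

open CountM

variable {K : Type} [Field K]

section val

variable {v : K → ℚ} (hv : ∀ x y, x ≠ 0 → y ≠ 0 → v (x * y) = v x + v y)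

include hv

theorem v_one : v 1 = 0 := by
  have := hv 1 1 one_ne_zero one_ne_zero
  rw [mul_one] at this
  linarith

theorem v_pow {x : K} (hx : x ≠ 0) (n : ℕ) : v (x ^ n) = n * v x := by
  induction n with
  | zero => simp [v_one hv]
  | succ n ih =>
    rw [pow_succ, hv _ _ (pow_ne_zero n hx) hx, ih]
    push_cast
    ring

theorem v_div {x y : K} (hx : x ≠ 0) (hy : y ≠ 0) : v (x / y) = v x - v y := by
  have h := hv (x / y) y (div_ne_zero hx hy) hy
  rw [div_mul_cancel₀ _ hy] at h
  linarith

open Classical in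
/-- the sum of the negative values -/
theorem neg_part (s : Multiset K) (h0 : (0 : K) ∉ s) (hs : ∀ x ∈ s, v x ≠ 0) :
    (∀ z ∈ sub s, ((s.filter fun x => v x < 0).map v).sum ≤ v z) ∧
    (sub s).filter (fun z => v z ≤ ((s.filter fun x => v x < 0).map v).sum) =
      {(s.filter fun x => v x < 0).prod} := by
  induction s using Multiset.induction_on with
  | empty => simp [sub, v_one hv]
  | cons a s ih =>
    have h0' : (0 : K) ∉ s := fun h => h0 (Multiset.mem_cons_of_mem h)
    have ha0 : a ≠ 0 := fun h => h0 (by rw [h]; exact Multiset.mem_cons_self 0 s)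
    have hs' : ∀ x ∈ s, v x ≠ 0 := fun x hx => hs x (Multiset.mem_cons_of_mem hx)
    have hva : v a ≠ 0 := hs a (Multiset.mem_cons_self a s)
    obtain ⟨ih1, ih2⟩ := ih h0' hs'
    have hz0 : ∀ z ∈ sub s, z ≠ 0 := fun z hz h => zero_notMem_sub h0' (h ▸ hz)
    rw [sub_cons]
    by_cases hneg : v a < 0
    · rw [Multiset.filter_cons_of_pos (p := fun x => v x < 0) s hneg, Multiset.map_cons,
        Multiset.sum_cons, Multiset.prod_cons]
      constructor
      · intro z hz
        rcases Multiset.mem_add.1 hz with hz | hz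
        · have := ih1 z hz
          linarith
        · obtain ⟨z', hz', rfl⟩ := Multiset.mem_map.1 hz
          rw [hv _ _ ha0 (hz0 z' hz')]
          have := ih1 z' hz'
          linarith
      · rw [Multiset.filter_add]
        have e1 : (sub s).filter (fun z => v z ≤ v a + ((s.filter fun x => v x < 0).map v).sum) =
            0 := by
          rw [Multiset.filter_eq_nil]
          intro z hz
          have := ih1 z hz
          linarith
        rw [e1, zero_add, Multiset.filter_map]
        have e2 : (sub s).filter ((fun z => v z ≤ v a + ((s.filter fun x => v x < 0).map v).sum) ∘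
            fun x => a * x) =
            (sub s).filter (fun z => v z ≤ ((s.filter fun x => v x < 0).map v).sum) := by
          refine Multiset.filter_congr fun z hz => ?_
          rw [Function.comp_apply, hv _ _ ha0 (hz0 z hz)]
          constructor <;> intro h <;> linarith
        rw [e2, ih2, Multiset.map_singleton]
    · have hpos : 0 < v a := lt_of_le_of_ne (not_lt.1 hneg) (Ne.symm hva)
      rw [Multiset.filter_cons_of_neg (p := fun x => v x < 0) s hneg]
      constructor
      · intro z hz
        rcases Multiset.mem_add.1 hz with hz | hz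
        · exact ih1 z hz
        · obtain ⟨z', hz', rfl⟩ := Multiset.mem_map.1 hz
          rw [hv _ _ ha0 (hz0 z' hz')]
          have := ih1 z' hz'
          linarith
      · rw [Multiset.filter_add, ih2]
        have e1 : ((sub s).map fun x => a * x).filter
            (fun z => v z ≤ ((s.filter fun x => v x < 0).map v).sum) = 0 := by
          rw [Multiset.filter_eq_nil]
          intro z hz
          obtain ⟨z', hz', rfl⟩ := Multiset.mem_map.1 hz
          rw [hv _ _ ha0 (hz0 z' hz')]
          have := ih1 z' hz'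
          linarith
        rw [e1, add_zero]

open Classical in
/-- if all the values are positive then `1` is the only product of value `≤ 0` -/
theorem pos_part (s : Multiset K) (h0 : (0 : K) ∉ s) (hs : ∀ x ∈ s, 0 < v x) :
    (∀ z ∈ sub s, 0 ≤ v z) ∧ (sub s).filter (fun z => v z ≤ 0) = {1} := by
  have hfil : (s.filter fun x => v x < 0) = 0 := by
    rw [Multiset.filter_eq_nil]
    intro x hx
    exact not_lt.2 (hs x hx).le
  have h := neg_part hv s h0 fun x hx => (hs x hx).ne'
  rw [hfil] at h
  simpa using h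

open Classical in
theorem count_sub (s : Multiset K) (h0 : (0 : K) ∉ s) (hs : ∀ x ∈ s, 0 < v x) (x : K)
    (hx0 : x ≠ 0) (hx : 0 < v x) (hmin : ∀ z ∈ s, v x ≤ v z) : (sub s).count x = s.count x := by
  induction s using Multiset.induction_on with
  | empty =>
    have h1 : x ≠ 1 := by
      intro h
      rw [h, v_one hv] at hx
      exact lt_irrefl _ hx
    simp [sub, h1]
  | cons a s ih =>
    have h0' : (0 : K) ∉ s := fun h => h0 (Multiset.mem_cons_of_mem h)
    have ha0 : a ≠ 0 := fun h => h0 (by rw [h]; exact Multiset.mem_cons_self 0 s)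
    have hs' : ∀ x ∈ s, 0 < v x := fun x hx => hs x (Multiset.mem_cons_of_mem hx)
    have hva : v x ≤ v a := hmin a (Multiset.mem_cons_self a s)
    have ih' := ih h0' hs' fun z hz => hmin z (Multiset.mem_cons_of_mem hz)
    obtain ⟨-, hp⟩ := pos_part hv s h0' hs'
    rw [sub_cons, Multiset.count_add, ih', Multiset.count_cons]
    congr 1
    have hx' : x = a * (x / a) := by
      rw [mul_div_cancel₀ _ ha0]
    have hle : v (x / a) ≤ 0 := by
      rw [v_div hv hx0 ha0]
      linarith
    have hcount : Multiset.count x ((sub s).map fun z => a * z) = (sub s).count (x / a) := by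
      conv_lhs => rw [hx']
      exact Multiset.count_map_eq_count' (fun z => a * z) _ (mul_right_injective₀ ha0) _
    have hcount2 : (sub s).count (x / a) = ({1} : Multiset K).count (x / a) := by
      rw [← hp, Multiset.count_filter_of_pos (p := fun z => v z ≤ 0) hle]
    rw [hcount, hcount2, Multiset.count_singleton]
    congr 1
    rw [div_eq_one_iff_eq ha0]

end val

section frob

variable (p : ℕ) [Fact p.Prime] [CharP K p]

theorem aeval_pow_char (x : K) (q : ℤ[X]) : aeval (x ^ p) q = aeval x q ^ p := by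
  have h := aeval_algHom_apply (frobenius K p).toIntAlgHom x q
  simpa [RingHom.toIntAlgHom, frobenius_def] using h

theorem aeval_pow_char_pow (x : K) (n : ℕ) (q : ℤ[X]) :
    aeval (x ^ p ^ n) q = aeval x q ^ p ^ n := by
  induction n with
  | zero => simp
  | succ n ih => rw [pow_succ, pow_mul, aeval_pow_char, ih, ← pow_mul]

end frob

theorem not_isIntegral_pow {x : K} (hx : ¬ IsIntegral ℤ x) {n : ℕ} (hn : 0 < n) :
    ¬ IsIntegral ℤ (x ^ n) := fun h => hx (IsIntegral.of_pow hn h)

theorem ne_zero_of_not_isIntegral {x : K} (hx : ¬ IsIntegral ℤ x) : x ≠ 0 := by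
  rintro rfl
  exact hx isIntegral_zero

theorem aeval_ne_zero {x : K} (hx : ¬ IsIntegral ℤ x) {q : ℤ[X]} (hq : q.Monic) :
    aeval x q ≠ 0 := fun h => hx ⟨q, hq, h⟩

section main

variable (p : ℕ) [Fact p.Prime] [CharP K p]

/-- `p`-commensurability with `β` -/
def Com (p : ℕ) (β x : K) : Prop := ∃ a b : ℕ, x ^ p ^ a = β ^ p ^ b

omit [Fact p.Prime] [CharP K p] in
theorem Com.pow {β x : K} (h : Com p β x) : Com p β (x ^ p) := by
  obtain ⟨a, b, h⟩ := h
  refine ⟨a, b + 1, ?_⟩
  rw [← pow_mul, ← pow_succ', pow_succ, pow_mul, h, ← pow_mul, ← pow_succ]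

omit [Fact p.Prime] [CharP K p] in
theorem Com.of_pow {β x : K} (h : Com p β (x ^ p)) : Com p β x := by
  obtain ⟨a, b, h⟩ := h
  refine ⟨a + 1, b, ?_⟩
  rw [← h, ← pow_mul, ← pow_succ']

/-- replacing `p` copies of `x` by one copy of `x ^ p` -/
theorem replace_prod (x : K) (s : Multiset K) (q : ℤ[X]) :
    ((Multiset.replicate p x + s).map fun x => aeval x q).prod =
      ((x ^ p ::ₘ s).map fun x => aeval x q).prod := by
  rw [Multiset.map_add, Multiset.prod_add, Multiset.map_replicate, Multiset.prod_replicate,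
    Multiset.map_cons, Multiset.prod_cons, aeval_pow_char p]

open Classical in
theorem pos_case (hC : SpecCount) {v : K → ℚ}
    (hv : ∀ x y, x ≠ 0 → y ≠ 0 → v (x * y) = v x + v y) (β : K) (n : ℕ) :
    ∀ s t : Multiset K, Multiset.card s + Multiset.card t ≤ n →
    (∀ x ∈ s, ¬ IsIntegral ℤ x) → (∀ x ∈ t, ¬ IsIntegral ℤ x) → (∀ x ∈ s, 0 < v x) →
    (∀ x ∈ t, 0 < v x) →
    (∀ q : ℤ[X], q.Monic → (s.map fun x => aeval x q).prod = (t.map fun x => aeval x q).prod) →
    (∀ x ∈ t, Com p β x) → ∀ x ∈ s, Com p β x := by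
  have hp2 : 2 ≤ p := (Fact.out : p.Prime).two_le
  induction n with
  | zero =>
    intro s t hcard _ _ _ _ _ _ x hx
    have : Multiset.card s = 0 := by omega
    rw [Multiset.card_eq_zero] at this
    rw [this] at hx
    exact absurd hx (Multiset.notMem_zero x)
  | succ n ih =>
    intro s t hcard hs ht hvs hvt hq hβ w hw
    -- an element of minimal value
    obtain ⟨x, hx, hmin⟩ : ∃ x ∈ s + t, ∀ z ∈ s + t, v x ≤ v z := by
      have hne : (s + t).toFinset.Nonempty :=
        ⟨w, by rw [Multiset.mem_toFinset]; exact Multiset.mem_add.2 (Or.inl hw)⟩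
      obtain ⟨x, hx, h⟩ := Finset.exists_min_image (s + t).toFinset v hne
      exact ⟨x, Multiset.mem_toFinset.1 hx, fun z hz => h z (Multiset.mem_toFinset.2 hz)⟩
    have hxI : ¬ IsIntegral ℤ x := by
      rcases Multiset.mem_add.1 hx with h | h
      · exact hs x h
      · exact ht x h
    have hx0 : x ≠ 0 := ne_zero_of_not_isIntegral hxI
    have hvx : 0 < v x := by
      rcases Multiset.mem_add.1 hx with h | h
      · exact hvs x h
      · exact hvt x h
    have hs0 : (0 : K) ∉ s := fun h => ne_zero_of_not_isIntegral (hs 0 h) rfl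
    have ht0 : (0 : K) ∉ t := fun h => ne_zero_of_not_isIntegral (ht 0 h) rfl
    have hcnt := hC K p s t hs0 ht0 hq x
    change (sub s).count x ≡ (sub t).count x [MOD p] at hcnt
    rw [count_sub hv s hs0 hvs x hx0 hvx fun z hz => hmin z (Multiset.mem_add.2 (Or.inl hz)),
      count_sub hv t ht0 hvt x hx0 hvx fun z hz => hmin z (Multiset.mem_add.2 (Or.inr hz))] at hcnt
    by_cases hxs : x ∈ s
    · by_cases hxt : x ∈ t
      · -- cancel `x`
        obtain ⟨s', rfl⟩ := Multiset.exists_cons_of_mem hxs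
        obtain ⟨t', rfl⟩ := Multiset.exists_cons_of_mem hxt
        have hcard' : Multiset.card s' + Multiset.card t' ≤ n := by
          rw [Multiset.card_cons, Multiset.card_cons] at hcard
          omega
        have h := ih s' t' hcard' (fun z hz => hs z (Multiset.mem_cons_of_mem hz))
          (fun z hz => ht z (Multiset.mem_cons_of_mem hz))
          (fun z hz => hvs z (Multiset.mem_cons_of_mem hz))
          (fun z hz => hvt z (Multiset.mem_cons_of_mem hz))
          (fun q hqm => by
            have h1 := hq q hqm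
            rw [Multiset.map_cons, Multiset.prod_cons, Multiset.map_cons, Multiset.prod_cons] at h1
            exact mul_left_cancel₀ (aeval_ne_zero hxI hqm) h1)
          (fun z hz => hβ z (Multiset.mem_cons_of_mem hz))
        rcases Multiset.mem_cons.1 hw with h1 | h1
        · rw [h1]
          exact hβ x hxt
        · exact h w h1
      · -- `p` copies of `x` in `s`
        have e0 : t.count x = 0 := Multiset.count_eq_zero_of_notMem hxt
        rw [e0] at hcnt
        have hdvd : p ∣ s.count x := (Nat.modEq_zero_iff_dvd).1 hcnt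
        have hle : p ≤ s.count x := Nat.le_of_dvd (Multiset.count_pos.2 hxs) hdvd
        obtain ⟨s', hs'⟩ := Multiset.le_iff_exists_add.1 (Multiset.le_count_iff_replicate_le.1 hle)
        subst hs'
        have hcard' : Multiset.card (x ^ p ::ₘ s') + Multiset.card t ≤ n := by
          rw [Multiset.card_add, Multiset.card_replicate] at hcard
          rw [Multiset.card_cons]
          omega
        have h := ih (x ^ p ::ₘ s') t hcard'
          (fun z hz => by
            rcases Multiset.mem_cons.1 hz with h1 | h1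
            · rw [h1]
              exact not_isIntegral_pow hxI (by omega)
            · exact hs z (Multiset.mem_add.2 (Or.inr h1)))
          ht
          (fun z hz => by
            rcases Multiset.mem_cons.1 hz with h1 | h1
            · rw [h1, v_pow hv hx0]
              positivity
            · exact hvs z (Multiset.mem_add.2 (Or.inr h1)))
          hvt
          (fun q hqm => by
            rw [← replace_prod]
            exact hq q hqm)
          hβ
        rcases Multiset.mem_add.1 hw with h1 | h1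
        · rw [Multiset.eq_of_mem_replicate h1]
          exact Com.of_pow p (h _ (Multiset.mem_cons_self _ _))
        · exact h w (Multiset.mem_cons_of_mem h1)
    · -- `p` copies of `x` in `t`
      have hxt : x ∈ t := (Multiset.mem_add.1 hx).resolve_left hxs
      have e0 : s.count x = 0 := Multiset.count_eq_zero_of_notMem hxs
      rw [e0] at hcnt
      have hdvd : p ∣ t.count x := (Nat.modEq_zero_iff_dvd).1 hcnt.symm
      have hle : p ≤ t.count x := Nat.le_of_dvd (Multiset.count_pos.2 hxt) hdvd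
      obtain ⟨t', ht'⟩ := Multiset.le_iff_exists_add.1 (Multiset.le_count_iff_replicate_le.1 hle)
      subst ht'
      have hcard' : Multiset.card s + Multiset.card (x ^ p ::ₘ t') ≤ n := by
        rw [Multiset.card_add, Multiset.card_replicate] at hcard
        rw [Multiset.card_cons]
        omega
      exact ih s (x ^ p ::ₘ t') hcard' hs
        (fun z hz => by
          rcases Multiset.mem_cons.1 hz with h1 | h1
          · rw [h1]
            exact not_isIntegral_pow hxI (by omega)
          · exact ht z (Multiset.mem_add.2 (Or.inr h1)))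
        hvs
        (fun z hz => by
          rcases Multiset.mem_cons.1 hz with h1 | h1
          · rw [h1, v_pow hv hx0]
            positivity
          · exact hvt z (Multiset.mem_add.2 (Or.inr h1)))
        (fun q hqm => by
          rw [← replace_prod]
          exact hq q hqm)
        (fun z hz => by
          rcases Multiset.mem_cons.1 hz with h1 | h1
          · rw [h1]
            exact Com.pow p (hβ x hxt)
          · exact hβ z (Multiset.mem_add.2 (Or.inr h1))) w hw

end main

end MergeM

open MergeM CountM in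
theorem specMerge (hC : SpecCount) : SpecMerge := by
  intro K _ p _ _ v hv β s t hs ht hvs hvt hq hβ
  classical
  have hs0 : (0 : K) ∉ s := fun h => ne_zero_of_not_isIntegral (hs 0 h) rfl
  have ht0 : (0 : K) ∉ t := fun h => ne_zero_of_not_isIntegral (ht 0 h) rfl
  -- positivity
  have hpos : ∀ x ∈ s, 0 < v x := by
    by_contra hcon
    push Not at hcon
    obtain ⟨x, hx, hxv⟩ := hcon
    have hxneg : v x < 0 := lt_of_le_of_ne hxv (hvs x hx)
    obtain ⟨h1, h2⟩ := neg_part hv s hs0 hvs
    obtain ⟨h3, -⟩ := pos_part hv t ht0 hvt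
    set N := s.filter fun x => v x < 0 with hN
    have hxN : x ∈ N := Multiset.mem_filter.2 ⟨hx, hxneg⟩
    have hmem : N.prod ∈ (sub s).filter (fun z => v z ≤ (N.map v).sum) := by
      rw [h2]
      exact Multiset.mem_singleton_self _
    have hle : v N.prod ≤ (N.map v).sum := (Multiset.mem_filter.1 hmem).2
    have hcount : (sub s).count N.prod = 1 := by
      rw [← Multiset.count_filter_of_pos (p := fun z => v z ≤ (N.map v).sum) hle, h2,
        Multiset.count_singleton_self]
    have hsum : (N.map v).sum < 0 := by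
      obtain ⟨N', hN'⟩ := Multiset.exists_cons_of_mem hxN
      rw [hN', Multiset.map_cons, Multiset.sum_cons]
      have hle' : (N'.map v).sum ≤ 0 := by
        have h5 : (N'.map v).sum ≤ (N'.map fun _ => (0 : ℚ)).sum := by
          refine Multiset.sum_map_le_sum_map _ _ fun y hy => ?_
          have hyN : y ∈ N := by
            rw [hN']
            exact Multiset.mem_cons_of_mem hy
          exact (Multiset.mem_filter.1 hyN).2.le
        simpa using h5
      linarith
    have hcount2 : (sub t).count N.prod = 0 := by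
      refine Multiset.count_eq_zero_of_notMem fun h => ?_
      have := h3 _ h
      linarith
    have hcnt := hC K p s t hs0 ht0 hq N.prod
    change (sub s).count N.prod ≡ (sub t).count N.prod [MOD p] at hcnt
    rw [hcount, hcount2] at hcnt
    have hdvd : p ∣ 1 := (Nat.modEq_zero_iff_dvd).1 hcnt
    exact (Fact.out : p.Prime).one_lt.ne' (Nat.dvd_one.1 hdvd)
  intro x hx
  exact ⟨hpos x hx, pos_case p hC hv β _ s t le_rfl hs ht hpos hvt hq hβ x hx⟩

end Pool.Agent.Lib.MP_8f946f_al.Sol
end

section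
/-!
# Module LEMC

If `∏_{x ∈ ν} q(x) = q(μ)` for all `q ∈ ℤ[X]` and `ν` has at least two terms then `∑ ν ≠ μ`.
-/
set_option autoImplicit false

namespace Pool.Agent.Lib.MP_8f946f_al.Sol

open Polynomial Finset

namespace LemCM

open MergeM

variable {K : Type} [Field K]

theorem inf_order {x : K} (hx : ¬ IsIntegral ℤ x) : x ≠ 0 ∧ ∀ n : ℕ, 1 ≤ n → x ^ n ≠ 1 := by
  refine ⟨ne_zero_of_not_isIntegral hx, fun n hn h => hx ?_⟩
  refine IsIntegral.of_pow (n := n) (by omega) ?_
  rw [h]
  exact isIntegral_one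

theorem v_list_prod {v : K → ℚ} (hv : ∀ x y, x ≠ 0 → y ≠ 0 → v (x * y) = v x + v y) (ν : List K)
    (h0 : ∀ x ∈ ν, x ≠ 0) : v ν.prod = (ν.map v).sum := by
  induction ν with
  | nil => simp [v_one hv]
  | cons a ν ih =>
    have hν : ∀ x ∈ ν, x ≠ 0 := fun x hx => h0 x (List.mem_cons_of_mem a hx)
    have hp : ν.prod ≠ 0 := by
      intro h
      exact hν 0 (List.prod_eq_zero_iff.1 h) rfl
    rw [List.prod_cons, hv _ _ (h0 a List.mem_cons_self) hp, ih hν, List.map_cons, List.sum_cons]

omit [Field K] in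
/-- a term of a list of non-negative numbers is at most the sum -/
theorem le_sum {v : K → ℚ} (ν : List K) (h : ∀ x ∈ ν, 0 ≤ v x) :
    0 ≤ (ν.map v).sum ∧ ∀ x ∈ ν, v x ≤ (ν.map v).sum := by
  induction ν with
  | nil => simp
  | cons a ν ih =>
    obtain ⟨h1, h2⟩ := ih fun x hx => h x (List.mem_cons_of_mem a hx)
    have ha := h a List.mem_cons_self
    rw [List.map_cons, List.sum_cons]
    refine ⟨by linarith, ?_⟩
    intro x hx
    rcases List.mem_cons.1 hx with h3 | h3
    · rw [h3]
      linarith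
    · have := h2 x h3
      linarith

omit [Field K] in
/-- with at least two positive terms, each of them is smaller than the sum -/
theorem lt_sum {v : K → ℚ} (ν : List K) (h : ∀ x ∈ ν, 0 < v x) (hl : 2 ≤ ν.length) :
    ∀ x ∈ ν, v x < (ν.map v).sum := by
  match ν, hl with
  | a :: b :: ν, _ =>
    intro x hx
    have ha := h a List.mem_cons_self
    have hb := h b (List.mem_cons_of_mem a List.mem_cons_self)
    have hν : ∀ x ∈ b :: ν, 0 ≤ v x := fun x hx => (h x (List.mem_cons_of_mem a hx)).le
    obtain ⟨h1, h2⟩ := le_sum (b :: ν) hν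
    rw [List.map_cons, List.sum_cons]
    rcases List.mem_cons.1 hx with h3 | h3
    · rw [h3]
      have := h2 b List.mem_cons_self
      linarith
    · have := h2 x h3
      linarith

theorem pow_inj (p : ℕ) [Fact p.Prime] [CharP K p] (n : ℕ) {x y : K} (h : x ^ p ^ n = y ^ p ^ n) :
    x = y := by
  have h1 : Function.Injective (iterateFrobenius K p n) := (iterateFrobenius K p n).injective
  apply h1
  rw [iterateFrobenius_def, iterateFrobenius_def]
  exact h

theorem list_sum_pow (p : ℕ) [Fact p.Prime] [CharP K p] (n : ℕ) (ν : List K) :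
    ν.sum ^ p ^ n = (ν.map fun x => x ^ p ^ n).sum := by
  have h := map_list_sum (iterateFrobenius K p n) ν
  rw [iterateFrobenius_def] at h
  rw [h]
  congr 1

omit [Field K] in
theorem degree_lt (e : ℕ) (p : ℕ) (hp : 2 ≤ p) (d : K → ℕ) (ν : List K)
    (hd : ∀ x ∈ ν, 1 ≤ d x ∧ d x ≤ e) :
    ((ν.map fun x => (X : ℤ[X]) ^ p ^ (e - d x)).sum).degree < ((p ^ e : ℕ) : WithBot ℕ) := by
  induction ν with
  | nil =>
    rw [List.map_nil, List.sum_nil, degree_zero]
    exact WithBot.bot_lt_coe _
  | cons a ν ih =>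
    rw [List.map_cons, List.sum_cons]
    refine lt_of_le_of_lt (degree_add_le _ _) (max_lt ?_ (ih fun x hx =>
      hd x (List.mem_cons_of_mem a hx)))
    rw [degree_X_pow]
    obtain ⟨h1, h2⟩ := hd a List.mem_cons_self
    exact_mod_cast Nat.pow_lt_pow_right (by omega) (by omega)

end LemCM

open LemCM MergeM in
theorem specLemC (hV : SpecVal) (hM : SpecMerge) : SpecLemC := by
  intro K _ p _ _ ν μ hlen hν hμ hq hsum
  classical
  have hp2 : 2 ≤ p := (Fact.out : p.Prime).two_le
  have hν0 : ∀ x ∈ ν, x ≠ 0 := fun x hx => ne_zero_of_not_isIntegral (hν x hx)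
  have hμ0 : μ ≠ 0 := ne_zero_of_not_isIntegral hμ
  -- the valuation
  obtain ⟨v, hv, hvν, hvμ⟩ : ∃ v : K → ℚ, (∀ x y, x ≠ 0 → y ≠ 0 → v (x * y) = v x + v y) ∧
      (∀ x ∈ ν, v x ≠ 0) ∧ 0 < v μ := by
    obtain ⟨v, hv, hvS⟩ := hV K (insert μ ν.toFinset) (by
      intro x hx
      rcases Finset.mem_insert.1 hx with h | h
      · rw [h]
        exact inf_order hμ
      · exact inf_order (hν x (List.mem_toFinset.1 h)))
    have h1 : ∀ x ∈ ν, v x ≠ 0 := fun x hx =>
      hvS x (Finset.mem_insert_of_mem (List.mem_toFinset.2 hx))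
    have h2 : v μ ≠ 0 := hvS μ (Finset.mem_insert_self _ _)
    rcases lt_or_gt_of_ne h2 with h3 | h3
    · refine ⟨fun x => -v x, fun x y hx hy => ?_, fun x hx => neg_ne_zero.2 (h1 x hx), by
        simpa using h3⟩
      simp only [hv x y hx hy]
      ring
    · exact ⟨v, hv, h1, h3⟩
  have hmerge := hM K p v hv μ (ν : Multiset K) {μ} (fun x hx => hν x (Multiset.mem_coe.1 hx))
    (fun x hx => by rw [Multiset.mem_singleton.1 hx]; exact hμ)
    (fun x hx => hvν x (Multiset.mem_coe.1 hx))
    (fun x hx => by rw [Multiset.mem_singleton.1 hx]; exact hvμ)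
    (fun q _ => by
      rw [Multiset.map_coe, Multiset.prod_coe, Multiset.map_singleton, Multiset.prod_singleton]
      exact hq q)
    (fun x hx => ⟨0, 0, by rw [Multiset.mem_singleton.1 hx]⟩)
  have hpos : ∀ x ∈ ν, 0 < v x := fun x hx => (hmerge x (Multiset.mem_coe.2 hx)).1
  have hprod : ν.prod = μ := by
    have := hq X
    simpa using this
  have hlt : ∀ x ∈ ν, v x < v μ := by
    intro x hx
    have := lt_sum ν hpos hlen x hx
    rwa [← v_list_prod hv ν hν0, hprod] at this
  have hd : ∀ x : K, ∃ d : ℕ, x ∈ ν → 1 ≤ d ∧ x ^ p ^ d = μ := by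
    intro x
    by_cases hx : x ∈ ν
    · obtain ⟨a, b, hab⟩ := (hmerge x (Multiset.mem_coe.2 hx)).2
      have h1 : ((p ^ a : ℕ) : ℚ) * v x = ((p ^ b : ℕ) : ℚ) * v μ := by
        rw [← v_pow hv (hν0 x hx), ← v_pow hv hμ0, hab]
      have hba : b < a := by
        by_contra hcon
        have hab' : p ^ a ≤ p ^ b := Nat.pow_le_pow_right (by omega) (not_lt.1 hcon)
        have h2 : ((p ^ a : ℕ) : ℚ) ≤ ((p ^ b : ℕ) : ℚ) := by exact_mod_cast hab'
        have h3 : (0 : ℚ) < ((p ^ a : ℕ) : ℚ) := by
          have : 0 < p ^ a := Nat.pow_pos (by omega)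
          exact_mod_cast this
        have h4 := hlt x hx
        nlinarith
      refine ⟨a - b, fun _ => ⟨by omega, ?_⟩⟩
      refine pow_inj p b ?_
      rw [← pow_mul, ← pow_add, Nat.sub_add_cancel hba.le, hab]
    · exact ⟨0, fun h => absurd h hx⟩
  choose d hd using hd
  set e := (ν.map d).sum with he
  have hde : ∀ x ∈ ν, d x ≤ e := fun x hx => List.le_sum_of_mem (List.mem_map_of_mem hx)
  apply hμ
  refine ⟨X ^ p ^ e - (ν.map fun x => (X : ℤ[X]) ^ p ^ (e - d x)).sum, ?_, ?_⟩
  · refine Monic.sub_of_left (monic_X_pow _) ?_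
    rw [degree_X_pow]
    exact degree_lt e p hp2 d ν fun x hx => ⟨(hd x hx).1, hde x hx⟩
  · rw [eval₂_sub, eval₂_X_pow, sub_eq_zero]
    have h1 : μ ^ p ^ e = (ν.map fun x => x ^ p ^ e).sum := by
      rw [← list_sum_pow, hsum]
    rw [h1]
    have h2 : eval₂ (algebraMap ℤ K) μ (ν.map fun x => (X : ℤ[X]) ^ p ^ (e - d x)).sum =
        (ν.map fun x => μ ^ p ^ (e - d x)).sum := by
      have h3 := map_list_sum (eval₂RingHom (algebraMap ℤ K) μ)
        (ν.map fun x => (X : ℤ[X]) ^ p ^ (e - d x))
      rw [coe_eval₂RingHom] at h3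
      rw [h3, List.map_map]
      congr 1
      refine List.map_congr_left fun x _ => ?_
      rw [Function.comp_apply, eval₂_X_pow]
    rw [h2]
    congr 1
    refine List.map_congr_left fun x hx => ?_
    have h4 := (hd x hx).2
    conv_rhs => rw [← h4]
    rw [← pow_mul, ← pow_add, Nat.add_sub_cancel' (hde x hx)]

end Pool.Agent.Lib.MP_8f946f_al.Sol
end

section
/-!
# Module MAXI

The element `β` of `Λ` with `|v β|` maximal.
-/
set_option autoImplicit false

namespace Pool.Agent.Lib.MP_8f946f_al.Sol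

open Polynomial Finset

open LemCM MergeM in
theorem specMaxi (hV : SpecVal) (hM : SpecMerge) : SpecMaxi := by
  intro K _ p _ _ Λ hne hΛ
  classical
  have hp2 : 2 ≤ p := (Fact.out : p.Prime).two_le
  have h0 : ∀ x ∈ Λ, x ≠ 0 := fun x hx => ne_zero_of_not_isIntegral (hΛ x hx)
  obtain ⟨v₀, hv₀, hvΛ₀⟩ := hV K Λ fun x hx => inf_order (hΛ x hx)
  obtain ⟨β, hβ, hmax⟩ := Finset.exists_max_image Λ (fun x => |v₀ x|) hne
  obtain ⟨v, hv, hvΛ, hvβ, hvmax⟩ : ∃ v : K → ℚ,
      (∀ x y, x ≠ 0 → y ≠ 0 → v (x * y) = v x + v y) ∧ (∀ x ∈ Λ, v x ≠ 0) ∧ 0 < v β ∧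
      ∀ x ∈ Λ, v x ≤ v β := by
    rcases lt_or_gt_of_ne (hvΛ₀ β hβ) with h3 | h3
    · refine ⟨fun x => -v₀ x, fun x y hx hy => ?_, fun x hx => neg_ne_zero.2 (hvΛ₀ x hx), by
        simpa using h3, fun x hx => ?_⟩
      · simp only [hv₀ x y hx hy]
        ring
      · have := hmax x hx
        rw [abs_of_neg h3] at this
        exact (neg_le_abs _).trans this
    · refine ⟨v₀, hv₀, hvΛ₀, h3, fun x hx => ?_⟩
      have := hmax x hx
      rw [abs_of_pos h3] at this
      exact (le_abs_self _).trans this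
  refine ⟨β, hβ, ?_⟩
  intro n ν hν hlen hq
  have hν0 : ∀ x ∈ ν, x ≠ 0 := fun x hx => h0 x (hν x hx)
  have hmerge := hM K p v hv β (ν : Multiset K) (Multiset.replicate n β)
    (fun x hx => hΛ x (hν x (Multiset.mem_coe.1 hx)))
    (fun x hx => by rw [Multiset.eq_of_mem_replicate hx]; exact hΛ β hβ)
    (fun x hx => hvΛ x (hν x (Multiset.mem_coe.1 hx)))
    (fun x hx => by rw [Multiset.eq_of_mem_replicate hx]; exact hvβ)
    (fun q _ => by
      rw [Multiset.map_coe, Multiset.prod_coe, Multiset.map_replicate, Multiset.prod_replicate]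
      exact hq q)
    (fun x hx => ⟨0, 0, by rw [Multiset.eq_of_mem_replicate hx]⟩)
  have hprod : ν.prod = β ^ n := by
    have := hq X
    simpa using this
  have hsum : (ν.map v).sum = n * v β := by
    rw [← v_list_prod hv ν hν0, hprod, v_pow hv (h0 β hβ)]
  have hsum2 : (ν.map fun x => v β - v x).sum = ν.length * v β - (ν.map v).sum := by
    clear hmerge hprod hsum hlen hq hν hν0
    induction ν with
    | nil => simp
    | cons a ν ih =>
      rw [List.map_cons, List.sum_cons, ih, List.map_cons, List.sum_cons, List.length_cons]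
      push_cast
      ring
  have hnn : ∀ x ∈ ν, 0 ≤ v β - v x := fun x hx => sub_nonneg.2 (hvmax x (hν x hx))
  obtain ⟨h1, h2⟩ := le_sum (v := fun x => v β - v x) ν hnn
  rw [hsum2, hsum] at h1 h2
  have hlenQ : (ν.length : ℚ) ≤ n := by exact_mod_cast hlen
  have hlen' : ν.length = n := by
    have h3 : (n : ℚ) * v β ≤ ν.length * v β := by linarith
    have h4 : (n : ℚ) ≤ ν.length := le_of_mul_le_mul_right h3 hvβ
    have h5 : n ≤ ν.length := by exact_mod_cast h4
    omega
  rw [List.eq_replicate_iff]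
  refine ⟨hlen', fun x hx => ?_⟩
  have h3 := h2 x hx
  rw [hlen', sub_self] at h3
  have h4 : v x = v β := le_antisymm (hvmax x (hν x hx)) (by linarith)
  obtain ⟨a, b, hab⟩ := (hmerge x (Multiset.mem_coe.2 hx)).2
  have h5 : ((p ^ a : ℕ) : ℚ) * v x = ((p ^ b : ℕ) : ℚ) * v β := by
    rw [← v_pow hv (hν0 x hx), ← v_pow hv (h0 β hβ), hab]
  rw [h4] at h5
  have h6 : ((p ^ a : ℕ) : ℚ) = ((p ^ b : ℕ) : ℚ) := mul_right_cancel₀ hvβ.ne' h5
  have h7 : p ^ a = p ^ b := by exact_mod_cast h6
  rw [h7] at hab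
  exact pow_inj p b hab

end Pool.Agent.Lib.MP_8f946f_al.Sol
end

section
/-!
# Module NZ: contraction of a minimal prime (helper55)
-/
set_option autoImplicit false

namespace Pool.Agent.Lib.MP_8f946f_al.Sol

namespace NZM

/-- An element of a minimal prime is killed, up to nilpotents, by an element outside. -/
theorem exists_mul_nilpotent {C : Type} [CommRing C] {P : Ideal C} (hP : P ∈ minimalPrimes C)
    {n : C} (hn : n ∈ P) : ∃ t, t ∉ P ∧ IsNilpotent (n * t) := by
  have hPp : P.IsPrime := hP.1.1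
  have h1 : IsNilpotent (algebraMap C (Localization.AtPrime P) n) := by
    rw [nilpotent_iff_mem_prime]
    intro J hJ
    have hJc : (J.comap (algebraMap C (Localization.AtPrime P))).IsPrime := hJ.comap _
    have hle : J.comap (algebraMap C (Localization.AtPrime P)) ≤ P := by
      intro a ha
      by_contra haP
      have hu : IsUnit (algebraMap C (Localization.AtPrime P) a) :=
        IsLocalization.map_units (Localization.AtPrime P) (⟨a, haP⟩ : P.primeCompl)
      exact hJ.ne_top (Ideal.eq_top_of_isUnit_mem J ha hu)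
    exact hP.2 ⟨hJc, bot_le⟩ hle hn
  obtain ⟨k, hk⟩ := h1
  rw [← map_pow, IsLocalization.map_eq_zero_iff P.primeCompl] at hk
  obtain ⟨⟨t, ht⟩, h2⟩ := hk
  refine ⟨t, ht, k + 1, ?_⟩
  simp only at h2
  rw [mul_pow, pow_succ n, pow_succ t]
  calc n ^ k * n * (t ^ k * t) = (t * n ^ k) * (n * t ^ k) := by ring
    _ = 0 := by rw [h2, zero_mul]

variable {E : Type} [Ring E] {C : Type} [CommRing C] (i : C →+* E)

/-- `E J` is stable under right multiplication by elements of `C`. -/
theorem mul_mem {J : Ideal C} {y : E} (hy : y ∈ Submodule.span E (i '' (J : Set C))) (t : C) :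
    y * i t ∈ Submodule.span E (i '' (J : Set C)) := by
  induction hy using Submodule.span_induction with
  | mem y hy =>
    obtain ⟨a, ha, rfl⟩ := hy
    rw [← map_mul]
    exact Submodule.subset_span ⟨a * t, J.mul_mem_right _ ha, rfl⟩
  | zero => rw [zero_mul]; exact Submodule.zero_mem _
  | add a b _ _ ha hb => rw [add_mul]; exact Submodule.add_mem _ ha hb
  | smul e a _ ha => rw [smul_mul_assoc]; exact Submodule.smul_mem _ _ ha

theorem span_mono {J J' : Ideal C} (h : J ≤ J') :
    Submodule.span E (i '' (J : Set C)) ≤ Submodule.span E (i '' (J' : Set C)) :=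
  Submodule.span_mono (Set.image_mono h)

theorem exists_nilpotent {P : Ideal C} (hP : P ∈ minimalPrimes C) {y : E}
    (hy : y ∈ Submodule.span E (i '' (P : Set C))) :
    ∃ t, t ∉ P ∧ ∃ J : Ideal C, IsNilpotent J ∧
      y * i t ∈ Submodule.span E (i '' (J : Set C)) := by
  have hPp : P.IsPrime := hP.1.1
  induction hy using Submodule.span_induction with
  | mem y hy =>
    obtain ⟨n, hn, rfl⟩ := hy
    obtain ⟨t, ht, k, hk⟩ := exists_mul_nilpotent hP hn
    refine ⟨t, ht, Ideal.span {n * t}, ⟨k, ?_⟩, ?_⟩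
    · rw [Ideal.span_singleton_pow, hk]
      simp
    · rw [← map_mul]
      exact Submodule.subset_span ⟨n * t, Ideal.mem_span_singleton_self _, rfl⟩
  | zero =>
    refine ⟨1, fun h => hPp.ne_top ((Ideal.eq_top_iff_one P).2 h), 0, ⟨1, by simp⟩, ?_⟩
    rw [zero_mul]
    exact Submodule.zero_mem _
  | add a b _ _ ha hb =>
    obtain ⟨t, ht, J, hJ, h1⟩ := ha
    obtain ⟨t', ht', J', hJ', h2⟩ := hb
    refine ⟨t * t', fun h => (hPp.mem_or_mem h).elim ht ht', J + J',
      (Commute.all J J').isNilpotent_add hJ hJ', ?_⟩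
    rw [add_mul]
    refine Submodule.add_mem _ ?_ ?_
    · rw [map_mul, ← mul_assoc]
      exact span_mono i le_sup_left (mul_mem i h1 t')
    · rw [mul_comm t t', map_mul, ← mul_assoc]
      exact span_mono i le_sup_right (mul_mem i h2 t)
  | smul e a _ ha =>
    obtain ⟨t, ht, J, hJ, h1⟩ := ha
    refine ⟨t, ht, J, hJ, ?_⟩
    rw [smul_mul_assoc]
    exact Submodule.smul_mem _ _ h1

theorem pow_mem {J : Ideal C} {s : C} (hs : i s ∈ Submodule.span E (i '' (J : Set C))) (r : ℕ) :
    i (s ^ r) ∈ Submodule.span E (i '' ((J ^ r : Ideal C) : Set C)) := by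
  induction r with
  | zero =>
    refine Submodule.subset_span ⟨s ^ 0, ?_, rfl⟩
    rw [pow_zero, Ideal.one_eq_top]
    trivial
  | succ r ih =>
    have h1 : ∀ y ∈ Submodule.span E (i '' (J : Set C)), ∀ ν ∈ J ^ r,
        y * i ν ∈ Submodule.span E (i '' ((J ^ (r + 1) : Ideal C) : Set C)) := by
      intro y hy ν hν
      induction hy using Submodule.span_induction with
      | mem y hy =>
        obtain ⟨μ, hμ, rfl⟩ := hy
        refine Submodule.subset_span ⟨μ * ν, ?_, map_mul _ _ _⟩
        rw [pow_succ', SetLike.mem_coe]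
        exact Ideal.mul_mem_mul hμ hν
      | zero => rw [zero_mul]; exact Submodule.zero_mem _
      | add a b _ _ ha hb => rw [add_mul]; exact Submodule.add_mem _ ha hb
      | smul e a _ ha => rw [smul_mul_assoc]; exact Submodule.smul_mem _ _ ha
    have h3 : ∀ z ∈ Submodule.span E (i '' ((J ^ r : Ideal C) : Set C)),
        z * i s ∈ Submodule.span E (i '' ((J ^ (r + 1) : Ideal C) : Set C)) := by
      intro z hz
      induction hz using Submodule.span_induction with
      | mem y hy =>
        obtain ⟨ν, hν, rfl⟩ := hy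
        have h2 := h1 (i s) hs ν hν
        rwa [← map_mul, mul_comm, map_mul] at h2
      | zero => rw [zero_mul]; exact Submodule.zero_mem _
      | add a b _ _ ha hb => rw [add_mul]; exact Submodule.add_mem _ ha hb
      | smul e a _ ha => rw [smul_mul_assoc]; exact Submodule.smul_mem _ _ ha
    have h4 := h3 _ ih
    rwa [← map_mul, ← pow_succ] at h4

end NZM

open NZM in
theorem specNZ : SpecNZ := by
  intro E _ C _ i hi P hP s hs
  have hPp : P.IsPrime := hP.1.1
  by_contra hsP
  obtain ⟨t, ht, J, ⟨r, hr⟩, h1⟩ := exists_nilpotent i hP hs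
  rw [← map_mul] at h1
  have h2 := pow_mem i h1 r
  rw [hr] at h2
  have h3 : i ((s * t) ^ r) = 0 := by
    have : (i '' (((0 : Ideal C)) : Set C)) = {0} := by
      ext z
      simp
    rw [this] at h2
    simpa using h2
  have h4 : (s * t) ^ r = 0 := hi (by rw [h3, map_zero])
  have h5 : (s * t) ^ r ∈ P := by rw [h4]; exact P.zero_mem
  exact (hPp.mem_or_mem (hPp.mem_of_pow_mem r h5)).elim hsP ht

end Pool.Agent.Lib.MP_8f946f_al.Sol
end

section
/-!
# Module P
-/
set_option autoImplicit false

namespace Pool.Agent.Lib.MP_8f946f_al.Sol.PM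

open Polynomial BasM

attribute [local instance 100] LieRing.ofAssociativeRing

section

variable {F : Type} [Field F] {L : Type} [LieRing L] [LieAlgebra F L]

lemma fd_inf (I J : LieIdeal F L) (hI : FiniteDimensional F (L ⧸ I))
    (hJ : FiniteDimensional F (L ⧸ J)) : FiniteDimensional F (L ⧸ (I ⊓ J : LieIdeal F L)) := by
  let g : L →ₗ[F] (L ⧸ I) × (L ⧸ J) :=
    LinearMap.prod (mkHom I : L →ₗ[F] L ⧸ I) (mkHom J : L →ₗ[F] L ⧸ J)
  have hg : ∀ x, g x = (mkHom I x, mkHom J x) := fun x => rfl
  have hle : (I ⊓ J : LieIdeal F L).toSubmodule ≤ LinearMap.ker g := by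
    intro x hx
    have hx' : x ∈ I ∧ x ∈ J := (LieSubmodule.mem_inf _ _ _).1 hx
    rw [LinearMap.mem_ker, hg, (mkHom_eq_zero I x).2 hx'.1, (mkHom_eq_zero J x).2 hx'.2]
    rfl
  let f : (L ⧸ (I ⊓ J : LieIdeal F L)) →ₗ[F] (L ⧸ I) × (L ⧸ J) :=
    Submodule.liftQ (I ⊓ J : LieIdeal F L).toSubmodule g hle
  refine Module.Finite.of_injective f ?_
  intro a b hab
  obtain ⟨x, rfl⟩ := mkHom_surjective (I ⊓ J : LieIdeal F L) a
  obtain ⟨y, rfl⟩ := mkHom_surjective (I ⊓ J : LieIdeal F L) b
  have h1 : g x = g y := hab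
  rw [hg, hg, Prod.mk.injEq, ← sub_eq_zero, ← sub_eq_zero (a := mkHom J x), ← map_sub, ← map_sub,
    mkHom_eq_zero, mkHom_eq_zero] at h1
  rw [← sub_eq_zero, ← map_sub, mkHom_eq_zero]
  exact (LieSubmodule.mem_inf _ _ _).2 h1

lemma fd_comap {L' : Type} [LieRing L'] [LieAlgebra F L'] (q : L →ₗ⁅F⁆ L') (I : LieIdeal F L')
    (h : FiniteDimensional F (L' ⧸ I)) : FiniteDimensional F (L ⧸ LieIdeal.comap q I) := by
  let g : L →ₗ[F] (L' ⧸ I) := ((mkHom I).comp q : L →ₗ[F] L' ⧸ I)
  have hg : ∀ x, g x = mkHom I (q x) := fun x => rfl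
  have hle : (LieIdeal.comap q I).toSubmodule ≤ LinearMap.ker g := by
    intro x hx
    have hx' : q x ∈ I := LieIdeal.mem_comap.1 hx
    rw [LinearMap.mem_ker, hg, (mkHom_eq_zero I _).2 hx']
  let f : (L ⧸ LieIdeal.comap q I) →ₗ[F] (L' ⧸ I) :=
    Submodule.liftQ (LieIdeal.comap q I).toSubmodule g hle
  refine Module.Finite.of_injective f ?_
  intro a b hab
  obtain ⟨x, rfl⟩ := mkHom_surjective (LieIdeal.comap q I) a
  obtain ⟨y, rfl⟩ := mkHom_surjective (LieIdeal.comap q I) b
  have h1 : g x = g y := hab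
  rw [hg, hg, ← sub_eq_zero, ← map_sub, ← map_sub, mkHom_eq_zero] at h1
  rw [← sub_eq_zero, ← map_sub, mkHom_eq_zero, LieIdeal.mem_comap]
  exact h1

lemma fd_top : FiniteDimensional F (L ⧸ (⊤ : LieIdeal F L)) := by
  have h : Subsingleton (L ⧸ (⊤ : LieIdeal F L)) := by
    constructor
    intro a b
    obtain ⟨x, rfl⟩ := mkHom_surjective (⊤ : LieIdeal F L) a
    obtain ⟨y, rfl⟩ := mkHom_surjective (⊤ : LieIdeal F L) b
    rw [← sub_eq_zero, ← map_sub, mkHom_eq_zero]
    exact LieSubmodule.mem_top _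
  infer_instance

/-- separation of a finite set -/
lemma exists_sep (I : LieIdeal F L) (hI : IsRF F (L ⧸ I)) (T : Set L) (hT : T.Finite) :
    ∃ R : LieIdeal F L, FiniteDimensional F (L ⧸ R) ∧ I ≤ R ∧ ∀ t ∈ T, t ∉ I → t ∉ R := by
  induction T, hT using Set.Finite.induction_on with
  | empty => exact ⟨⊤, fd_top, le_top, fun t ht => absurd ht (Set.notMem_empty t)⟩
  | insert _ _ ih =>
    rename_i a s _ _
    obtain ⟨R, hR, hIR, h⟩ := ih
    by_cases ha : a ∈ I
    · refine ⟨R, hR, hIR, ?_⟩
      rintro t (rfl | ht) htI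
      · exact absurd ha htI
      · exact h t ht htI
    · obtain ⟨J, hJ, haJ⟩ := hI (mkHom I a) (by rw [Ne, mkHom_eq_zero]; exact ha)
      refine ⟨R ⊓ LieIdeal.comap (mkHom I) J, fd_inf _ _ hR (fd_comap _ _ hJ), ?_, ?_⟩
      · refine le_inf hIR ?_
        intro x hx
        rw [LieIdeal.mem_comap, (mkHom_eq_zero I x).2 hx]
        exact J.zero_mem
      · rintro t (rfl | ht) htI htR
        · exact haJ (LieIdeal.mem_comap.1 ((LieSubmodule.mem_inf _ _ _).1 htR).2)
        · exact h t ht htI ((LieSubmodule.mem_inf _ _ _).1 htR).1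

lemma gam_mono {N N' : LieIdeal F L} (h : N ≤ N') (i : ℕ) : gam N i ≤ gam N' i := by
  induction i with
  | zero => exact h
  | succ i ih => exact LieSubmodule.mono_lie h ih

end

section modules

variable {F : Type} [Field F] {L : Type} [LieRing L] [LieAlgebra F L]
variable {M₁ : Type} [AddCommGroup M₁] [Module F M₁] [LieRingModule L M₁] [LieModule F L M₁]
variable {M₂ : Type} [AddCommGroup M₂] [Module F M₂] [LieRingModule L M₂] [LieModule F L M₂]

/-- pairs of compatible endomorphisms -/
def pairs (f : M₁ →ₗ⁅F,L⁆ M₂) : Subalgebra F (Module.End F M₁ × Module.End F M₂) where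
  carrier := {e | ∀ m, f (e.1 m) = e.2 (f m)}
  mul_mem' := by
    intro a b ha hb m
    rw [Prod.fst_mul, Prod.snd_mul, Module.End.mul_apply, Module.End.mul_apply, ha, hb]
  add_mem' := by
    intro a b ha hb m
    rw [Prod.fst_add, Prod.snd_add, LinearMap.add_apply, LinearMap.add_apply, map_add, ha, hb]
  algebraMap_mem' := by
    intro r m
    rw [Prod.algebraMap_apply, Module.algebraMap_end_apply, Module.algebraMap_end_apply, map_smul]

/-- the pair of operators defined by an element of `L` -/
def pt (f : M₁ →ₗ⁅F,L⁆ M₂) (x : L) : pairs f :=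
  ⟨(LieModule.toEnd F L M₁ x, LieModule.toEnd F L M₂ x), by
    intro m
    rw [LieModule.toEnd_apply_apply, LieModule.toEnd_apply_apply, LieModuleHom.map_lie]⟩

/-- projections -/
def π₁ (f : M₁ →ₗ⁅F,L⁆ M₂) : pairs f →ₐ[F] Module.End F M₁ :=
  (AlgHom.fst F _ _).comp (pairs f).val

/-- projections -/
def π₂ (f : M₁ →ₗ⁅F,L⁆ M₂) : pairs f →ₐ[F] Module.End F M₂ :=
  (AlgHom.snd F _ _).comp (pairs f).val

lemma π₁_pt (f : M₁ →ₗ⁅F,L⁆ M₂) (x : L) : π₁ f (pt f x) = LieModule.toEnd F L M₁ x := rfl

lemma π₂_pt (f : M₁ →ₗ⁅F,L⁆ M₂) (x : L) : π₂ f (pt f x) = LieModule.toEnd F L M₂ x := rfl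

lemma opRel_of_injective (f : M₁ →ₗ⁅F,L⁆ M₂) (hf : Function.Injective f) {k : ℕ} {c : ℕ → F[X]}
    {W : List (F × ℕ × List ℕ)} (x b : L)
    (h : OpRel k c W (LieModule.toEnd F L M₂ x) (LieModule.toEnd F L M₂ b)) :
    OpRel k c W (LieModule.toEnd F L M₁ x) (LieModule.toEnd F L M₁ b) := by
  have h1 : Function.Injective (π₂ f) := by
    rw [injective_iff_map_eq_zero]
    rintro ⟨⟨e₁, e₂⟩, he⟩ h0
    have h0' : e₂ = 0 := h0
    apply Subtype.ext
    apply Prod.ext
    · ext m
      apply hf
      have := he m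
      rw [this]
      change e₂ (f m) = f ((0 : Module.End F M₁) m)
      rw [h0', LinearMap.zero_apply, LinearMap.zero_apply, map_zero]
    · exact h0'
  rw [← π₂_pt f, ← π₂_pt f] at h
  have h2 : OpRel k c W (pt f x) (pt f b) := OpRel.of_map (π₂ f) h1 h
  have h3 := OpRel.map (π₁ f) h2
  rwa [π₁_pt, π₁_pt] at h3

lemma opRel_of_surjective (f : M₁ →ₗ⁅F,L⁆ M₂) (hf : Function.Surjective f) {k : ℕ}
    {c : ℕ → F[X]} {W : List (F × ℕ × List ℕ)} (x b : L)
    (h : OpRel k c W (LieModule.toEnd F L M₁ x) (LieModule.toEnd F L M₁ b)) :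
    OpRel k c W (LieModule.toEnd F L M₂ x) (LieModule.toEnd F L M₂ b) := by
  have h1 : Function.Injective (π₁ f) := by
    rw [injective_iff_map_eq_zero]
    rintro ⟨⟨e₁, e₂⟩, he⟩ h0
    have h0' : e₁ = 0 := h0
    apply Subtype.ext
    apply Prod.ext
    · exact h0'
    · ext m
      obtain ⟨m', rfl⟩ := hf m
      have := he m'
      change f (e₁ m') = e₂ (f m') at this
      change e₂ (f m') = (0 : Module.End F M₂) (f m')
      rw [← this, h0', LinearMap.zero_apply, LinearMap.zero_apply, map_zero]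
  rw [← π₁_pt f, ← π₁_pt f] at h
  have h2 : OpRel k c W (pt f x) (pt f b) := OpRel.of_map (π₁ f) h1 h
  have h3 := OpRel.map (π₂ f) h2
  rwa [π₂_pt, π₂_pt] at h3

lemma itm_mono {N N' : LieIdeal F L} (h : N ≤ N') (i : ℕ) :
    (itm N i : LieSubmodule F L M₁) ≤ itm N' i := by
  induction i with
  | zero => exact le_rfl
  | succ i ih => exact LieSubmodule.mono_lie h ih

/-- one step of the filtration -/
lemma step (A B : LieSubmodule F L M₁) (N' N'' : LieIdeal F L) (n' n'' : ℕ)
    (h' : itm N' n' ≤ A) (h'' : itm N'' n'' = (⊥ : LieSubmodule F L (Qt A B))) :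
    itm (N' ⊓ N'') (n' + n'') ≤ B := by
  have key : ∀ t : ℕ, itm (N' ⊓ N'') (n' + t) ≤
      ((itm N'' t : LieSubmodule F L (Qt A B)).comap (qmk A B)).map A.incl := by
    intro t
    induction t with
    | zero =>
      intro m hm
      have hm' : m ∈ A := h' (itm_mono inf_le_left _ hm)
      refine (LieSubmodule.mem_map _).2 ⟨⟨m, hm'⟩, ?_, rfl⟩
      rw [LieSubmodule.mem_comap]
      exact LieSubmodule.mem_top _
    | succ t ih =>
      change (⁅N' ⊓ N'', itm (N' ⊓ N'') (n' + t)⁆ : LieSubmodule F L M₁) ≤ _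
      rw [LieSubmodule.lie_le_iff]
      intro y hy m hm
      obtain ⟨a, ha, rfl⟩ := (LieSubmodule.mem_map _).1 (ih hm)
      refine (LieSubmodule.mem_map _).2 ⟨⁅y, a⁆, ?_, ?_⟩
      · rw [LieSubmodule.mem_comap] at ha ⊢
        rw [LieModuleHom.map_lie]
        exact LieSubmodule.lie_mem_lie ((LieSubmodule.mem_inf _ _ _).1 hy).2 ha
      · rw [LieModuleHom.map_lie]
  intro m hm
  obtain ⟨a, ha, rfl⟩ := (LieSubmodule.mem_map _).1 (key n'' hm)
  rw [LieSubmodule.mem_comap, h'', LieSubmodule.mem_bot, qmk_eq_zero] at ha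
  exact ha

end modules

end Pool.Agent.Lib.MP_8f946f_al.Sol.PM

namespace Pool.Agent.Lib.MP_8f946f_al.Sol

open Polynomial PM BasM

theorem specP (hJ : SpecJ) : SpecP := by
  intro F _ _ L _ _ k c W hW hRF hFG d
  induction d with
  | zero =>
    intro M _ _ _ _ _ N hN h0
    refine ⟨N, 1, hN, ?_⟩
    rw [eq_bot_iff]
    change (⁅N, itm N 0⁆ : LieSubmodule F L M) ≤ ⊥
    rw [LieSubmodule.lie_le_iff]
    intro y hy m _
    rw [LieSubmodule.mem_bot]
    exact h0 y hy m
  | succ d ih =>
    intro M _ _ _ _ hOp N hN h0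
    obtain ⟨S, hSf, hSB, hS⟩ := hFG N hN d
    obtain ⟨B₀, hB₀, ⟨T, hT, hTB⟩, n, hn⟩ := hJ F L M k c W hW hOp N (gam N d) hN (gam_le N d)
      (fun y hy b hb m => h0 _ (LieSubmodule.lie_mem_lie hy hb) m)
      ⟨S, hSf, hSB, by
        intro b hb
        obtain ⟨s, hs, g, hg, hsg⟩ := (LieSubmodule.mem_sup _ _ _).1 (hS hb)
        refine ⟨s, hs, fun m => ?_⟩
        have : b - s = g := by rw [← hsg]; abel
        rw [this]
        exact h0 g hg m⟩
    -- the ideal `I₀`
    let I₀ : LieIdeal F L := B₀ ⊔ LieModule.ker F L M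
    have hker : gam N (d + 1) ≤ LieModule.ker F L M := by
      intro y hy
      rw [LieModule.mem_ker]
      exact h0 y hy
    obtain ⟨R, hR, hIR, hsep⟩ := exists_sep I₀ (hRF I₀ ⟨N, d + 1, hN, hker.trans le_sup_right⟩) T hT
    have hBR : ∀ b ∈ gam N d, b ∈ R → b ∈ I₀ := by
      intro b hb hbR
      obtain ⟨t, ht, hbt⟩ := hTB b hb
      have hbt' : b - t ∈ I₀ := (le_sup_left : B₀ ≤ I₀) hbt
      have htR : t ∈ R := by
        have := R.sub_mem hbR (hIR hbt')
        simpa using this
      have htI : t ∈ I₀ := by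
        by_contra hcon
        exact hsep t ht hcon htR
      have := I₀.add_mem hbt' htI
      simpa using this
    let N₁ : LieIdeal F L := N ⊓ R
    have hN₁ : FiniteDimensional F (L ⧸ N₁) := fd_inf N R hN hR
    have hgam : gam N₁ d ≤ I₀ := by
      intro y hy
      exact hBR y (gam_mono inf_le_left d hy)
        ((inf_le_right : N₁ ≤ R) (gam_le N₁ d hy))
    -- the filtration
    have key : ∀ j : ℕ, ∃ (N' : LieIdeal F L) (n' : ℕ), FiniteDimensional F (L ⧸ N') ∧
        itm N' n' ≤ (itm B₀ j : LieSubmodule F L M) := by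
      intro j
      induction j with
      | zero => exact ⟨N, 0, hN, le_top⟩
      | succ j ihj =>
        obtain ⟨N', n', hN', hle⟩ := ihj
        let A : LieSubmodule F L M := itm B₀ j
        let B : LieSubmodule F L M := itm B₀ (j + 1)
        have hop : ∀ x b : L, OpRel k c W (LieModule.toEnd F L (Qt A B) x)
            (LieModule.toEnd F L (Qt A B) b) := fun x b =>
          opRel_of_surjective (qmk A B) (qmk_surjective A B) x b
            (opRel_of_injective A.incl (Subtype.coe_injective) x b (hOp x b))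
        obtain ⟨N'', n'', hN'', hbot⟩ := ih (Qt A B) hop N₁ hN₁ (by
          refine qt_trivial (gam N₁ d) A B ?_
          intro y hy a ha
          obtain ⟨y₁, hy₁, y₂, hy₂, rfl⟩ := (LieSubmodule.mem_sup _ _ _).1 (hgam hy)
          rw [add_lie]
          apply B.add_mem
          · exact LieSubmodule.lie_mem_lie hy₁ ha
          · rw [(LieModule.mem_ker F L M _).1 hy₂ a]
            exact B.zero_mem)
        exact ⟨N' ⊓ N'', n' + n'', fd_inf _ _ hN' hN'', step A B N' N'' n' n'' hle hbot⟩
    obtain ⟨N', n', hN', hle⟩ := key n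
    refine ⟨N', n', hN', ?_⟩
    rw [eq_bot_iff, ← hn]
    exact hle

end Pool.Agent.Lib.MP_8f946f_al.Sol
end

section
/-!
# PRIME: the polynomials vanishing on the image of a subgroup of finite index form a prime ideal
-/
set_option autoImplicit false

namespace Pool.Agent.Lib.MP_8f946f_al.Sol

open MvPolynomial

namespace PrimeM

/-- one of two polynomials whose product vanishes on the image of a group vanishes on the image of
a subgroup of finite index -/
theorem split (hIrr : SpecIrr) {K : Type} [Field K] {V : Type} [AddCommGroup V] (n : ℕ)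
    (κ : V →+ (Fin n → K)) (P R : MvPolynomial (Fin n) K)
    (h : ∀ v, eval (κ v) P = 0 ∨ eval (κ v) R = 0) :
    ∃ H : AddSubgroup V, H.FiniteIndex ∧
      ((∀ v ∈ H, eval (κ v) P = 0) ∨ ∀ v ∈ H, eval (κ v) R = 0) := by
  let f : V → PrimeSpectrum (MvPolynomial (Fin n) K) :=
    fun v => ⟨RingHom.ker (eval (κ v)), RingHom.ker_isPrime _⟩
  let : TopologicalSpace V := TopologicalSpace.induced f inferInstance
  have hf : Topology.IsInducing f := ⟨rfl⟩
  have : TopologicalSpace.NoetherianSpace V := hf.noetherianSpace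
  have hcl : ∀ Q : MvPolynomial (Fin n) K, IsClosed {v | eval (κ v) Q = 0} := by
    intro Q
    have h1 : {v | eval (κ v) Q = 0} = f ⁻¹' PrimeSpectrum.zeroLocus {Q} := by
      ext v
      simp only [Set.mem_ofPred_eq, Set.mem_preimage, PrimeSpectrum.mem_zeroLocus,
        Set.singleton_subset_iff, SetLike.mem_coe]
      exact RingHom.mem_ker.symm
    rw [h1]
    exact (PrimeSpectrum.isClosed_zeroLocus _).preimage hf.continuous
  have htr : ∀ g : V, Continuous fun x => g + x := by
    intro g
    rw [hf.continuous_iff]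
    let σ : MvPolynomial (Fin n) K →+* MvPolynomial (Fin n) K :=
      (aeval fun i => X i + C (κ g i) : MvPolynomial (Fin n) K →ₐ[K] _).toRingHom
    have h1 : f ∘ (fun x => g + x) = PrimeSpectrum.comap σ ∘ f := by
      funext v
      refine PrimeSpectrum.ext ?_
      ext Q
      change Q ∈ RingHom.ker (eval (κ (g + v))) ↔ σ Q ∈ RingHom.ker (eval (κ v))
      rw [RingHom.mem_ker, RingHom.mem_ker]
      have h2 : eval (κ v) (σ Q) = eval (κ (g + v)) Q := by
        change eval (κ v) (aeval (fun i => X i + C (κ g i)) Q) = _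
        rw [← MvPolynomial.coe_aeval_eq_eval, ← MvPolynomial.coe_aeval_eq_eval]
        change aeval (κ v) (aeval (fun i => X i + C (κ g i)) Q) = aeval (κ (g + v)) Q
        rw [← AlgHom.comp_apply, comp_aeval]
        congr 2
        funext i
        simp [add_comm]
      rw [h2]
    rw [h1]
    exact (PrimeSpectrum.continuous_comap σ).comp hf.continuous
  obtain ⟨H, hH, hirr⟩ := hIrr V htr
  refine ⟨H, hH, ?_⟩
  have h2 := isPreirreducible_iff_isClosed_union_isClosed.1 hirr.2 _ _ (hcl P) (hcl R)
    (fun v _ => h v)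
  rcases h2 with h2 | h2
  · exact Or.inl fun v hv => h2 hv
  · exact Or.inr fun v hv => h2 hv

end PrimeM

theorem specPrime (hIrr : SpecIrr) : SpecPrime := by
  intro K _ V _ κ
  let I : Ideal (MvPolynomial ℕ K) :=
    { carrier := {P | ∃ H : AddSubgroup V, H.FiniteIndex ∧ ∀ v ∈ H, eval (κ v) P = 0}
      add_mem' := by
        rintro P R ⟨H, hH, h⟩ ⟨H', hH', h'⟩
        refine ⟨H ⊓ H', inferInstance, fun v hv => ?_⟩
        rw [map_add, h v hv.1, h' v hv.2, add_zero]
      zero_mem' := ⟨⊤, inferInstance, fun v _ => map_zero _⟩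
      smul_mem' := by
        rintro Q P ⟨H, hH, h⟩
        refine ⟨H, hH, fun v hv => ?_⟩
        rw [smul_eq_mul, map_mul, h v hv, mul_zero] }
  have hI : ∀ P, P ∈ I ↔ ∃ H : AddSubgroup V, H.FiniteIndex ∧ ∀ v ∈ H, eval (κ v) P = 0 :=
    fun P => Iff.rfl
  refine ⟨I, ⟨?_, ?_⟩, hI⟩
  · rw [Ne, Ideal.eq_top_iff_one, hI]
    rintro ⟨H, _, h⟩
    have := h 0 H.zero_mem
    rw [map_one] at this
    exact one_ne_zero this
  · intro P R hPR
    rw [hI] at hPR
    obtain ⟨H', hH', h⟩ := hPR
    obtain ⟨n, hn⟩ : ∃ n : ℕ, ∀ i ∈ P.vars ∪ R.vars, i < n := by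
      refine ⟨(P.vars ∪ R.vars).sup id + 1, fun i hi => ?_⟩
      exact Nat.lt_succ_of_le (Finset.le_sup (f := id) hi)
    obtain ⟨P', hP'⟩ := exists_rename_eq_of_vars_subset_range P (Fin.val : Fin n → ℕ)
      Fin.val_injective (fun i hi => ⟨⟨i, hn i (Finset.mem_union_left _ hi)⟩, rfl⟩)
    obtain ⟨R', hR'⟩ := exists_rename_eq_of_vars_subset_range R (Fin.val : Fin n → ℕ)
      Fin.val_injective (fun i hi => ⟨⟨i, hn i (Finset.mem_union_right _ hi)⟩, rfl⟩)
    let κ' : H' →+ (Fin n → K) :=
      { toFun := fun v i => κ v i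
        map_zero' := by
          funext i
          simp
        map_add' := by
          intro a b
          funext i
          simp }
    have hev : ∀ (v : H') (Q : MvPolynomial (Fin n) K),
        eval (κ v) (rename Fin.val Q) = eval (κ' v) Q := by
      intro v Q
      rw [eval_rename]
      rfl
    obtain ⟨H, hH, hor⟩ := PrimeM.split hIrr n κ' P' R' (by
      intro v
      have h1 := h v v.2
      rw [map_mul, ← hP', ← hR', hev, hev] at h1
      exact mul_eq_zero.1 h1)
    have hfi : (H.map H'.subtype).FiniteIndex := by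
      refine ⟨?_⟩
      rw [AddSubgroup.index_map_subtype]
      exact mul_ne_zero hH.index_ne_zero hH'.index_ne_zero
    have key : ∀ (Q : MvPolynomial ℕ K) (Q' : MvPolynomial (Fin n) K), rename Fin.val Q' = Q →
        (∀ v ∈ H, eval (κ' v) Q' = 0) → Q ∈ I := by
      intro Q Q' hQ h2
      rw [hI]
      refine ⟨_, hfi, ?_⟩
      rintro _ ⟨v, hv, rfl⟩
      rw [← hQ]
      exact (hev v Q').trans (h2 v hv)
    rcases hor with h2 | h2
    · exact Or.inl (key P P' hP' h2)
    · exact Or.inr (key R R' hR' h2)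

end Pool.Agent.Lib.MP_8f946f_al.Sol
end

section
/-!
# Module PROPN
-/
set_option autoImplicit false

namespace Pool.Agent.Lib.MP_8f946f_al.Sol.PropNM

open Polynomial BasM TensorProduct

section right

variable {C E : Type} [CommRing C] [Ring E]

/-- `E` as a right `C`-module -/
def RE (_ : C →+* E) : Type := E

instance (i : C →+* E) : AddCommGroup (RE i) := inferInstanceAs (AddCommGroup E)

/-- the identity -/
def toRE (i : C →+* E) : E →+ RE i := AddMonoidHom.id E

/-- the identity -/
def ofRE (i : C →+* E) : RE i →+ E := AddMonoidHom.id E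

instance (i : C →+* E) : Module C (RE i) where
  smul c e := toRE i (ofRE i e * i c)
  one_smul e := by
    change toRE i (ofRE i e * i 1) = e
    rw [map_one, mul_one]; rfl
  mul_smul a b e := by
    change toRE i (ofRE i e * i (a * b)) = toRE i (ofRE i (toRE i (ofRE i e * i b)) * i a)
    rw [mul_comm a b, i.map_mul, ← mul_assoc]; rfl
  smul_zero a := by
    change toRE i (ofRE i 0 * i a) = 0
    rw [map_zero, zero_mul, map_zero]
  smul_add a e f := by
    change toRE i (ofRE i (e + f) * i a) = toRE i (ofRE i e * i a) + toRE i (ofRE i f * i a)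
    rw [map_add, add_mul, map_add]
  add_smul a b e := by
    change toRE i (ofRE i e * i (a + b)) = toRE i (ofRE i e * i a) + toRE i (ofRE i e * i b)
    rw [map_add, mul_add, map_add]
  zero_smul e := by
    change toRE i (ofRE i e * i 0) = 0
    rw [map_zero, mul_zero, map_zero]

lemma smul_def (i : C →+* E) (c : C) (e : RE i) : c • e = toRE i (ofRE i e * i c) := rfl

/-- left multiplication -/
def Lm (i : C →+* E) (e : E) : RE i →ₗ[C] RE i where
  toFun f := toRE i (e * ofRE i f)
  map_add' f g := by rw [map_add, mul_add, map_add]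
  map_smul' c f := by
    rw [smul_def, smul_def, RingHom.id_apply]
    change toRE i (e * (ofRE i f * i c)) = toRE i (e * ofRE i f * i c)
    rw [mul_assoc]

variable (i : C →+* E) (P : Ideal C)

/-- `E / E P` -/
abbrev Mq : Type := RE i ⧸ (P • ⊤ : Submodule C (RE i))

/-- the class -/
def cl (e : E) : Mq i P := Submodule.Quotient.mk (toRE i e)

lemma cl_surjective : Function.Surjective (cl i P) := Quot.mk_surjective

lemma mk_smul_cl (c : C) (e : E) : (Ideal.Quotient.mk P c) • cl i P e = cl i P (e * i c) := rfl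

/-- the left multiplication on the quotient -/
noncomputable def Lq₀ (e : E) : Mq i P →ₗ[C ⧸ P] Mq i P where
  toFun := Submodule.mapQ (P • ⊤) (P • ⊤) (Lm i e) (Submodule.smul_top_le_comap_smul_top P _)
  map_add' := fun a b => map_add _ a b
  map_smul' := by
    intro a m
    obtain ⟨c, rfl⟩ := Ideal.Quotient.mk_surjective a
    exact map_smul (Submodule.mapQ (P • ⊤) (P • ⊤) (Lm i e)
      (Submodule.smul_top_le_comap_smul_top P _)) c m

lemma Lq₀_cl (e m : E) : Lq₀ i P e (cl i P m) = cl i P (e * m) := rfl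

lemma cl_add (a b : E) : cl i P (a + b) = cl i P a + cl i P b := rfl

lemma cl_zero : cl i P 0 = 0 := rfl

/-- the left multiplication on the quotient -/
noncomputable def Lq : E →+* Module.End (C ⧸ P) (Mq i P) where
  toFun := Lq₀ i P
  map_one' := by
    refine LinearMap.ext fun m => ?_
    obtain ⟨m, rfl⟩ := cl_surjective i P m
    rw [Lq₀_cl, one_mul, Module.End.one_apply]
  map_mul' e f := by
    refine LinearMap.ext fun m => ?_
    obtain ⟨m, rfl⟩ := cl_surjective i P m
    rw [Module.End.mul_apply, Lq₀_cl, Lq₀_cl, Lq₀_cl, mul_assoc]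
  map_zero' := by
    refine LinearMap.ext fun m => ?_
    obtain ⟨m, rfl⟩ := cl_surjective i P m
    rw [LinearMap.zero_apply, Lq₀_cl, zero_mul, cl_zero]
  map_add' e f := by
    refine LinearMap.ext fun m => ?_
    obtain ⟨m, rfl⟩ := cl_surjective i P m
    rw [LinearMap.add_apply, Lq₀_cl, Lq₀_cl, Lq₀_cl, add_mul, cl_add]

lemma Lq_cl (e m : E) : Lq i P e (cl i P m) = cl i P (e * m) := rfl

lemma Lq_coe (c : C) : Lq i P (i c) (cl i P 1) = (Ideal.Quotient.mk P c) • cl i P 1 := by
  rw [Lq_cl, mk_smul_cl, mul_one, one_mul]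

lemma cl_eq_zero {e : E} (h : cl i P e = 0) : e ∈ Submodule.span E (i '' (P : Set C)) := by
  have h1 : toRE i e ∈ (P • ⊤ : Submodule C (RE i)) := (Submodule.Quotient.mk_eq_zero _).1 h
  have h2 : ∀ f : RE i, f ∈ (P • ⊤ : Submodule C (RE i)) →
      ofRE i f ∈ Submodule.span E (i '' (P : Set C)) := by
    intro f hf
    refine Submodule.smul_induction_on hf ?_ ?_
    · intro p hp n _
      change ofRE i n * i p ∈ _
      exact Submodule.smul_mem _ _ (Submodule.subset_span ⟨p, hp, rfl⟩)
    · intro a b ha hb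
      rw [map_add]
      exact Submodule.add_mem _ ha hb
  exact h2 _ h1

variable [hP : P.IsPrime]

/-- the field -/
abbrev KK : Type := FractionRing (C ⧸ P)

/-- the vector space -/
abbrev MM : Type := KK P ⊗[C ⧸ P] Mq i P

/-- the representation -/
noncomputable def ρ : E →+* Module.End (KK P) (MM i P) :=
  (Module.End.baseChangeHom (C ⧸ P) (KK P) (Mq i P) : _ →ₐ[C ⧸ P] _).toRingHom.comp (Lq i P)

/-- the vector -/
noncomputable def w₀ : MM i P := 1 ⊗ₜ cl i P 1

/-- the character -/
noncomputable def lm : C →+* KK P := (algebraMap (C ⧸ P) (KK P)).comp (Ideal.Quotient.mk P)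

lemma ρ_w₀ (c : C) : ρ i P (i c) (w₀ i P) = lm P c • w₀ i P := by
  have h1 : ρ i P (i c) (w₀ i P) = 1 ⊗ₜ (Lq i P (i c) (cl i P 1)) := rfl
  rw [h1, Lq_coe, ← TensorProduct.smul_tmul, w₀, TensorProduct.smul_tmul']
  congr 1
  change (Ideal.Quotient.mk P c) • (1 : KK P) = algebraMap (C ⧸ P) (KK P) (Ideal.Quotient.mk P c) • 1
  rw [Algebra.smul_def, smul_eq_mul]

lemma ρ_central (c : C) (h : ∀ e, i c * e = e * i c) (m : MM i P) :
    ρ i P (i c) m = lm P c • m := by
  induction m using TensorProduct.induction_on with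
  | zero => rw [map_zero, smul_zero]
  | tmul k m =>
    obtain ⟨e, rfl⟩ := cl_surjective i P m
    have h1 : ρ i P (i c) (k ⊗ₜ cl i P e) = k ⊗ₜ (Lq i P (i c) (cl i P e)) := rfl
    rw [h1, Lq_cl, h e, ← mk_smul_cl, ← TensorProduct.smul_tmul, TensorProduct.smul_tmul']
    congr 1
    rw [Algebra.smul_def]
    rfl
  | add a b ha hb => rw [map_add, ha, hb, smul_add]

lemma w₀_ne (hNZ : ∀ s : C, i s ∈ Submodule.span E (i '' (P : Set C)) → s ∈ P) :
    w₀ i P ≠ 0 := by
  intro h0
  have h1 : TensorProduct.mk (C ⧸ P) (KK P) (Mq i P) 1 (cl i P 1) = 0 := h0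
  rw [IsLocalizedModule.eq_zero_iff (nonZeroDivisors (C ⧸ P))] at h1
  obtain ⟨⟨s, hs⟩, h2⟩ := h1
  obtain ⟨c, rfl⟩ := Ideal.Quotient.mk_surjective s
  change (Ideal.Quotient.mk P c) • cl i P 1 = 0 at h2
  rw [mk_smul_cl, one_mul] at h2
  have h3 := hNZ c (cl_eq_zero i P h2)
  rw [← Ideal.Quotient.eq_zero_iff_mem] at h3
  exact nonZeroDivisors.ne_zero hs h3

end right

section span

variable {F C E : Type} [Field F] [CommRing C] [Algebra F C] [Ring E] [Algebra F E]
  (i : C →ₐ[F] E) {K M : Type} [Field K] [AddCommGroup M] [Module K M]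
  (r : E →+* Module.End K M) (l : C →+* K) (w : M)

lemma comm_pow (x : E) (c : C) (h : x * i c = i c * x) (hw : r (i c) w = l c • w) (j : ℕ) :
    r (i c) (((r x) ^ j) w) = l c • ((r x) ^ j) w := by
  have h1 : i c * x ^ j = x ^ j * i c := by
    have : Commute x (i c) := h
    exact (this.pow_left j).symm
  rw [← map_pow, ← Module.End.mul_apply, ← map_mul, h1, map_mul, Module.End.mul_apply, hw,
    map_smul]

/-- stability of a subspace -/
lemma stable (x : E) (hD : ∀ a : C, ∃ a' : C, x * i a - i a * x = i a')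
    (hgen : Algebra.adjoin F (insert x (Set.range i)) = ⊤)
    (hF : ∀ t : F, ∀ m : M, r (algebraMap F E t) m = l (algebraMap F C t) • m)
    (hw : ∀ c, r (i c) w = l c • w) (J : ℕ)
    (hJ : ((r x) ^ J) w ∈ Submodule.span K (Set.range fun j : Fin J => ((r x) ^ (j : ℕ)) w))
    (hJ1 : 1 ≤ J) :
    ∀ e : E, ∀ m ∈ Submodule.span K (Set.range fun j : Fin J => ((r x) ^ (j : ℕ)) w),
      r e m ∈ Submodule.span K (Set.range fun j : Fin J => ((r x) ^ (j : ℕ)) w) := by
  set S := Submodule.span K (Set.range fun j : Fin J => ((r x) ^ (j : ℕ)) w) with hS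
  have hx : ∀ m ∈ S, r x m ∈ S := by
    intro m hm
    rw [hS] at hm
    induction hm using Submodule.span_induction with
    | mem m hm =>
      obtain ⟨j, rfl⟩ := hm
      change r x (((r x) ^ (j : ℕ)) w) ∈ S
      rw [← Module.End.mul_apply, ← pow_succ']
      rcases Nat.lt_or_ge ((j : ℕ) + 1) J with h | h
      · exact Submodule.subset_span ⟨⟨(j : ℕ) + 1, h⟩, rfl⟩
      · have : (j : ℕ) + 1 = J := le_antisymm j.2 h
        rw [this]
        exact hJ
    | zero => rw [map_zero]; exact Submodule.zero_mem _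
    | add a b _ _ ha hb => rw [map_add]; exact Submodule.add_mem _ ha hb
    | smul t a _ ha => rw [map_smul]; exact Submodule.smul_mem _ _ ha
  have hmem : ∀ j : ℕ, ((r x) ^ j) w ∈ S := by
    intro j
    induction j with
    | zero => exact Submodule.subset_span ⟨⟨0, hJ1⟩, rfl⟩
    | succ j ih =>
      rw [pow_succ', Module.End.mul_apply]
      exact hx _ ih
  have hc : ∀ (j : ℕ) (c : C), r (i c) (((r x) ^ j) w) ∈ S := by
    intro j
    induction j with
    | zero =>
      intro c
      rw [pow_zero, Module.End.one_apply, hw]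
      exact S.smul_mem _ (hmem 0)
    | succ j ih =>
      intro c
      obtain ⟨c', hc'⟩ := hD c
      have h1 : i c * x = x * i c - i c' := by rw [← hc']; abel
      rw [pow_succ', Module.End.mul_apply, ← Module.End.mul_apply, ← map_mul, h1, map_sub,
        LinearMap.sub_apply, map_mul, Module.End.mul_apply]
      exact S.sub_mem (hx _ (ih c)) (ih c')
  have hc' : ∀ (c : C), ∀ m ∈ S, r (i c) m ∈ S := by
    intro c m hm
    rw [hS] at hm
    induction hm using Submodule.span_induction with
    | mem m hm =>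
      obtain ⟨j, rfl⟩ := hm
      exact hc j c
    | zero => rw [map_zero]; exact Submodule.zero_mem _
    | add a b _ _ ha hb => rw [map_add]; exact Submodule.add_mem _ ha hb
    | smul t a _ ha => rw [map_smul]; exact Submodule.smul_mem _ _ ha
  intro e
  have he : e ∈ Algebra.adjoin F (insert x (Set.range i)) := by rw [hgen]; exact Algebra.mem_top
  induction he using Algebra.adjoin_induction with
  | mem e he =>
    rcases he with rfl | ⟨c, rfl⟩
    · exact hx
    · exact hc' c
  | algebraMap t =>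
    intro m hm
    rw [hF]
    exact S.smul_mem _ hm
  | add a b _ _ ha hb =>
    intro m hm
    rw [map_add, LinearMap.add_apply]
    exact S.add_mem (ha m hm) (hb m hm)
  | mul a b _ _ ha hb =>
    intro m hm
    rw [map_mul, Module.End.mul_apply]
    exact ha _ (hb m hm)

/-- the last step: a scalar action of the elements commuting with `x` -/
lemma scalar (x : E) (J : ℕ) (c : C) (h : x * i c = i c * x) (hw : r (i c) w = l c • w) :
    ∀ m ∈ Submodule.span K (Set.range fun j : Fin J => ((r x) ^ (j : ℕ)) w),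
      r (i c) m = l c • m := by
  intro m hm
  induction hm using Submodule.span_induction with
  | mem m hm =>
    obtain ⟨j, rfl⟩ := hm
    exact comm_pow i r l w x c h hw j
  | zero => rw [map_zero, smul_zero]
  | add a b _ _ ha hb => rw [map_add, ha, hb, smul_add]
  | smul t a _ ha => rw [map_smul, ha, smul_comm]

lemma comm_pow_char (p : ℕ) [CharP F p] (x : E)
    (hD : ∀ a : C, ∃ a' : C, x * i a - i a * x = i a') (a : C) :
    x * i (a ^ p) = i (a ^ p) * x := by
  obtain ⟨a', ha'⟩ := hD a
  have h1 : ∀ n : ℕ, x * i (a ^ (n + 1)) = i (a ^ (n + 1)) * x + i ((n + 1 : ℕ) * (a ^ n * a')) := by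
    intro n
    induction n with
    | zero =>
      rw [zero_add, pow_one, pow_zero, one_mul, Nat.cast_one, one_mul, ← ha']
      abel
    | succ n ih =>
      have h2 : x * i (a ^ (n + 1 + 1)) = (x * i (a ^ (n + 1))) * i a := by
        rw [pow_succ a (n + 1), map_mul, mul_assoc]
      have h3 : x * i a = i a * x + i a' := by rw [← ha']; abel
      rw [h2, ih, add_mul, mul_assoc, h3, mul_add, ← mul_assoc, ← map_mul, ← map_mul, ← map_mul,
        ← pow_succ, add_assoc, ← map_add]
      congr 2
      push_cast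
      ring
  cases p with
  | zero =>
    rw [pow_zero, map_one, mul_one, one_mul]
  | succ n =>
    rw [h1 n]
    have h4 : ((n + 1 : ℕ) : C) = 0 := by
      have h5 : ((n + 1 : ℕ) : F) = 0 := CharP.cast_eq_zero F (n + 1)
      have h6 := congrArg (algebraMap F C) h5
      rwa [map_natCast, map_zero] at h6
    rw [h4, zero_mul, map_zero, add_zero]

/-- the abstract form -/
theorem main (p : ℕ) [Fact p.Prime] [CharP F p] (x : E)
    (hD : ∀ a : C, ∃ a' : C, x * i a - i a * x = i a')
    (hgen : Algebra.adjoin F (insert x (Set.range i)) = ⊤)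
    (hNZ : ∀ P : Ideal C, P ∈ minimalPrimes C →
      ∀ s : C, i s ∈ Submodule.span E (i '' (P : Set C)) → s ∈ P)
    (U : ℕ) (c₁ : C) (hc₁ : ¬ IsNilpotent c₁) :
    ∃ (K : Type) (_ : Field K) (_ : Algebra F K) (lam : C →ₐ[F] K), lam c₁ ≠ 0 ∧
      ((∀ s : ℕ → C, ∑ u ∈ Finset.range (U + 1), x ^ u * i (s u) = 0 → ∀ u ≤ U, lam (s u) = 0) ∨
        ∃ (n : ℕ) (Φ : E →ₐ[F] Matrix (Fin n) (Fin n) K), 1 ≤ n ∧ n ≤ U ∧
          ∀ a : C, (Φ (i a)) ^ p = algebraMap K (Matrix (Fin n) (Fin n) K) (lam a ^ p)) := by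
  classical
  -- the minimal prime
  obtain ⟨P, hPm, hcP⟩ : ∃ P ∈ minimalPrimes C, c₁ ∉ P := by
    by_contra hcon
    push Not at hcon
    apply hc₁
    have h1 : c₁ ∈ sInf (minimalPrimes C) := by
      rw [Submodule.mem_sInf]
      exact hcon
    have h2 : sInf (minimalPrimes C) = (⊥ : Ideal C).radical := Ideal.sInf_minimalPrimes
    rw [h2] at h1
    obtain ⟨n, hn⟩ := h1
    exact ⟨n, hn⟩
  have hP : P.IsPrime := hPm.1.1
  let i' : C →+* E := i
  let r := ρ i' P
  let w := w₀ i' P
  have hi' : ∀ c, i' c = i c := fun c => rfl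
  have hw : ∀ c, r (i c) w = lm P c • w := ρ_w₀ i' P
  have hw0 : w ≠ 0 := w₀_ne i' P (hNZ P hPm)
  have hlF : ∀ t : F, lm P (algebraMap F C t) = algebraMap F (KK P) t := by
    intro t
    rw [IsScalarTower.algebraMap_apply F (C ⧸ P) (KK P)]
    rfl
  have hF : ∀ (t : F) (m : MM i' P), r (algebraMap F E t) m = lm P (algebraMap F C t) • m := by
    intro t m
    have h1 := ρ_central i' P (algebraMap F C t) (by
      intro e
      rw [hi', AlgHom.commutes]
      exact Algebra.commutes t e) m
    rw [hi', AlgHom.commutes] at h1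
    exact h1
  let lam : C →ₐ[F] KK P := { lm P with commutes' := hlF }
  have hlam : ∀ c, lam c = lm P c := fun c => rfl
  refine ⟨KK P, inferInstance, inferInstance, lam, ?_, ?_⟩
  · rw [hlam]
    intro h0
    apply hcP
    rw [← Ideal.Quotient.eq_zero_iff_mem]
    have h1 : algebraMap (C ⧸ P) (KK P) (Ideal.Quotient.mk P c₁) = 0 := h0
    exact (map_eq_zero_iff _ (IsFractionRing.injective (C ⧸ P) (KK P))).1 h1
  · let fam : ℕ → MM i' P := fun j => ((r x) ^ j) w
    by_cases hli : LinearIndependent (KK P) (fun j : Fin (U + 1) => fam j)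
    · left
      intro s hs u hu
      have h1 : ∑ j : Fin (U + 1), lam (s j) • fam j = 0 := by
        have h2 := congrArg (fun e => r e w) hs
        simp only [map_sum, map_mul, map_pow, LinearMap.sum_apply, Module.End.mul_apply, hw,
          map_smul, map_zero, LinearMap.zero_apply] at h2
        rw [Finset.sum_range] at h2
        exact h2
      have h3 := Fintype.linearIndependent_iff.1 hli (fun j => lam (s j)) h1
        ⟨u, Nat.lt_succ_of_le hu⟩
      exact h3
    · right
      have hex : ∃ n : ℕ, ¬ LinearIndependent (KK P) (fun j : Fin n => fam j) := ⟨_, hli⟩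
      obtain ⟨n, hn, hmin⟩ : ∃ n : ℕ, ¬ LinearIndependent (KK P) (fun j : Fin n => fam j) ∧
          ∀ m < n, LinearIndependent (KK P) (fun j : Fin m => fam j) :=
        ⟨Nat.find hex, Nat.find_spec hex, fun m hm => not_not.1 (Nat.find_min hex hm)⟩
      have hnU : n ≤ U + 1 := by
        by_contra hcon
        exact hli (hmin (U + 1) (by omega))
      have hn0 : n ≠ 0 := by
        rintro rfl
        exact hn (linearIndependent_empty_type)
      obtain ⟨J, rfl⟩ := Nat.exists_eq_succ_of_ne_zero hn0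
      have hJli := hmin J (Nat.lt_succ_self J)
      have hJmem : fam J ∈ Submodule.span (KK P) (Set.range fun j : Fin J => fam j) := by
        by_contra hcon
        apply hn
        rw [linearIndependent_finSucc']
        refine ⟨hJli, ?_⟩
        exact hcon
      have hJ1 : 1 ≤ J := by
        by_contra hcon
        have : J = 0 := by omega
        subst this
        simp only [Set.range_eq_empty, Submodule.span_empty, Submodule.mem_bot] at hJmem
        exact hw0 hJmem
      set S := Submodule.span (KK P) (Set.range fun j : Fin J => fam j) with hS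
      have hst : ∀ e : E, ∀ m ∈ S, r e m ∈ S :=
        stable i r (lm P) w x hD hgen hF hw J hJmem hJ1
      let r' : E →+* Module.End (KK P) S :=
        { toFun := fun e => (r e).restrict (hst e)
          map_one' := by
            refine LinearMap.ext fun m => Subtype.ext ?_
            rw [LinearMap.coe_restrict_apply, map_one]
            rfl
          map_mul' := by
            intro a b
            refine LinearMap.ext fun m => Subtype.ext ?_
            rw [LinearMap.coe_restrict_apply, map_mul]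
            rfl
          map_zero' := by
            refine LinearMap.ext fun m => Subtype.ext ?_
            rw [LinearMap.coe_restrict_apply, map_zero]
            rfl
          map_add' := by
            intro a b
            refine LinearMap.ext fun m => Subtype.ext ?_
            rw [LinearMap.coe_restrict_apply, map_add]
            rfl }
      let b : Module.Basis (Fin J) (KK P) S := Module.Basis.span hJli
      let Φ₀ : E →+* Matrix (Fin J) (Fin J) (KK P) :=
        ((LinearMap.toMatrixAlgEquiv b : _ ≃ₐ[KK P] _) :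
          Module.End (KK P) S →+* Matrix (Fin J) (Fin J) (KK P)).comp r'
      have hΦ : ∀ c, x * i c = i c * x →
          Φ₀ (i c) = algebraMap (KK P) (Matrix (Fin J) (Fin J) (KK P)) (lm P c) := by
        intro c hc
        have h1 : r' (i c) = algebraMap (KK P) (Module.End (KK P) S) (lm P c) := by
          refine LinearMap.ext fun m => Subtype.ext ?_
          exact scalar i r (lm P) w x J c hc (hw c) m m.2
        change LinearMap.toMatrixAlgEquiv b (r' (i c)) = _
        rw [h1, AlgEquiv.commutes]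
      let Φ : E →ₐ[F] Matrix (Fin J) (Fin J) (KK P) :=
        { Φ₀ with
          commutes' := by
            intro t
            change Φ₀ (algebraMap F E t) = _
            rw [← AlgHom.commutes i, hΦ _ (by
              rw [AlgHom.commutes]; exact (Algebra.commutes t x).symm), hlF,
              ← IsScalarTower.algebraMap_apply] }
      refine ⟨J, Φ, hJ1, by omega, ?_⟩
      intro a
      rw [← map_pow, ← map_pow]
      change Φ₀ (i (a ^ p)) = _
      rw [hΦ _ (comm_pow_char i p x hD a), ← map_pow]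
      rfl

end span

end Pool.Agent.Lib.MP_8f946f_al.Sol.PropNM

namespace Pool.Agent.Lib.MP_8f946f_al.Sol

open PropNM

theorem specN (hNZ : SpecNZ) : SpecN := by
  intro F _ _ p _ _ E _ _ x C hcomm hD hgen U c₁ hc₁
  letI : CommRing C := { (inferInstance : Ring C) with
    mul_comm := fun a b => Subtype.ext (hcomm a a.2 b b.2) }
  have h := main (F := F) (C := C) (E := E) C.val p x
    (fun a => ⟨⟨x * a - a * x, hD a a.2⟩, rfl⟩)
    (by
      have : Set.range (C.val : C → E) = (C : Set E) := by
        ext e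
        constructor
        · rintro ⟨c, rfl⟩
          exact c.2
        · intro he
          exact ⟨⟨e, he⟩, rfl⟩
      rw [this]
      exact hgen)
    (fun P hP s hs => hNZ E C (C.val : C →+* E) Subtype.coe_injective P hP s hs) U c₁ hc₁
  exact h

end Pool.Agent.Lib.MP_8f946f_al.Sol
end

section
/-!
# R: the scalar case, from FINIMG, GEN and RFIN
-/
set_option autoImplicit false

namespace Pool.Agent.Lib.MP_8f946f_al.Sol

open Finset

namespace RM

section

variable {F K C : Type} [Field F] [Field K] [Algebra F K] [CommRing C] [Algebra F C]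

/-- `dX` and a derivation of `C` -/
theorem aeval_dX (D : C →ₗ[F] C) (hD : ∀ a b, D (a * b) = D a * b + a * D b) (v : C)
    (P : MvPolynomial ℕ F) :
    MvPolynomial.aeval (fun i => (D ^ i) v) (dX F P) =
      D (MvPolynomial.aeval (fun i => (D ^ i) v) P) := by
  have hone : D 1 = 0 := by
    have h := hD 1 1
    rw [mul_one, mul_one, one_mul] at h
    exact left_eq_add.1 h
  induction P using MvPolynomial.induction_on with
  | C a =>
    rw [MvPolynomial.derivation_C, map_zero, MvPolynomial.aeval_C, Algebra.algebraMap_eq_smul_one,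
      map_smul, hone, smul_zero]
  | add p q hp hq => rw [map_add, map_add, hp, hq, map_add, map_add]
  | mul_X p i hp =>
    rw [Derivation.leibniz, smul_eq_mul, smul_eq_mul, map_add, map_mul, map_mul, hp, map_mul, hD,
      MvPolynomial.aeval_X]
    have h1 : dX F (MvPolynomial.X i) = MvPolynomial.X (i + 1) := by
      rw [dX, MvPolynomial.mkDerivation_X]
    rw [h1, MvPolynomial.aeval_X, pow_succ', Module.End.mul_apply]
    ring

theorem aeval_dX_iter (D : C →ₗ[F] C) (hD : ∀ a b, D (a * b) = D a * b + a * D b) (v : C)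
    (m : ℕ) (P : MvPolynomial ℕ F) :
    MvPolynomial.aeval (fun i => (D ^ i) v) ((dX F)^[m] P) =
      (D ^ m) (MvPolynomial.aeval (fun i => (D ^ i) v) P) := by
  induction m with
  | zero => simp
  | succ m ih => rw [Function.iterate_succ_apply', aeval_dX D hD, ih, pow_succ', Module.End.mul_apply]

/-- `dX` and the base change -/
theorem map_dX (P : MvPolynomial ℕ F) :
    dX K (MvPolynomial.map (algebraMap F K) P) = MvPolynomial.map (algebraMap F K) (dX F P) := by
  induction P using MvPolynomial.induction_on with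
  | C a =>
    rw [MvPolynomial.map_C, MvPolynomial.derivation_C, MvPolynomial.derivation_C, map_zero]
  | add p q hp hq => rw [map_add, map_add, hp, hq, map_add, map_add]
  | mul_X p i hp =>
    rw [map_mul, MvPolynomial.map_X, Derivation.leibniz, Derivation.leibniz, smul_eq_mul,
      smul_eq_mul, smul_eq_mul, smul_eq_mul, map_add, map_mul, map_mul, hp, MvPolynomial.map_X]
    have h1 : dX F (MvPolynomial.X i) = MvPolynomial.X (i + 1) := by
      rw [dX, MvPolynomial.mkDerivation_X]
    have h2 : dX K (MvPolynomial.X i) = MvPolynomial.X (i + 1) := by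
      rw [dX, MvPolynomial.mkDerivation_X]
    rw [h1, h2, MvPolynomial.map_X]

theorem map_dX_iter (m : ℕ) (P : MvPolynomial ℕ F) :
    (dX K)^[m] (MvPolynomial.map (algebraMap F K) P) =
      MvPolynomial.map (algebraMap F K) ((dX F)^[m] P) := by
  induction m with
  | zero => rfl
  | succ m ih => rw [Function.iterate_succ_apply', ih, map_dX, Function.iterate_succ_apply']

theorem eval_map (lam : C →ₐ[F] K) (x : ℕ → C) (P : MvPolynomial ℕ F) :
    MvPolynomial.eval (fun i => lam (x i)) (MvPolynomial.map (algebraMap F K) P) =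
      lam (MvPolynomial.aeval x P) := by
  rw [MvPolynomial.eval_map]
  have h := congrArg (fun g : MvPolynomial ℕ F →ₐ[F] K => g P)
    (MvPolynomial.comp_aeval (R := F) x lam)
  simp only [AlgHom.comp_apply] at h
  rw [h]
  rfl

theorem rho_map (k : ℕ) (h : ℕ → F) (W : List (F × List ℕ)) :
    rho K k (fun j => algebraMap F K (h j)) (W.map fun t => (algebraMap F K t.1, t.2)) =
      MvPolynomial.map (algebraMap F K) (rho F k h W) := by
  rw [rho, rho, map_sub, map_sub, MvPolynomial.map_X, map_sum, map_list_sum, List.map_map,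
    List.map_map]
  congr 1
  · congr 1
    refine Finset.sum_congr rfl fun j _ => ?_
    rw [map_mul, MvPolynomial.map_C, MvPolynomial.map_X]
  · congr 1
    refine List.map_congr_left fun t _ => ?_
    simp only [Function.comp_apply]
    rw [map_mul, MvPolynomial.map_C, map_list_prod, List.map_map]
    congr 2
    refine List.map_congr_left fun i _ => ?_
    simp

theorem aeval_rho (x : ℕ → C) (k : ℕ) (h : ℕ → F) (W : List (F × List ℕ)) :
    MvPolynomial.aeval x (rho F k h W) = x k - ∑ j ∈ range k, h j • x j -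
      (W.map fun t => t.1 • (t.2.map fun i => x i).prod).sum := by
  rw [rho, map_sub, map_sub, MvPolynomial.aeval_X, map_sum, map_list_sum, List.map_map]
  congr 1
  · congr 1
    refine Finset.sum_congr rfl fun j _ => ?_
    rw [map_mul, MvPolynomial.aeval_C, MvPolynomial.aeval_X, Algebra.smul_def]
  · congr 1
    refine List.map_congr_left fun t _ => ?_
    simp only [Function.comp_apply]
    rw [map_mul, MvPolynomial.aeval_C, map_list_prod, List.map_map, Algebra.smul_def]
    congr 2
    refine List.map_congr_left fun i _ => ?_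
    simp

end

end RM

open RM

theorem specR (hFin : SpecFinImg) (hGen : SpecGen) (hRFin : SpecRFin) : SpecR := by
  classical
  intro F _ _ K _ _ C _ _ D hD lam V hV k h W hW hrel
  by_contra hcon
  push Not at hcon
  -- the characteristic
  obtain ⟨p, hp⟩ := CharP.exists F
  have hpp : p.Prime := CharP.char_is_prime F p
  have : Fact p.Prime := ⟨hpp⟩
  have : CharP K p := charP_of_injective_algebraMap (algebraMap F K).injective p
  -- the module
  let κ : V →+ (ℕ → K) :=
    { toFun := fun v n => lam ((D ^ n) (v : C))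
      map_zero' := by
        funext n
        simp
      map_add' := by
        intro v w
        funext n
        simp }
  let T : V →+ V :=
    { toFun := fun v => ⟨D v, hV v v.2⟩
      map_zero' := by
        apply Subtype.ext
        simp
      map_add' := by
        intro v w
        apply Subtype.ext
        simp }
  have hT : ∀ v n, κ (T v) n = κ v (n + 1) := by
    intro v n
    change lam ((D ^ n) (D (v : C))) = lam ((D ^ (n + 1)) (v : C))
    rw [pow_succ, Module.End.mul_apply]
  let W' : List (K × List ℕ) := W.map fun t => (algebraMap F K t.1, t.2)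
  have hW' : ∀ t ∈ W', 2 ≤ t.2.length := by
    intro t ht
    obtain ⟨t', ht', rfl⟩ := List.mem_map.1 ht
    exact hW t' ht'
  have hrel' : ∀ v m, MvPolynomial.eval (κ v)
      ((dX K)^[m] (rho K k (fun j => algebraMap F K (h j)) W')) = 0 := by
    intro v m
    rw [rho_map, map_dX_iter]
    change MvPolynomial.eval (fun n => lam ((D ^ n) (v : C))) _ = 0
    rw [eval_map, aeval_dX_iter D hD, aeval_rho]
    exact hrel v v.2 m
  have hsq : ∀ (f : Polynomial ℤ) (v : V), sq f (κ v) 0 = lam (Polynomial.aeval D f (v : C)) := by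
    intro f v
    rw [sq, Polynomial.aeval_def, Polynomial.eval₂_eq_sum, Polynomial.sum_def, Polynomial.sum_def,
      LinearMap.sum_apply, map_sum]
    refine Finset.sum_congr rfl fun j _ => ?_
    have e1 : ∀ x : C, (algebraMap ℤ (Module.End F C) (f.coeff j)) x = (f.coeff j) • x :=
      fun x => Module.algebraMap_end_apply _ _ _ _ _
    rw [Module.End.mul_apply, e1, map_zsmul, zsmul_eq_mul, zero_add]
    rfl
  have hne : ∀ f : Polynomial ℤ, f.Monic → ∃ v, sq f (κ v) 0 ≠ 0 := by
    intro f hf
    obtain ⟨v, hv, hne⟩ := hcon f hf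
    exact ⟨⟨v, hv⟩, by rw [hsq]; exact hne⟩
  have hinf := hFin K V κ T hT k (fun j => algebraMap F K (h j)) W' hW' hrel' hne
  obtain ⟨Q, iQ, iA, iK, u, G, hG, hG2, hu, hr⟩ :=
    hGen K p V κ T hT k (fun j => algebraMap F K (h j)) W' hW' hrel' hinf
  exact hRFin F p K Q u G k h W' hW' hG hG2 hu hr

end Pool.Agent.Lib.MP_8f946f_al.Sol
end

section
/-!
# Theorem X
-/
set_option autoImplicit false

namespace Pool.Agent.Lib.MP_8f946f_al.Sol.XM

open Polynomial Finset BasM

/-! ### the field -/

section ultra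

variable {F : Type} [Field F]

theorem ultra (S : Set ℤ[X]) (hcof : ∀ f₀ : ℤ[X], f₀.Monic → ∃ f ∈ S, f₀ ∣ f) (K : S → Type)
    [∀ f, Field (K f)] [∀ f, Algebra F (K f)] :
    ∃ (Q : Type) (_ : Field Q) (_ : Algebra F Q) (π : (∀ f, K f) →ₐ[F] Q),
      ∀ r : ∀ f, K f, (∃ f₀ : ℤ[X], f₀.Monic ∧ ∀ f : S, f₀ ∣ f → r f ≠ 0) → π r ≠ 0 := by
  let I : Ideal (∀ f, K f) :=
    { carrier := {r | ∃ f₀ : ℤ[X], f₀.Monic ∧ ∀ f : S, f₀ ∣ f → r f = 0}
      zero_mem' := ⟨1, monic_one, fun f _ => rfl⟩
      add_mem' := by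
        rintro a b ⟨f, hf, ha⟩ ⟨g, hg, hb⟩
        refine ⟨f * g, hf.mul hg, fun h hh => ?_⟩
        rw [Pi.add_apply, ha h (dvd_of_mul_right_dvd hh), hb h (dvd_of_mul_left_dvd hh), add_zero]
      smul_mem' := by
        rintro c a ⟨f, hf, ha⟩
        refine ⟨f, hf, fun h hh => ?_⟩
        rw [smul_eq_mul, Pi.mul_apply, ha h hh, mul_zero] }
  have hI : I ≠ ⊤ := by
    rw [Ideal.ne_top_iff_one]
    rintro ⟨f₀, hf₀, h⟩
    obtain ⟨f, hf, hd⟩ := hcof f₀ hf₀
    exact one_ne_zero (h ⟨f, hf⟩ hd)
  obtain ⟨m, hm, hIm⟩ := Ideal.exists_le_maximal I hI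
  letI : Field ((∀ f, K f) ⧸ m) := Ideal.Quotient.field m
  refine ⟨(∀ f, K f) ⧸ m, inferInstance, inferInstance, Ideal.Quotient.mkₐ F m, ?_⟩
  rintro r ⟨f₀, hf₀, hr⟩ h0
  rw [Ideal.Quotient.mkₐ_eq_mk, Ideal.Quotient.eq_zero_iff_mem] at h0
  have h1 : (1 : ∀ f, K f) - r * (fun f => (r f)⁻¹) ∈ I := by
    refine ⟨f₀, hf₀, fun f hf => ?_⟩
    rw [Pi.sub_apply, Pi.one_apply, Pi.mul_apply, mul_inv_cancel₀ (hr f hf), sub_self]
  have h2 : (1 : ∀ f, K f) ∈ m := by
    have h3 := m.add_mem (hIm h1) (m.mul_mem_right (fun f => (r f)⁻¹) h0)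
    rwa [sub_add_cancel] at h3
  exact hm.ne_top ((Ideal.eq_top_iff_one m).2 h2)

end ultra

/-! ### products -/

section pi

variable {F : Type} [Field F] {S : Type}

/-- a linear endomorphism acting componentwise -/
def pD {C : Type} [AddCommGroup C] [Module F C] (D : C →ₗ[F] C) : (S → C) →ₗ[F] (S → C) where
  toFun v f := D (v f)
  map_add' v w := by funext f; exact map_add D _ _
  map_smul' c v := by funext f; exact map_smul D _ _

theorem pD_pow {C : Type} [AddCommGroup C] [Module F C] (D : C →ₗ[F] C) (n : ℕ) (v : S → C)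
    (f : S) : ((pD D : (S → C) →ₗ[F] (S → C)) ^ n) v f = (D ^ n) (v f) := by
  induction n with
  | zero => rfl
  | succ n ih =>
    rw [pow_succ', Module.End.mul_apply, pow_succ', Module.End.mul_apply]
    exact congrArg D ih

theorem pD_aeval {C : Type} [AddCommGroup C] [Module F C] (D : C →ₗ[F] C) (q : ℤ[X]) (v : S → C)
    (f : S) : aeval (pD D : Module.End F (S → C)) q v f = aeval (D : Module.End F C) q (v f) := by
  induction q using Polynomial.induction_on' with
  | add p q hp hq =>
    rw [map_add, map_add, LinearMap.add_apply, LinearMap.add_apply, Pi.add_apply, hp, hq]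
  | monomial n a =>
    rw [aeval_monomial, aeval_monomial, Module.End.mul_apply, Module.End.mul_apply]
    simp only [eq_intCast, Module.End.intCast_apply, Pi.smul_apply, pD_pow]

variable {E : Type} [Ring E] [Algebra F E]

theorem OpRel_pi {k : ℕ} {c : ℕ → F[X]} {W : List (F × ℕ × List ℕ)} {x b : S → E}
    (h : ∀ f, OpRel k c W (x f) (b f)) : OpRel k c W x b := by
  have h1 : ∀ f, (Pi.evalAlgHom F (fun _ : S => E) f) (((Dx F x) ^ k) b -
      ∑ j ∈ range k, aeval x (c j) * ((Dx F x) ^ j) b) =
      (Pi.evalAlgHom F (fun _ : S => E) f) (rhs W x b) := by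
    intro f
    have h2 := h f
    unfold OpRel at h2
    rw [map_rhs, map_sub, map_sum, map_Dx_pow]
    rw [show rhs W ((Pi.evalAlgHom F (fun _ : S => E) f) x) ((Pi.evalAlgHom F (fun _ : S => E) f) b) =
      rhs W (x f) (b f) from rfl, ← h2]
    congr 1
    refine Finset.sum_congr rfl fun j _ => ?_
    rw [map_mul, map_Dx_pow, ← aeval_algHom_apply]
    rfl
  unfold OpRel
  funext f
  exact h1 f

end pi

/-! ### the relation as a polynomial in `x` -/

section rel

variable {F : Type} [Field F] {E : Type} [Ring E] [Algebra F E] {C : Type} [CommRing C]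
  [Algebra F C] (D : C →ₗ[F] C) (k : ℕ) (c : ℕ → F[X]) (W : List (F × ℕ × List ℕ))

/-- the coefficient of `x^u` -/
noncomputable def ru (u : ℕ) (b : C) : C :=
  (if u = 0 then (D ^ k) b else 0) - ∑ j ∈ range k, (c j).coeff u • (D ^ j) b -
    (W.map fun t => if t.2.1 = u then t.1 • (t.2.2.map fun i => (D ^ i) b).prod else 0).sum

/-- a bound for the powers of `x` -/
noncomputable def bd : ℕ := ∑ j ∈ range k, (c j).natDegree + (W.map fun t => t.2.1).sum

variable {D}

theorem pow_i (i : C →ₐ[F] E) {x : E} (hD : ∀ a, i (D a) = Dx F x (i a)) (n : ℕ) (a : C) :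
    i ((D ^ n) a) = ((Dx F x) ^ n) (i a) := by
  induction n with
  | zero => rfl
  | succ n ih => rw [pow_succ', Module.End.mul_apply, hD, ih, pow_succ', Module.End.mul_apply]

theorem aeval_i (i : C →ₐ[F] E) {x : E} (hD : ∀ a, i (D a) = Dx F x (i a)) (q : ℤ[X]) (a : C) :
    i (aeval (D : Module.End F C) q a) = aeval (Dx F x) q (i a) := by
  induction q using Polynomial.induction_on' with
  | add p q hp hq => simp [hp, hq]
  | monomial n a =>
    rw [aeval_monomial, aeval_monomial, Module.End.mul_apply, Module.End.mul_apply]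
    simp only [eq_intCast, Module.End.intCast_apply, map_zsmul, pow_i i hD]

theorem sum_ru (i : C →ₐ[F] E) {x : E} (hD : ∀ a, i (D a) = Dx F x (i a)) (b : C)
    (h : OpRel k c W x (i b)) :
    ∑ u ∈ range (bd k c W + 1), x ^ u * i (ru D k c W u b) = 0 := by
  unfold OpRel at h
  have h1 : ∀ u, x ^ u * i (ru D k c W u b) =
      (if u = 0 then ((Dx F x) ^ k) (i b) else 0) -
        ∑ j ∈ range k, ((c j).coeff u • x ^ u) * ((Dx F x) ^ j) (i b) -
        (W.map fun t => if t.2.1 = u then t.1 • (x ^ t.2.1 * (t.2.2.map fun l =>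
          ((Dx F x) ^ l) (i b)).prod) else 0).sum := by
    intro u
    unfold ru
    rw [map_sub, map_sub, mul_sub, mul_sub]
    congr 1
    · congr 1
      · split_ifs with hu
        · rw [hu, pow_zero, one_mul, pow_i i hD]
        · rw [map_zero, mul_zero]
      · rw [map_sum, Finset.mul_sum]
        refine Finset.sum_congr rfl fun j _ => ?_
        rw [map_smul, pow_i i hD, mul_smul_comm, smul_mul_assoc]
    · rw [map_list_sum, ← List.sum_map_mul_left, List.map_map]
      congr 1
      refine List.map_congr_left fun t _ => ?_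
      simp only [Function.comp_apply]
      split_ifs with hu
      · rw [map_smul, map_list_prod, List.map_map, mul_smul_comm, hu]
        congr 3
        refine List.map_congr_left fun l _ => ?_
        simp only [Function.comp_apply]
        exact pow_i i hD _ _
      · rw [map_zero, mul_zero]
  rw [Finset.sum_congr rfl fun u _ => h1 u, Finset.sum_sub_distrib, Finset.sum_sub_distrib]
  have e1 : ∑ u ∈ range (bd k c W + 1), (if u = 0 then ((Dx F x) ^ k) (i b) else 0) =
      ((Dx F x) ^ k) (i b) := by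
    rw [Finset.sum_ite_eq' (range (bd k c W + 1)) 0]
    simp
  have e2 : ∑ u ∈ range (bd k c W + 1), ∑ j ∈ range k,
      ((c j).coeff u • x ^ u) * ((Dx F x) ^ j) (i b) =
      ∑ j ∈ range k, aeval x (c j) * ((Dx F x) ^ j) (i b) := by
    rw [Finset.sum_comm]
    refine Finset.sum_congr rfl fun j hj => ?_
    rw [← Finset.sum_mul]
    congr 1
    rw [aeval_eq_sum_range' (n := bd k c W + 1)]
    have h2 : (c j).natDegree ≤ ∑ j ∈ range k, (c j).natDegree :=
      Finset.single_le_sum (f := fun j => (c j).natDegree) (fun _ _ => Nat.zero_le _) hj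
    unfold bd
    omega
  have e3 : ∑ u ∈ range (bd k c W + 1), (W.map fun t => if t.2.1 = u then
      t.1 • (x ^ t.2.1 * (t.2.2.map fun l => ((Dx F x) ^ l) (i b)).prod) else 0).sum =
      rhs W x (i b) := by
    have h3 : ∀ (W' : List (F × ℕ × List ℕ)) (n : ℕ), (∀ t ∈ W', t.2.1 < n) →
        ∑ u ∈ range n, (W'.map fun t => if t.2.1 = u then
          t.1 • (x ^ t.2.1 * (t.2.2.map fun l => ((Dx F x) ^ l) (i b)).prod) else 0).sum =
        rhs W' x (i b) := by
      intro W' n hn
      induction W' with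
      | nil => simp [rhs]
      | cons t W' ih =>
        simp only [List.map_cons, List.sum_cons, rhs]
        rw [Finset.sum_add_distrib, ih fun t' ht' => hn t' (List.mem_cons_of_mem _ ht')]
        congr 1
        rw [Finset.sum_ite_eq (range n) t.2.1]
        rw [if_pos (mem_range.2 (hn t List.mem_cons_self))]
    refine h3 W _ fun t ht => ?_
    have h4 : t.2.1 ≤ (W.map fun t => t.2.1).sum :=
      List.single_le_sum (fun _ _ => Nat.zero_le _) _ (List.mem_map.2 ⟨t, ht, rfl⟩)
    unfold bd
    omega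
  rw [e1, e2, e3, h, sub_self]

/-- the derivatives of the relation -/
theorem sum_ru_pow (i : C →ₐ[F] E) {x : E} (hD : ∀ a, i (D a) = Dx F x (i a)) (b : C)
    (h : OpRel k c W x (i b)) (m : ℕ) :
    ∑ u ∈ range (bd k c W + 1), x ^ u * i ((D ^ m) (ru D k c W u b)) = 0 := by
  have h1 := congrArg ((Dx F x) ^ m) (sum_ru k c W i hD b h)
  rw [map_zero, map_sum] at h1
  rw [← h1]
  refine Finset.sum_congr rfl fun u _ => ?_
  rw [Dx_left_comm x _ _ (Dx_pow_self x u), pow_i i hD]

end rel

/-! ### the infinite case -/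

section inf

variable {F : Type} [Field F] [Finite F] {E : Type} [Ring E] [Algebra F E] {C : Type} [CommRing C]
  [Algebra F C] (D : C →ₗ[F] C)

theorem quot {f₀ f : ℤ[X]} (h₀ : f₀.Monic) (hf : f.Monic) (h : f₀ ∣ f) :
    ∃ g : ℤ[X], g.Monic ∧ f = f₀ * g := by
  obtain ⟨g, rfl⟩ := h
  exact ⟨g, h₀.of_mul_monic_left hf, rfl⟩

/-- the test vector -/
theorem exists_test (S : Set ℤ[X]) (hS : ∀ f ∈ S, f.Monic) (f₀ : ℤ[X]) (h₀ : f₀.Monic)
    (B : AddSubgroup C) (hB : ∀ b ∈ B, D b ∈ B) (v : S → C) (hv : ∀ f, v f ∈ B) :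
    ∃ w : S → C, (∀ f, w f ∈ B) ∧ ∀ f : S, f₀ ∣ f →
      aeval (D : Module.End F C) f₀ (w f) = aeval (D : Module.End F C) (f : ℤ[X]) (v f) := by
  classical
  refine ⟨fun f => if h : f₀ ∣ (f : ℤ[X]) then
    aeval (D : Module.End F C) (quot h₀ (hS f f.2) h).choose (v f) else 0, ?_, ?_⟩
  · intro f
    by_cases h : f₀ ∣ (f : ℤ[X])
    · simp only [dif_pos h]
      exact aeval_mem D B hB _ (hv f)
    · simp only [dif_neg h]
      exact B.zero_mem
  · intro f h
    simp only [dif_pos h]
    have h1 := (quot h₀ (hS f f.2) h).choose_spec.2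
    conv_rhs => rw [h1, map_mul, Module.End.mul_apply]

theorem inf_case (hR : SpecR) {x : E} (i : C →ₐ[F] E) (hi : Function.Injective i)
    (hD : ∀ a, i (D a) = Dx F x (i a)) (k : ℕ) (c : ℕ → F[X]) (W : List (F × ℕ × List ℕ))
    (hW : Two W) (B : AddSubgroup C) (hB : ∀ b ∈ B, D b ∈ B) (hrel : ∀ b ∈ B, OpRel k c W x (i b))
    (S : Set ℤ[X]) (hS : ∀ f ∈ S, f.Monic) (hcof : ∀ f₀ : ℤ[X], f₀.Monic → ∃ f ∈ S, f₀ ∣ f)
    (K : S → Type) [∀ f, Field (K f)] [∀ f, Algebra F (K f)] (lam : ∀ f, C →ₐ[F] K f)
    (hind : ∀ f, ∀ s : ℕ → C, ∑ u ∈ range (bd k c W + 1), x ^ u * i (s u) = 0 →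
      ∀ u ≤ bd k c W, lam f (s u) = 0)
    (v : S → C) (hv : ∀ f, v f ∈ B)
    (hne : ∀ f : S, lam f (aeval (D : Module.End F C) (f : ℤ[X]) (v f)) ≠ 0) : False := by
  classical
  obtain ⟨Q, _, _, π, hπ⟩ := ultra (F := F) S hcof K
  have hDl : ∀ a b, D (a * b) = D a * b + a * D b := by
    intro a b
    apply hi
    rw [hD, map_mul, Dx_mul, map_add, map_mul, map_mul, hD, hD]
  -- the point
  let lam' : (S → C) →ₐ[F] Q := π.comp (Pi.algHom F K fun f => (lam f).comp
    (Pi.evalAlgHom F (fun _ : S => C) f))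
  have hlam' : ∀ y : S → C, lam' y = π fun f => lam f (y f) := fun y => rfl
  let V' : AddSubgroup (S → C) :=
    { carrier := {v | ∀ f, v f ∈ B}
      zero_mem' := fun f => B.zero_mem
      add_mem' := fun ha hb f => B.add_mem (ha f) (hb f)
      neg_mem' := fun ha f => B.neg_mem (ha f) }
  have hrho : ∀ v ∈ V', ∀ m : ℕ, lam' (((pD D) ^ m) (((pD D) ^ k) v -
      ∑ j ∈ range k, (c j).coeff 0 • ((pD D) ^ j) v -
      (((W.filter fun t => decide (t.2.1 = 0)).map fun t => (t.1, t.2.2)).map fun t =>
        t.1 • (t.2.map fun i => ((pD D) ^ i) v).prod).sum)) = 0 := by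
    intro v hv m
    rw [hlam']
    have h0 : (fun f => lam f ((((pD D) ^ m) (((pD D) ^ k) v -
      ∑ j ∈ range k, (c j).coeff 0 • ((pD D) ^ j) v -
      (((W.filter fun t => decide (t.2.1 = 0)).map fun t => (t.1, t.2.2)).map fun t =>
        t.1 • (t.2.map fun i => ((pD D) ^ i) v).prod).sum)) f)) = 0 := by
      funext f
      rw [pD_pow]
      have h1 : (((pD D) ^ k) v - ∑ j ∈ range k, (c j).coeff 0 • ((pD D) ^ j) v -
          (((W.filter fun t => decide (t.2.1 = 0)).map fun t => (t.1, t.2.2)).map fun t =>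
          t.1 • (t.2.map fun i => ((pD D) ^ i) v).prod).sum) f = ru D k c W 0 (v f) := by
        rw [Pi.sub_apply, Pi.sub_apply, Finset.sum_apply, pD_pow]
        unfold ru
        rw [if_pos rfl]
        congr 1
        · congr 1
          refine Finset.sum_congr rfl fun j _ => ?_
          rw [Pi.smul_apply, pD_pow]
        · rw [List.map_map]
          have h2 : ∀ l : List (S → C), l.sum f = (l.map fun y => y f).sum := by
            intro l
            induction l with
            | nil => rfl
            | cons a l ih => rw [List.sum_cons, List.map_cons, List.sum_cons, Pi.add_apply, ih]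
          have h3 : ∀ l : List (S → C), l.prod f = (l.map fun y => y f).prod := by
            intro l
            induction l with
            | nil => rfl
            | cons a l ih => rw [List.prod_cons, List.map_cons, List.prod_cons, Pi.mul_apply, ih]
          rw [h2, List.map_map]
          have h4 : ∀ W' : List (F × ℕ × List ℕ),
              (List.map ((fun y : S → C => y f) ∘ ((fun t : F × List ℕ =>
                t.1 • (t.2.map fun i => ((pD D) ^ i) v).prod) ∘ fun t : F × ℕ × List ℕ =>
                (t.1, t.2.2))) (W'.filter fun t => decide (t.2.1 = 0))).sum =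
              (W'.map fun t => if t.2.1 = 0 then
                t.1 • (t.2.2.map fun i => (D ^ i) (v f)).prod else 0).sum := by
            intro W'
            induction W' with
            | nil => rfl
            | cons t W' ih =>
              rw [List.filter_cons]
              by_cases ht : t.2.1 = 0
              · simp only [ht, decide_true, if_true, List.map_cons, List.sum_cons]
                rw [ih]
                congr 1
                simp only [Function.comp_apply, Pi.smul_apply, h3, List.map_map]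
                congr 2
                refine List.map_congr_left fun l _ => ?_
                exact pD_pow D l v f
              · simp only [ht, decide_false, Bool.false_eq_true, if_false, List.map_cons,
                  List.sum_cons, zero_add]
                exact ih
          exact h4 W
      rw [h1]
      exact hind f (fun u => (D ^ m) (ru D k c W u (v f)))
        (sum_ru_pow k c W i hD (v f) (hrel _ (hv f)) m) 0 (Nat.zero_le _)
    rw [h0, map_zero]
  obtain ⟨f₀, h₀, h⟩ := hR F Q (S → C) (pD D) (fun a b => by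
      funext f
      exact hDl _ _) lam' V' (fun v hv f => hB _ (hv f)) k (fun j => (c j).coeff 0)
    ((W.filter fun t => decide (t.2.1 = 0)).map fun t => (t.1, t.2.2)) (by
      intro t ht
      obtain ⟨t', ht', rfl⟩ := List.mem_map.1 ht
      exact hW t' (List.mem_filter.1 ht').1) hrho
  obtain ⟨w, hw, hw'⟩ := exists_test D S hS f₀ h₀ B hB v hv
  have h1 := h w hw
  rw [hlam'] at h1
  refine hπ _ ⟨f₀, h₀, fun f hf => ?_⟩ h1
  rw [pD_aeval, hw' f hf]
  exact hne f

end inf

end Pool.Agent.Lib.MP_8f946f_al.Sol.XM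
end

section
/-!
# Theorem X: the matrix case and the end of the proof
-/
set_option autoImplicit false

namespace Pool.Agent.Lib.MP_8f946f_al.Sol.XM

open Polynomial Finset BasM

/-! ### the matrix case -/

section mat

variable {F : Type} [Field F] {E : Type} [Ring E] [Algebra F E] {S : Type} {K : S → Type}
  [∀ f, Field (K f)] [∀ f, Algebra F (K f)] {n : ℕ} {Q : Type} [Field Q] [Algebra F Q]

/-- the representation of the product -/
noncomputable def rep (π : (∀ f, K f) →ₐ[F] Q) (Φ : ∀ f, E →ₐ[F] Matrix (Fin n) (Fin n) (K f)) :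
    (S → E) →ₐ[F] Matrix (Fin n) (Fin n) Q :=
  AlgHom.ofLinearMap
    { toFun := fun e => Matrix.of fun a b => π fun f => Φ f (e f) a b
      map_add' := by
        intro e e'
        ext a b
        rw [Matrix.add_apply, Matrix.of_apply, Matrix.of_apply, Matrix.of_apply, ← map_add]
        congr 1
        funext f
        rw [Pi.add_apply, map_add, Matrix.add_apply]
        rfl
      map_smul' := by
        intro c e
        ext a b
        rw [Matrix.of_apply, RingHom.id_apply, Matrix.smul_apply, Matrix.of_apply, ← map_smul]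
        congr 1
        funext f
        rw [Pi.smul_apply, map_smul, Matrix.smul_apply]
        rfl }
    (by
      ext a b
      change (π fun f => Φ f (1 : E) a b) = (1 : Matrix (Fin n) (Fin n) Q) a b
      by_cases h : a = b
      · subst h
        rw [Matrix.one_apply_eq, ← map_one π]
        congr 1
        funext f
        rw [map_one, Matrix.one_apply_eq]
        rfl
      · rw [Matrix.one_apply_ne h, ← map_zero π]
        congr 1
        funext f
        rw [map_one, Matrix.one_apply_ne h]
        rfl)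
    (by
      intro e e'
      ext a b
      change (π fun f => Φ f (e f * e' f) a b) =
        ((Matrix.of fun a b => π fun f => Φ f (e f) a b) *
          (Matrix.of fun a b => π fun f => Φ f (e' f) a b) : Matrix (Fin n) (Fin n) Q) a b
      rw [Matrix.mul_apply]
      simp only [Matrix.of_apply]
      rw [show ∑ j, (π fun f => Φ f (e f) a j) * (π fun f => Φ f (e' f) j b) =
        π (∑ j, (fun f => Φ f (e f) a j) * (fun f => Φ f (e' f) j b)) by
          rw [map_sum]
          refine Finset.sum_congr rfl fun j _ => ?_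
          rw [map_mul]]
      congr 1
      funext f
      rw [map_mul, Matrix.mul_apply, Finset.sum_apply]
      rfl)

theorem rep_apply (π : (∀ f, K f) →ₐ[F] Q) (Φ : ∀ f, E →ₐ[F] Matrix (Fin n) (Fin n) (K f))
    (e : S → E) (a b : Fin n) : rep π Φ e a b = π fun f => Φ f (e f) a b := rfl

end mat

section matcase

variable {F : Type} [Field F] [Finite F] {E : Type} [Ring E] [Algebra F E] {C : Type} [CommRing C]
  [Algebra F C] (D : C →ₗ[F] C)

theorem mat_case (hC : SpecCase) (p : ℕ) [Fact p.Prime] [CharP F p] {x : E} (i : C →ₐ[F] E)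
    (hD : ∀ a, i (D a) = Dx F x (i a)) (k : ℕ) (c : ℕ → F[X]) (W : List (F × ℕ × List ℕ))
    (hW : Two W) (B : AddSubgroup C) (hB : ∀ b ∈ B, D b ∈ B)
    (hrel : ∀ w ∈ B, ∀ b ∈ B, OpRel k c W (x + i w) (i b))
    (S : Set ℤ[X]) (hS : ∀ f ∈ S, f.Monic) (hcof : ∀ f₀ : ℤ[X], f₀.Monic → ∃ f ∈ S, f₀ ∣ f)
    (K : S → Type) [∀ f, Field (K f)] [∀ f, Algebra F (K f)] (lam : ∀ f, C →ₐ[F] K f) (n : ℕ)
    (hn : 1 ≤ n) (Φ : ∀ f, E →ₐ[F] Matrix (Fin n) (Fin n) (K f))
    (hΦ : ∀ f, ∀ a : C, (Φ f (i a)) ^ p = algebraMap (K f) (Matrix (Fin n) (Fin n) (K f))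
      (lam f a ^ p))
    (v : S → C) (hv : ∀ f, v f ∈ B)
    (hne : ∀ f : S, lam f (aeval (D : Module.End F C) (f : ℤ[X]) (v f)) ≠ 0) : False := by
  classical
  obtain ⟨Q, _, _, π, hπ⟩ := ultra (F := F) S hcof K
  set R := rep π Φ with hR
  let ii : (S → C) → (S → E) := fun v f => i (v f)
  have hpow : ∀ a : S → C, (R (ii a)) ^ p = algebraMap Q (Matrix (Fin n) (Fin n) Q)
      (π fun f => lam f (a f) ^ p) := by
    intro a
    rw [← map_pow]
    ext r s
    rw [hR, rep_apply]
    have h1 : (fun f => Φ f ((ii a ^ p) f) r s) =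
        fun f => algebraMap (K f) (Matrix (Fin n) (Fin n) (K f)) (lam f (a f) ^ p) r s := by
      funext f
      rw [← hΦ, ← map_pow]
      rfl
    rw [h1]
    by_cases hrs : r = s
    · subst hrs
      rw [Matrix.algebraMap_matrix_apply, if_pos rfl]
      change π _ = π _
      congr 1
      funext f
      rw [Matrix.algebraMap_matrix_apply, if_pos rfl]
      rfl
    · rw [Matrix.algebraMap_matrix_apply, if_neg hrs, ← map_zero π]
      congr 1
      funext f
      rw [Matrix.algebraMap_matrix_apply, if_neg hrs]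
      rfl
  let V : AddSubgroup (Matrix (Fin n) (Fin n) Q) :=
    { carrier := {y | ∃ a : S → C, (∀ f, a f ∈ B) ∧ R (ii a) = y}
      zero_mem' := ⟨0, fun f => B.zero_mem, by
        rw [show ii 0 = 0 from funext fun f => map_zero i, map_zero]⟩
      add_mem' := by
        rintro _ _ ⟨a, ha, rfl⟩ ⟨b, hb, rfl⟩
        exact ⟨a + b, fun f => B.add_mem (ha f) (hb f), by
          rw [show ii (a + b) = ii a + ii b from funext fun f => map_add i _ _, map_add]⟩
      neg_mem' := by
        rintro _ ⟨a, ha, rfl⟩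
        exact ⟨-a, fun f => B.neg_mem (ha f), by
          rw [show ii (-a) = -ii a from funext fun f => map_neg i _, map_neg]⟩ }
  have hDx : ∀ a : S → C, Dx F (fun _ : S => x) (ii a) = ii fun f => D (a f) := by
    intro a
    funext f
    rw [Dx_apply]
    change x * i (a f) - i (a f) * x = i (D (a f))
    rw [hD, Dx_apply]
  obtain ⟨f₀, h₀, h⟩ := hC F p Q n k c W hW (R fun _ => x) V (by
      rintro _ ⟨a, _, rfl⟩ _ ⟨b, _, rfl⟩
      rw [← map_mul, ← map_mul]
      congr 1
      funext f
      change i (a f) * i (b f) = i (b f) * i (a f)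
      rw [← map_mul, mul_comm, map_mul]) (by
      rintro _ ⟨a, ha, rfl⟩
      refine ⟨fun f => D (a f), fun f => hB _ (ha f), ?_⟩
      rw [← hDx, Dx_apply, map_sub, map_mul, map_mul]) (by
      rintro _ ⟨a, _, rfl⟩
      exact ⟨_, hpow a⟩) (by
      rintro _ ⟨w, hw, rfl⟩ _ ⟨b, hb, rfl⟩
      rw [← map_add]
      refine OpRel.map R (OpRel_pi fun f => ?_)
      exact hrel _ (hw f) _ (hb f))
  obtain ⟨w, hw, hw'⟩ := exists_test D S hS f₀ h₀ B hB v hv
  have h1 := h _ ⟨w, hw, rfl⟩
  have hDxa : ∀ (q : ℤ[X]) (a : S → C), aeval (Dx F (fun _ : S => x)) q (ii a) =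
      ii fun f => aeval (D : Module.End F C) q (a f) := by
    intro q a
    have hp : ∀ (m : ℕ) (a : S → C), ((Dx F (fun _ : S => x)) ^ m) (ii a) =
        ii fun f => (D ^ m) (a f) := by
      intro m
      induction m with
      | zero => exact fun a => rfl
      | succ m ih =>
        intro a
        rw [pow_succ', Module.End.mul_apply, ih, hDx]
        congr 1
        funext f
        rw [pow_succ', Module.End.mul_apply]
    funext f
    induction q using Polynomial.induction_on' with
    | add p q hp hq =>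
      rw [map_add, LinearMap.add_apply, Pi.add_apply, hp, hq]
      have e : aeval (D : Module.End F C) (p + q) (a f) =
          aeval (D : Module.End F C) p (a f) + aeval (D : Module.End F C) q (a f) := by
        rw [map_add, LinearMap.add_apply]
      change i (aeval (D : Module.End F C) p (a f)) + i (aeval (D : Module.End F C) q (a f)) =
        i (aeval (D : Module.End F C) (p + q) (a f))
      rw [e, map_add]
    | monomial m z =>
      rw [aeval_monomial, Module.End.mul_apply]
      simp only [eq_intCast, Module.End.intCast_apply, hp, Pi.smul_apply]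
      change z • i ((D ^ m) (a f)) = i (aeval (D : Module.End F C) (monomial m z) (a f))
      rw [← map_zsmul, aeval_monomial, Module.End.mul_apply]
      simp only [eq_intCast, Module.End.intCast_apply]
  rw [← map_aeval_Dx, hDxa, hpow, ← map_zero (algebraMap Q (Matrix (Fin n) (Fin n) Q))] at h1
  have : Nonempty (Fin n) := ⟨⟨0, hn⟩⟩
  have h2 := (algebraMap Q (Matrix (Fin n) (Fin n) Q)).injective h1
  refine hπ _ ⟨f₀, h₀, fun f hf => ?_⟩ h2
  rw [hw' f hf]
  exact pow_ne_zero p (hne f)

end matcase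

/-! ### colours -/

theorem exists_colour {α : Type} [Finite α] (P : ℤ[X] → α → Prop)
    (h : ∀ f : ℤ[X], f.Monic → ∃ a, P f a) :
    ∃ a, ∀ f₀ : ℤ[X], f₀.Monic → ∃ f : ℤ[X], f.Monic ∧ P f a ∧ f₀ ∣ f := by
  classical
  by_contra hc
  push Not at hc
  choose g hg hg' using hc
  cases nonempty_fintype α
  obtain ⟨a, ha⟩ := h (∏ a, g a) (monic_prod_of_monic _ _ fun a _ => hg a)
  exact hg' a _ (monic_prod_of_monic _ _ fun a _ => hg a) ha (Finset.dvd_prod_of_mem g (mem_univ a))

section final

variable {F : Type} [Field F] [Finite F] {E : Type} [Ring E] [Algebra F E]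

theorem adjoin_comm (B : Submodule F E) (hcomm : ∀ a ∈ B, ∀ b ∈ B, a * b = b * a) :
    ∀ a ∈ Algebra.adjoin F (B : Set E), ∀ b ∈ Algebra.adjoin F (B : Set E), a * b = b * a := by
  intro a ha b hb
  have h := (Algebra.adjoinCommRingOfComm F (s := (B : Set E)) hcomm).mul_comm ⟨a, ha⟩ ⟨b, hb⟩
  exact congrArg Subtype.val h

theorem adjoin_stable (x : E) (B : Submodule F E) (hx : ∀ b ∈ B, x * b - b * x ∈ B) :
    ∀ a ∈ Algebra.adjoin F (B : Set E), x * a - a * x ∈ Algebra.adjoin F (B : Set E) := by
  intro a ha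
  rw [← Dx_apply (R := F)]
  induction ha using Algebra.adjoin_induction with
  | mem b hb =>
    rw [Dx_apply]
    exact Algebra.subset_adjoin (hx b hb)
  | algebraMap r =>
    rw [Dx_of_comm (Algebra.commutes r x).symm]
    exact Subalgebra.zero_mem _
  | add a b _ _ ha hb => rw [map_add]; exact Subalgebra.add_mem _ ha hb
  | mul a b ha' hb' ha hb =>
    rw [Dx_mul]
    exact Subalgebra.add_mem _ (Subalgebra.mul_mem _ ha hb') (Subalgebra.mul_mem _ ha' hb)

/-- the case where `E` is generated by `x` and `B` -/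
theorem gen_case (hN : SpecN) (hR : SpecR) (hC : SpecCase) (k : ℕ) (c : ℕ → F[X])
    (W : List (F × ℕ × List ℕ)) (hW : Two W) (x : E) (B : Submodule F E)
    (hcomm : ∀ a ∈ B, ∀ b ∈ B, a * b = b * a) (hx : ∀ b ∈ B, x * b - b * x ∈ B)
    (hrel : ∀ w ∈ B, ∀ b ∈ B, OpRel k c W (x + w) b)
    (hgen : Algebra.adjoin F (insert x (B : Set E)) = ⊤) :
    ∃ f : ℤ[X], f.Monic ∧ ∀ b ∈ B, IsNilpotent (aeval (Dx F x) f b) := by
  classical
  obtain ⟨p, hp⟩ := CharP.exists F
  have hpp : Fact p.Prime := by
    refine ⟨(CharP.char_is_prime_or_zero F p).resolve_right fun h => ?_⟩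
    subst h
    have := CharP.charP_to_charZero F
    exact not_finite F
  by_contra hcon
  push Not at hcon
  set A := Algebra.adjoin F (B : Set E) with hA
  letI instC : CommRing A := { (inferInstance : Ring A) with
    mul_comm := fun a b => Subtype.ext (adjoin_comm B hcomm a a.2 b b.2) }
  let D : A →ₗ[F] A :=
    { toFun := fun a => ⟨Dx F x a, by rw [Dx_apply]; exact adjoin_stable x B hx a a.2⟩
      map_add' := fun a b => Subtype.ext (map_add _ _ _)
      map_smul' := fun r a => Subtype.ext (map_smul _ _ _) }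
  have hD : ∀ a : A, A.val (D a) = Dx F x (A.val a) := fun a => rfl
  let B' : AddSubgroup A := B.toAddSubgroup.comap A.val.toAddMonoidHom
  have hB' : ∀ b : A, b ∈ B' ↔ (b : E) ∈ B := fun b => Iff.rfl
  have hBs : ∀ b ∈ B', D b ∈ B' := by
    intro b hb
    rw [hB'] at hb ⊢
    change Dx F x (b : E) ∈ B
    rw [Dx_apply]
    exact hx _ hb
  -- the bad vectors
  have hbad : ∀ f : ℤ[X], f.Monic → ∃ v ∈ B', ¬ IsNilpotent (aeval (D : Module.End F A) f v) := by
    intro f hf
    obtain ⟨b, hb, hb'⟩ := hcon f hf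
    refine ⟨⟨b, Algebra.subset_adjoin hb⟩, hb, fun h => hb' ?_⟩
    have h1 := h.map A.val
    rwa [aeval_i A.val hD] at h1
  have hgen' : Algebra.adjoin F (insert x (A : Set E)) = ⊤ := by
    rw [eq_top_iff, ← hgen]
    refine Algebra.adjoin_mono (Set.insert_subset_insert Algebra.subset_adjoin)
  set U := bd k c W with hU
  have hpt : ∀ f : ℤ[X], f.Monic → ∃ v ∈ B', ∃ (K : Type) (_ : Field K) (_ : Algebra F K)
      (lam : A →ₐ[F] K), lam (aeval (D : Module.End F A) f v) ≠ 0 ∧
      ((∀ s : ℕ → A, ∑ u ∈ range (U + 1), x ^ u * (s u : E) = 0 → ∀ u ≤ U, lam (s u) = 0) ∨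
        ∃ (n : ℕ) (Φ : E →ₐ[F] Matrix (Fin n) (Fin n) K), 1 ≤ n ∧ n ≤ U ∧
          ∀ a : A, (Φ a) ^ p = algebraMap K (Matrix (Fin n) (Fin n) K) (lam a ^ p)) := by
    intro f hf
    obtain ⟨v, hv, hnil⟩ := hbad f hf
    obtain ⟨K, i1, i2, lam, h1, h2⟩ := hN F p E x A (adjoin_comm B hcomm) (adjoin_stable x B hx)
      hgen' U _ hnil
    exact ⟨v, hv, K, i1, i2, lam, h1, h2⟩
  -- colours
  let P : ℤ[X] → Option (Fin (U + 1)) → Prop := fun f a => ∃ v ∈ B', ∃ (K : Type) (_ : Field K)
    (_ : Algebra F K) (lam : A →ₐ[F] K), lam (aeval (D : Module.End F A) f v) ≠ 0 ∧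
    a.elim (∀ s : ℕ → A, ∑ u ∈ range (U + 1), x ^ u * (s u : E) = 0 → ∀ u ≤ U, lam (s u) = 0)
      fun n => ∃ Φ : E →ₐ[F] Matrix (Fin n) (Fin n) K, 1 ≤ (n : ℕ) ∧
        ∀ a : A, (Φ a) ^ p = algebraMap K (Matrix (Fin n) (Fin n) K) (lam a ^ p)
  obtain ⟨a, ha⟩ := exists_colour P (by
    intro f hf
    obtain ⟨v, hv, K, i1, i2, lam, h1, h2 | ⟨n, Φ, hn, hn', h2⟩⟩ := hpt f hf
    · exact ⟨none, v, hv, K, i1, i2, lam, h1, h2⟩
    · exact ⟨some ⟨n, by omega⟩, v, hv, K, i1, i2, lam, h1, Φ, hn, h2⟩)
  set S : Set ℤ[X] := {f | f.Monic ∧ P f a} with hS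
  have hSm : ∀ f ∈ S, f.Monic := fun f hf => hf.1
  have hcof : ∀ f₀ : ℤ[X], f₀.Monic → ∃ f ∈ S, f₀ ∣ f := by
    intro f₀ h₀
    obtain ⟨f, hf, hf', hd⟩ := ha f₀ h₀
    exact ⟨f, ⟨hf, hf'⟩, hd⟩
  have hPS : ∀ f : S, P f a := fun f => f.2.2
  choose v hv K i1 i2 lam hne halt using hPS
  rcases a with _ | n
  · exact inf_case D hR A.val Subtype.val_injective hD k c W hW B' hBs (fun b hb => by
      have := hrel 0 B.zero_mem b hb
      rwa [add_zero] at this) S hSm hcof K lam (fun f s hs => halt f s hs) v hv hne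
  · choose Φ hn hΦ using halt
    obtain ⟨f₁, hf₁, _⟩ := hcof 1 monic_one
    exact mat_case D hC p A.val hD k c W hW B' hBs (fun w hw b hb => hrel _ hw _ hb) S hSm hcof K
      lam n (hn ⟨f₁, hf₁⟩) Φ hΦ v hv hne

end final

end Pool.Agent.Lib.MP_8f946f_al.Sol.XM

namespace Pool.Agent.Lib.MP_8f946f_al.Sol

open Polynomial Finset BasM XM

/-- module X -/
theorem specX (hN : SpecN) (hR : SpecR) (hC : SpecCase) : SpecX := by
  intro F _ _ E _ _ k c W hW x B hcomm hx hrel
  set A := Algebra.adjoin F (insert x (B : Set E)) with hA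
  have hxA : x ∈ A := Algebra.subset_adjoin (Set.mem_insert _ _)
  have hBA : ∀ b ∈ B, b ∈ A := fun b hb => Algebra.subset_adjoin (Set.mem_insert_of_mem _ hb)
  let B' : Submodule F A := B.comap A.val.toLinearMap
  have hB' : ∀ b : A, b ∈ B' ↔ (b : E) ∈ B := fun b => Iff.rfl
  have hgen : Algebra.adjoin F (insert (⟨x, hxA⟩ : A) (B' : Set A)) = ⊤ := by
    have h1 : (A.val : A → E) '' (insert (⟨x, hxA⟩ : A) (B' : Set A)) = insert x (B : Set E) := by
      ext y
      constructor
      · rintro ⟨z, hz, rfl⟩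
        rcases hz with rfl | hz
        · exact Set.mem_insert _ _
        · exact Set.mem_insert_of_mem _ hz
      · rintro (rfl | hy)
        · exact ⟨⟨_, hxA⟩, Set.mem_insert _ _, rfl⟩
        · exact ⟨⟨y, hBA y hy⟩, Set.mem_insert_of_mem _ hy, rfl⟩
    have h2 : (Algebra.adjoin F (insert (⟨x, hxA⟩ : A) (B' : Set A))).map A.val = A := by
      rw [AlgHom.map_adjoin, h1]
    rw [eq_top_iff]
    rintro ⟨y, hy⟩ -
    rw [← h2] at hy
    obtain ⟨z, hz, hzy⟩ := hy
    have : z = ⟨y, by rw [← h2]; exact ⟨z, hz, hzy⟩⟩ := Subtype.ext hzy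
    rwa [this] at hz
  obtain ⟨f, hf, h⟩ := gen_case (E := A) hN hR hC k c W hW ⟨x, hxA⟩ B' (by
      intro a ha b hb
      exact Subtype.ext (hcomm _ ha _ hb)) (by
      intro b hb
      exact hx _ hb) (by
      intro w hw b hb
      exact OpRel.of_map A.val Subtype.val_injective (hrel _ hw _ hb)) hgen
  refine ⟨f, hf, fun b hb => ?_⟩
  have h1 := (h ⟨b, hBA b hb⟩ hb).map A.val
  rwa [map_aeval_Dx] at h1

end Pool.Agent.Lib.MP_8f946f_al.Sol
end
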