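import Pool.Agent.Lib.MP_8f946f_al.Sol.Spec
import Pool.Agent.Lib.MP_8f946f_al.Sol.Count
import Pool.Agent.Lib.MP_8f946f_al.Sol.X
import Pool.Agent.Lib.MP_8f946f_al.Sol.OpMI

section
/-!
# Module RFIN: there is no generic point over a finite field
-/
set_option autoImplicit false

namespace Pool.Agent.Lib.MP_8f946f_al.Sol

open Polynomial Finset

namespace RFinM

open GenM

section quot

variable {Q : Type} [Field Q] (I : Ideal (MvPolynomial ℕ Q)) (hI : ∀ P ∈ I, dX Q P ∈ I)

/-- a section of the quotient map -/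
noncomputable def sec (x : MvPolynomial ℕ Q ⧸ I) : MvPolynomial ℕ Q :=
  Function.surjInv Ideal.Quotient.mk_surjective x

theorem mk_sec (x : MvPolynomial ℕ Q ⧸ I) : Ideal.Quotient.mk I (sec I x) = x :=
  Function.surjInv_eq Ideal.Quotient.mk_surjective x

include hI in
theorem mk_dX {P R : MvPolynomial ℕ Q} (h : Ideal.Quotient.mk I P = Ideal.Quotient.mk I R) :
    Ideal.Quotient.mk I (dX Q P) = Ideal.Quotient.mk I (dX Q R) := by
  rw [Ideal.Quotient.eq] at h ⊢
  rw [← map_sub]
  exact hI _ h

/-- the derivation of the quotient -/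
noncomputable def qD : (MvPolynomial ℕ Q ⧸ I) →ₗ[Q] (MvPolynomial ℕ Q ⧸ I) where
  toFun x := Ideal.Quotient.mk I (dX Q (sec I x))
  map_add' x y := by
    rw [← map_add, ← map_add]
    refine mk_dX I hI ?_
    rw [mk_sec, map_add, mk_sec, mk_sec]
  map_smul' c x := by
    have h1 : ∀ P : MvPolynomial ℕ Q, c • Ideal.Quotient.mk I P = Ideal.Quotient.mk I (c • P) :=
      fun P => rfl
    rw [RingHom.id_apply, h1, ← Derivation.map_smul]
    refine mk_dX I hI ?_
    rw [mk_sec, ← h1, mk_sec]

theorem qD_mk (P : MvPolynomial ℕ Q) :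
    qD I hI (Ideal.Quotient.mk I P) = Ideal.Quotient.mk I (dX Q P) :=
  mk_dX I hI (mk_sec I _)

theorem qD_pow_mk (n : ℕ) (P : MvPolynomial ℕ Q) :
    ((qD I hI) ^ n) (Ideal.Quotient.mk I P) = Ideal.Quotient.mk I ((dX Q)^[n] P) := by
  induction n with
  | zero => rfl
  | succ n ih =>
    rw [pow_succ', Module.End.mul_apply, ih, qD_mk, Function.iterate_succ_apply']

theorem qD_mul (a b : MvPolynomial ℕ Q ⧸ I) :
    qD I hI (a * b) = qD I hI a * b + a * qD I hI b := by
  rw [← mk_sec I a, ← mk_sec I b, ← map_mul, qD_mk, qD_mk, qD_mk, Derivation.leibniz, smul_eq_mul,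
    smul_eq_mul, map_add, map_mul, map_mul]
  ring

end quot

section

variable {Q : Type} [Field Q]

/-- the linear polynomial `∑_j G_j X_{n+j}` -/
noncomputable def lq (G : Q[X]) (n : ℕ) : MvPolynomial ℕ Q :=
  G.sum fun j a => MvPolynomial.C a * MvPolynomial.X (n + j)

theorem dX_lq (G : Q[X]) (n : ℕ) : dX Q (lq G n) = lq G (n + 1) := by
  unfold lq
  rw [Polynomial.sum_def, Polynomial.sum_def, map_sum]
  refine Finset.sum_congr rfl fun j _ => ?_
  rw [Derivation.leibniz, dX_X, smul_eq_mul]
  have h1 : dX Q (MvPolynomial.C (G.coeff j)) = 0 := by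
    rw [← MvPolynomial.algebraMap_eq]
    exact Derivation.map_algebraMap _ _
  rw [h1, smul_zero, add_zero]
  congr 2
  ring

theorem dX_pow_lq (G : Q[X]) (m n : ℕ) : (dX Q)^[m] (lq G n) = lq G (n + m) := by
  induction m with
  | zero => rfl
  | succ m ih => rw [Function.iterate_succ_apply', ih, dX_lq]; rfl

theorem eval_lq (u : ℕ → Q) (G : Q[X]) (n : ℕ) :
    MvPolynomial.eval u (lq G n) = G.sum fun j a => a * u (n + j) := by
  unfold lq
  rw [Polynomial.sum_def, Polynomial.sum_def, map_sum]
  refine Finset.sum_congr rfl fun j _ => ?_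
  rw [map_mul, MvPolynomial.eval_C, MvPolynomial.eval_X]

theorem sq_eq (u : ℕ → Q) (q : ℤ[X]) (n : ℕ) :
    sq q u n = (q.map (algebraMap ℤ Q)).sum fun j a => a * u (n + j) := by
  unfold sq
  rw [Polynomial.sum_over_range' _ (fun _ => by simp) (q.natDegree + 1) (by omega),
    Polynomial.sum_over_range' _ (fun _ => by simp) (q.natDegree + 1)
      (by have := q.natDegree_map_le (f := algebraMap ℤ Q); omega)]
  refine Finset.sum_congr rfl fun j _ => ?_
  rw [coeff_map]
  rfl

/-- `G(D)` applied to the class of `X_0` -/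
theorem aeval_mk (I : Ideal (MvPolynomial ℕ Q)) (hI : ∀ P ∈ I, dX Q P ∈ I) (G : Q[X]) :
    (aeval (qD I hI) G) (Ideal.Quotient.mk I (MvPolynomial.X 0)) =
      Ideal.Quotient.mk I (lq G 0) := by
  rw [Polynomial.aeval_endomorphism]
  unfold lq
  rw [Polynomial.sum_def, Polynomial.sum_def, map_sum]
  refine Finset.sum_congr rfl fun j _ => ?_
  rw [qD_pow_mk, dX_pow_X, ← MvPolynomial.smul_eq_C_mul]
  rfl

/-- substitutions by linear polynomials commute with `dX` -/
theorem dX_subst (G : Q[X]) (P : MvPolynomial ℕ Q) :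
    dX Q (MvPolynomial.aeval (lq G) P) = MvPolynomial.aeval (lq G) (dX Q P) := by
  induction P using MvPolynomial.induction_on with
  | C a =>
    rw [← MvPolynomial.algebraMap_eq, Derivation.map_algebraMap, map_zero, AlgHom.commutes,
      Derivation.map_algebraMap]
  | add P R hP hR => rw [map_add, map_add, hP, hR, map_add, map_add]
  | mul_X P i hP =>
    rw [map_mul, Derivation.leibniz, Derivation.leibniz, hP, smul_eq_mul, smul_eq_mul,
      MvPolynomial.aeval_X, dX_lq, map_add, smul_eq_mul, smul_eq_mul, map_mul, map_mul,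
      MvPolynomial.aeval_X, dX_X, MvPolynomial.aeval_X]

theorem dX_pow_subst (G : Q[X]) (m : ℕ) (P : MvPolynomial ℕ Q) :
    (dX Q)^[m] (MvPolynomial.aeval (lq G) P) = MvPolynomial.aeval (lq G) ((dX Q)^[m] P) := by
  induction m with
  | zero => rfl
  | succ m ih => rw [Function.iterate_succ_apply', ih, dX_subst, Function.iterate_succ_apply']

/-- `dX` commutes with the base change -/
theorem dX_map {K : Type} [Field K] [Algebra K Q] (P : MvPolynomial ℕ K) :
    dX Q (MvPolynomial.map (algebraMap K Q) P) = MvPolynomial.map (algebraMap K Q) (dX K P) := by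
  induction P using MvPolynomial.induction_on with
  | C a =>
    rw [MvPolynomial.map_C, ← MvPolynomial.algebraMap_eq, ← MvPolynomial.algebraMap_eq,
      Derivation.map_algebraMap, Derivation.map_algebraMap, map_zero]
  | add P R hP hR => rw [map_add, map_add, hP, hR, map_add, map_add]
  | mul_X P i hP =>
    rw [map_mul, Derivation.leibniz, Derivation.leibniz, hP, smul_eq_mul, smul_eq_mul,
      MvPolynomial.map_X, dX_X, map_add, smul_eq_mul, smul_eq_mul, map_mul, map_mul,
      MvPolynomial.map_X, dX_X, MvPolynomial.map_X]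

theorem dX_pow_map {K : Type} [Field K] [Algebra K Q] (m : ℕ) (P : MvPolynomial ℕ K) :
    (dX Q)^[m] (MvPolynomial.map (algebraMap K Q) P) =
      MvPolynomial.map (algebraMap K Q) ((dX K)^[m] P) := by
  induction m with
  | zero => rfl
  | succ m ih => rw [Function.iterate_succ_apply', ih, dX_map, Function.iterate_succ_apply']

/-- the differential ideal of a point -/
noncomputable def dI (u : ℕ → Q) : Ideal (MvPolynomial ℕ Q) where
  carrier := {P | ∀ m, MvPolynomial.eval u ((dX Q)^[m] P) = 0}
  add_mem' := by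
    intro a b ha hb m
    rw [← dL_pow, map_add, map_add, dL_pow, dL_pow, ha m, hb m, add_zero]
  zero_mem' := by
    intro m
    rw [← dL_pow, map_zero, map_zero]
  smul_mem' := by
    intro c a ha m
    rw [smul_eq_mul, ← dL_pow, DerPow.leibniz_pow (dL Q) dL_mul, map_sum]
    refine Finset.sum_eq_zero fun ij _ => ?_
    rw [map_nsmul, map_mul, dL_pow _ a, ha ij.2, mul_zero, smul_zero]

theorem mem_dI (u : ℕ → Q) (P : MvPolynomial ℕ Q) :
    P ∈ dI u ↔ ∀ m, MvPolynomial.eval u ((dX Q)^[m] P) = 0 := Iff.rfl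

theorem dX_mem_dI (u : ℕ → Q) : ∀ P ∈ dI u, dX Q P ∈ dI u := by
  intro P hP m
  have := hP (m + 1)
  rwa [Function.iterate_succ_apply] at this

theorem lq_mem (u : ℕ → Q) (G : Q[X]) :
    lq G 0 ∈ dI u ↔ ∀ n, (G.sum fun j a => a * u (n + j)) = 0 := by
  rw [mem_dI]
  refine forall_congr' fun m => ?_
  rw [dX_pow_lq, zero_add, eval_lq]

end

theorem exists_int (Q : Type) [Field Q] (S : Finset Q) (hS : ∀ x ∈ S, IsIntegral ℤ x) :
    ∃ f : ℤ[X], f.Monic ∧ ∀ x ∈ S, aeval x f = 0 := by
  classical
  induction S using Finset.induction_on with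
  | empty => exact ⟨1, monic_one, by simp⟩
  | insert a S ha ih =>
    obtain ⟨f, hf, h1⟩ := ih fun x hx => hS x (Finset.mem_insert_of_mem hx)
    obtain ⟨g, hg, h2⟩ := hS a (Finset.mem_insert_self _ _)
    refine ⟨f * g, hf.mul hg, fun x hx => ?_⟩
    rw [map_mul]
    rcases Finset.mem_insert.1 hx with rfl | hx
    · have : aeval x g = 0 := h2
      rw [this, mul_zero]
    · rw [h1 x hx, zero_mul]

end RFinM

open RFinM GenM in
theorem specRFin (hEig : SpecEig) (hChar : SpecChar) (hDiv : SpecDiv) : SpecRFin := by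
  intro F _ _ p _ _ K _ _ Q _ _ _ u G k h W hW hG0 hG hne hrho
  classical
  have : CharP K p := charP_of_injective_algebraMap (algebraMap F K).injective p
  have : CharP Q p := charP_of_injective_algebraMap (algebraMap K Q).injective p
  have hp : p.Prime := Fact.out
  let A := MvPolynomial ℕ Q ⧸ dI u
  let D : A →ₗ[Q] A := qD (dI u) (dX_mem_dI u)
  have hD : ∀ a b, D (a * b) = D a * b + a * D b := qD_mul _ _
  let x₀ : A := Ideal.Quotient.mk (dI u) (MvPolynomial.X 0)
  have hx₀ : ∀ P : Q[X], (aeval D P) x₀ = Ideal.Quotient.mk (dI u) (lq P 0) := aeval_mk _ _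
  obtain ⟨s, Λ, P, hP1, hPμ⟩ := hEig Q p G hG0
  let δ : A →ₗ[Q] A := D ^ p ^ s
  have hδ : ∀ a b, δ (a * b) = δ a * b + a * δ b := DerPow.der_pow p D hD s
  have hδ1 : δ 1 = 0 := by
    have h1 := hδ 1 1
    rw [mul_one, mul_one, one_mul] at h1
    simpa using h1
  have hδalg : ∀ c : Q, δ (algebraMap Q A c) = 0 := by
    intro c
    rw [Algebra.algebraMap_eq_smul_one, map_smul, hδ1, smul_zero]
  -- the components of the generic point
  let xμ : Q → A := fun μ => (aeval D (P μ)) x₀
  have hGx : (aeval D G) x₀ = 0 := by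
    rw [hx₀, Ideal.Quotient.eq_zero_iff_mem, lq_mem]
    exact hG
  have hxμ : ∀ μ ∈ Λ, δ (xμ μ) = μ • xμ μ := by
    intro μ hμ
    obtain ⟨R, hR⟩ := hPμ μ hμ
    have h1 : (aeval D ((X ^ p ^ s - C μ) * P μ)) x₀ = 0 := by
      rw [hR, mul_comm, map_mul, Module.End.mul_apply, hGx, map_zero]
    rw [map_mul, Module.End.mul_apply, map_sub, map_pow, aeval_X, aeval_C, LinearMap.sub_apply,
      sub_eq_zero] at h1
    exact h1
  have hsum : ∑ μ ∈ Λ, xμ μ = x₀ := by
    show ∑ μ ∈ Λ, (aeval D (P μ)) x₀ = x₀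
    rw [← LinearMap.sum_apply, ← map_sum, hP1, map_one]
    rfl
  -- integral polynomials in `δ`
  have hint : ∀ q : ℤ[X], ∑ μ ∈ Λ, aeval μ q • xμ μ =
      Ideal.Quotient.mk (dI u) (lq ((q.comp (X ^ p ^ s)).map (algebraMap ℤ Q)) 0) := by
    intro q
    rw [← hx₀, aeval_map_algebraMap, aeval_comp, map_pow, aeval_X]
    show _ = (aeval δ q) x₀
    conv_rhs => rw [← hsum]
    rw [map_sum]
    refine Finset.sum_congr rfl fun μ hμ => ?_
    rw [← aeval_map_algebraMap Q μ q, ← aeval_map_algebraMap Q δ q]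
    generalize q.map (algebraMap ℤ Q) = q'
    have h2 : ∀ n : ℕ, (δ ^ n) (xμ μ) = μ ^ n • xμ μ := by
      intro n
      induction n with
      | zero => simp
      | succ n ih =>
        rw [pow_succ', Module.End.mul_apply, ih, map_smul, hxμ μ hμ, smul_smul, pow_succ]
    rw [Polynomial.aeval_endomorphism, Polynomial.aeval_eq_sum_range,
      Polynomial.sum_over_range _ (fun _ => by simp), Finset.sum_smul]
    refine Finset.sum_congr rfl fun n _ => ?_
    rw [h2, smul_smul, smul_eq_mul]
  -- a polynomial killing the integral eigenvalues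
  obtain ⟨f₀, hf₀, hf₀z⟩ := exists_int Q (Λ.filter fun μ => IsIntegral ℤ μ)
    fun x hx => (Finset.mem_filter.1 hx).2
  let Λ' := Λ.filter fun μ => ¬ IsIntegral ℤ μ
  let b : Q → A := fun μ => aeval μ f₀ • xμ μ
  have hsb : ∀ q : ℤ[X], ∑ μ ∈ Λ', aeval μ q • b μ =
      Ideal.Quotient.mk (dI u) (lq (((q * f₀).comp (X ^ p ^ s)).map (algebraMap ℤ Q)) 0) := by
    intro q
    rw [← hint (q * f₀)]
    have h1 : ∑ μ ∈ Λ', aeval μ q • b μ = ∑ μ ∈ Λ', aeval μ (q * f₀) • xμ μ := by
      refine Finset.sum_congr rfl fun μ _ => ?_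
      show aeval μ q • aeval μ f₀ • xμ μ = _
      rw [smul_smul, map_mul]
    rw [h1]
    refine Finset.sum_subset (Finset.filter_subset _ _) fun μ hμ hμ' => ?_
    have h2 : IsIntegral ℤ μ := by
      by_contra hc
      exact hμ' (Finset.mem_filter.2 ⟨hμ, hc⟩)
    rw [map_mul, hf₀z μ (Finset.mem_filter.2 ⟨hμ, h2⟩), mul_zero, zero_smul]
  -- the relation
  let hQ : ℕ → Q := fun j => algebraMap K Q (algebraMap F K (h j))
  have hrel : ∀ g : ℤ[X], ∀ y : A,
      y = Ideal.Quotient.mk (dI u) (lq (g.map (algebraMap ℤ Q)) 0) →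
      (D ^ k) y - ∑ j ∈ range k, algebraMap Q A (hQ j) * (D ^ j) y -
        (W.map fun t => algebraMap Q A (algebraMap K Q t.1) *
          (t.2.map fun i => (D ^ i) y).prod).sum = 0 := by
    intro g y hy
    have hDy : ∀ i, (D ^ i) y = Ideal.Quotient.mk (dI u) (lq (g.map (algebraMap ℤ Q)) i) := by
      intro i
      rw [hy, qD_pow_mk, dX_pow_lq, zero_add]
    let Ψ : MvPolynomial ℕ K →+* A := ((Ideal.Quotient.mk (dI u)).comp
      ((MvPolynomial.aeval (lq (g.map (algebraMap ℤ Q))) :
        MvPolynomial ℕ Q →ₐ[Q] MvPolynomial ℕ Q) : MvPolynomial ℕ Q →+* MvPolynomial ℕ Q)).comp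
      (MvPolynomial.map (algebraMap K Q))
    have hΨX : ∀ i, Ψ (MvPolynomial.X i) = (D ^ i) y := by
      intro i
      show Ideal.Quotient.mk (dI u) (MvPolynomial.aeval (lq (g.map (algebraMap ℤ Q)))
        (MvPolynomial.map (algebraMap K Q) (MvPolynomial.X i))) = _
      rw [MvPolynomial.map_X, MvPolynomial.aeval_X, hDy]
    have hΨC : ∀ c, Ψ (MvPolynomial.C c) = algebraMap Q A (algebraMap K Q c) := by
      intro c
      show Ideal.Quotient.mk (dI u) (MvPolynomial.aeval (lq (g.map (algebraMap ℤ Q)))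
        (MvPolynomial.map (algebraMap K Q) (MvPolynomial.C c))) = _
      rw [MvPolynomial.map_C, ← MvPolynomial.algebraMap_eq, AlgHom.commutes]
      rfl
    have hΨ : Ψ (rho K k (fun j => algebraMap F K (h j)) W) = 0 := by
      show Ideal.Quotient.mk (dI u) (MvPolynomial.aeval (lq (g.map (algebraMap ℤ Q)))
        (MvPolynomial.map (algebraMap K Q) _)) = 0
      rw [Ideal.Quotient.eq_zero_iff_mem, mem_dI]
      intro m
      rw [dX_pow_subst, dX_pow_map]
      have h3 : MvPolynomial.eval (sq g u) (MvPolynomial.map (algebraMap K Q) ((dX K)^[m]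
        (rho K k (fun j => algebraMap F K (h j)) W))) = 0 := by
        rw [MvPolynomial.eval_map, ← MvPolynomial.aeval_def]
        exact hrho g m
      rw [← h3]
      generalize MvPolynomial.map (algebraMap K Q) ((dX K)^[m]
        (rho K k (fun j => algebraMap F K (h j)) W)) = R
      have h4 : sq g u = fun i => MvPolynomial.eval u (lq (g.map (algebraMap ℤ Q)) i) := by
        funext i
        rw [sq_eq, eval_lq]
      rw [h4, ← MvPolynomial.coe_aeval_eq_eval, ← MvPolynomial.coe_aeval_eq_eval]
      show MvPolynomial.aeval u (MvPolynomial.aeval (lq (g.map (algebraMap ℤ Q))) R) =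
        MvPolynomial.aeval _ R
      rw [← AlgHom.comp_apply, MvPolynomial.comp_aeval]
      rfl
    rw [← hΨ]
    unfold rho
    rw [map_sub, map_sub, hΨX, map_sum, map_list_sum, List.map_map]
    congr 1
    · congr 1
      refine Finset.sum_congr rfl fun j _ => ?_
      rw [map_mul, hΨC, hΨX]
    · congr 1
      refine List.map_congr_left fun t _ => ?_
      rw [Function.comp_apply, map_mul, hΨC, map_list_prod, List.map_map]
      congr 3
      funext i
      exact (hΨX i).symm
  -- application of CHAR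
  let a : ℕ → A := fun j => if j = k then 1 else - algebraMap Q A (hQ j)
  have hak : ∀ z : ℕ → A, ∑ j ∈ range (k + 1), a j * z j =
      z k - ∑ j ∈ range k, algebraMap Q A (hQ j) * z j := by
    intro z
    rw [Finset.sum_range_succ]
    have h1 : ∑ j ∈ range k, a j * z j = - ∑ j ∈ range k, algebraMap Q A (hQ j) * z j := by
      rw [← Finset.sum_neg_distrib]
      refine Finset.sum_congr rfl fun j hj => ?_
      have hj' : j ≠ k := by have := Finset.mem_range.1 hj; omega
      show (if j = k then 1 else - algebraMap Q A (hQ j)) * z j = _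
      rw [if_neg hj']
      exact neg_mul (algebraMap Q A (hQ j)) (z j)
    have h2 : a k * z k = z k := by
      show (if k = k then 1 else - algebraMap Q A (hQ k)) * z k = _
      rw [if_pos rfl, one_mul]
    rw [h1, h2]
    ring
  have hδa : ∀ j, δ (a j) = 0 := by
    intro j
    show δ (if j = k then 1 else - algebraMap Q A (hQ j)) = 0
    split_ifs
    · exact hδ1
    · rw [map_neg, hδalg, neg_zero]
  have hδb : ∀ μ ∈ Λ', δ (b μ) = μ • b μ := by
    intro μ hμ
    show δ (aeval μ f₀ • xμ μ) = μ • aeval μ f₀ • xμ μ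
    rw [map_smul, hxμ μ (Finset.mem_filter.1 hμ).1, smul_comm]
  have hchar := hChar Q p A δ D hδ (fun z => by
      show (D ^ p ^ s) (D z) = D ((D ^ p ^ s) z)
      rw [← Module.End.mul_apply, ← Module.End.mul_apply, ← pow_succ, ← pow_succ'])
    Λ' (fun μ hμ => (Finset.mem_filter.1 hμ).2) b hδb k a hδa
    (W.map fun t => (algebraMap Q A (algebraMap K Q t.1), t.2)) (by
      intro t ht
      obtain ⟨t', ht', rfl⟩ := List.mem_map.1 ht
      exact ⟨hδalg _, hW t' ht'⟩) (by
      intro q
      rw [hak, List.map_map]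
      exact sub_eq_zero.1 (hrel ((q * f₀).comp (X ^ p ^ s)) _ (hsb q)))
  -- all the components vanish
  have hb0 : ∀ μ ∈ Λ', b μ = 0 := by
    intro μ hμ
    have h1 := hchar μ hμ
    rw [hak] at h1
    let H : F[X] := X ^ k - ∑ j ∈ range k, C (h j) * X ^ j
    have hH0 : H ≠ 0 := by
      intro hc
      have h2 : H.coeff k = 1 := by
        show (X ^ k - ∑ j ∈ range k, C (h j) * X ^ j).coeff k = 1
        rw [coeff_sub, coeff_X_pow, if_pos rfl, finsetSum_coeff, Finset.sum_eq_zero, sub_zero]
        intro j hj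
        rw [coeff_C_mul, coeff_X_pow, if_neg (by have := Finset.mem_range.1 hj; omega), mul_zero]
      rw [hc, coeff_zero] at h2
      exact zero_ne_one h2
    let ι : F →+* Q := (algebraMap K Q).comp (algebraMap F K)
    have h3 : (aeval D (H.map ι)) (b μ) = 0 := by
      rw [← h1]
      show (aeval D ((X ^ k - ∑ j ∈ range k, C (h j) * X ^ j : F[X]).map ι)) (b μ) = _
      rw [Polynomial.map_sub, Polynomial.map_pow, map_X, Polynomial.map_sum, map_sub, map_pow,
        aeval_X, LinearMap.sub_apply, map_sum, LinearMap.sum_apply]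
      congr 1
      refine Finset.sum_congr rfl fun j _ => ?_
      rw [Polynomial.map_mul, map_C, Polynomial.map_pow, map_X, map_mul, aeval_C, map_pow, aeval_X,
        Module.End.mul_apply, Module.algebraMap_end_apply]
      exact Algebra.smul_def (R := Q) (A := A) (hQ j) ((D ^ j) (b μ))
    obtain ⟨v, w, hsv, hvw, hdvd⟩ := hDiv F p H hH0 s
    obtain ⟨R, hR⟩ := Polynomial.map_dvd ι hdvd
    have h4 : (aeval D ((X ^ p ^ w - X ^ p ^ v : F[X]).map ι)) (b μ) = 0 := by
      rw [hR, mul_comm, map_mul, Module.End.mul_apply, h3, map_zero]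
    rw [Polynomial.map_sub, Polynomial.map_pow, Polynomial.map_pow, map_X, map_sub, map_pow,
      map_pow, aeval_X, LinearMap.sub_apply, sub_eq_zero] at h4
    have h5 : ∀ n : ℕ, (δ ^ n) (b μ) = μ ^ n • b μ := by
      intro n
      induction n with
      | zero => simp
      | succ n ih =>
        rw [pow_succ', Module.End.mul_apply, ih, map_smul, hδb μ hμ, smul_smul, pow_succ]
    have h6 : ∀ t, s ≤ t → (D ^ p ^ t) (b μ) = μ ^ p ^ (t - s) • b μ := by
      intro t ht
      rw [← h5]
      show _ = ((D ^ p ^ s) ^ p ^ (t - s)) (b μ)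
      rw [← pow_mul, ← pow_add, Nat.add_sub_cancel' ht]
    rw [h6 w (by omega), h6 v hsv, ← sub_eq_zero, ← sub_smul, smul_eq_zero] at h4
    rcases h4 with h4 | h4
    · exfalso
      apply (Finset.mem_filter.1 hμ).2
      refine ⟨X ^ p ^ (w - s) - X ^ p ^ (v - s), ?_, ?_⟩
      · refine monic_X_pow_sub ?_
        rw [degree_X_pow]
        have : p ^ (v - s) < p ^ (w - s) := Nat.pow_lt_pow_right hp.one_lt (by omega)
        exact_mod_cast this
      · rw [eval₂_sub, eval₂_X_pow, eval₂_X_pow]
        exact h4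
    · exact h4
  -- contradiction
  obtain ⟨n, hn⟩ := hne ((1 * f₀).comp (X ^ p ^ s)) (by
    rw [one_mul]
    refine hf₀.comp (monic_X_pow _) ?_
    rw [natDegree_X_pow]
    exact pow_ne_zero _ hp.ne_zero)
  apply hn
  rw [sq_eq]
  have h7 := hsb 1
  rw [Finset.sum_eq_zero fun μ hμ => by rw [hb0 μ hμ, smul_zero]] at h7
  exact (lq_mem u _).1 (Ideal.Quotient.eq_zero_iff_mem.1 h7.symm) n

end Pool.Agent.Lib.MP_8f946f_al.Sol
end

section
/-!
# Module REC: sequences with many linear recurrences satisfy one with constant coefficients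
-/
set_option autoImplicit false

namespace Pool.Agent.Lib.MP_8f946f_al.Sol

open Polynomial Finset

namespace RecM

/-- the functional `G ↦ ∑_j G_j u (n + j)` -/
noncomputable def phi {Q : Type} [Field Q] (u : ℕ → Q) (n : ℕ) : Q[X] →ₗ[Q] Q :=
  Polynomial.lsum fun j => LinearMap.mulRight Q (u (n + j))

theorem phi_apply {Q : Type} [Field Q] (u : ℕ → Q) (n : ℕ) (G : Q[X]) :
    phi u n G = G.sum fun j a => a * u (n + j) := rfl

theorem phi_monomial {Q : Type} [Field Q] (u : ℕ → Q) (n j : ℕ) (a : Q) :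
    phi u n (monomial j a) = a * u (n + j) := by
  rw [phi_apply, Polynomial.sum_monomial_index _ _ (by simp)]

end RecM

open RecM in
theorem specRec : SpecRec := by
  intro Q _ u e he J m₀ α hα h
  -- linear dependence of the vectors of the first `J` values
  obtain ⟨γ, hγ, i₀, hi₀⟩ : ∃ γ : Fin (J + 1) → Q,
      (∑ i, γ i • (fun n : Fin J => u (m₀ + n + e i))) = 0 ∧ ∃ i, γ i ≠ 0 := by
    refine Fintype.not_linearIndependent_iff.1 fun hli => ?_
    have := hli.fintype_card_le_finrank
    simp at this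
  have hw : ∀ n, ∑ i, γ i * u (m₀ + n + e i) = 0 := by
    intro n
    induction n using Nat.strong_induction_on with
    | _ n ih =>
      rcases lt_or_ge n J with hn | hn
      · have := congrFun hγ ⟨n, hn⟩
        simpa [Finset.sum_apply] using this
      · obtain ⟨t, rfl⟩ : ∃ t, n = t + J := ⟨n - J, by omega⟩
        have h1 : ∑ i, γ i * ∑ n ∈ range (J + 1), α (m₀ + t) n * u (m₀ + t + n + e i) = 0 := by
          refine Finset.sum_eq_zero fun i _ => ?_
          rw [h (m₀ + t) (by omega) i, mul_zero]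
        have h2 : ∑ n ∈ range (J + 1), α (m₀ + t) n * ∑ i, γ i * u (m₀ + (t + n) + e i) = 0 := by
          rw [← h1]
          simp only [Finset.mul_sum]
          rw [Finset.sum_comm]
          refine Finset.sum_congr rfl fun i _ => Finset.sum_congr rfl fun n _ => ?_
          rw [← add_assoc]
          ring
        rw [Finset.sum_range_succ, Finset.sum_eq_zero (fun n hn => by
          rw [ih (t + n) (by have := Finset.mem_range.1 hn; omega), mul_zero]), zero_add] at h2
        rcases mul_eq_zero.1 h2 with h3 | h3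
        · exact absurd h3 (hα _ (by omega))
        · exact h3
  refine ⟨∑ i : Fin (J + 1), monomial (m₀ + e i) (γ i), ?_, fun n => ?_⟩
  · intro h0
    apply hi₀
    have h1 := congrArg (fun P : Q[X] => P.coeff (m₀ + e i₀)) h0
    simp only [finsetSum_coeff, coeff_monomial, coeff_zero] at h1
    rw [Finset.sum_eq_single i₀] at h1
    · simpa using h1
    · intro j _ hj
      rw [if_neg]
      intro hc
      exact hj (Fin.ext (he (by omega)))
    · intro hc
      exact absurd (Finset.mem_univ _) hc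
  · rw [← phi_apply, map_sum]
    rw [← hw n]
    refine Finset.sum_congr rfl fun i _ => ?_
    rw [phi_monomial]
    congr 2
    ring

end Pool.Agent.Lib.MP_8f946f_al.Sol
end

section
/-!
# Module VAL

A homomorphism `v : Kˣ → ℚ` which does not vanish at finitely many given elements of infinite
order: a functional of the `ℚ`-vector space `ℚ ⊗ Additive Kˣ`.
-/
set_option autoImplicit false

namespace Pool.Agent.Lib.MP_8f946f_al.Sol

open Polynomial Finset TensorProduct

theorem specVal : SpecVal := by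
  intro K _ S hS
  classical
  let G := Additive Kˣ
  let f : G →ₗ[ℤ] (ℚ ⊗[ℤ] G) := TensorProduct.mk ℤ ℚ G 1
  have hloc : IsLocalizedModule (nonZeroDivisors ℤ) f :=
    (isLocalizedModule_iff_isBaseChange (nonZeroDivisors ℤ) ℚ f).2 (TensorProduct.isBaseChange ℤ G ℚ)
  have hne : ∀ x : S, x.1 ≠ 0 := fun x => (hS x.1 x.2).1
  let g : S → ℚ ⊗[ℤ] G := fun x => f (Additive.ofMul (Units.mk0 x.1 (hne x)))
  have hg : ∀ x : S, g x ≠ 0 := by
    intro x h0
    obtain ⟨s, hs⟩ := (IsLocalizedModule.eq_zero_iff (nonZeroDivisors ℤ) f).1 h0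
    have hs0 : (s : ℤ) ≠ 0 := nonZeroDivisors.ne_zero s.2
    have h1 : (Units.mk0 x.1 (hne x)) ^ (s : ℤ) = 1 := by
      have h2 : (s : ℤ) • (Additive.ofMul (Units.mk0 x.1 (hne x)) : G) = 0 := hs
      have h3 := congrArg Additive.toMul h2
      rwa [toMul_zsmul, toMul_ofMul, toMul_zero] at h3
    have h4 : (Units.mk0 x.1 (hne x)) ^ (s : ℤ).natAbs = 1 := by
      rcases Int.natAbs_eq (s : ℤ) with h | h
      · rw [h, zpow_natCast] at h1
        exact h1
      · rw [h, zpow_neg, zpow_natCast, inv_eq_one] at h1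
        exact h1
    have h5 : x.1 ^ (s : ℤ).natAbs = 1 := by
      have := congrArg Units.val h4
      simpa using this
    exact (hS x.1 x.2).2 _ (Nat.one_le_iff_ne_zero.2 (Int.natAbs_ne_zero.2 hs0)) h5
  obtain ⟨φ, hφ⟩ := Module.exists_dual_forall_apply_ne_zero (K := ℚ) g hg
  refine ⟨fun x => if hx : x = 0 then 0 else φ (f (Additive.ofMul (Units.mk0 x hx))), ?_, ?_⟩
  · intro x y hx hy
    have hxy : x * y ≠ 0 := mul_ne_zero hx hy
    simp only [dif_neg hx, dif_neg hy, dif_neg hxy]
    have : (Additive.ofMul (Units.mk0 (x * y) hxy) : G) =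
        Additive.ofMul (Units.mk0 x hx) + Additive.ofMul (Units.mk0 y hy) := by
      rw [← ofMul_mul]
      congr 1
      ext
      rfl
    rw [this, map_add, map_add]
  · intro x hx
    have := hφ ⟨x, hx⟩
    simp only [dif_neg (hS x hx).1]
    exact this

end Pool.Agent.Lib.MP_8f946f_al.Sol
end

section
/-!
# Locally soluble-by-finite varieties: assembly
-/
set_option autoImplicit false

namespace Pool.Agent.Lib.MP_8f946f_al.Sol

theorem specMerge' : SpecMerge := specMerge specCount
theorem specLemC' : SpecLemC := specLemC specVal specMerge'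
theorem specMaxi' : SpecMaxi := specMaxi specVal specMerge'
theorem specChar' : SpecChar := specChar specDed specLemC'
theorem specGen' : SpecGen := specGen (specPrime specIrr) specRec
theorem specRFin' : SpecRFin := specRFin specEig specChar' specDiv
theorem specR' : SpecR := specR specFinImg specGen' specRFin'

theorem specCaseS' : SpecCaseS := specCaseS specDed specMaxi' specEig specChar'
theorem specX' : SpecX := specX (specN specNZ) specR' (specCase specCaseS')
theorem specP' : SpecP := specP (specJ specX' specDiv specJG specJN)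

theorem specFinal' : SpecFinal := specFinal specOpMI specP' specRfq

variable {F : Type} [Field F]

theorem derived_le_gam {L : Type} [LieRing L] [LieAlgebra F L] (N : LieIdeal F L) (d : ℕ) :
    LieAlgebra.derivedSeriesOfIdeal F L d N ≤ gam N d := by
  induction d with
  | zero => exact le_rfl
  | succ d ih =>
    rw [LieAlgebra.derivedSeriesOfIdeal_succ]
    exact LieSubmodule.mono_lie (LieAlgebra.derivedSeriesOfIdeal_le_self N d) ih

theorem LocallySolubleByFinite.of_nilpotent {Γ : Set (FreeLieAlgebra F ℕ)}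
    (h : LocallyNilpotentByFinite Γ) : LocallySolubleByFinite Γ := by
  intro L _ _ hL hfg
  obtain ⟨N, c, hN, hc⟩ := h L hL hfg
  exact ⟨N, c, hN, le_bot_iff.1 (hc ▸ derived_le_gam N c)⟩

end Pool.Agent.Lib.MP_8f946f_al.Sol
end
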